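import Pool.Agent.Work.MP_45c923_nt.Steps

/-!
# Admissible exponents
-/

set_option autoImplicit false

namespace Pool.Agent.Work.MP_45c923_nt

open Finset Polynomial

noncomputable section

/-- `Δ` is an admissible exponent for the `2s`-th moment -/
def Adm (k s : ℕ) (Δ : ℝ) : Prop :=
  ∃ c : ℝ, 0 ≤ c ∧ ∀ n : ℕ, ∃ C : ℝ, 0 < C ∧ ∀ (R : ℕ) (S : Finset ℕ), PP R S → k < R →
    MV S k s n ≤ C * (R : ℝ) ^ c * ((R : ℝ) ^ (2 * s - k + Δ)) ^ n

lemma Adm.unif {k s : ℕ} {Δ : ℝ} (h : Adm k s Δ) : ∃ c : ℝ, 0 ≤ c ∧ ∀ N : ℕ, ∃ C : ℝ, 0 < C ∧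
    ∀ (R : ℕ) (S : Finset ℕ), PP R S → k < R → ∀ n ≤ N,
      MV S k s n ≤ C * (R : ℝ) ^ c * ((R : ℝ) ^ (2 * s - k + Δ)) ^ n := by
  obtain ⟨c, hc, h⟩ := h
  choose C hC h using h
  refine ⟨c, hc, fun N => ⟨∑ n ∈ range (N + 1), C n, sum_pos (fun n _ => hC n) (by simp),
    fun R S hS hk n hn => (h n R S hS hk).trans ?_⟩⟩
  gcongr
  exact single_le_sum (fun n _ => (hC n).le) (mem_range.2 (by omega))

lemma Adm.mono {k s : ℕ} {Δ Δ' : ℝ} (h : Adm k s Δ) (hΔ : Δ ≤ Δ') : Adm k s Δ' := by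
  obtain ⟨c, hc, h⟩ := h
  refine ⟨c, hc, fun n => ?_⟩
  obtain ⟨C, hC, h⟩ := h n
  refine ⟨C, hC, fun R S hS hk => (h R S hS hk).trans ?_⟩
  have := hS.one_le
  gcongr

lemma MV_le_triv {R : ℕ} {S : Finset ℕ} (hS : PP R S) (k s n : ℕ) :
    MV S k s n ≤ 2 ^ (2 * s * n) * (R : ℝ) ^ (2 * s * n) := by
  refine (MV_le_card S k s n).trans ?_
  rw [← mul_pow]
  gcongr
  exact_mod_cast hS.card_le

lemma adm_triv (k s : ℕ) : Adm k s k := by
  refine ⟨0, le_rfl, fun n => ⟨2 ^ (2 * s * n), by positivity, fun R S hS _ =>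
    (MV_le_triv hS k s n).trans (le_of_eq ?_)⟩⟩
  rw [sub_add_cancel, Real.rpow_zero, mul_one, show (2 * s : ℝ) = ((2 * s : ℕ) : ℝ) by push_cast; ring,
    Real.rpow_natCast, ← pow_mul]

lemma adm_of_large {k s : ℕ} {Δ c : ℝ} (n₀ : ℕ) (hc : 0 ≤ c) (h0 : 0 ≤ 2 * s - k + Δ)
    (h : ∀ n, n₀ ≤ n → ∃ C : ℝ, 0 < C ∧ ∀ (R : ℕ) (S : Finset ℕ), PP R S → k < R →
      MV S k s n ≤ C * (R : ℝ) ^ (c + (2 * s - k + Δ) * n)) : Adm k s Δ := by
  refine ⟨c + 2 * s * n₀, by positivity, fun n => ?_⟩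
  rcases le_total n₀ n with hn | hn
  · obtain ⟨C, hC, h⟩ := h n hn
    refine ⟨C, hC, fun R S hS hk => (h R S hS hk).trans ?_⟩
    have hr := hS.one_le
    rw [← Real.rpow_mul_natCast (by linarith), mul_assoc, ← Real.rpow_add (by linarith)]
    gcongr
    have : (0 : ℝ) ≤ 2 * s * n₀ := by positivity
    linarith
  · refine ⟨2 ^ (2 * s * n), by positivity, fun R S hS hk => (MV_le_triv hS k s n).trans ?_⟩
    have hr := hS.one_le
    rw [← Real.rpow_mul_natCast (by linarith), mul_assoc (2 ^ (2 * s * n) : ℝ),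
      ← Real.rpow_add (by linarith), ← Real.rpow_natCast (R : ℝ)]
    gcongr
    have a1 : (n : ℝ) ≤ n₀ := by exact_mod_cast hn
    have a2 : 0 ≤ (2 * s - k + Δ) * n := by positivity
    have a3 : (2 * s : ℝ) * n ≤ 2 * s * n₀ := by gcongr
    push_cast; linarith only [hc, a2, a3]

lemma PP.pow_le_sq {R : ℕ} {S : Finset ℕ} (h : PP R S) (n : ℕ) : (2 * R) ^ n ≤ R ^ (2 * n) := by
  rw [pow_mul]; exact Nat.pow_le_pow_left (by have := h.two; nlinarith only [this]) n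

lemma PP.inv_P_le {R : ℕ} {S : Finset ℕ} (h : PP R S) (n : ℕ) :
    (((2 * R) ^ n : ℕ) : ℝ)⁻¹ ≤ (R : ℝ) ^ (-(n : ℝ)) := by
  have hr := h.one_le
  rw [Real.rpow_neg (by linarith), Real.rpow_natCast]
  push_cast
  gcongr; linarith

lemma ceil_bounds {x : ℝ} (hx : 0 ≤ x) {k : ℝ} (hk : 0 < k) :
    x ≤ k * ⌈x / k⌉₊ ∧ k * ⌈x / k⌉₊ ≤ x + k := by
  have h1 := Nat.le_ceil (x / k)
  have h2 := Nat.ceil_lt_add_one (show 0 ≤ x / k by positivity)
  rw [div_le_iff₀ hk] at h1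
  rw [div_add_one hk.ne', lt_div_iff₀ hk] at h2
  constructor <;> linarith only [h1, h2]

/-- the classical step -/
lemma Adm.classical {k s J : ℕ} {δ : ℝ} (h : Adm k s (k * δ)) (hδ0 : 0 < δ) (hδ1 : δ ≤ 1)
    (hs : 1 ≤ s) (hJ0 : 1 ≤ J) (hJ : 4 * J ≤ k) (hl : (8 * J + 1 : ℝ) ≤ 2 * s - k + k * δ) :
    Adm k (s + 1) (k * δ - 2 * δ / (1 + δ) * (1 - (1 / 2) ^ J)) := by
  obtain ⟨c, hc, h⟩ := h.unif
  set lam : ℝ := 2 * s - k + k * δ with hlam
  have hJ0' : (1 : ℝ) ≤ J := by exact_mod_cast hJ0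
  have hJ' : (4 * J : ℝ) ≤ k := by exact_mod_cast hJ
  have hk0 : (0 : ℝ) < k := by linarith only [hJ0', hJ']
  set κ : ℝ := 1 / (1 + δ) with hκ
  have hκ0 : 0 < κ := by positivity
  have hκ1 : κ * (1 + δ) = 1 := by rw [hκ]; field_simp
  have hκ2 : κ ≤ 1 := by linarith only [hκ1, mul_pos hκ0 hδ0]
  have hκ3 : 2 * δ / (1 + δ) = 2 * δ * κ := by rw [hκ]; ring
  have hh : ∀ i : ℕ, 0 < (1 / 2 : ℝ) ^ i ∧ (1 / 2 : ℝ) ^ i ≤ 1 := fun i =>
    ⟨by positivity, pow_le_one₀ (by norm_num) (by norm_num)⟩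
  rw [hκ3]
  refine adm_of_large (c := c + k) (4 * J) (by positivity) ?_ fun n hn => ?_
  · push_cast
    have := hh J
    have : 2 * δ * κ * (1 - (1 / 2) ^ J) ≤ 2 * δ * κ * 1 := by gcongr; linarith only [this]
    linarith only [hl, hJ0', hκ0, hκ1, this]
  obtain ⟨C, hC, h⟩ := h n
  have hn' : (4 * J : ℝ) ≤ n := by exact_mod_cast hn
  have hn0 : (0 : ℝ) < n := by linarith only [hJ0', hn']
  set j := ⌈κ * n / k⌉₊ with hj
  set m := ⌈2 * n / (lam - 1)⌉₊ with hm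
  obtain ⟨j1, j2⟩ := ceil_bounds (show 0 ≤ κ * n by positivity) hk0
  obtain ⟨m1, m2⟩ := ceil_bounds (show 0 ≤ 2 * (n : ℝ) by positivity) (show 0 < lam - 1 by linarith only [hl, hJ0'])
  rw [← hj] at j1 j2
  rw [← hm] at m1 m2
  clear_value j m
  set K₀ : ℝ := CX s (k * (2 * n + 1) + 1 + j) j m * (k + 1) ^ j with hK₀
  have hK₀1 : 1 ≤ K₀ := one_le_mul_of_one_le_of_one_le
    (one_le_CX _ (by have : (0 : ℝ) ≤ k * (2 * n + 1) + j := by positivity
                     linarith only [this]) _ _) (one_le_pow₀ (by linarith only [hJ0', hJ']))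
  refine ⟨((n : ℝ) ^ n) ^ 2 * (4 * K₀ * 2 ^ n) ^ 2 * C, by positivity, fun R S hS hk => ?_⟩
  have hr := hS.one_le
  have hr0 : (0 : ℝ) < R := by linarith only [hr]
  set g : ℝ := δ * κ * n with hg
  have hg0 : 0 ≤ g := by positivity
  have key := stages hS (n := n) (P := (2 * R) ^ n) hs hk.le (lam := lam) (M := C * (R : ℝ) ^ c)
    (by linarith only [hl, hJ0']) (by linarith only [hlam, mul_le_mul_of_nonneg_left hδ1 hk0.le])
    (by positivity) (pow_pos (by have := hS.two; omega) _)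
    (hS.pow_le_sq n) (h R S hS hk) j m J (by omega)
    (fun i => 4 * K₀ * (R : ℝ) ^ (k / 2 - g * (1 - (1 / 2) ^ i))) (by
      simp only [pow_zero, sub_self, mul_zero, sub_zero]
      have := Real.one_le_rpow hr (show (0 : ℝ) ≤ k / 2 by positivity)
      linarith only [one_le_mul_of_one_le_of_one_le hK₀1 this]) (fun i => by positivity) (fun i => by
      clear * - s k n j m R lam K₀ g i hK₀ hh δ hlam κ j2 hδ1 hg hκ1 hδ0 hk0 hn0 S hS hr hr0 J
        hJ0' hn' m1 j1 hJ' hK₀1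
      rw [← hK₀]
      have hi := hh i
      have hE : (2 * s - lam) * j = (1 - δ) * (k * j) := by rw [hlam]; ring
      have hE2 : (1 - δ) * (k * j) ≤ n - 2 * g + k := by
        have b1 : (1 - δ) * (k * j) ≤ (1 - δ) * (κ * n + k) :=
          mul_le_mul_of_nonneg_left j2 (sub_nonneg.2 hδ1)
        have b2 : (1 - δ) * κ * n = n - 2 * g := by rw [hg]; linear_combination n * hκ1
        linarith only [b1, b2, mul_nonneg hδ0.le hk0.le]
      have hgi : 0 ≤ g * (1 / 2) ^ i := by positivity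
      set e : ℝ := k - 2 * g + g * (1 / 2) ^ i with he
      have a1 : (R : ℝ) ^ ((2 * s - lam) * j) * (((2 * R) ^ n : ℕ) : ℝ)⁻¹ ≤ (R : ℝ) ^ e := by
        clear * - R s lam j n e S hS hr hr0 δ k g i κ hE2 hgi
        refine (mul_le_mul_of_nonneg_left (hS.inv_P_le n) (by positivity)).trans ?_
        rw [← Real.rpow_add hr0]
        gcongr; linarith only [hE2, hgi]
      have a2 : (R : ℝ) ^ ((2 * s - lam) * j) * (R : ℝ) ^ ((1 - lam) * m) ≤ (R : ℝ) ^ e := by
        clear * - R s lam j m e hr0 hr J n δ k g i κ hJ0' hn' m1 hE2 hgi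
        rw [← Real.rpow_add hr0]
        gcongr; linarith only [hJ0', hn', m1, hE2, hgi]
      have a3 : (R : ℝ) ^ ((2 * s - lam) * j) * ((R : ℝ) ^ (k / 2 - g * (1 - (1 / 2) ^ i)) /
          (R : ℝ) ^ (k * j)) ≤ (R : ℝ) ^ e := by
        clear * - R s lam j k g i e hr0 hr δ κ n j1 hδ0 J hJ0' hJ'
        rw [← Real.rpow_natCast (R : ℝ) (k * j), ← Real.rpow_sub hr0, ← Real.rpow_add hr0]
        gcongr
        have : δ * (κ * n) ≤ δ * (k * j) := by gcongr
        push_cast; linarith only [hJ0', hJ', this]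
      have a4 : (4 * K₀ * (R : ℝ) ^ (k / 2 - g * (1 - (1 / 2) ^ (i + 1)))) ^ 2
          = 16 * K₀ ^ 2 * (R : ℝ) ^ e := by
        rw [mul_pow, ← Real.rpow_mul_natCast hr0.le]
        congr 1
        · ring
        · congr 1; rw [he, pow_succ]; push_cast; ring
      rw [a4]
      have a5 : 0 < (R : ℝ) ^ e := by positivity
      calc _ = K₀ * ((R : ℝ) ^ ((2 * s - lam) * j) * (((2 * R) ^ n : ℕ) : ℝ)⁻¹ +
            8 * K₀ * ((R : ℝ) ^ ((2 * s - lam) * j) *
              ((R : ℝ) ^ (k / 2 - g * (1 - (1 / 2) ^ i)) / (R : ℝ) ^ (k * j))) +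
            (R : ℝ) ^ ((2 * s - lam) * j) * (R : ℝ) ^ ((1 - lam) * m)) := by ring
        _ ≤ K₀ * ((R : ℝ) ^ e + 8 * K₀ * (R : ℝ) ^ e + (R : ℝ) ^ e) := by clear * - K₀ R s lam j n k g i m e a1 a3 hK₀1 a2; gcongr
        _ ≤ _ := by
          have b1 := mul_pos (zero_lt_one.trans_le hK₀1) a5
          linarith only [b1, mul_nonneg (sub_nonneg.2 hK₀1) b1.le])
    J le_rfl (X ^ k) (by simpa using (cl_X_pow k).mono (by omega) le_rfl le_rfl) n (by
      clear * - J j n κ hκ2 hn0 k δ j2 hJ0 hJ' hk0 m lam m2 s hl hJ0' hn'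
      have a1 : (J : ℝ) * j ≤ n / 4 + J := by
        clear * - κ n hκ2 hn0 J k j δ j2 hJ0 hJ' hk0
        have b1 : κ * n ≤ 1 * n := by gcongr
        have b2 : (J : ℝ) * (k * j) ≤ J * (n + k) := by gcongr; linarith
        have b3 : 4 * (J : ℝ) * n ≤ k * n := by gcongr
        have b : (k : ℝ) * (J * j) ≤ k * (n / 4 + J) := by linarith only [b2, b3]
        exact le_of_mul_le_mul_left b hk0
      have a2 : (J : ℝ) * m ≤ n / 4 + J := by
        clear * - J lam m n m2 hJ0 s k δ hl hn0 hJ0'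
        have b2 : (J : ℝ) * ((lam - 1) * m) ≤ J * (2 * n + (lam - 1)) := by gcongr
        have b3 : 8 * (J : ℝ) * n ≤ (lam - 1) * n := by gcongr; linarith
        have b : (lam - 1) * (J * m) ≤ (lam - 1) * (n / 4 + J) := by linarith only [b2, b3]
        exact le_of_mul_le_mul_left b (by linarith only [hl, hJ0'])
      have : (J : ℝ) * (j + m) ≤ n := by linarith only [hn', a1, a2]
      exact_mod_cast this) le_rfl 1 one_ne_zero
  refine (MV_succ_le hS k s n).trans ((mul_le_mul_of_nonneg_left key (by positivity)).trans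
    (le_of_eq ?_))
  push_cast
  rw [show c + k + (2 * (s + 1) - k + (k * δ - 2 * δ * κ * (1 - (1 / 2) ^ J))) * n =
    (k / 2 - g * (1 - (1 / 2) ^ J)) * (2 : ℕ) + n * (2 : ℕ) + c + lam * n by
      rw [hg, hlam]; push_cast; ring]
  simp only [Real.rpow_add hr0, Real.rpow_mul_natCast hr0.le, Real.rpow_natCast]
  ring

lemma NB_bound {R : ℕ} {S : Finset ℕ} (hS : PP R S) {l n P : ℕ} (hk : l + 3 ≤ R)
    (hP : P ≤ R ^ (2 * n)) {m z h : ℤ} (hm : 0 < m) (hz : z ∈ Icc (1 : ℤ) P) (hh : 1 ≤ h)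
    (hhm : h * m ≤ P) :
    (S.filter fun p : ℕ => (p : ℤ) ∣ NB l m z h).card ≤ (2 * n + 3) * (2 * l + 8) := by
  rw [mem_Icc] at hz
  have h1 : 0 < h * m := by positivity
  have hE := EE_pos l (x := z + h * m) (y := z) (by linarith) (by linarith)
  have hD : 0 < (z + h * m) ^ (l + 2) - z ^ (l + 2) :=
    sub_pos.2 (pow_lt_pow_left₀ (by linarith) (by linarith) (by omega))
  have hz0 : 0 < z := by linarith only [hz]
  have hN : 0 < NB l m z h := by unfold NB; positivity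
  refine hS.card_dvd_le hN.ne' ?_
  rw [abs_of_pos hN, pow_mul]
  set W : ℤ := (R : ℤ) ^ (2 * n + 3) with hW
  have hR : (l + 3 : ℤ) ≤ R := by exact_mod_cast hk
  have hl : (0 : ℤ) ≤ l := by positivity
  have hP' : (P : ℤ) ≤ (R : ℤ) ^ (2 * n) := by exact_mod_cast hP
  have hP0 : (0 : ℤ) ≤ P := by positivity
  have hW1 : (l + 3) * (3 * P) ≤ W := by
    clear * - l P R n W hR hk hP' hW
    calc ((l : ℤ) + 3) * (3 * P) ≤ R * ((R * R) * (R : ℤ) ^ (2 * n)) := by gcongr; nlinarith only [hk]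
      _ = W := by rw [hW]; ring
  have hW2 : 3 * (P : ℤ) ≤ W := by clear * - P W z l R n hz hW1; nlinarith only [hz, hW1]
  have hx : z + h * m ≤ W := by linarith only [hz, hhm, hW2]
  have e1 : (z + h * m) ^ (l + 2) ≤ W ^ (l + 2) := pow_le_pow_left₀ (by linarith) hx _
  have e2 : (z + h * m) ^ (l + 2) - z ^ (l + 2) ≤ W ^ (l + 2) := by
    have : 0 ≤ z ^ (l + 2) := by positivity
    linarith only [e1, this]
  have e3 : EE l (z + h * m) z ≤ W * W ^ (l + 2) := by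
    clear * - l z h m W P hz h1 hz0 hh hm R n hhm hW1 e2 hD
    unfold EE
    have a1 : 0 ≤ (z + h * m) ^ (l + 1) - z ^ (l + 1) :=
      sub_nonneg.2 (pow_le_pow_left₀ (by linarith) (by linarith) _)
    have a2 : 0 ≤ 2 * (l + 2) * (z + h * m) * z * ((z + h * m) ^ (l + 1) - z ^ (l + 1)) := by
      positivity
    have a3 : (l + 1) * (z + h * m + z) ≤ W := by clear * - l z h m W P R n hz hhm hW1; nlinarith only [hz, hhm, hW1]
    have a4 : (l + 1) * (z + h * m + z) * ((z + h * m) ^ (l + 2) - z ^ (l + 2))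
        ≤ W * W ^ (l + 2) := by gcongr
    linarith only [a2, a4]
  have e4 : m ≤ W := by clear * - m W z P h l R n hz hh hhm hW1 hm; nlinarith only [hz, hh, hhm, hW1, hm]
  have hW0 : 0 ≤ W := by positivity
  calc NB l m z h ≤ W * (W * W * W ^ (l + 2) * (W * W ^ (l + 2))) := by
        clear * - l m z h W e4 hx P R n hz hW2 hz0 e2 hD e3 hE hh hm
        unfold NB; gcongr; linarith
    _ = _ := by ring

/-- the new step -/
lemma Adm.new {k s : ℕ} {δ : ℝ} (h : Adm k s (k * δ)) (hδ0 : 1 / 2 ≤ δ) (hδ1 : δ ≤ 1)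
    (hs : 1 ≤ s) (hk8 : 8 ≤ k) (hl : (17 : ℝ) ≤ 2 * s - k + k * δ) :
    Adm k (s + 1) (k * δ - δ * (5 - 2 * δ) / 3 + 4 / k) := by
  obtain ⟨l, rfl⟩ : ∃ l, k = l + 3 := ⟨k - 3, by omega⟩
  set k := l + 3 with hkl
  obtain ⟨c, hc, h⟩ := h.unif
  set lam : ℝ := 2 * s - k + k * δ with hlam
  have hk8' : (8 : ℝ) ≤ k := by exact_mod_cast hk8
  have hk0 : (0 : ℝ) < k := by linarith only [hk8']
  obtain ⟨Cτ, hCτ, hτ⟩ := Pool.Agent.Lib.ANT.exists_card_divisors_le (1 / k) (by positivity)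
  refine adm_of_large (c := c + 2 * k + 3) 8 (by positivity) ?_ fun n hn => ?_
  · push_cast
    have : 0 ≤ 4 / (k : ℝ) := by positivity
    linarith only [hδ1, hl, this, mul_self_nonneg δ]
  obtain ⟨C, hC, h⟩ := h n
  have hn' : (8 : ℝ) ≤ n := by exact_mod_cast hn
  have hn0 : (0 : ℝ) < n := by linarith only [hn']
  obtain ⟨j, j1, j2⟩ : ∃ j : ℕ, (1 - 2 * δ / 3) * n ≤ k * j ∧ k * j ≤ (1 - 2 * δ / 3) * n + k :=
    ⟨_, ceil_bounds (mul_nonneg (by linarith only [hδ1]) hn0.le) hk0⟩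
  obtain ⟨i, i1, i2⟩ : ∃ i : ℕ, 4 / 3 * (n : ℝ) ≤ k * i ∧ k * i ≤ 4 / 3 * (n : ℝ) + k :=
    ⟨_, ceil_bounds (by positivity) hk0⟩
  obtain ⟨m, m1, m2⟩ : ∃ m : ℕ, 2 * (n : ℝ) ≤ (lam - 1) * m ∧
      (lam - 1) * m ≤ 2 * (n : ℝ) + (lam - 1) := ⟨_, ceil_bounds (by positivity) (by clear * - lam s k δ hl n; linarith)⟩
  have j3 : (k : ℝ) * j ≤ 2 / 3 * n + k := by
    linarith only [j2, mul_nonneg (sub_nonneg.2 hδ0) hn0.le]
  have hlev : j + m + (i + m) ≤ n := by
    clear * - j n k j3 hk8' hn0 hk0 i i2 m lam s δ m2 hl hn'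
    have a1 : (j : ℝ) ≤ n / 12 + 1 := by
      refine le_of_mul_le_mul_left ?_ hk0
      linarith only [j3, mul_nonneg (sub_nonneg.2 hk8') hn0.le]
    have a2 : (i : ℝ) ≤ n / 6 + 1 := by
      refine le_of_mul_le_mul_left ?_ hk0
      linarith only [i2, mul_nonneg (sub_nonneg.2 hk8') hn0.le]
    have a3 : (m : ℝ) ≤ n / 8 + 1 := by
      refine le_of_mul_le_mul_left ?_ (show 0 < lam - 1 by linarith only [hl])
      linarith only [m2, mul_nonneg (sub_nonneg.2 hl) hn0.le]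
    have : (j : ℝ) + m + (i + m) ≤ n := by linarith only [a1, a2, a3, hn']
    exact_mod_cast this
  set B₁ : ℝ := ((2 * n + 3) * (2 * l + 8) : ℕ) + 1 + i with hB₁
  have hB₁1 : 1 ≤ B₁ := by
    clear * - n l i hn B₁
    have : (0 : ℝ) ≤ ((2 * n + 3) * (2 * l + 8) : ℕ) + i := by positivity
    linarith
  set K₂ : ℝ := 2 ^ ((k + 6) * i) * (3 + 24 * Cτ ^ 2) with hK₂
  have hK₂1 : 1 ≤ K₂ := one_le_mul_of_one_le_of_one_le (one_le_pow₀ (by norm_num))
    (by linarith only [sq_nonneg Cτ])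
  set K₁ : ℝ := CX s B₁ i m * K₂ with hK₁
  have hK₁1 : 1 ≤ K₁ := one_le_mul_of_one_le_of_one_le (one_le_CX _ hB₁1 _ _) hK₂1
  set K₀ : ℝ := CX s (k * (2 * n + 1) + 1 + j) j m * (k + 1) ^ j with hK₀
  have hK₀1 : 1 ≤ K₀ := one_le_mul_of_one_le_of_one_le
    (one_le_CX _ (by have : (0 : ℝ) ≤ k * (2 * n + 1) + j := by positivity
                     clear * - k n j this
                     linarith) _ _) (one_le_pow₀ (by clear * - k hk8'; linarith))
  refine ⟨((n : ℝ) ^ n) ^ 2 * (K₀ * (4 * K₁) * (2 ^ n) ^ 2 * C), by positivity,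
    fun R S hS hk => ?_⟩
  have hr := hS.one_le
  have hr0 : (0 : ℝ) < R := by clear * - R hr; linarith
  set P : ℕ := (2 * R) ^ n with hP
  have hP0 : 0 < P := pow_pos (by omega) _
  have hP0' : (0 : ℝ) < P := by exact_mod_cast hP0
  have hPi : (P : ℝ)⁻¹ ≤ (R : ℝ) ^ (-(n : ℝ)) := hS.inv_P_le n
  set M : ℝ := C * (R : ℝ) ^ c with hM
  have hM0 : 0 < M := by positivity
  have hl2 : lam ≤ 2 * s := by linarith only [hlam, mul_le_mul_of_nonneg_left hδ1 hk0.le]
  set e : ℝ := -n + k + 3 + 4 * n / k with he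
  have key := stage_gen hS (n := n) (P := P) hs hk.le (lam := lam) (M := M) (t := K₁ * (R : ℝ) ^ e)
    (by clear * - lam s k δ hl R S h hM0 hP0 hS hk hl2 j m n; linarith) hl2 hM0 (by positivity) hP0 (hS.pow_le_sq n) (h R S hS hk) j m
    (d := l + 2) (cl_X_pow k) le_rfl (by
      have b1 : (1 : ℤ) ≤ k := by exact_mod_cast (by omega : 1 ≤ k)
      linarith only [mul_le_mul_of_nonneg_right b1 (Int.natCast_nonneg P)]) (ν := n)
    (by omega) le_rfl (fun ν a1 a2 T hT hc w hw => by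
      set Q : ℕ := (∏ p ∈ T, p) ^ k with hQ
      have hQ1 : R ^ (k * j) ≤ Q := by
        rw [hQ, mul_comm, pow_mul, ← hc]; exact Nat.pow_le_pow_left (hS.pow_le_prod hT) _
      have hQ0 : 0 < Q := lt_of_lt_of_le (pow_pos (by omega) _) hQ1
      set N : ℝ := P / (R : ℝ) ^ (k * j) with hN
      have hN0 : 0 < N := by positivity
      have hN1 : ((P / Q : ℕ) : ℝ) ≤ N := by
        clear * - P Q N R k j hN hP0 hr hQ1
        refine Nat.cast_div_le.trans ?_
        rw [hN]; gcongr; exact_mod_cast hQ1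
      set f : ℝ := 6 * i + k - 4 / 3 * n with hf
      have hf0 : 0 < (R : ℝ) ^ f := by positivity
      have e1 := extract hS k s hs (Icc (1 : ℤ) P ×ˢ Icc (1 : ℤ) (P / Q : ℕ))
        (fun x => (PA k (x.2 * Q)).eval x.1) (fun x p => (p : ℤ) ∣ NB l Q x.1 x.2) hB₁1
        (show 1 ≤ lam by clear * - lam s k δ hl hl2; linarith) hl2
        (Y := 2 ^ ((k + 6) * i) * (2 + 24 * Cτ ^ 2) * (R : ℝ) ^ f * (P * N) ^ 2 * M)
        (Z := (P * N) ^ 2 * M) (by clear * - k i Cτ R f P N M hCτ hr hP0 j C c hC m ν; positivity) (by clear * - P N M hP0 R k j hr C c hC i m ν; positivity) i m ν (by omega)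
        (fun x hx => by
          clear * - P x Q l S i B₁ hx n R hS k hk hQ0
          obtain ⟨b1, b2⟩ := mem_product.1 hx
          rw [mem_Icc] at b2
          have b3 := b2.2
          push_cast at b3
          rw [Int.le_ediv_iff_mul_le (by exact_mod_cast hQ0)] at b3
          have := NB_bound hS hk.le (hS.pow_le_sq n) (by exact_mod_cast hQ0) b1 b2.1 b3
          have : (((S.filter fun p : ℕ => (p : ℤ) ∣ NB l Q x.1 x.2).card : ℕ) : ℝ) ≤
            ((2 * n + 3) * (2 * l + 8) : ℕ) := by exact_mod_cast this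
          linarith only [this])
        (fun ν' b1 b2 U hU hUc w hw hd => by
          clear * - U R i S hS hU hUc s l hk8 n j m hk ν T ν' w k hr i1 P hr0 hP hn Q Cτ f N M lam
            hd hw hkl hτ hk0 hCτ hN hPi hP0 j3 hf hN0 hk8' i2 C c h a2 b2 hN1 hC
          set q : ℕ := ∏ p ∈ U, p with hq
          have q1 : R ^ i ≤ q := hUc ▸ hS.pow_le_prod hU
          have q2 : q ≤ (2 * R) ^ i := hUc ▸ hS.prod_le_pow hU
          have q0 : (0 : ℝ) < q := by exact_mod_cast lt_of_lt_of_le (pow_pos (by omega) _) q1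
          have q3 : ∀ a : ℕ, (q : ℝ) ^ a ≤ 2 ^ (a * i) * (R : ℝ) ^ (a * i : ℝ) := fun a => by
            rw [← Nat.cast_mul, Real.rpow_natCast, ← mul_pow, mul_comm a, pow_mul]
            gcongr; exact_mod_cast q2
          have q4 : (R : ℝ) ^ (4 / 3 * n : ℝ) ≤ (q : ℝ) ^ k := by
            refine (Real.rpow_le_rpow_of_exponent_le hr i1).trans ?_
            rw [← Nat.cast_mul, Real.rpow_natCast, mul_comm, pow_mul]
            gcongr; exact_mod_cast q1
          have q5 : P < q ^ k := by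
            clear * - P R n hr0 hP l hk8 i hk ν ν' U w hr hn q k q4
            have c1 : (P : ℝ) ^ 3 < ((R : ℝ) ^ (4 / 3 * n : ℝ)) ^ 3 := by
              rw [← Real.rpow_mul_natCast hr0.le, show 4 / 3 * (n : ℝ) * (3 : ℕ) = (4 * n : ℕ) by
                push_cast; ring, Real.rpow_natCast, hP]
              push_cast
              rw [← pow_mul, mul_comm n, pow_mul, pow_mul]
              have : (9 : ℝ) ≤ R := by exact_mod_cast (by omega : 9 ≤ R)
              refine pow_lt_pow_left₀ ?_ (by positivity) (by omega)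
              linarith only [pow_pos hr0 3, mul_nonneg (sub_nonneg.2 this) (pow_pos hr0 3).le]
            have c2 := (lt_of_pow_lt_pow_left₀ 3 (by positivity) c1).trans_le q4
            exact_mod_cast c2
          refine (stageB (pd_rr S k s ν' w) l (fun p hp => ⟨hS.prime p (hU hp),
            lt_of_lt_of_le hk (hS.le p (hU hp))⟩) (b := k / 2) (c := k - k / 2) (by omega)
            (by omega) (by omega) Q (P / Q) q5 fun m hm =>
              dvd_trans (by exact_mod_cast hd) (dvd_of_rr_ne_zero hm)).trans ?_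
          rw [← hq, rr_zero _ _ _ _ hw, ← hkl]
          have t1 : (((q ^ (k / 2)).divisors.card : ℕ) : ℝ) ≤ Cτ * q := by
            refine (hτ _).trans ?_
            push_cast
            rw [← Real.rpow_natCast, ← Real.rpow_mul q0.le]
            have c1 : (1 : ℝ) ≤ q := by exact_mod_cast (by exact_mod_cast q0 : 0 < q)
            have c2 : ((k / 2 : ℕ) : ℝ) * (1 / k) ≤ 1 := by
              rw [mul_one_div, div_le_one hk0]; exact_mod_cast Nat.div_le_self k 2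
            have := Real.rpow_le_rpow_of_exponent_le c1 c2
            rw [Real.rpow_one] at this
            gcongr
          have p2 : ∀ a : ℕ, a ≤ k + 6 → (2 : ℝ) ^ (a * i) ≤ 2 ^ ((k + 6) * i) := fun a ha =>
            pow_le_pow_right₀ (by norm_num) (Nat.mul_le_mul_right _ ha)
          have hi0 : (0 : ℝ) ≤ i := by positivity
          have u1 : (q : ℝ) ^ 2 * (P * N) ≤ 2 ^ ((k + 6) * i) * (R : ℝ) ^ f * (P * N) ^ 2 := by
            clear * - P N R n k j hN hPi hP0 hr q i f q3 hr0 p2 l hk8 ν ν' U w j3 hf hN0 q0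
            have c1 : (P * N)⁻¹ ≤ (R : ℝ) ^ (-(n : ℝ)) * (R : ℝ) ^ (-(n : ℝ)) *
                (R : ℝ) ^ (k * j : ℝ) := by
              rw [hN, ← Nat.cast_mul, Real.rpow_natCast, mul_inv, inv_div, div_eq_mul_inv,
                mul_comm ((R : ℝ) ^ (k * j)), ← mul_assoc]
              gcongr
            have c2 : (q : ℝ) ^ 2 * (P * N)⁻¹ ≤ 2 ^ ((k + 6) * i) * (R : ℝ) ^ f := by
              refine (mul_le_mul (q3 2) c1 (by positivity) (by positivity)).trans ?_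
              rw [mul_assoc, ← Real.rpow_add hr0, ← Real.rpow_add hr0, ← Real.rpow_add hr0]
              refine mul_le_mul (p2 2 (by omega)) (Real.rpow_le_rpow_of_exponent_le hr ?_)
                (by positivity) (by positivity)
              push_cast; linarith only [j3, hf]
            calc _ = (q : ℝ) ^ 2 * (P * N)⁻¹ * (P * N) ^ 2 := by field_simp
              _ ≤ _ := by gcongr
          have u2 : (q : ℝ) ^ 2 * (N ^ 2 * (q : ℝ) ^ (k - k / 2)) ≤
              2 ^ ((k + 6) * i) * (R : ℝ) ^ f * (P * N) ^ 2 := by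
            clear * - q k P i R f n q3 hPi hP0 hr hr0 p2 l hk8 ν ν' U w hi0 hk8' i2 hf N q0 hN0 j
            have c2 : (q : ℝ) ^ (2 + (k - k / 2)) * ((P : ℝ)⁻¹ * (P : ℝ)⁻¹) ≤
                2 ^ ((k + 6) * i) * (R : ℝ) ^ f := by
              refine (mul_le_mul (q3 _) (mul_le_mul hPi hPi (by positivity) (by positivity))
                (by positivity) (by positivity)).trans ?_
              rw [mul_assoc, ← Real.rpow_add hr0, ← Real.rpow_add hr0]
              refine mul_le_mul (p2 _ (by omega)) (Real.rpow_le_rpow_of_exponent_le hr ?_)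
                (by positivity) (by positivity)
              have c3 : (2 * (2 + (k - k / 2) : ℕ) : ℝ) ≤ k + 5 := by
                exact_mod_cast (by omega : 2 * (2 + (k - k / 2)) ≤ k + 5)
              have c4 := mul_le_mul_of_nonneg_right c3 hi0
              linarith only [hk8', i2, hf, c4]
            calc _ = (q : ℝ) ^ (2 + (k - k / 2)) * ((P : ℝ)⁻¹ * (P : ℝ)⁻¹) * (P * N) ^ 2 := by
                  rw [pow_add]; field_simp
              _ ≤ _ := by gcongr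
          have u3 : (q : ℝ) ^ 2 * (24 * (q : ℝ) ^ 2 * (Cτ * q) ^ 2 *
              ((P : ℝ) ^ 2 / (q : ℝ) ^ k) * N ^ 2) ≤
              24 * Cτ ^ 2 * (2 ^ ((k + 6) * i) * (R : ℝ) ^ f * (P * N) ^ 2) := by
            clear * - q k i R f n hr q3 q4 hr0 p2 l hk8 ν ν' U w hk8' hf Cτ P N j hP0 hCτ
            have c2 : (q : ℝ) ^ 6 / (q : ℝ) ^ k ≤ 2 ^ ((k + 6) * i) * (R : ℝ) ^ f := by
              refine (div_le_div₀ (by positivity) (q3 6) (by positivity) q4).trans ?_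
              rw [mul_div_assoc, ← Real.rpow_sub hr0]
              refine mul_le_mul (p2 _ (by omega)) (Real.rpow_le_rpow_of_exponent_le hr ?_)
                (by positivity) (by positivity)
              push_cast; linarith only [hk8', hf]
            calc _ = 24 * Cτ ^ 2 * ((q : ℝ) ^ 6 / (q : ℝ) ^ k * (P * N) ^ 2) := by ring
              _ ≤ _ := by gcongr
          have hMV := h R S hS hk ν' (by omega)
          calc _ ≤ (q : ℝ) ^ 2 * (M * ((R : ℝ) ^ lam) ^ ν' * (P * N + N ^ 2 * (q : ℝ) ^ (k - k / 2) +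
                24 * (q : ℝ) ^ 2 * (Cτ * q) ^ 2 * ((P : ℝ) ^ 2 / (q : ℝ) ^ k) * N ^ 2)) := by clear * - q S k s ν' P Q M R lam N Cτ hMV hN1 hP0 q0 t1 hCτ C c hC hr; gcongr
            _ = M * ((R : ℝ) ^ lam) ^ ν' * ((q : ℝ) ^ 2 * (P * N) +
                (q : ℝ) ^ 2 * (N ^ 2 * (q : ℝ) ^ (k - k / 2)) + (q : ℝ) ^ 2 * (24 * (q : ℝ) ^ 2 *
                  (Cτ * q) ^ 2 * ((P : ℝ) ^ 2 / (q : ℝ) ^ k) * N ^ 2)) := by ring
            _ ≤ M * ((R : ℝ) ^ lam) ^ ν' * (2 ^ ((k + 6) * i) * (R : ℝ) ^ f * (P * N) ^ 2 +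
                2 ^ ((k + 6) * i) * (R : ℝ) ^ f * (P * N) ^ 2 +
                24 * Cτ ^ 2 * (2 ^ ((k + 6) * i) * (R : ℝ) ^ f * (P * N) ^ 2)) := by clear * - M R lam ν' q P N k Cτ i f u1 u2 u3 C c hC hr; gcongr
            _ = _ := by ring)
        (fun ν' b1 w hw => by
          clear * - P Q k S s ν' w C R c lam N M hw h hS hk n l j i m ν a2 T b1 hM hP0 hN1 hC hr
          refine (QF_triv hw _ _ (h R S hS hk ν' (by omega))).trans ?_
          rw [card_product, Int.card_Icc, Int.card_Icc, add_sub_cancel_right, add_sub_cancel_right,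
            Int.toNat_natCast, Int.toNat_natCast, Nat.cast_mul, mul_assoc ((P * N) ^ 2), ← hM]
          gcongr) hw
      set e' : ℝ := e + k * j with he'
      have hi3 : 6 * (i : ℝ) ≤ 8 * n / k + 6 := by
        clear * - i n k hk0 i2
        rw [div_add' _ _ _ hk0.ne', le_div_iff₀ hk0]; linarith only [i2]
      have hi0 : (0 : ℝ) ≤ i := by positivity
      have hE : (2 * s - lam) * i + f ≤ e' * (2 : ℕ) := by
        clear * - s lam i δ k hlam n i2 hδ1 hδ0 hk0 f e' j e hf j1 hi3 he he'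
        have c1 : (2 * s - lam) * i = (1 - δ) * (k * i) := by rw [hlam]; ring
        have c2 : (1 - δ) * (k * i) ≤ (1 - δ) * (4 / 3 * n + k) :=
          mul_le_mul_of_nonneg_left i2 (sub_nonneg.2 hδ1)
        have c3 : 0 ≤ δ * k := mul_nonneg (by linarith only [hδ0]) hk0.le
        have c4 : 4 * (n : ℝ) / k * 2 = 8 * n / k := by ring
        push_cast; linarith only [c1, c2, c3, c4, hf, he, he', j1, hi3]
      have e2 : CX s B₁ i m * (R : ℝ) ^ ((2 * s - lam) * i) *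
          (2 ^ ((k + 6) * i) * (2 + 24 * Cτ ^ 2) * (R : ℝ) ^ f * (P * N) ^ 2 * M +
            (R : ℝ) ^ ((1 - lam) * m) * ((P * N) ^ 2 * M)) * ((R : ℝ) ^ lam) ^ ν ≤
          (K₁ * (R : ℝ) ^ e' * (P * N)) ^ 2 * (M * ((R : ℝ) ^ lam) ^ ν) := by
        clear * - R lam m k i f hr n δ s hk8' hn' m1 hf hf0 e' hr0 hE B₁ hB₁1 Cτ P N M ν K₁ hP0 j
          C c hC K₂ hK₁ hK₂ l hK₁1 hCτ
        have c1 : (R : ℝ) ^ ((1 - lam) * m) ≤ 2 ^ ((k + 6) * i) * (R : ℝ) ^ f := by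
          refine le_trans (Real.rpow_le_rpow_of_exponent_le hr (by linarith only [hk8', hn', m1, hf]))
            (le_mul_of_one_le_left hf0.le (one_le_pow₀ (by norm_num)))
        have c2 : (R : ℝ) ^ ((2 * s - lam) * i) * (R : ℝ) ^ f ≤ ((R : ℝ) ^ e') ^ 2 := by
          rw [← Real.rpow_add hr0, ← Real.rpow_mul_natCast hr0.le]
          exact Real.rpow_le_rpow_of_exponent_le hr hE
        have c3 := one_le_CX s hB₁1 i m
        calc _ ≤ CX s B₁ i m * (R : ℝ) ^ ((2 * s - lam) * i) *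
            (2 ^ ((k + 6) * i) * (2 + 24 * Cτ ^ 2) * (R : ℝ) ^ f * (P * N) ^ 2 * M +
              2 ^ ((k + 6) * i) * (R : ℝ) ^ f * ((P * N) ^ 2 * M)) * ((R : ℝ) ^ lam) ^ ν := by clear * - R lam ν s B₁ i m k Cτ f P N M c1 hP0 j hr C c hC c3; gcongr
          _ = K₁ * ((R : ℝ) ^ ((2 * s - lam) * i) * (R : ℝ) ^ f) * (P * N) ^ 2 *
              (M * ((R : ℝ) ^ lam) ^ ν) := by rw [hK₁, hK₂]; ring
          _ ≤ K₁ ^ 2 * ((R : ℝ) ^ e') ^ 2 * (P * N) ^ 2 * (M * ((R : ℝ) ^ lam) ^ ν) := by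
              clear * - M R lam ν K₁ s i f P N e' hK₁1 c2 hr B₁ m K₂ c3 k Cτ hCτ hP0 j C c hC
              gcongr; exact le_self_pow₀ hK₁1 two_ne_zero
          _ = _ := by ring
      have e3 := (pd_rr S k s ν w).sum_le_sqrt _ _
        ((rr_zero _ _ _ _ hw).trans_le (h R S hS hk ν a2)) (by clear * - K₁ R e' P N hK₁1 hr hP0 k j S a2 e1 e2 h hS hk hw ν; positivity) (e1.trans e2)
      simp only [PA_eval] at e3
      simp only [eval_pow, eval_X]
      refine e3.trans (le_of_eq ?_)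
      rw [he', Real.rpow_add hr0, hN, ← Nat.cast_mul, Real.rpow_natCast, ← hM]
      field_simp) (w := 1) one_ne_zero
  refine (MV_succ_le hS k s n).trans ((mul_le_mul_of_nonneg_left key (by positivity)).trans ?_)
  refine mul_le_mul_of_nonneg_left ?_ (by positivity) |>.trans (le_of_eq (mul_assoc _ _ _).symm)
  rw [← hK₀]
  have he0 : -(n : ℝ) ≤ e := by
    clear * - n k hn l e hk8'
    have : 0 ≤ 4 * (n : ℝ) / k := by positivity
    linarith only [hk8', this]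
  have f1 : (P : ℝ)⁻¹ + 2 * (K₁ * (R : ℝ) ^ e) + (R : ℝ) ^ ((1 - lam) * m)
      ≤ 4 * K₁ * (R : ℝ) ^ e := by
    clear * - P R e n hPi hr he0 lam m k s δ hn' m1 K₁ hK₁1 B₁ i Cτ l K₂
    have c1 := hPi.trans (Real.rpow_le_rpow_of_exponent_le hr he0)
    have c2 : (R : ℝ) ^ ((1 - lam) * m) ≤ (R : ℝ) ^ e :=
      Real.rpow_le_rpow_of_exponent_le hr (by linarith only [hn', m1, he0])
    have c3 : (R : ℝ) ^ e ≤ K₁ * (R : ℝ) ^ e := le_mul_of_one_le_left (by positivity) hK₁1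
    linarith only [c1, c2, c3]
  have f2 : (R : ℝ) ^ ((2 * s - lam) * j) ≤ (R : ℝ) ^ ((1 - δ) * (1 - 2 * δ / 3) * n + k) := by
    clear * - R s lam j δ n k hr hlam j2 hδ1 hδ0 hk0
    refine Real.rpow_le_rpow_of_exponent_le hr ?_
    have c1 : (2 * s - lam) * j = (1 - δ) * (k * j) := by rw [hlam]; ring
    have c2 : (1 - δ) * (k * j) ≤ (1 - δ) * ((1 - 2 * δ / 3) * n + k) :=
      mul_le_mul_of_nonneg_left j2 (sub_nonneg.2 hδ1)
    linarith only [c1, c2, mul_nonneg (show 0 ≤ δ by linarith only [hδ0]) hk0.le]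
  calc _ ≤ K₀ * (R : ℝ) ^ ((1 - δ) * (1 - 2 * δ / 3) * n + k) * (4 * K₁ * (R : ℝ) ^ e) *
        (P ^ 2 * (M * ((R : ℝ) ^ lam) ^ n)) := by clear * - P M R lam n K₀ s j K₁ e m δ k f2 hK₀1 f1 hP0 hK₁1 hr C c hC; gcongr
    _ = _ := by
      clear * - K₀ R δ n k K₁ e P M lam C c s he hlam hP hM hr0 j m B₁ i Cτ l K₂
      rw [show c + 2 * k + 3 + (2 * ((s + 1 : ℕ) : ℝ) - k + (k * δ - δ * (5 - 2 * δ) / 3 + 4 / k)) * n
        = ((1 - δ) * (1 - 2 * δ / 3) * n + k) + e + n * (2 : ℕ) + c + lam * n by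
          rw [he, hlam]; push_cast; ring]
      rw [hP, hM]
      simp only [Real.rpow_add hr0 _ (lam * n), Real.rpow_add hr0 _ c,
        Real.rpow_add hr0 _ ((n : ℝ) * (2 : ℕ)), Real.rpow_add hr0 _ e,
        Real.rpow_mul_natCast hr0.le, Real.rpow_natCast]
      push_cast; ring

end

end Pool.Agent.Work.MP_45c923_nt
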