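import Pool.Agent.Work.MP_45c923_nt.Adm

/-!
# Definitions for the pruning argument: solution counts, Vinogradov systems, bilinear sums
-/

set_option autoImplicit false

namespace Pool.Agent.Work.MP_45c923_nt

open Finset Pool.Agent.Lib.LargeSieve

noncomputable section

/-- number of ordered pairs of elements of `X` with the same image -/
def cnt {β G : Type*} [DecidableEq G] (X : Finset β) (Φ : β → G) : ℕ :=
  ((X ×ˢ X).filter fun p => Φ p.1 = Φ p.2).card

/-- `m`-tuples from `A` -/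
def tup {α : Type*} (m : ℕ) (A : Finset α) : Finset (Fin m → α) := Fintype.piFinset fun _ => A

lemma mem_tup {α : Type*} {m : ℕ} {A : Finset α} {u : Fin m → α} : u ∈ tup m A ↔ ∀ i, u i ∈ A :=
  Fintype.mem_piFinset

lemma card_tup {α : Type*} (m : ℕ) (A : Finset α) : (tup m A).card = A.card ^ m := by
  simp [tup]

/-- the point `(x, x^2, …, x^l)` -/
def pw (l x : ℕ) : Fin l → ℤ := fun t => (x : ℤ) ^ (t.val + 1)

/-- Vinogradov's mean value: solutions of the system of degree `l` in `2m` variables below `Z` -/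
def JJ (l m Z : ℕ) : ℕ := cnt (tup m (range Z)) fun z => ∑ i, pw l (z i)

/-- `l`-tuples below `Z` with pairwise distinct residues modulo `p` -/
def Dis (l p Z : ℕ) : Finset (Fin l → ℕ) :=
  (tup l (range Z)).filter fun x => ∀ i j, x i % p = x j % p → i = j

/-- integers below `X` coprime to `r` -/
def AX (X r : ℕ) : Finset ℕ := (range X).filter fun x => Nat.Coprime x r

/-- the bilinear sum to modulus `q` -/
def WS (k r X q : ℕ) (c : ℤ) : ℂ :=
  ∑ x ∈ AX X r, ∑ y ∈ AX X r, ee ((c : ℝ) * ((x : ℝ) * (y : ℝ)) ^ k / (q : ℝ))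

/-- power saving for the bilinear sums to powerful moduli `q ≤ X^(2j)` -/
def WB (k j : ℕ) (η : ℝ) : Prop :=
  ∃ C : ℝ, 0 < C ∧ ∀ (X r q : ℕ) (c : ℤ), 1 ≤ X → Squarefree r →
    (∀ p : ℕ, p.Prime → p ∣ r → k < p) → 0 < q → (∀ p : ℕ, p.Prime → p ∣ q → p ∣ r) →
    r ^ 16 ≤ X → q ≤ X ^ (2 * j) → ¬ (q : ℤ) ∣ c * r →
    ‖WS k r X q c‖ ≤ C * (X : ℝ) ^ (2 - 4 * η)

/-- majorant collecting all lower level sums -/
def Mx (S : Finset ℕ) (k e : ℕ) : ℕ → ℝ → ℝ
  | 0, α => ‖GG S k 0 α‖ ^ e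
  | N + 1, α => ‖GG S k (N + 1) α‖ ^ e + ∑ p ∈ S, Mx S k e N (α * (p : ℝ) ^ k)

end

end Pool.Agent.Work.MP_45c923_nt
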