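import Pool.Agent.Work.MP_45c923_nt.Extract
import Mathlib
import Pool.Agent.Lib.ANT.PNT
import Pool.Agent.Work.MP_45c923_nt.Adm
import Pool.Agent.Lib.ANT.DivisorBound
import Pool.Agent.Work.MP_45c923_nt.VmDefs

-- merged part: Pool.Agent.Work.MP_45c923_nt.MajorAux
section
-- merged part: Pool.Agent.Work.MP_45c923_nt.CMDefs
section
/-!
# Definitions for the circle method
-/

set_option autoImplicit false

namespace Pool.Agent.Work.MP_45c923_nt

open Finset Pool.Agent.Lib.LargeSieve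

noncomputable section

/-- the generating function: variables `y * w`, `Y < y ≤ Z`, `w` a product of `J` primes of `S` -/
def ff (S : Finset ℕ) (k J Y Z : ℕ) (α : ℝ) : ℂ := ∑ y ∈ Ioc Y Z, GG S k J (α * (y : ℝ) ^ k)

@[fun_prop] lemma continuous_ff (S : Finset ℕ) (k J Y Z : ℕ) : Continuous (ff S k J Y Z) := by
  unfold ff; fun_prop

/-- the complete exponential sum -/
def SS (k q : ℕ) (b : ℤ) : ℂ := ∑ x ∈ range q, ee ((b : ℝ) * (x : ℝ) ^ k / q)

/-- reduced residues `0 ≤ a < q` -/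
def RR (q : ℕ) : Finset ℕ := (range q).filter fun a => Nat.Coprime a q

/-- a term of the singular series -/
def AA (k s n q : ℕ) : ℂ := ∑ a ∈ RR q, (SS k q a / q) ^ s * ee (-((a : ℝ) / q * n))

/-- the bound for complete sums, with constant `C` -/
def GaussB (k : ℕ) (C : ℝ) : Prop :=
  ∀ q : ℕ, 1 ≤ q → ∀ b : ℤ, (‖SS k q b‖ / q) ^ k ≤ C * (Int.gcd b q : ℝ) / q

/-- the smoothed sum: the term `y` is spread uniformly over `[(w y)^k, (w (y+1))^k)` -/
def VW (k Y Z w : ℕ) (β : ℝ) : ℂ :=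
  ∑ y ∈ Ioc Y Z, ((((w * (y + 1)) ^ k - (w * y) ^ k : ℕ) : ℂ))⁻¹ *
    ∑ m ∈ Ico ((w * y) ^ k) ((w * (y + 1)) ^ k), ee (β * (m : ℝ))

@[fun_prop] lemma continuous_VW (k Y Z w : ℕ) : Continuous (VW k Y Z w) := by
  unfold VW; fun_prop

/-- numerators used on the pruned arcs -/
def NN (q : ℕ) : Finset ℤ := (Icc (-(q : ℤ)) (2 * q)).filter fun a => Int.gcd a q = 1

end

end Pool.Agent.Work.MP_45c923_nt
end

-- merged part: Pool.Agent.Work.MP_45c923_nt.SingAux1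
section
/-!
# Local solubility for the singular series: counting solutions modulo prime powers
-/

set_option autoImplicit false

namespace Pool.Agent.Work.MP_45c923_nt.Sing

open Finset

/-- number of solutions of `x_1^k + ... + x_s^k = n` in a ring -/
noncomputable def NS (R : Type) [CommRing R] (k s n : ℕ) : ℕ :=
  Nat.card {x : Fin s → R // ∑ i, x i ^ k = (n : R)}

lemma NS_congr {R S : Type} [CommRing R] [CommRing S] (e : R ≃+* S) (k s n : ℕ) :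
    NS R k s n = NS S k s n := by
  unfold NS
  refine Nat.card_congr ⟨fun x => ⟨fun i => e (x.1 i), ?_⟩, fun y => ⟨fun i => e.symm (y.1 i), ?_⟩,
    ?_, ?_⟩
  · have := congrArg e x.2
    simpa [map_sum, map_pow] using this
  · have := congrArg e.symm y.2
    simpa [map_sum, map_pow] using this
  · intro x; ext i; simp
  · intro y; ext i; simp

lemma NS_prod (R S : Type) [CommRing R] [CommRing S] (k s n : ℕ) :
    NS (R × S) k s n = NS R k s n * NS S k s n := by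
  unfold NS
  rw [← Nat.card_prod]
  refine Nat.card_congr ⟨fun x => (⟨fun i => (x.1 i).1, ?_⟩, ⟨fun i => (x.1 i).2, ?_⟩),
    fun y => ⟨fun i => (y.1.1 i, y.2.1 i), ?_⟩, ?_, ?_⟩
  · have := congrArg Prod.fst x.2
    simpa [Prod.fst_sum] using this
  · have := congrArg Prod.snd x.2
    simpa [Prod.snd_sum] using this
  · ext
    · simpa [Prod.fst_sum] using y.1.2
    · simpa [Prod.snd_sum] using y.2.2
  · intro x; ext i <;> simp
  · intro y; ext i <;> simp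

lemma NS_mul {a b : ℕ} (h : Nat.Coprime a b) (k s n : ℕ) :
    NS (ZMod (a * b)) k s n = NS (ZMod a) k s n * NS (ZMod b) k s n := by
  rw [NS_congr (ZMod.chineseRemainder h), NS_prod]

/-- one lifting step -/
lemma lift_step {p t k' j : ℕ} (hp : p.Prime) (hk' : ¬ p ∣ k') (hj : 1 ≤ j)
    (hjp : j + 2 ≤ j * p) (u y : ℤ) (hy : ¬ (p : ℤ) ∣ y)
    (h : (p : ℤ) ^ (t + j) ∣ u - y ^ (p ^ t * k')) :
    ∃ y' : ℤ, ¬ (p : ℤ) ∣ y' ∧ (p : ℤ) ^ (t + j + 1) ∣ u - y' ^ (p ^ t * k') := by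
  have hpi : Prime (p : ℤ) := Nat.prime_iff_prime_int.mp hp
  obtain ⟨e, he⟩ := h
  have hcop : IsCoprime (y ^ (p ^ t * k') * k') (p : ℤ) := by
    refine IsCoprime.symm ((hpi.irreducible.coprime_iff_not_dvd).mpr ?_)
    intro hd
    rcases hpi.dvd_or_dvd hd with h1 | h1
    · exact hy (hpi.dvd_of_dvd_pow h1)
    · exact hk' (by exact_mod_cast h1)
  obtain ⟨a, b, hab⟩ := hcop
  set z : ℤ := a * e with hz
  obtain ⟨w, hw⟩ := ZMod.exists_one_add_mul_pow_prime_pow_eq (R := ℤ) (u := (p : ℤ) ^ j)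
    (v := (p : ℤ)) hp (dvd_pow_self _ (by omega))
    (by rw [← pow_mul, ← pow_succ', ← pow_succ]; exact pow_dvd_pow _ (by omega)) z t
  set v : ℤ := (p : ℤ) ^ t * (p : ℤ) ^ j * (z + p * w) with hv
  have hbin : v ^ 2 ∣ (1 + v) ^ k' - (1 + k' * v) := by
    have := sq_dvd_add_pow_sub_sub v (1 : ℤ) k'
    simpa [sub_sub, add_comm, mul_comm] using this
  obtain ⟨c, hc⟩ := hbin
  refine ⟨y * (1 + (p : ℤ) ^ j * z), ?_, ?_⟩
  · intro hd
    rcases hpi.dvd_or_dvd hd with h1 | h1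
    · exact hy h1
    · have h2 : (p : ℤ) ∣ (p : ℤ) ^ j * z := Dvd.dvd.mul_right (dvd_pow_self _ (by omega)) _
      have h3 : (p : ℤ) ∣ 1 := (dvd_add_left h2).mp h1
      exact hpi.not_dvd_one h3
  · have h1 : (1 + (p : ℤ) ^ j * z) ^ (p ^ t * k') = 1 + k' * v + v ^ 2 * c := by
      rw [pow_mul, hw]; linear_combination hc
    obtain ⟨j', rfl⟩ : ∃ j', j = j' + 1 := ⟨j - 1, by omega⟩
    refine ⟨b * e - y ^ (p ^ t * k') * k' * w
      - y ^ (p ^ t * k') * ((p : ℤ) ^ t * (p : ℤ) ^ j' * (z + p * w) ^ 2 * c), ?_⟩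
    rw [mul_pow, h1, hv]
    have hu : u = y ^ (p ^ t * k') + (p : ℤ) ^ (t + (j' + 1)) * e := by linear_combination he
    rw [hu, hz]
    generalize y ^ (p ^ t * k') = Y at hab ⊢
    linear_combination (-((p : ℤ) ^ (t + (j' + 1)) * e)) * hab

lemma lift_all {p t k' e : ℕ} (hp : p.Prime) (hk' : ¬ p ∣ k') (he : 1 ≤ e)
    (hep : e + 2 ≤ e * p) (u : ℤ) (h : (p : ℤ) ^ (t + e) ∣ u - 1) (m : ℕ) :
    ∃ y : ℤ, ¬ (p : ℤ) ∣ y ∧ (p : ℤ) ^ (t + (e + m)) ∣ u - y ^ (p ^ t * k') := by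
  have hpi : Prime (p : ℤ) := Nat.prime_iff_prime_int.mp hp
  induction m with
  | zero => exact ⟨1, hpi.not_dvd_one, by simpa using h⟩
  | succ m ih =>
    obtain ⟨y, hy, hd⟩ := ih
    have h2 := hp.two_le
    obtain ⟨y', hy', hd'⟩ := lift_step (j := e + m) hp hk' (by omega) (by nlinarith only [he, hep]) u y hy hd
    exact ⟨y', hy', by simpa [add_assoc] using hd'⟩

/-- sums of `j` powers -/
def Rep {R : Type} [CommRing R] (k j : ℕ) (r : R) : Prop := ∃ x : Fin j → R, ∑ i, x i ^ k = r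

lemma Rep.zero {R : Type} [CommRing R] {k : ℕ} (hk : 1 ≤ k) (j : ℕ) : Rep k j (0 : R) :=
  ⟨fun _ => 0, by simp [zero_pow (show k ≠ 0 by omega)]⟩

lemma Rep.add {R : Type} [CommRing R] {k j : ℕ} {r : R} (h : Rep k j r) (w : R) :
    Rep k (j + 1) (r + w ^ k) := by
  obtain ⟨x, hx⟩ := h
  exact ⟨Fin.cons w x, by rw [Fin.sum_univ_succ]; simp [hx, add_comm]⟩

lemma Rep.mul {R : Type} [CommRing R] {k j : ℕ} {r : R} (h : Rep k j r) (w : R) :
    Rep k j (r * w ^ k) := by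
  obtain ⟨x, hx⟩ := h
  exact ⟨fun i => x i * w, by simp [mul_pow, ← sum_mul, hx]⟩

lemma Rep.succ {R : Type} [CommRing R] {k j : ℕ} (hk : 1 ≤ k) {r : R} (h : Rep k j r) :
    Rep k (j + 1) r := by
  simpa [zero_pow (show k ≠ 0 by omega)] using h.add 0

lemma Rep.mono {R : Type} [CommRing R] {k i j : ℕ} (hk : 1 ≤ k) (hij : i ≤ j) {r : R}
    (h : Rep k i r) : Rep k j r := by
  induction hij with
  | refl => exact h
  | step _ ih => exact ih.succ hk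

lemma card_roots_le {p k' : ℕ} (hp : p.Prime) (hk' : 1 ≤ k') (c : ZMod p) :
    ((Ico 1 p).filter fun z : ℕ => (z : ZMod p) ^ k' = c).card ≤ k' := by
  classical
  have := Fact.mk hp
  calc ((Ico 1 p).filter fun z : ℕ => (z : ZMod p) ^ k' = c).card
      ≤ (Polynomial.nthRootsFinset k' c).card := by
        refine card_le_card_of_injOn (fun z => (z : ZMod p)) ?_ ?_
        · intro z hz
          simp only [coe_filter, Set.mem_ofPred_eq] at hz
          exact (Polynomial.mem_nthRootsFinset (by omega) c).mpr hz.2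
        · intro z hz z' hz' h
          simp only [coe_filter, Set.mem_ofPred_eq, mem_Ico] at hz hz'
          have := (ZMod.natCast_eq_natCast_iff' z z' p).mp h
          rwa [Nat.mod_eq_of_lt hz.1.2, Nat.mod_eq_of_lt hz'.1.2] at this
    _ ≤ k' := by
        rw [Polynomial.nthRootsFinset_def]
        exact (Multiset.toFinset_card_le _).trans (Polynomial.card_nthRoots _ _)

open Classical in
lemma grow {p t k' g j : ℕ} (hp : p.Prime) (hk' : 1 ≤ k') (hg : 0 < g) [NeZero (p ^ g)]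
    (hne : ∃ r : ZMod (p ^ g), ¬ Rep (p ^ t * k') j r) :
    (p - 1) + k' * (univ.filter (Rep (R := ZMod (p ^ g)) (p ^ t * k') j)).card ≤
      k' * (univ.filter (Rep (R := ZMod (p ^ g)) (p ^ t * k') (j + 1))).card := by
  have := Fact.mk hp
  have hk : 1 ≤ p ^ t * k' := Nat.mul_pos (pow_pos hp.pos _) hk'
  set k := p ^ t * k' with hkdef
  obtain ⟨x, hx, hx1⟩ : ∃ x : ZMod (p ^ g), Rep k j x ∧ ¬ Rep k j (x + 1) := by
    by_contra hcon
    push Not at hcon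
    obtain ⟨r, hr⟩ := hne
    have : ∀ m : ℕ, Rep k j (m : ZMod (p ^ g)) := by
      intro m
      induction m with
      | zero => simpa using Rep.zero hk j
      | succ m ih => simpa using hcon _ ih
    exact hr (by simpa using this r.val)
  set y := x + 1 with hy
  have hy1 : Rep k (j + 1) y := by simpa using hx.add 1
  have hy0 : y ≠ 0 := fun h => hx1 (h ▸ Rep.zero hk j)
  set A := univ.filter (Rep (R := ZMod (p ^ g)) k j)
  set B := univ.filter (Rep (R := ZMod (p ^ g)) k (j + 1))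
  have hAB : A ⊆ B := by
    intro r hr
    simp only [A, B, mem_filter, mem_univ, true_and] at hr ⊢
    exact hr.succ hk
  have hmain : (Ico 1 p).card ≤ k' * (B \ A).card := by
    refine card_le_mul_card_image_of_maps_to (f := fun z : ℕ => y * (z : ZMod (p ^ g)) ^ k) ?_ k' ?_
    · intro z hz
      rw [mem_Ico] at hz
      simp only [A, B, mem_sdiff, mem_filter, mem_univ, true_and]
      refine ⟨hy1.mul _, fun h => hx1 ?_⟩
      have hu : IsUnit (z : ZMod (p ^ g)) :=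
        (ZMod.isUnit_natCast_iff_not_dvd_pow hp hg).mpr (Nat.not_dvd_of_pos_of_lt hz.1 hz.2)
      obtain ⟨w, hw⟩ := hu.exists_right_inv
      have := h.mul w
      rwa [mul_assoc, ← mul_pow, hw, one_pow, mul_one] at this
    · intro b _
      rcases ((Ico 1 p).filter fun z : ℕ => y * (z : ZMod (p ^ g)) ^ k = b).eq_empty_or_nonempty
        with h0 | ⟨z₀, hz₀⟩
      · rw [h0]; simp
      · refine le_trans (card_le_card ?_) (card_roots_le hp hk' ((z₀ : ZMod p) ^ k'))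
        intro z hz
        rw [mem_filter] at hz hz₀ ⊢
        refine ⟨hz.1, ?_⟩
        have h1 : y * ((((z : ℤ) ^ k - (z₀ : ℤ) ^ k : ℤ)) : ZMod (p ^ g)) = 0 := by
          push_cast; rw [mul_sub, hz.2, hz₀.2, sub_self]
        have h2 : (p : ℤ) ∣ (z : ℤ) ^ k - (z₀ : ℤ) ^ k := by
          by_contra hnd
          have hpi : Prime (p : ℤ) := Nat.prime_iff_prime_int.mp hp
          have hc : IsCoprime ((p ^ g : ℕ) : ℤ) ((z : ℤ) ^ k - (z₀ : ℤ) ^ k) := by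
            push_cast
            exact IsCoprime.pow_left ((hpi.irreducible.coprime_iff_not_dvd).mpr hnd)
          have hu := (ZMod.coe_int_isUnit_iff_isCoprime _ _).mpr hc
          exact hy0 ((hu.mul_left_eq_zero).mp h1)
        have h3 := (ZMod.intCast_zmod_eq_zero_iff_dvd _ p).mpr h2
        push_cast at h3
        rw [hkdef, pow_mul, pow_mul, ZMod.pow_card_pow, ZMod.pow_card_pow] at h3
        exact sub_eq_zero.mp h3
  rw [Nat.card_Ico, card_sdiff_of_subset hAB] at hmain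
  have := card_le_card hAB
  rw [Nat.mul_sub] at hmain
  have h4 : k' * A.card ≤ k' * B.card := Nat.mul_le_mul_left _ this
  omega

lemma rep_all {p t k' e j : ℕ} (hp : p.Prime) (hk' : 1 ≤ k') (he : 1 ≤ e)
    (hpe : p ^ e ≤ 4 * (p - 1)) (hj : 4 * (p ^ t * k') ≤ j) (r : ZMod (p ^ (t + e))) :
    Rep (p ^ t * k') j r := by
  classical
  have : NeZero (p ^ (t + e)) := ⟨pow_ne_zero _ hp.ne_zero⟩
  have hk : 1 ≤ p ^ t * k' := Nat.mul_pos (pow_pos hp.pos _) hk'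
  by_contra hr
  have key : ∀ i, i ≤ j → i * (p - 1) + k' ≤
      k' * (univ.filter (Rep (R := ZMod (p ^ (t + e))) (p ^ t * k') i)).card := by
    intro i
    induction i with
    | zero =>
      intro _
      have : 1 ≤ (univ.filter (Rep (R := ZMod (p ^ (t + e))) (p ^ t * k') 0)).card :=
        card_pos.mpr ⟨0, by simpa using Rep.zero hk 0⟩
      nlinarith
    | succ i ih =>
      intro hi
      have h1 := ih (by omega)
      have h2 := grow (t := t) (j := i) hp hk' (show 0 < t + e by omega)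
        ⟨r, fun h => hr (h.mono hk (by omega))⟩
      linarith only [this, h1, h2]
  have h1 := key j le_rfl
  have h2 : (univ.filter (Rep (R := ZMod (p ^ (t + e))) (p ^ t * k') j)).card ≤ p ^ (t + e) := by
    refine (card_filter_le _ _).trans ?_
    simp [ZMod.card]
  have h3 : k' * p ^ (t + e) ≤ j * (p - 1) := by
    calc k' * p ^ (t + e) = (p ^ t * k') * p ^ e := by ring
      _ ≤ (p ^ t * k') * (4 * (p - 1)) := Nat.mul_le_mul_left _ hpe
      _ = 4 * (p ^ t * k') * (p - 1) := by ring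
      _ ≤ j * (p - 1) := Nat.mul_le_mul_right _ hj
  have h4 := Nat.mul_le_mul_left k' h2
  omega

lemma NS_ge {p t k' e s m : ℕ} (hp : p.Prime) (hk' : ¬ p ∣ k') (he : 1 ≤ e)
    (hep : e + 2 ≤ e * p) (hpe : p ^ e ≤ 4 * (p - 1)) (hs : 4 * (p ^ t * k') ≤ s) (n : ℕ) :
    (p ^ m) ^ s ≤ NS (ZMod (p ^ (t + (e + m)))) (p ^ t * k') (s + 1) n := by
  classical
  have : NeZero (p ^ (t + (e + m))) := ⟨pow_ne_zero _ hp.ne_zero⟩
  have hk1 : 1 ≤ k' := Nat.pos_of_ne_zero fun h => hk' (by simp [h])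
  set k := p ^ t * k' with hkdef
  obtain ⟨x, hx⟩ := rep_all (j := s) hp hk1 he hpe hs ((n : ZMod (p ^ (t + e))) - 1)
  choose a ha using fun i => ZMod.intCast_surjective (x i)
  have hlift : ∀ z : Fin s → Fin (p ^ m), ∃ y : ℤ, (p : ℤ) ^ (t + (e + m)) ∣
      ((n : ℤ) - ∑ i, (a i + (p : ℤ) ^ (t + e) * ((z i : ℕ) : ℤ)) ^ k) - y ^ k := by
    intro z
    have h1 : (p : ℤ) ^ (t + e) ∣
        ((n : ℤ) - ∑ i, (a i + (p : ℤ) ^ (t + e) * ((z i : ℕ) : ℤ)) ^ k) - 1 := by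
      have h0 : ((p : ZMod (p ^ (t + e)))) ^ (t + e) = 0 := by
        rw [← Nat.cast_pow, ZMod.natCast_self]
      have := (ZMod.intCast_zmod_eq_zero_iff_dvd
        (((n : ℤ) - ∑ i, (a i + (p : ℤ) ^ (t + e) * ((z i : ℕ) : ℤ)) ^ k) - 1) (p ^ (t + e))).mp (by
          push_cast
          simp only [h0, zero_mul, add_zero, ha]
          rw [← hkdef] at hx
          rw [hx]; ring)
      exact_mod_cast this
    obtain ⟨y, -, hy⟩ := lift_all hp hk' he hep _ h1 m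
    exact ⟨y, hy⟩
  choose y hy using hlift
  have hcard : Nat.card (Fin s → Fin (p ^ m)) = (p ^ m) ^ s := by simp
  rw [← hcard]
  unfold NS
  refine Nat.card_le_card_of_injective (fun z => ⟨Fin.cons ((y z : ℤ) : ZMod (p ^ (t + (e + m))))
    (fun i => ((a i + (p : ℤ) ^ (t + e) * ((z i : ℕ) : ℤ) : ℤ) : ZMod (p ^ (t + (e + m))))), ?_⟩) ?_
  · rw [Fin.sum_univ_succ]
    simp only [Fin.cons_zero, Fin.cons_succ]
    have := (ZMod.intCast_zmod_eq_zero_iff_dvd _ (p ^ (t + (e + m)))).mpr (by exact_mod_cast hy z)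
    push_cast at this ⊢
    linear_combination -this
  · intro z z' h
    funext i
    have h1 := congrFun (congrArg Subtype.val h) i.succ
    simp only [Fin.cons_succ] at h1
    have h2 := (ZMod.intCast_eq_intCast_iff_dvd_sub _ _ _).mp h1
    have h3 : (p : ℤ) ^ (t + e) * (p : ℤ) ^ m ∣
        (p : ℤ) ^ (t + e) * (((z' i : ℕ) : ℤ) - ((z i : ℕ) : ℤ)) := by
      have h4 : ((p ^ (t + (e + m)) : ℕ) : ℤ) = (p : ℤ) ^ (t + e) * (p : ℤ) ^ m := by
        push_cast; ring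
      rw [← h4]; convert h2 using 1; ring
    have hp0 : (p : ℤ) ^ (t + e) ≠ 0 := pow_ne_zero _ (by exact_mod_cast hp.ne_zero)
    have h5 := (mul_dvd_mul_iff_left hp0).mp h3
    have h6 : ((z i : ℕ) : ℤ) < (p : ℤ) ^ m := by exact_mod_cast (z i).2
    have h7 : ((z' i : ℕ) : ℤ) < (p : ℤ) ^ m := by exact_mod_cast (z' i).2
    have h8 := Int.eq_zero_of_abs_lt_dvd h5 (by rw [abs_lt]; constructor <;> omega)
    exact Fin.ext (by omega)

/-- the local lower bound -/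
lemma local_bound {p k s : ℕ} (hp : p.Prime) (hk : 1 ≤ k) (hs : 4 * k ≤ s) :
    ∃ g : ℕ, ∀ m n : ℕ, (p ^ m) ^ s ≤ NS (ZMod (p ^ (g + m))) k (s + 1) n := by
  obtain ⟨t, k', hk', rfl⟩ := Nat.exists_eq_pow_mul_and_not_dvd (show k ≠ 0 by omega) p hp.ne_one
  rcases hp.eq_two_or_odd' with rfl | hodd
  · refine ⟨t + 2, fun m n => ?_⟩
    rw [add_assoc]
    exact NS_ge hp hk' (by norm_num) (by norm_num) (by norm_num) hs n
  · have h3 : 3 ≤ p := by
      have := hp.two_le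
      obtain ⟨c, hc⟩ := hodd
      omega
    refine ⟨t + 1, fun m n => ?_⟩
    rw [add_assoc]
    exact NS_ge hp hk' le_rfl (by omega) (by rw [pow_one]; omega) hs n

end Pool.Agent.Work.MP_45c923_nt.Sing
end

-- merged part: Pool.Agent.Work.MP_45c923_nt.SingAux2
section
/-!
# The singular series: orthogonality and tail bounds
-/

set_option autoImplicit false

namespace Pool.Agent.Work.MP_45c923_nt.Sing

open Finset Pool.Agent.Lib.LargeSieve

noncomputable section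

/-- one term of the singular series -/
def TA (k s n q a : ℕ) : ℂ := (SS k q a / q) ^ s * ee (-((a : ℝ) / q * n))

lemma sum_range_mul_of_periodic (f : ℕ → ℂ) (q : ℕ) (hf : ∀ x m, f (q * m + x) = f x) (d : ℕ) :
    ∑ x ∈ range (q * d), f x = d * ∑ x ∈ range q, f x := by
  induction d with
  | zero => simp
  | succ d ih =>
    rw [Nat.mul_succ, sum_range_add, ih]
    simp only [hf]
    push_cast; ring

lemma ee_div_congr {q : ℕ} (hq : 0 < q) {a b : ℤ} (h : (q : ℤ) ∣ a - b) :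
    ee ((a : ℝ) / q) = ee ((b : ℝ) / q) := by
  obtain ⟨c, hc⟩ := h
  have hq' : (q : ℝ) ≠ 0 := by positivity
  have h1 : (a : ℝ) = b + q * c := by
    have : a = b + q * c := by linear_combination hc
    exact_mod_cast this
  rw [h1, add_div, mul_div_cancel_left₀ _ hq', ee_add_int]

lemma SS_mul (k : ℕ) {q d : ℕ} (hq : 0 < q) (hd : 0 < d) (a : ℕ) :
    SS k (q * d) ((a * d : ℕ) : ℤ) = d * SS k q a := by
  unfold SS
  have hq' : (q : ℝ) ≠ 0 := by positivity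
  have hd' : (d : ℝ) ≠ 0 := by positivity
  rw [← sum_range_mul_of_periodic (fun x => ee (((a : ℤ) : ℝ) * (x : ℝ) ^ k / q)) q ?_ d]
  · refine sum_congr rfl fun x _ => ?_
    congr 1
    push_cast
    field_simp
  · intro x m
    have h := ee_div_congr hq (a := (a : ℤ) * ((q * m + x : ℕ) : ℤ) ^ k) (b := (a : ℤ) * (x : ℤ) ^ k)
      (by
        rw [← mul_sub]
        refine Dvd.dvd.mul_left ((Dvd.intro (m : ℤ) ?_).trans (sub_dvd_pow_sub_pow _ _ k)) _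
        push_cast; ring)
    simpa using h

lemma TA_mul (k s n : ℕ) {q d : ℕ} (hq : 0 < q) (hd : 0 < d) (a : ℕ) :
    TA k s n (q * d) (a * d) = TA k s n q a := by
  unfold TA
  have hq' : (q : ℝ) ≠ 0 := by positivity
  have hd' : (d : ℝ) ≠ 0 := by positivity
  have hq2 : (q : ℂ) ≠ 0 := by exact_mod_cast hq.ne'
  have hd2 : (d : ℂ) ≠ 0 := by exact_mod_cast hd.ne'
  rw [SS_mul k hq hd a]
  congr 2
  · push_cast; field_simp
  · push_cast; field_simp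

lemma sum_divisors_AA (k s n : ℕ) {W : ℕ} (hW : 0 < W) :
    ∑ q ∈ W.divisors, AA k s n q = ∑ a ∈ range W, TA k s n W a := by
  have h1 : ∀ q, AA k s n q = ∑ a ∈ RR q, TA k s n q a := fun q => rfl
  simp only [h1]
  rw [sum_sigma']
  refine sum_nbij' (fun x => x.2 * (W / x.1))
    (fun a => ⟨W / Nat.gcd a W, a / Nat.gcd a W⟩) ?_ ?_ ?_ ?_ ?_
  · rintro ⟨q, a⟩ hx
    simp only [mem_sigma, Nat.mem_divisors, RR, mem_filter, mem_range] at hx ⊢
    obtain ⟨⟨⟨d, rfl⟩, -⟩, ha, -⟩ := hx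
    have hq : 0 < q := by omega
    have hd : 0 < d := Nat.pos_of_mul_pos_left hW
    rw [Nat.mul_div_cancel_left _ hq]
    exact Nat.mul_lt_mul_of_pos_right ha hd
  · intro a ha
    simp only [mem_sigma, Nat.mem_divisors, RR, mem_filter, mem_range] at ha ⊢
    have hg : 0 < Nat.gcd a W := Nat.gcd_pos_of_pos_right _ hW
    refine ⟨⟨Nat.div_dvd_of_dvd (Nat.gcd_dvd_right _ _), hW.ne'⟩, ?_, Nat.coprime_div_gcd_div_gcd hg⟩
    exact Nat.div_lt_div_of_lt_of_dvd (Nat.gcd_dvd_right _ _) ha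
  · rintro ⟨q, a⟩ hx
    simp only [mem_sigma, Nat.mem_divisors, RR, mem_filter, mem_range] at hx ⊢
    obtain ⟨⟨⟨d, rfl⟩, -⟩, ha, hc⟩ := hx
    have hq : 0 < q := by omega
    have hd : 0 < d := Nat.pos_of_mul_pos_left hW
    rw [Nat.mul_div_cancel_left _ hq, Nat.gcd_mul_right, hc.gcd_eq_one, one_mul,
      Nat.mul_div_cancel _ hd, Nat.mul_div_cancel _ hd]
  · intro a ha
    simp only [mem_range] at ha ⊢
    rw [Nat.div_div_self (Nat.gcd_dvd_right _ _) hW.ne', Nat.div_mul_cancel (Nat.gcd_dvd_left _ _)]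
  · rintro ⟨q, a⟩ hx
    simp only [mem_sigma, Nat.mem_divisors, RR, mem_filter, mem_range] at hx ⊢
    obtain ⟨⟨⟨d, rfl⟩, -⟩, ha, hc⟩ := hx
    have hq : 0 < q := by omega
    have hd : 0 < d := Nat.pos_of_mul_pos_left hW
    rw [Nat.mul_div_cancel_left _ hq, TA_mul k s n hq hd]

lemma sum_range_cast {W : ℕ} [NeZero W] (f : ZMod W → ℂ) :
    ∑ x ∈ range W, f (x : ZMod W) = ∑ y, f y := by
  refine sum_nbij' (fun x => (x : ZMod W)) (fun y => y.val) ?_ ?_ ?_ ?_ ?_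
  · intro x _; simp
  · intro y _; simpa using ZMod.val_lt y
  · intro x hx; exact ZMod.val_cast_of_lt (mem_range.mp hx)
  · intro y _; simp
  · intro x _; rfl

lemma ee_eq_std {W : ℕ} [NeZero W] (j : ℤ) :
    ee ((j : ℝ) / W) = ZMod.stdAddChar (j : ZMod W) := by
  rw [ZMod.stdAddChar_coe]
  unfold ee
  congr 1
  push_cast; ring

lemma sum_TA (k s n : ℕ) {W : ℕ} (hW : 0 < W) :
    ∑ a ∈ range W, TA k (s + 1) n W a = (NS (ZMod W) k (s + 1) n : ℂ) / (W : ℂ) ^ s := by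
  classical
  have : NeZero W := ⟨hW.ne'⟩
  have hW' : (W : ℂ) ≠ 0 := by exact_mod_cast hW.ne'
  have h1 : ∀ a : ℕ, SS k W a = ∑ y : ZMod W, ZMod.stdAddChar ((a : ZMod W) * y ^ k) := by
    intro a
    rw [← sum_range_cast]
    refine sum_congr rfl fun x _ => ?_
    have := ee_eq_std (W := W) ((a : ℤ) * (x : ℤ) ^ k)
    push_cast at this ⊢
    exact this
  have h2 : ∀ a : ℕ, ee (-((a : ℝ) / W * n)) = ZMod.stdAddChar (-((a : ZMod W) * (n : ZMod W))) := by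
    intro a
    have := ee_eq_std (W := W) (-((a : ℤ) * n))
    push_cast at this
    rw [← this]
    congr 1; ring
  have h3 : ∀ a : ℕ, TA k (s + 1) n W a = (∑ x : Fin (s + 1) → ZMod W,
      ZMod.stdAddChar ((a : ZMod W) * (∑ i, x i ^ k - (n : ZMod W)))) / (W : ℂ) ^ (s + 1) := by
    intro a
    unfold TA
    rw [h1, h2, div_pow, div_mul_eq_mul_div]
    congr 1
    rw [← Fin.prod_const, prod_univ_sum, Fintype.piFinset_univ, sum_mul]
    refine sum_congr rfl fun x _ => ?_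
    rw [mul_sub, sub_eq_add_neg, AddChar.map_add_eq_mul, mul_sum]
    congr 1
    induction (univ : Finset (Fin (s + 1))) using Finset.induction_on with
    | empty => simp
    | insert i t hi ih => rw [prod_insert hi, sum_insert hi, AddChar.map_add_eq_mul, ih]
  simp only [h3]
  rw [← sum_div, sum_range_cast (fun a => ∑ x : Fin (s + 1) → ZMod W,
      ZMod.stdAddChar (a * (∑ i, x i ^ k - (n : ZMod W)))), sum_comm]
  simp only [AddChar.sum_mulShift _ (ZMod.isPrimitive_stdAddChar W), ZMod.card, sub_eq_zero]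
  unfold NS
  rw [Nat.card_eq_fintype_card, Fintype.card_subtype]
  push_cast
  rw [← sum_filter, sum_const, nsmul_eq_mul, pow_succ]
  field_simp

/-- the local density -/
def chi (k s n W : ℕ) : ℝ := (NS (ZMod W) k (s + 1) n : ℝ) / (W : ℝ) ^ s

lemma sum_divisors_eq_chi (k s n : ℕ) {W : ℕ} (hW : 0 < W) :
    ∑ q ∈ W.divisors, AA k (s + 1) n q = (chi k s n W : ℂ) := by
  rw [sum_divisors_AA k _ n hW, sum_TA k s n hW]
  unfold chi
  push_cast; rfl

lemma chi_nonneg (k s n W : ℕ) : 0 ≤ chi k s n W := by unfold chi; positivity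

lemma chi_mul (k s n : ℕ) {a b : ℕ} (h : Nat.Coprime a b) :
    chi k s n (a * b) = chi k s n a * chi k s n b := by
  unfold chi
  rw [NS_mul h]
  push_cast
  rw [mul_pow, div_mul_div_comm]

lemma AA_one (k s n : ℕ) : AA k s n 1 = 1 := by
  simp [AA, RR, SS]

lemma chi_one (k s n : ℕ) : chi k s n 1 = 1 := by
  have := sum_divisors_eq_chi k s n (W := 1) one_pos
  simp only [Nat.divisors_one, sum_singleton, AA_one] at this
  exact_mod_cast this.symm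

lemma chi_local {p k s : ℕ} (hp : p.Prime) (hk : 1 ≤ k) (hs : 4 * k ≤ s) :
    ∃ c : ℝ, 0 < c ∧ ∃ g : ℕ, ∀ h, g ≤ h → ∀ n, c ≤ chi k s n (p ^ h) := by
  obtain ⟨g, hg⟩ := local_bound hp hk hs
  have hp0 : (0 : ℝ) < p := by exact_mod_cast hp.pos
  refine ⟨1 / ((p : ℝ) ^ g) ^ s, by positivity, g, fun h hh n => ?_⟩
  obtain ⟨m, rfl⟩ := Nat.exists_eq_add_of_le hh
  have h1 : (((p : ℝ)) ^ m) ^ s ≤ (NS (ZMod (p ^ (g + m))) k (s + 1) n : ℝ) := by
    exact_mod_cast hg m n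
  unfold chi
  push_cast
  rw [div_le_div_iff₀ (by positivity) (by positivity), pow_add, mul_pow, one_mul, mul_comm]
  exact mul_le_mul_of_nonneg_right h1 (by positivity)

lemma gauss_nonneg {k : ℕ} {C : ℝ} (hG : GaussB k C) : 0 ≤ C := by
  have := hG 1 le_rfl 0
  have h2 : (0 : ℝ) ≤ (‖SS k 1 0‖ / (1 : ℕ)) ^ k := by positivity
  simpa using h2.trans this

lemma norm_SS_le (k q : ℕ) (b : ℤ) : ‖SS k q b‖ ≤ q := by
  unfold SS
  refine (norm_sum_le _ _).trans ?_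
  simp

lemma norm_AA_le {k s : ℕ} {C : ℝ} (hs : 3 * k ≤ s) (hG : GaussB k C) (n : ℕ) {q : ℕ}
    (hq : 1 ≤ q) : ‖AA k s n q‖ ≤ C ^ 3 * ((q : ℝ) ^ 2)⁻¹ := by
  have hC := gauss_nonneg hG
  have hq0 : (0 : ℝ) < q := by exact_mod_cast hq
  have h1 : ∀ a ∈ RR q, ‖(SS k q a / q) ^ s * ee (-((a : ℝ) / q * n))‖ ≤ (C / q) ^ 3 := by
    intro a ha
    have hc : Nat.Coprime a q := (mem_filter.mp ha).2
    rw [norm_mul, norm_ee, mul_one, norm_pow, norm_div, Complex.norm_natCast]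
    have h2 := hG q hq a
    rw [Int.gcd_natCast_natCast, hc.gcd_eq_one, Nat.cast_one, mul_one] at h2
    have h3 : ‖SS k q a‖ / q ≤ 1 := (div_le_one hq0).mpr (norm_SS_le _ _ _)
    have h4 : 0 ≤ ‖SS k q a‖ / q := by positivity
    calc (‖SS k q a‖ / q) ^ s ≤ (‖SS k q a‖ / q) ^ (k * 3) :=
          pow_le_pow_of_le_one h4 h3 (by omega)
      _ = ((‖SS k q a‖ / q) ^ k) ^ 3 := pow_mul _ _ _
      _ ≤ (C / q) ^ 3 := pow_le_pow_left₀ (by positivity) h2 3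
  have hcard : ((RR q).card : ℝ) ≤ q := by
    have : (RR q).card ≤ q := (card_filter_le _ _).trans (by simp)
    exact_mod_cast this
  calc ‖AA k s n q‖ ≤ ∑ a ∈ RR q, (C / q) ^ 3 := (norm_sum_le _ _).trans (sum_le_sum h1)
    _ = (RR q).card * (C / q) ^ 3 := by rw [sum_const, nsmul_eq_mul]
    _ ≤ q * (C / q) ^ 3 := mul_le_mul_of_nonneg_right hcard (by positivity)
    _ = C ^ 3 * ((q : ℝ) ^ 2)⁻¹ := by field_simp

lemma norm_tail_le {k s : ℕ} {C : ℝ} (hs : 3 * k ≤ s) (hG : GaussB k C) (n : ℕ) (T : Finset ℕ)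
    (m : ℕ) (hT : ∀ q ∈ T, m < q) : ‖∑ q ∈ T, AA k s n q‖ ≤ C ^ 3 * (2 / (m + 1)) := by
  have hC := gauss_nonneg hG
  have h1 : T ⊆ Ioo m (T.sup id + 1) := by
    intro q hq
    rw [mem_Ioo]
    exact ⟨hT q hq, Nat.lt_succ_of_le (le_sup (f := id) hq)⟩
  calc ‖∑ q ∈ T, AA k s n q‖ ≤ ∑ q ∈ T, C ^ 3 * ((q : ℝ) ^ 2)⁻¹ :=
        (norm_sum_le _ _).trans (sum_le_sum fun q hq => norm_AA_le hs hG n (by
          have := hT q hq; omega))
    _ = C ^ 3 * ∑ q ∈ T, ((q : ℝ) ^ 2)⁻¹ := by rw [mul_sum]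
    _ ≤ C ^ 3 * ∑ q ∈ Ioo m (T.sup id + 1), ((q : ℝ) ^ 2)⁻¹ :=
        mul_le_mul_of_nonneg_left
          (sum_le_sum_of_subset_of_nonneg h1 fun _ _ _ => by positivity) (by positivity)
    _ ≤ C ^ 3 * (2 / (m + 1)) :=
        mul_le_mul_of_nonneg_left (sum_Ioo_inv_sq_le m _) (by positivity)

end

end Pool.Agent.Work.MP_45c923_nt.Sing
end

-- merged part: Pool.Agent.Work.MP_45c923_nt.Approx
section
/-!
# Major arc approximation of the generating function, and bounds for the smoothed sums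
-/

set_option autoImplicit false

namespace Pool.Agent.Work.MP_45c923_nt

open Finset Pool.Agent.Lib.LargeSieve

noncomputable section

namespace ApproxAux

lemma sum_Ioc_eq_range {E : Type*} [AddCommMonoid E] (f : ℕ → E) (Y L : ℕ) :
    ∑ y ∈ Ioc Y (Y + L), f y = ∑ i ∈ range L, f (Y + 1 + i) := by
  induction L with
  | zero => simp
  | succ L ih =>
    rw [← add_assoc, sum_Ioc_succ_top (by omega), ih, sum_range_succ]
    congr 2; omega

/-- summation by parts -/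
lemma abel (c g : ℕ → ℂ) (T : ℕ → ℝ) {K : ℝ} (hK : ∀ n, ‖∑ i ∈ range n, c i‖ ≤ K)
    (hg : ∀ i, ‖g (i + 1) - g i‖ ≤ T (i + 1) - T i) (L : ℕ) :
    ‖∑ i ∈ range (L + 1), c i * g i‖ ≤ K * (T L - T 0) + K * ‖g L‖ := by
  have hK0 : 0 ≤ K := (norm_nonneg _).trans (hK 0)
  have key : ∀ L, ‖∑ i ∈ range (L + 1), c i * g i - (∑ i ∈ range (L + 1), c i) * g L‖
      ≤ K * (T L - T 0) := by
    intro L
    induction L with
    | zero => simp
    | succ L ih =>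
      have e : ∑ i ∈ range (L + 1 + 1), c i * g i - (∑ i ∈ range (L + 1 + 1), c i) * g (L + 1)
          = (∑ i ∈ range (L + 1), c i * g i - (∑ i ∈ range (L + 1), c i) * g L)
            - (∑ i ∈ range (L + 1), c i) * (g (L + 1) - g L) := by
        rw [sum_range_succ _ (L + 1), sum_range_succ _ (L + 1)]; ring
      rw [e]
      refine (norm_sub_le _ _).trans ?_
      rw [norm_mul]
      have h1 : ‖∑ i ∈ range (L + 1), c i‖ * ‖g (L + 1) - g L‖ ≤ K * (T (L + 1) - T L) :=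
        mul_le_mul (hK _) (hg L) (norm_nonneg _) hK0
      linarith
  have h1 := norm_le_insert' (∑ i ∈ range (L + 1), c i * g i) ((∑ i ∈ range (L + 1), c i) * g L)
  rw [norm_mul] at h1
  have h2 : ‖∑ i ∈ range (L + 1), c i‖ * ‖g L‖ ≤ K * ‖g L‖ :=
    mul_le_mul_of_nonneg_right (hK _) (norm_nonneg _)
  linarith [key L]

lemma block_sum (c : ℕ → ℂ) (q : ℕ) (hc : ∀ n, c (n + q) = c n) (n : ℕ) :
    ∑ i ∈ range q, c (n + i) = ∑ i ∈ range q, c i := by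
  induction n with
  | zero => simp
  | succ n ih =>
    have h1 := sum_range_succ (fun i => c (n + i)) q
    have h2 := sum_range_succ' (fun i => c (n + i)) q
    rw [h1, hc, add_zero] at h2
    rw [← ih, add_right_cancel h2]
    refine sum_congr rfl fun i _ => ?_
    congr 1; omega

lemma periodic_bound (c : ℕ → ℂ) {q : ℕ} (hq : 1 ≤ q) (hc : ∀ n, c (n + q) = c n)
    (h0 : ∑ i ∈ range q, c i = 0) (h2 : ∀ n, ‖c n‖ ≤ 2) (N n : ℕ) :
    ‖∑ i ∈ range n, c (N + i)‖ ≤ 2 * q := by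
  induction n using Nat.strong_induction_on with
  | _ n ih =>
    rcases lt_or_ge n q with h | h
    · refine (norm_sum_le _ _).trans ((sum_le_sum fun i _ => h2 _).trans ?_)
      have : (n : ℝ) ≤ q := by exact_mod_cast h.le
      simp only [sum_const, card_range, nsmul_eq_mul]
      linarith only [this]
    · obtain ⟨m, rfl⟩ := Nat.exists_eq_add_of_le' h
      rw [sum_range_add]
      have : ∑ i ∈ range q, c (N + (m + i)) = 0 := by
        rw [← h0, ← block_sum c q hc (N + m)]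
        exact sum_congr rfl fun i _ => by rw [add_assoc]
      rw [this, add_zero]
      exact ih m (by omega)

lemma ee_modEq (b : ℤ) (k : ℕ) {q : ℕ} (hq : 1 ≤ q) {x y : ℕ} (h : x ≡ y [MOD q]) :
    ee ((b : ℝ) * (x : ℝ) ^ k / q) = ee ((b : ℝ) * (y : ℝ) ^ k / q) := by
  have h1 : ((y ^ k : ℕ) : ℤ) ≡ ((x ^ k : ℕ) : ℤ) [ZMOD q] :=
    Int.natCast_modEq_iff.2 (h.symm.pow k)
  obtain ⟨t, ht⟩ := h1.dvd
  have hq0 : (q : ℝ) ≠ 0 := by positivity
  have h2 : (x : ℝ) ^ k - (y : ℝ) ^ k = q * t := by exact_mod_cast ht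
  rw [← ee_add_int ((b : ℝ) * (y : ℝ) ^ k / q) (b * t)]
  congr 1
  have h3 : (x : ℝ) ^ k = (y : ℝ) ^ k + q * t := by linarith only [h2]
  rw [h3]; push_cast; field_simp

lemma norm_SS_le (k q : ℕ) (b : ℤ) : ‖SS k q b‖ ≤ q := by
  unfold SS
  refine (norm_sum_le _ _).trans ?_
  simp

lemma pow_le_succ (k w y : ℕ) : (w * y) ^ k ≤ (w * (y + 1)) ^ k :=
  Nat.pow_le_pow_left (Nat.mul_le_mul_left _ (Nat.le_succ y)) k

lemma pow_lt_succ {k w : ℕ} (hk : 1 ≤ k) (hw : 1 ≤ w) (y : ℕ) : (w * y) ^ k < (w * (y + 1)) ^ k :=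
  Nat.pow_lt_pow_left (by linarith only [hw]) (by omega)

lemma block_avg {A B : ℕ} (h : A < B) (β : ℝ) :
    ‖ee (β * (A : ℝ)) - (((B - A : ℕ) : ℂ))⁻¹ * ∑ m ∈ Ico A B, ee (β * (m : ℝ))‖
      ≤ 7 * |β| * ((B : ℝ) - A) := by
  have hL : (0 : ℝ) < ((B - A : ℕ) : ℝ) := by exact_mod_cast Nat.sub_pos_of_lt h
  have hL' : ((B - A : ℕ) : ℂ) ≠ 0 := by exact_mod_cast (Nat.sub_pos_of_lt h).ne'
  have e : ee (β * (A : ℝ)) - (((B - A : ℕ) : ℂ))⁻¹ * ∑ m ∈ Ico A B, ee (β * (m : ℝ))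
      = (((B - A : ℕ) : ℂ))⁻¹ * ∑ m ∈ Ico A B, (ee (β * (A : ℝ)) - ee (β * (m : ℝ))) := by
    rw [sum_sub_distrib, sum_const, Nat.card_Ico, nsmul_eq_mul, mul_sub, ← mul_assoc,
      inv_mul_cancel₀ hL', one_mul]
  rw [e, norm_mul, norm_inv, Complex.norm_natCast, inv_mul_le_iff₀ hL]
  refine (norm_sum_le _ _).trans ?_
  have : ∀ m ∈ Ico A B, ‖ee (β * (A : ℝ)) - ee (β * (m : ℝ))‖ ≤ 7 * |β| * ((B : ℝ) - A) := by
    intro m hm
    obtain ⟨h1, h2⟩ := mem_Ico.1 hm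
    have h1' : (A : ℝ) ≤ m := by exact_mod_cast h1
    have h2' : (m : ℝ) ≤ B := by exact_mod_cast h2.le
    refine (norm_ee_sub_ee_le _ _).trans ?_
    rw [← mul_sub, abs_mul, abs_sub_comm, abs_of_nonneg (sub_nonneg.2 h1'), mul_assoc]
    have := abs_nonneg β
    gcongr
  refine (sum_le_sum this).trans ?_
  rw [sum_const, Nat.card_Ico, nsmul_eq_mul]

lemma convex_pow (k : ℕ) {y : ℝ} (hy : 0 ≤ y) :
    (y + 1) ^ k - y ^ k ≤ (y + 1 + 1) ^ k - (y + 1) ^ k := by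
  induction k with
  | zero => simp
  | succ k ih =>
    have h1 : y ^ k ≤ (y + 1) ^ k := pow_le_pow_left₀ hy (by linarith) k
    have h2 : (y + 1) * ((y + 1) ^ k - y ^ k) ≤ (y + 1 + 1) * ((y + 1 + 1) ^ k - (y + 1) ^ k) :=
      mul_le_mul (by linarith) ih (by linarith) (by linarith)
    have e1 : (y + 1) ^ (k + 1) - y ^ (k + 1) = (y + 1) * ((y + 1) ^ k - y ^ k) + y ^ k := by ring
    have e2 : (y + 1 + 1) ^ (k + 1) - (y + 1) ^ (k + 1)
        = (y + 1 + 1) * ((y + 1 + 1) ^ k - (y + 1) ^ k) + (y + 1) ^ k := by ring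
    rw [e1, e2]; linarith

lemma cast_len (k w y : ℕ) : (((w * (y + 1)) ^ k - (w * y) ^ k : ℕ) : ℝ)
    = (w : ℝ) ^ k * (((y : ℝ) + 1) ^ k - (y : ℝ) ^ k) := by
  rw [Nat.cast_sub (pow_le_succ k w y)]; push_cast; rw [mul_pow, mul_pow]; ring

lemma abs_le_dZ {β : ℝ} (hβ : |β| ≤ 1 / 2) : |β| ≤ dZ β := by
  unfold dZ
  rcases eq_or_ne (round β) 0 with h | h
  · rw [h]; simp
  · have h1 : (1 : ℝ) ≤ |((round β : ℤ) : ℝ)| := by
      exact_mod_cast Int.one_le_abs h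
    have h2 := abs_sub_abs_le_abs_sub ((round β : ℤ) : ℝ) β
    rw [abs_sub_comm] at h2
    linarith only [hβ, h1, h2]

lemma norm_sum_Ico_ee {β : ℝ} (hβ : |β| ≤ 1 / 2) (h0 : β ≠ 0) (A B : ℕ) :
    ‖∑ m ∈ Ico A B, ee (β * (m : ℝ))‖ ≤ 1 / (2 * |β|) := by
  have hp : 0 < |β| := abs_pos.2 h0
  have hd := abs_le_dZ hβ
  rw [sum_Ico_eq_sum_range]
  have e : ∑ m ∈ range (B - A), ee (β * ((A + m : ℕ) : ℝ))
      = ee (β * A) * ∑ m ∈ range (B - A), ee (m * β) := by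
    rw [mul_sum]
    refine sum_congr rfl fun m _ => ?_
    rw [← ee_add]; congr 1; push_cast; ring
  rw [e, norm_mul, norm_ee, one_mul]
  refine (norm_sum_ee_le _ _ (by linarith only [hp, hd])).trans ?_
  gcongr

end ApproxAux

open ApproxAux

theorem approx {k Y Z w q : ℕ} (hk : 1 ≤ k) (hw : 1 ≤ w) (hq : 1 ≤ q) (a : ℤ) (β : ℝ) :
    ‖∑ y ∈ Ioc Y Z, ee (((a : ℝ) / q + β) * (y : ℝ) ^ k * (w : ℝ) ^ k)
        - SS k q (a * (w : ℤ) ^ k) / q * VW k Y Z w β‖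
      ≤ 2 * q + 21 * q * |β| * ((w : ℝ) * (Z + 1)) ^ k := by
  have hq1 : (1 : ℝ) ≤ q := by exact_mod_cast hq
  have hq0 : (q : ℂ) ≠ 0 := by exact_mod_cast (show q ≠ 0 by omega)
  have hβ := abs_nonneg β
  rcases le_or_gt Z Y with hZ | hZ
  · unfold VW
    rw [Ioc_eq_empty (by omega)]
    simp only [sum_empty, mul_zero, sub_zero, norm_zero]
    positivity
  obtain ⟨L, rfl⟩ : ∃ L, Z = Y + (L + 1) := ⟨Z - Y - 1, by omega⟩
  obtain ⟨b, hb⟩ : ∃ b : ℤ, b = a * (w : ℤ) ^ k := ⟨_, rfl⟩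
  rw [← hb]
  obtain ⟨s, hs⟩ : ∃ s : ℂ, s = SS k q b / q := ⟨_, rfl⟩
  rw [← hs]
  have hs1 : ‖s‖ ≤ 1 := by
    rw [hs, norm_div, Complex.norm_natCast, div_le_one (by linarith only [hq1])]
    exact norm_SS_le k q b
  obtain ⟨c, hc⟩ : ∃ c : ℕ → ℂ, c = fun y : ℕ => ee ((b : ℝ) * (y : ℝ) ^ k / q) - s := ⟨_, rfl⟩
  obtain ⟨g, hg⟩ : ∃ g : ℕ → ℂ, g = fun y : ℕ => ee (β * (((w * y) ^ k : ℕ) : ℝ)) := ⟨_, rfl⟩
  obtain ⟨T, hT⟩ : ∃ T : ℕ → ℝ, T = fun y : ℕ => 7 * |β| * (((w * y) ^ k : ℕ) : ℝ) := ⟨_, rfl⟩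
  have hT0 : ∀ y, 0 ≤ T y := fun y => by rw [hT]; positivity
  have hTm : ∀ y, T y ≤ T (y + 1) := fun y => by
    rw [hT]
    exact mul_le_mul_of_nonneg_left (by exact_mod_cast pow_le_succ k w y) (by positivity)
  have hcp : ∀ n, c (n + q) = c n := fun n => by
    rw [hc]
    simp only
    rw [ee_modEq b k hq (x := n + q) (y := n) (by simp)]
  have hc0 : ∑ i ∈ range q, c i = 0 := by
    rw [hc, sum_sub_distrib, sum_const, card_range, nsmul_eq_mul, hs, mul_div_cancel₀ _ hq0]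
    exact sub_self _
  have hc2 : ∀ n, ‖c n‖ ≤ 2 := fun n => by
    rw [hc]
    refine (norm_sub_le _ _).trans ?_
    rw [norm_ee]; linarith only [hs1]
  have hgT : ∀ y, ‖g (y + 1) - g y‖ ≤ T (y + 1) - T y := fun y => by
    rw [hg, hT]
    refine (norm_ee_sub_ee_le _ _).trans (le_of_eq ?_)
    have h1 : (((w * y) ^ k : ℕ) : ℝ) ≤ (((w * (y + 1)) ^ k : ℕ) : ℝ) := by
      exact_mod_cast pow_le_succ k w y
    rw [← mul_sub, abs_mul, abs_of_nonneg (sub_nonneg.2 h1)]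
    ring
  have h1 : ‖∑ y ∈ Ioc Y (Y + (L + 1)), c y * g y‖ ≤ 2 * q * T (Y + (L + 1) + 1) + 2 * q := by
    rw [sum_Ioc_eq_range]
    have := abel (fun i => c (Y + 1 + i)) (fun i => g (Y + 1 + i)) (fun i => T (Y + 1 + i))
      (periodic_bound c hq hcp hc0 hc2 (Y + 1)) (fun i => hgT (Y + 1 + i)) L
    refine this.trans ?_
    have h2 : ‖g (Y + 1 + L)‖ = 1 := by rw [hg]; exact norm_ee _
    rw [h2, mul_one]
    have h3 := hTm (Y + 1 + L)
    rw [show Y + 1 + L + 1 = Y + (L + 1) + 1 by omega] at h3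
    have h4 := hT0 (Y + 1 + 0)
    gcongr
    linarith only [h3, h4]
  have h2 : ‖∑ y ∈ Ioc Y (Y + (L + 1)), g y - VW k Y (Y + (L + 1)) w β‖
      ≤ T (Y + (L + 1) + 1) := by
    unfold VW
    rw [← sum_sub_distrib]
    refine (norm_sum_le _ _).trans ?_
    have : ∀ y ∈ Ioc Y (Y + (L + 1)), ‖g y - ((((w * (y + 1)) ^ k - (w * y) ^ k : ℕ) : ℂ))⁻¹ *
        ∑ m ∈ Ico ((w * y) ^ k) ((w * (y + 1)) ^ k), ee (β * (m : ℝ))‖ ≤ T (y + 1) - T y := by
      intro y _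
      rw [hg, hT]
      refine (block_avg (pow_lt_succ hk hw y) β).trans (le_of_eq ?_)
      ring
    refine (sum_le_sum this).trans ?_
    rw [sum_Ioc_eq_range]
    have h5 := sum_range_sub (fun i => T (Y + 1 + i)) (L + 1)
    simp only [← add_assoc] at h5 ⊢
    rw [h5]
    have h4 := hT0 (Y + 1 + 0)
    rw [show Y + 1 + L + 1 = Y + L + 1 + 1 by omega]
    linarith only [h4]
  have e : ∑ y ∈ Ioc Y (Y + (L + 1)), ee (((a : ℝ) / q + β) * (y : ℝ) ^ k * (w : ℝ) ^ k)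
        - s * VW k Y (Y + (L + 1)) w β
      = ∑ y ∈ Ioc Y (Y + (L + 1)), c y * g y
        + s * (∑ y ∈ Ioc Y (Y + (L + 1)), g y - VW k Y (Y + (L + 1)) w β) := by
    rw [mul_sub, mul_sum, ← add_sub_assoc, ← sum_add_distrib]
    congr 1
    refine sum_congr rfl fun y _ => ?_
    rw [hc, hg, ← add_mul]
    simp only
    rw [sub_add_cancel, ← ee_add, hb]
    congr 1
    push_cast
    ring
  rw [e]
  refine (norm_add_le _ _).trans ?_
  rw [norm_mul]
  have h3 : ‖s‖ * ‖∑ y ∈ Ioc Y (Y + (L + 1)), g y - VW k Y (Y + (L + 1)) w β‖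
      ≤ q * T (Y + (L + 1) + 1) :=
    mul_le_mul (hs1.trans hq1) h2 (norm_nonneg _) (by linarith only [hq1])
  have h4 : T (Y + (L + 1) + 1) = 7 * |β| * ((w : ℝ) * (((Y + (L + 1) : ℕ) : ℝ) + 1)) ^ k := by
    rw [hT]; push_cast; ring
  rw [h4] at h1 h3
  linarith only [h1, h3]

theorem norm_VW_le (k Y Z w : ℕ) (β : ℝ) : ‖VW k Y Z w β‖ ≤ Z := by
  unfold VW
  refine (norm_sum_le _ _).trans ?_
  have : ∀ y ∈ Ioc Y Z, ‖((((w * (y + 1)) ^ k - (w * y) ^ k : ℕ) : ℂ))⁻¹ *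
      ∑ m ∈ Ico ((w * y) ^ k) ((w * (y + 1)) ^ k), ee (β * (m : ℝ))‖ ≤ 1 := by
    intro y _
    rw [norm_mul, norm_inv, Complex.norm_natCast]
    refine inv_mul_le_one_of_le₀ ((norm_sum_le _ _).trans ?_) (Nat.cast_nonneg _)
    simp
  refine (sum_le_sum this).trans ?_
  rw [sum_const, Nat.card_Ioc, nsmul_eq_mul, mul_one]
  exact_mod_cast Nat.sub_le Z Y

theorem norm_VW_le' {k w : ℕ} (hk : 1 ≤ k) (hw : 1 ≤ w) (Y Z : ℕ) {β : ℝ} (hβ : |β| ≤ 1 / 2) :
    |β| * ((w : ℝ) ^ k * (Y : ℝ) ^ (k - 1)) * ‖VW k Y Z w β‖ ≤ 1 := by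
  rcases eq_or_ne β 0 with rfl | h0
  · simp
  have hp : 0 < |β| := abs_pos.2 h0
  rcases le_or_gt Z Y with hZ | hZ
  · unfold VW
    rw [Ioc_eq_empty (by omega)]
    simp
  obtain ⟨L, rfl⟩ : ∃ L, Z = Y + (L + 1) := ⟨Z - Y - 1, by omega⟩
  obtain ⟨D, hD⟩ : ∃ D : ℕ → ℝ, D = fun y : ℕ => (((w * (y + 1)) ^ k - (w * y) ^ k : ℕ) : ℝ) :=
    ⟨_, rfl⟩
  have hD0 : ∀ y, 0 < D y := fun y => by
    rw [hD]
    exact Nat.cast_pos.2 (Nat.sub_pos_of_lt (pow_lt_succ hk hw y))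
  have hDm : ∀ y, D y ≤ D (y + 1) := fun y => by
    rw [hD]
    simp only [cast_len]
    push_cast
    exact mul_le_mul_of_nonneg_left (convex_pow k (Nat.cast_nonneg y)) (by positivity)
  have hD1 : (w : ℝ) ^ k * (Y : ℝ) ^ (k - 1) ≤ D (Y + 1) := by
    rw [hD]
    simp only [cast_len]
    obtain ⟨j, rfl⟩ : ∃ j, k = j + 1 := ⟨k - 1, by omega⟩
    refine mul_le_mul_of_nonneg_left ?_ (by positivity)
    push_cast
    have hY : (0 : ℝ) ≤ Y := Nat.cast_nonneg Y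
    have h1 : (Y : ℝ) ^ j ≤ (Y + 1) ^ j := pow_le_pow_left₀ hY (by linarith only [hβ, hp]) j
    have h2 : ((Y : ℝ) + 1) ^ j ≤ (Y + 1 + 1) ^ j := pow_le_pow_left₀ (by linarith only [hβ, hp]) (by linarith only [hβ, hp]) j
    have h3 : ((Y : ℝ) + 1 + 1) * (Y + 1) ^ j ≤ (Y + 1 + 1) * (Y + 1 + 1) ^ j :=
      mul_le_mul_of_nonneg_left h2 (by linarith only [hβ, hp])
    rw [pow_succ', pow_succ']
    linarith only [h1, h3]
  obtain ⟨c, hc⟩ : ∃ c : ℕ → ℂ,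
    c = fun y : ℕ => ∑ m ∈ Ico ((w * y) ^ k) ((w * (y + 1)) ^ k), ee (β * (m : ℝ)) := ⟨_, rfl⟩
  have hK : ∀ n, ‖∑ i ∈ range n, c (Y + 1 + i)‖ ≤ 1 / (2 * |β|) := by
    intro n
    have e : ∑ i ∈ range n, c (Y + 1 + i)
        = ∑ m ∈ Ico ((w * (Y + 1)) ^ k) ((w * (Y + 1 + n)) ^ k), ee (β * (m : ℝ)) := by
      induction n with
      | zero => simp
      | succ n ih =>
        rw [sum_range_succ, ih, hc]
        exact sum_Ico_consecutive _
          (Nat.pow_le_pow_left (Nat.mul_le_mul_left _ (Nat.le_add_right _ _)) k) (pow_le_succ k w _)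
    rw [e]
    exact norm_sum_Ico_ee hβ h0 _ _
  have hg : ∀ i, ‖(((D (Y + 1 + (i + 1)))⁻¹ : ℝ) : ℂ) - (((D (Y + 1 + i))⁻¹ : ℝ) : ℂ)‖
      ≤ -(D (Y + 1 + (i + 1)))⁻¹ - -(D (Y + 1 + i))⁻¹ := by
    intro i
    have h1 : (D (Y + 1 + (i + 1)))⁻¹ ≤ (D (Y + 1 + i))⁻¹ := inv_anti₀ (hD0 _) (hDm _)
    rw [← Complex.ofReal_sub, Complex.norm_real, Real.norm_eq_abs, abs_of_nonpos (by linarith only [h1])]
    linarith only []
  have h1 := abel (fun i => c (Y + 1 + i)) (fun i => (((D (Y + 1 + i))⁻¹ : ℝ) : ℂ))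
    (fun i => -(D (Y + 1 + i))⁻¹) hK hg L
  have e : VW k Y (Y + (L + 1)) w β
      = ∑ i ∈ range (L + 1), c (Y + 1 + i) * (((D (Y + 1 + i))⁻¹ : ℝ) : ℂ) := by
    unfold VW
    rw [sum_Ioc_eq_range]
    refine sum_congr rfl fun i _ => ?_
    rw [hc, hD, mul_comm]
    simp only [Complex.ofReal_inv, Complex.ofReal_natCast]
  rw [← e, Complex.norm_real, Real.norm_of_nonneg (inv_nonneg.2 (hD0 _).le), add_zero] at h1
  have h2 : ‖VW k Y (Y + (L + 1)) w β‖ ≤ 1 / (2 * |β|) * (D (Y + 1))⁻¹ := by linarith only [h1]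
  have h3 := hD0 (Y + 1)
  calc |β| * ((w : ℝ) ^ k * (Y : ℝ) ^ (k - 1)) * ‖VW k Y (Y + (L + 1)) w β‖
      ≤ |β| * D (Y + 1) * (1 / (2 * |β|) * (D (Y + 1))⁻¹) := by gcongr
    _ = 1 / 2 := by field_simp
    _ ≤ 1 := by norm_num

/-- if `w` is prime to `q` it can be removed from the complete sum -/
theorem SS_mul_pow {k q w : ℕ} (hq : 1 ≤ q) (hw : Nat.Coprime w q) (a : ℤ) :
    SS k q (a * (w : ℤ) ^ k) = SS k q a := by
  have hinj : Set.InjOn (fun x => w * x % q) (range q : Set ℕ) := by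
    intro x hx y hy hxy
    have h1 : x ≡ y [MOD q] := Nat.ModEq.cancel_left_of_coprime hw.symm hxy
    exact Nat.ModEq.eq_of_lt_of_lt h1 (mem_range.1 hx) (mem_range.1 hy)
  have him : (range q).image (fun x => w * x % q) = range q := by
    refine eq_of_subset_of_card_le (fun y hy => ?_) (by rw [card_image_of_injOn hinj])
    obtain ⟨x, -, rfl⟩ := mem_image.1 hy
    exact mem_range.2 (Nat.mod_lt _ hq)
  unfold SS
  conv_rhs => rw [← him, sum_image hinj]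
  refine sum_congr rfl fun x _ => ?_
  rw [ee_modEq a k hq (Nat.mod_modEq (w * x) q)]
  congr 1
  push_cast
  ring

theorem kernel_bound {φ : ℝ → ℝ} {A X η : ℝ} {s : ℕ} (hs : 2 ≤ s) (hX : 0 < X) (hA : 0 ≤ A)
    (hη : 0 ≤ η) (hφ : Continuous φ) (h0 : ∀ β, 0 ≤ φ β) (h1 : ∀ β, |β| ≤ η → φ β ≤ A)
    (h2 : ∀ β, |β| ≤ η → |β| * X * φ β ≤ A) :
    ∫ β in -η..η, φ β ^ s ≤ 7 * A ^ s / X := by
  obtain ⟨j, rfl⟩ : ∃ j, s = j + 2 := ⟨s - 2, by omega⟩
  have hc : Continuous fun β : ℝ => 1 / (1 + (X * β) ^ 2) :=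
    continuous_const.div (by fun_prop) fun β => by positivity
  have h3 : ∫ β in -η..η, φ β ^ (j + 2)
      ≤ ∫ β in -η..η, 2 * A ^ (j + 2) * (1 / (1 + (X * β) ^ 2)) := by
    refine int_mono (by linarith only [hη]) (hφ.pow _) (continuous_const.mul hc) fun β hβ => ?_
    have hb : |β| ≤ η := abs_le.2 hβ
    have a1 : φ β ^ j ≤ A ^ j := pow_le_pow_left₀ (h0 β) (h1 β hb) j
    have a2 : φ β ^ 2 ≤ A ^ 2 := pow_le_pow_left₀ (h0 β) (h1 β hb) 2
    have a3 : (|β| * X * φ β) ^ 2 ≤ A ^ 2 :=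
      pow_le_pow_left₀ (mul_nonneg (by positivity) (h0 β)) (h2 β hb) 2
    rw [mul_pow, mul_pow, sq_abs] at a3
    have a4 : φ β ^ 2 * (1 + (X * β) ^ 2) ≤ 2 * A ^ 2 := by linarith only [a2, a3]
    rw [mul_one_div, le_div_iff₀ (by positivity), pow_add, pow_add, mul_assoc]
    calc φ β ^ j * (φ β ^ 2 * (1 + (X * β) ^ 2)) ≤ A ^ j * (2 * A ^ 2) :=
          mul_le_mul a1 a4 (by positivity) (by positivity)
      _ = _ := by ring
  refine h3.trans ?_
  rw [intervalIntegral.integral_const_mul,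
    intervalIntegral.integral_comp_mul_left (fun x : ℝ => 1 / (1 + x ^ 2)) hX.ne',
    integral_one_div_one_add_sq, smul_eq_mul]
  have a1 := Real.arctan_lt_pi_div_two (X * η)
  have a2 := Real.neg_pi_div_two_lt_arctan (X * -η)
  have a3 := Real.pi_lt_d2
  have a4 : Real.arctan (X * η) - Real.arctan (X * -η) ≤ 7 / 2 := by linarith only [a1, a2, a3]
  calc 2 * A ^ (j + 2) * (X⁻¹ * (Real.arctan (X * η) - Real.arctan (X * -η)))
      ≤ 2 * A ^ (j + 2) * (X⁻¹ * (7 / 2)) := by gcongr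
    _ = 7 * A ^ (j + 2) / X := by field_simp

end

end Pool.Agent.Work.MP_45c923_nt
end

-- merged part: Pool.Agent.Work.MP_45c923_nt.SInt
section
set_option autoImplicit false

namespace Pool.Agent.Work.MP_45c923_nt

open Finset Pool.Agent.Lib.LargeSieve

noncomputable section

namespace SIntAux

/-- iterated convolution -/
def cv (M : ℕ) (c : ℕ → ℝ) : ℕ → ℤ → ℝ
  | 0, n => if n = 0 then 1 else 0
  | s + 1, n => ∑ m ∈ range M, c m * cv M c s (n - m)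

lemma cv_nonneg {M : ℕ} {c : ℕ → ℝ} (hc : ∀ m, 0 ≤ c m) (s : ℕ) (n : ℤ) : 0 ≤ cv M c s n := by
  induction s generalizing n with
  | zero => simp only [cv]; split_ifs <;> norm_num
  | succ s ih => exact sum_nonneg fun m _ => mul_nonneg (hc m) (ih _)

lemma integral_pow_eq (M : ℕ) (c : ℕ → ℝ) (s : ℕ) (n : ℤ) :
    ∫ β in (-(1 / 2) : ℝ)..(1 / 2), (∑ m ∈ range M, (c m : ℂ) * ee (β * m)) ^ s * ee (-(β * n))
      = cv M c s n := by
  induction s generalizing n with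
  | zero =>
    have := integral_ee (-n) (-(1 / 2))
    rw [show (-(1 / 2) : ℝ) + 1 = 1 / 2 by norm_num] at this
    simp only [pow_zero, one_mul, cv]
    simp only [Int.cast_neg, mul_neg, neg_eq_zero] at this
    rw [this]; split_ifs <;> simp
  | succ s ih =>
    have e : ∀ β : ℝ, (∑ m ∈ range M, (c m : ℂ) * ee (β * m)) ^ (s + 1) * ee (-(β * n))
        = ∑ j ∈ range M, (c j : ℂ) * ((∑ m ∈ range M, (c m : ℂ) * ee (β * m)) ^ s
          * ee (-(β * ((n - j : ℤ) : ℝ)))) := by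
      intro β
      rw [pow_succ, mul_assoc, sum_mul, mul_sum]
      refine sum_congr rfl fun j _ => ?_
      rw [show -(β * ((n - j : ℤ) : ℝ)) = β * j + -(β * n) by push_cast; ring, ee_add]
      ring
    simp only [e]
    rw [int_sum _ _ (fun j _ => by fun_prop)]
    simp only [intervalIntegral.integral_const_mul, ih, cv]
    push_cast
    rfl

lemma cv_lower {M M₁ M₂ X D : ℕ} {c : ℕ → ℝ} {γ : ℝ} (hγ : 0 ≤ γ) (hc : ∀ m, 0 ≤ c m)
    (hc' : ∀ m, M₁ ≤ m → m < M₂ → γ ≤ c m) (hM : M₂ ≤ M) (h1 : M₁ + D ≤ 2 * X)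
    (h2 : 3 * X + D < M₂) (h3 : D ≤ X) (s : ℕ) :
    ∀ n : ℕ, 2 * (s + 1) * X ≤ n → n ≤ 3 * (s + 1) * X →
      γ ^ (s + 1) * (D : ℝ) ^ s ≤ cv M c (s + 1) n := by
  induction s with
  | zero =>
    intro n a b
    simp only [cv, zero_add, pow_one, pow_zero, mul_one] at a b ⊢
    refine le_trans ?_ (single_le_sum (f := fun m => c m * if (n : ℤ) - m = 0 then (1 : ℝ) else 0)
      (fun m _ => mul_nonneg (hc m) (by split_ifs <;> norm_num)) (mem_range.2 (by omega : n < M)))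
    simp only [sub_self, if_true, mul_one]
    exact hc' n (by omega) (by omega)
  | succ s ih =>
    intro n a b
    set lo : ℕ := max (n - 3 * (s + 1) * X) M₁ with hlo
    have e1 : 2 * (s + 1 + 1) * X = 2 * (s + 1) * X + 2 * X := by ring
    have e2 : 3 * (s + 1 + 1) * X = 3 * (s + 1) * X + 3 * X := by ring
    have e3 : 2 * (s + 1) * X + X ≤ 3 * (s + 1) * X := by linarith only [mul_nonneg_of_nonpos_of_nonpos (Mathlib.Tactic.Linarith.sub_nonpos_of_le (Mathlib.Tactic.Linarith.natCast_nonneg ℤ X)) (Mathlib.Tactic.Linarith.sub_nonpos_of_le (Mathlib.Tactic.Linarith.natCast_nonneg ℤ s))]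
    rw [e1] at a
    rw [e2] at b
    have hsub : Ico lo (lo + D) ⊆ range M := fun m hm => by
      rw [mem_Ico] at hm; rw [mem_range]; omega
    rw [cv]
    refine le_trans ?_ (sum_le_sum_of_subset_of_nonneg hsub
      fun m _ _ => mul_nonneg (hc m) (cv_nonneg hc _ _))
    have hb : ∀ m ∈ Ico lo (lo + D), γ * (γ ^ (s + 1) * (D : ℝ) ^ s)
        ≤ c m * cv M c (s + 1) (n - m) := by
      intro m hm
      rw [mem_Ico] at hm
      have hmn : m ≤ n := by omega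
      have := ih (n - m) (by omega) (by omega)
      rw [Nat.cast_sub hmn] at this
      exact mul_le_mul (hc' m (by omega) (by omega)) this (by positivity) (hc m)
    have := card_nsmul_le_sum _ _ _ hb
    rw [Nat.card_Ico, Nat.add_sub_cancel_left, nsmul_eq_mul] at this
    refine le_trans (le_of_eq ?_) this
    ring

lemma succ_pow_le (y j : ℕ) : (y + 1) ^ (j + 1) ≤ y ^ (j + 1) + (j + 1) * (y + 1) ^ j := by
  induction j with
  | zero => simp
  | succ j ih =>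
    have h1 : y ^ (j + 1) ≤ (y + 1) ^ (j + 1) := Nat.pow_le_pow_left (Nat.le_succ y) _
    calc (y + 1) ^ (j + 1 + 1) = (y + 1) * (y + 1) ^ (j + 1) := by ring
      _ ≤ (y + 1) * (y ^ (j + 1) + (j + 1) * (y + 1) ^ j) := Nat.mul_le_mul_left _ ih
      _ = y ^ (j + 1 + 1) + y ^ (j + 1) + (j + 1) * (y + 1) ^ (j + 1) := by ring
      _ ≤ _ := by linarith only [h1]

/-- the coefficients of `VW` -/
def cw (k Y Z w m : ℕ) : ℝ :=
  ∑ y ∈ Ioc Y Z, if m ∈ Ico ((w * y) ^ k) ((w * (y + 1)) ^ k) then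
    ((((w * (y + 1)) ^ k - (w * y) ^ k : ℕ) : ℝ))⁻¹ else 0

lemma cw_nonneg (k Y Z w m : ℕ) : 0 ≤ cw k Y Z w m :=
  sum_nonneg fun _ _ => by split_ifs <;> positivity

lemma VW_eq {k Y Z w M : ℕ} (hM : (w * (Z + 1)) ^ k ≤ M) (β : ℝ) :
    VW k Y Z w β = ∑ m ∈ range M, (cw k Y Z w m : ℂ) * ee (β * m) := by
  simp only [VW, cw, Complex.ofReal_sum, sum_mul]
  rw [sum_comm]
  refine sum_congr rfl fun y hy => ?_
  have hsub : Ico ((w * y) ^ k) ((w * (y + 1)) ^ k) ⊆ range M := by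
    intro m hm
    rw [mem_Ico] at hm
    rw [mem_Ioc] at hy
    have : (w * (y + 1)) ^ k ≤ (w * (Z + 1)) ^ k :=
      Nat.pow_le_pow_left (Nat.mul_le_mul_left _ (by omega)) _
    rw [mem_range]; omega
  rw [mul_sum, ← sum_subset hsub]
  · refine sum_congr rfl fun m hm => ?_
    rw [if_pos hm]; push_cast; rfl
  · intro m _ hm
    rw [if_neg hm]; simp

lemma cw_lower {j Y Z w m T : ℕ} (h1 : (w * (Y + 1)) ^ (j + 1) ≤ m)
    (h2 : m < (w * (Z + 1)) ^ (j + 1)) (hT : w ^ (j + 1) * ((j + 1) * (Z + 1) ^ j) ≤ T) :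
    (T : ℝ)⁻¹ ≤ cw (j + 1) Y Z w m := by
  have hex : ∃ y, m < (w * (y + 1)) ^ (j + 1) := ⟨Z, h2⟩
  classical
  set y := Nat.find hex with hy
  have hy1 : m < (w * (y + 1)) ^ (j + 1) := Nat.find_spec hex
  have hy2 : y ≤ Z := Nat.find_min' hex h2
  have hy3 : Y < y := by
    by_contra h
    have : (w * (y + 1)) ^ (j + 1) ≤ (w * (Y + 1)) ^ (j + 1) :=
      Nat.pow_le_pow_left (Nat.mul_le_mul_left _ (by omega)) _
    omega
  have hy4 : (w * y) ^ (j + 1) ≤ m := by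
    have := Nat.find_min hex (m := y - 1) (by omega)
    rw [show y - 1 + 1 = y by omega] at this
    omega
  refine le_trans ?_ (single_le_sum (f := fun y =>
    if m ∈ Ico ((w * y) ^ (j + 1)) ((w * (y + 1)) ^ (j + 1)) then
      ((((w * (y + 1)) ^ (j + 1) - (w * y) ^ (j + 1) : ℕ) : ℝ))⁻¹ else 0)
    (fun _ _ => by split_ifs <;> positivity) (mem_Ioc.2 ⟨hy3, hy2⟩))
  simp only [if_pos (mem_Ico.2 ⟨hy4, hy1⟩)]
  refine inv_anti₀ (by exact_mod_cast (by omega)) ?_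
  have h3 : (w * (y + 1)) ^ (j + 1) ≤ (w * y) ^ (j + 1) + T := by
    rw [mul_pow, mul_pow]
    have a := Nat.mul_le_mul_left (w ^ (j + 1)) (succ_pow_le y j)
    have b : (y + 1) ^ j ≤ (Z + 1) ^ j := Nat.pow_le_pow_left (by omega) _
    have c := Nat.mul_le_mul_left (w ^ (j + 1)) (Nat.mul_le_mul_left (j + 1) b)
    rw [mul_add] at a
    omega
  exact_mod_cast (by omega)

lemma tail_le {F : ℝ → ℂ} {φ : ℝ → ℝ} {η : ℝ} (hF : Continuous F) (hφ : Continuous φ)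
    (h0 : ∀ β, 0 ≤ φ β) (hη : 0 ≤ η) (hη' : η ≤ 1 / 2)
    (h : ∀ β, η ≤ |β| → |β| ≤ 1 / 2 → ‖F β‖ ≤ φ β) :
    ‖(∫ β in -η..η, F β) - ∫ β in (-(1 / 2) : ℝ)..(1 / 2), F β‖
      ≤ ∫ β in (-(1 / 2) : ℝ)..(1 / 2), φ β := by
  have iF := fun a b => hF.intervalIntegrable (μ := MeasureTheory.volume) a b
  have iφ := fun a b => hφ.intervalIntegrable (μ := MeasureTheory.volume) a b
  rw [← intervalIntegral.integral_add_adjacent_intervals (iF (-(1 / 2)) η) (iF η _),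
    ← intervalIntegral.integral_add_adjacent_intervals (iF (-(1 / 2)) (-η)) (iF (-η) η),
    ← intervalIntegral.integral_add_adjacent_intervals (iφ (-(1 / 2)) η) (iφ η _),
    ← intervalIntegral.integral_add_adjacent_intervals (iφ (-(1 / 2)) (-η)) (iφ (-η) η)]
  have a1 : ‖∫ β in (-(1 / 2) : ℝ)..(-η), F β‖ ≤ ∫ β in (-(1 / 2) : ℝ)..(-η), φ β :=
    (intervalIntegral.norm_integral_le_integral_norm (by linarith only [hη'])).trans
      (int_mono (by linarith) hF.norm hφ fun β hβ => h β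
        (by rw [abs_of_nonpos (by linarith [hβ.2])]; linarith [hβ.2])
        (by rw [abs_of_nonpos (by linarith [hβ.2])]; linarith only [hβ, hβ.1]))
  have a2 : ‖∫ β in η..(1 / 2), F β‖ ≤ ∫ β in η..(1 / 2), φ β :=
    (intervalIntegral.norm_integral_le_integral_norm hη').trans
      (int_mono hη' hF.norm hφ fun β hβ => h β
        (by rw [abs_of_nonneg (hη.trans hβ.1)]; exact hβ.1)
        (by rw [abs_of_nonneg (hη.trans hβ.1)]; exact hβ.2))
  have a3 : 0 ≤ ∫ β in -η..η, φ β :=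
    intervalIntegral.integral_nonneg (by linarith) fun β _ => h0 β
  have e : (∫ β in -η..η, F β) - ((∫ β in (-(1 / 2) : ℝ)..(-η), F β) + (∫ β in -η..η, F β)
      + ∫ β in η..(1 / 2), F β)
      = -((∫ β in (-(1 / 2) : ℝ)..(-η), F β) + ∫ β in η..(1 / 2), F β) := by ring
  rw [e, norm_neg]
  refine (norm_add_le _ _).trans ?_
  linarith only [a1, a2, a3]

end SIntAux

open SIntAux

theorem sint {k s H : ℕ} (hk : 2 ≤ k) (hs : 3 ≤ s) (hH : 1 ≤ H) :
    ∃ c : ℝ, 0 < c ∧ ∃ C : ℝ, 0 < C ∧ ∃ Y₀ : ℕ, ∀ (ι : Type) (A : Finset ι) (w : ι → ℕ)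
      (W Y n : ℕ) (Q : ℝ), 1 ≤ W → Y₀ ≤ Y → (∀ u ∈ A, W ≤ w u ∧ w u ≤ H * W) →
      2 * s * (H * W * Y) ^ k ≤ n → n ≤ 3 * s * (H * W * Y) ^ k → 1 ≤ Q →
      2 * Q ≤ ((W : ℝ) * Y) ^ k →
      ∃ I : ℝ, c * ((A.card : ℝ) * Y) ^ s / ((W : ℝ) * Y) ^ k ≤ I ∧
        ‖(∫ β in -(Q / ((W : ℝ) * Y) ^ k)..(Q / ((W : ℝ) * Y) ^ k),
            (∑ u ∈ A, VW k Y (2 * H * Y) (w u) β) ^ s * ee (-(β * n))) - I‖
          ≤ C * ((A.card : ℝ) * Y) ^ s / (((W : ℝ) * Y) ^ k * Q) := by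
  obtain ⟨j, rfl⟩ : ∃ j, k = j + 1 := ⟨k - 1, by omega⟩
  obtain ⟨t, rfl⟩ : ∃ t, s = t + 1 := ⟨s - 1, by omega⟩
  have hH' : (0 : ℝ) < H := by exact_mod_cast hH
  refine ⟨((4 * ((j + 1 : ℕ) : ℝ) * (3 * H) ^ j)⁻¹) ^ (t + 1) / H ^ (j + 1), by positivity,
    7 * (2 * H) ^ t, by positivity, 3 * (j + 1), fun ι A w W Y n Q hW hY hw hn1 hn2 hQ hQX => ?_⟩
  have hY1 : 1 ≤ Y := by omega
  have hW' : (0 : ℝ) < W := by exact_mod_cast hW
  have hY' : (0 : ℝ) < Y := by exact_mod_cast hY1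
  set X : ℝ := ((W : ℝ) * Y) ^ (j + 1) with hX
  have hX0 : 0 < X := by positivity
  set N : ℝ := (A.card : ℝ) with hN
  have hN0 : 0 ≤ N := by positivity
  set X₁ : ℕ := (H * W * Y) ^ (j + 1) with hX₁
  set M : ℕ := (H * W * (2 * H * Y + 1)) ^ (j + 1) with hM
  set T : ℕ := (H * W) ^ (j + 1) * ((j + 1) * (3 * H * Y) ^ j) with hT
  set c : ℕ → ℝ := fun m => ∑ u ∈ A, cw (j + 1) Y (2 * H * Y) (w u) m with hc
  have hV : ∀ β : ℝ, ∑ u ∈ A, VW (j + 1) Y (2 * H * Y) (w u) β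
      = ∑ m ∈ range M, (c m : ℂ) * ee (β * m) := by
    intro β
    simp only [hc, Complex.ofReal_sum, sum_mul]
    rw [sum_comm]
    exact sum_congr rfl fun u hu =>
      VW_eq (Nat.pow_le_pow_left (Nat.mul_le_mul_right _ (hw u hu).2) _) β
  have hHY : 1 ≤ H * Y := Nat.mul_pos hH hY1
  have hX₁2 : 2 ≤ X₁ := by
    have a : 3 ≤ H * W * Y := le_trans (by omega : 3 ≤ 1 * Y)
      (Nat.mul_le_mul_right _ (Nat.mul_pos hH hW))
    have := Nat.le_self_pow (n := j + 1) (by omega) (H * W * Y)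
    omega
  have hlow := cv_lower (M := M) (M₁ := (H * W * (Y + 1)) ^ (j + 1))
    (M₂ := (W * (2 * H * Y + 1)) ^ (j + 1)) (X := X₁) (D := X₁ / 2) (c := c) (γ := N * (T : ℝ)⁻¹)
    (by clear * - N T ι A H W j Y hH hW hY1; positivity) (fun m => sum_nonneg fun _ _ => cw_nonneg _ _ _ _ _)
    (fun m a b => by
      have := card_nsmul_le_sum A (fun u => cw (j + 1) Y (2 * H * Y) (w u) m) (T : ℝ)⁻¹
        fun u hu => cw_lower
          ((Nat.pow_le_pow_left (Nat.mul_le_mul_right _ (hw u hu).2) _).trans a)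
          (b.trans_le (Nat.pow_le_pow_left (Nat.mul_le_mul_right _ (hw u hu).1) _))
          (Nat.mul_le_mul (Nat.pow_le_pow_left (hw u hu).2 _) (Nat.mul_le_mul_left _
            (Nat.pow_le_pow_left (by linarith only [hHY]) _)))
      rwa [nsmul_eq_mul] at this)
    (Nat.pow_le_pow_left (Nat.mul_le_mul_right _ (Nat.le_mul_of_pos_left _ hH)) _)
    (by
      clear * - Y j H t W n hY X₁ hX₁
      have a := succ_pow_le Y j
      have b : 3 * ((j + 1) * (Y + 1) ^ j) ≤ (Y + 1) ^ (j + 1) := by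
        rw [pow_succ, ← mul_assoc, mul_comm]
        exact Nat.mul_le_mul_left _ (by omega)
      have d : 2 * (Y + 1) ^ (j + 1) ≤ 3 * Y ^ (j + 1) := by omega
      have e := Nat.mul_le_mul_left ((H * W) ^ (j + 1)) d
      have f : 2 * (H * W * (Y + 1)) ^ (j + 1) ≤ 3 * X₁ := by
        rw [hX₁, mul_pow (H * W), mul_pow (H * W)]; linarith only [e]
      omega)
    (by
      have a : (2 * (H * W * Y)) ^ (j + 1) ≤ (W * (2 * H * Y + 1)) ^ (j + 1) :=
        Nat.pow_le_pow_left (by linarith only [hW]) _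
      have b : 2 ^ 2 ≤ 2 ^ (j + 1) := Nat.pow_le_pow_right (by norm_num) hk
      have d := Nat.mul_le_mul_right X₁ b
      rw [mul_pow 2, ← hX₁] at a
      omega)
    (by omega) t n hn1 hn2
  refine ⟨cv M c (t + 1) n, le_trans ?_ hlow, ?_⟩
  · have a : (X₁ : ℝ) / 4 ≤ ((X₁ / 2 : ℕ) : ℝ) := by
      have : X₁ ≤ 4 * (X₁ / 2) := by omega
      have : (X₁ : ℝ) ≤ 4 * ((X₁ / 2 : ℕ) : ℝ) := by exact_mod_cast this
      linarith only [this]
    have hX₁' : (0 : ℝ) < X₁ := by exact_mod_cast (by omega)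
    have b : (N * (T : ℝ)⁻¹) ^ (t + 1) * ((X₁ : ℝ) / 4) ^ t
        ≤ (N * (T : ℝ)⁻¹) ^ (t + 1) * ((X₁ / 2 : ℕ) : ℝ) ^ t := by clear * - N T t X₁ H W Y hH hW hY1 j a ι A; gcongr
    refine le_trans ?_ b
    have e1 : (X₁ : ℝ) = H ^ (j + 1) * X := by rw [hX₁, hX]; push_cast; ring
    have e2 : N * (T : ℝ)⁻¹ * ((X₁ : ℝ) / 4)
        = (4 * ((j + 1 : ℕ) : ℝ) * (3 * H) ^ j)⁻¹ * (N * Y) := by
      clear * - N T X₁ j H Y W hT hX₁ hH hY1 hW
      rw [hT, hX₁]; push_cast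
      field_simp
      ring
    have e3 : (N * (T : ℝ)⁻¹) ^ (t + 1) * ((X₁ : ℝ) / 4) ^ t
        = (N * (T : ℝ)⁻¹ * ((X₁ : ℝ) / 4)) ^ (t + 1) * (4 / X₁) := by
      clear * - N T t X₁ hX₁2
      rw [mul_pow _ ((X₁ : ℝ) / 4), pow_succ ((X₁ : ℝ) / 4)]
      field_simp
    rw [e3, e2, mul_pow _ (N * Y), e1]
    have : ((4 * ((j + 1 : ℕ) : ℝ) * (3 * H) ^ j)⁻¹) ^ (t + 1) / H ^ (j + 1) * (N * Y) ^ (t + 1) / X
        = ((4 * ((j + 1 : ℕ) : ℝ) * (3 * H) ^ j)⁻¹) ^ (t + 1) * (N * Y) ^ (t + 1)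
          * (1 / (H ^ (j + 1) * X)) := by
      clear * - j H t N Y X hX0 hH
      field_simp
    rw [this]
    gcongr
    norm_num
  · have hI := integral_pow_eq M c (t + 1) n
    simp only [← hV, Int.cast_natCast] at hI
    rw [← hI]
    set φ : ℝ → ℝ := fun β => ‖∑ u ∈ A, VW (j + 1) Y (2 * H * Y) (w u) β‖ with hφ
    have hφc : Continuous φ := by simp only [hφ]; fun_prop
    have hφ0 : ∀ β, 0 ≤ φ β := fun β => norm_nonneg _
    have h1 : ∀ β, φ β ≤ 2 * H * (N * Y) := by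
      intro β
      refine (norm_sum_le _ _).trans ((sum_le_card_nsmul _ _ _
        fun u _ => norm_VW_le (j + 1) Y (2 * H * Y) (w u) β).trans (le_of_eq ?_))
      rw [nsmul_eq_mul]; push_cast; ring
    have h2 : ∀ β, |β| ≤ 1 / 2 → |β| * X * φ β ≤ N * Y := by
      clear * - X ι A j Y H w N W hW hY1 hk t n hw hX
      intro β hβ
      refine (mul_le_mul_of_nonneg_left (norm_sum_le _ _) (by positivity)).trans ?_
      rw [mul_sum]
      refine (sum_le_card_nsmul _ _ (Y : ℝ) fun u hu => ?_).trans (le_of_eq (nsmul_eq_mul _ _))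
      have a := norm_VW_le' (k := j + 1) (by omega) (hW.trans (hw u hu).1) Y (2 * H * Y) hβ
      rw [Nat.add_sub_cancel] at a
      have b : (W : ℝ) ≤ w u := by exact_mod_cast (hw u hu).1
      calc |β| * X * ‖VW (j + 1) Y (2 * H * Y) (w u) β‖
          = Y * (|β| * ((W : ℝ) ^ (j + 1) * (Y : ℝ) ^ j) * ‖VW (j + 1) Y (2 * H * Y) (w u) β‖) := by
            rw [hX]; ring
        _ ≤ Y * (|β| * ((w u : ℝ) ^ (j + 1) * (Y : ℝ) ^ j)
            * ‖VW (j + 1) Y (2 * H * Y) (w u) β‖) := by gcongr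
        _ ≤ Y * 1 := by gcongr
        _ = Y := mul_one _
    have hH1 : (1 : ℝ) ≤ H := by exact_mod_cast hH
    have hk := kernel_bound (φ := φ) (A := 2 * H * (N * Y)) (X := X) (η := 1 / 2) (s := t)
      (by omega) hX0 (by clear * - H N Y hH ι A hY1 h1 hφ0 hφc; positivity) (by norm_num) hφc hφ0 (fun β _ => h1 β)
      (fun β hβ => (h2 β hβ).trans (by linarith only [hN0, hY', hH1, mul_nonneg hN0 hY'.le, mul_nonneg_of_nonpos_of_nonpos (Mathlib.Tactic.Linarith.sub_nonpos_of_le (Mathlib.Tactic.Linarith.natCast_nonneg ℝ H)) (Mathlib.Tactic.Linarith.sub_nonpos_of_le (mul_nonneg hN0 (LT.lt.le hY'))), mul_nonneg_of_nonpos_of_nonpos (Mathlib.Tactic.Linarith.sub_nonpos_of_le hH1) (Mathlib.Tactic.Linarith.sub_nonpos_of_le (mul_nonneg hN0 (LT.lt.le hY')))]))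
    have hQ0 : 0 < Q := by linarith only [hQ]
    refine (tail_le (φ := fun β => N * Y / Q * φ β ^ t) (by fun_prop) (by fun_prop)
      (fun β => by clear * - φ β hφ0 N Y Q t ι A hY1 hQ j H w; have := hφ0 β; positivity) (by positivity)
      (by rw [div_le_iff₀ hX0]; linarith only [hQX]) fun β a b => ?_).trans ?_
    · rw [norm_mul, norm_ee, mul_one, norm_pow, pow_succ']
      refine mul_le_mul_of_nonneg_right ?_ (pow_nonneg (hφ0 β) t)
      rw [le_div_iff₀ hQ0]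
      rw [div_le_iff₀ hX0] at a
      have := mul_le_mul_of_nonneg_right a (hφ0 β)
      linarith only [this, h2, b, h2 β b]
    · rw [intervalIntegral.integral_const_mul]
      refine (mul_le_mul_of_nonneg_left hk (by clear * - N Y Q ι A hY1 hQ; positivity)).trans (le_of_eq ?_)
      rw [mul_pow (2 * (H : ℝ)), pow_succ (N * Y)]
      clear * - N Y Q H t X hX0 hH hQ hY1; field_simp

end

end Pool.Agent.Work.MP_45c923_nt
end

-- merged part: Pool.Agent.Work.MP_45c923_nt.MajorAux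
section
/-!
# Auxiliary estimates for the major arcs
-/

set_option autoImplicit false

namespace Pool.Agent.Work.MP_45c923_nt

open Finset Pool.Agent.Lib.LargeSieve

noncomputable section

namespace Major

/-- the approximation to the generating function on the arc around `a / q` -/
def fs (S : Finset ℕ) (k J Y Z q a : ℕ) (β : ℝ) : ℂ :=
  ∑ u ∈ TT S J, SS k q ((a : ℤ) * (pr u : ℤ) ^ k) / q * VW k Y Z (pr u) β

@[fun_prop] lemma continuous_fs (S : Finset ℕ) (k J Y Z q a : ℕ) :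
    Continuous (fs S k J Y Z q a) := by
  unfold fs; fun_prop

lemma norm_pow_sub_le {x y : ℂ} {B : ℝ} (hx : ‖x‖ ≤ B) (hy : ‖y‖ ≤ B) (m : ℕ) :
    ‖x ^ (m + 1) - y ^ (m + 1)‖ ≤ (m + 1) * B ^ m * ‖x - y‖ := by
  have hB : 0 ≤ B := (norm_nonneg _).trans hx
  induction m with
  | zero => simp
  | succ m ih =>
    have h1 : x ^ (m + 1 + 1) - y ^ (m + 1 + 1)
        = x * (x ^ (m + 1) - y ^ (m + 1)) + y ^ (m + 1) * (x - y) := by ring
    rw [h1]
    refine (norm_add_le _ _).trans ?_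
    rw [norm_mul, norm_mul, norm_pow]
    have h2 : ‖x‖ * ‖x ^ (m + 1) - y ^ (m + 1)‖ ≤ B * ((m + 1) * B ^ m * ‖x - y‖) := by
      gcongr
    have h3 : ‖y‖ ^ (m + 1) * ‖x - y‖ ≤ B ^ (m + 1) * ‖x - y‖ := by gcongr
    refine (add_le_add h2 h3).trans (le_of_eq ?_)
    push_cast; ring

lemma norm_SS_le (k q : ℕ) (b : ℤ) : ‖SS k q b / q‖ ≤ 1 := by
  rw [norm_div, Complex.norm_natCast]
  refine div_le_one_of_le₀ ?_ (Nat.cast_nonneg _)
  unfold SS
  refine (norm_sum_le _ _).trans ?_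
  simp

lemma norm_ff_le (S : Finset ℕ) (k J Y Z : ℕ) (α : ℝ) :
    ‖ff S k J Y Z α‖ ≤ (S.card : ℝ) ^ J * Z := by
  unfold ff GG
  refine (norm_sum_le _ _).trans ?_
  have h1 : ∀ y ∈ Ioc Y Z, ‖∑ u ∈ TT S J, ee (α * (y : ℝ) ^ k * (pr u : ℝ) ^ k)‖
      ≤ (S.card : ℝ) ^ J := fun y _ => by
    refine (norm_sum_le _ _).trans ?_
    simp [card_TT]
  refine (sum_le_sum h1).trans ?_
  rw [sum_const, nsmul_eq_mul, Nat.card_Ioc, mul_comm]
  gcongr
  exact Nat.sub_le _ _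

lemma norm_fs_le (S : Finset ℕ) (k J Y Z q a : ℕ) (β : ℝ) :
    ‖fs S k J Y Z q a β‖ ≤ (S.card : ℝ) ^ J * Z := by
  unfold fs
  refine (norm_sum_le _ _).trans ?_
  have h1 : ∀ u ∈ TT S J, ‖SS k q ((a : ℤ) * (pr u : ℤ) ^ k) / q * VW k Y Z (pr u) β‖
      ≤ (Z : ℝ) := fun u _ => by
    rw [norm_mul]
    have := mul_le_mul (norm_SS_le k q ((a : ℤ) * (pr u : ℤ) ^ k)) (norm_VW_le k Y Z (pr u) β)
      (norm_nonneg _) zero_le_one
    simpa using this
  refine (sum_le_sum h1).trans (le_of_eq ?_)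
  rw [sum_const, nsmul_eq_mul, card_TT]; push_cast; ring

lemma norm_ff_sub_fs {R : ℕ} {S : Finset ℕ} (hS : PP R S) {k q : ℕ} (hk : 1 ≤ k) (hq : 1 ≤ q)
    (J Y Z a : ℕ) (β : ℝ) :
    ‖ff S k J Y Z ((a : ℝ) / q + β) - fs S k J Y Z q a β‖
      ≤ (S.card : ℝ) ^ J * (2 * q + 21 * q * |β| * ((2 * R : ℝ) ^ J * (Z + 1)) ^ k) := by
  unfold ff GG fs
  rw [sum_comm, ← sum_sub_distrib]
  refine (norm_sum_le _ _).trans ?_
  have h1 : ∀ u ∈ TT S J,
      ‖∑ y ∈ Ioc Y Z, ee (((a : ℝ) / q + β) * (y : ℝ) ^ k * (pr u : ℝ) ^ k)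
        - SS k q ((a : ℤ) * (pr u : ℤ) ^ k) / q * VW k Y Z (pr u) β‖
      ≤ 2 * q + 21 * q * |β| * ((2 * R : ℝ) ^ J * (Z + 1)) ^ k := fun u hu => by
    have h := approx (k := k) (Y := Y) (Z := Z) (w := pr u) hk (hS.pr_pos hu) hq (a : ℤ) β
    rw [Int.cast_natCast] at h
    refine h.trans ?_
    have h2 : (pr u : ℝ) ≤ (2 * R : ℝ) ^ J := by exact_mod_cast hS.pr_le hu
    gcongr
  refine (sum_le_sum h1).trans (le_of_eq ?_)
  rw [sum_const, nsmul_eq_mul, card_TT]; push_cast; ring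

/-- for small moduli the variable `w` drops out of the complete sum -/
lemma fs_small {R : ℕ} {S : Finset ℕ} (hS : PP R S) {k q : ℕ} (hq : 1 ≤ q) (hqR : q < R)
    (J Y Z a : ℕ) (β : ℝ) :
    fs S k J Y Z q a β = SS k q a / q * ∑ u ∈ TT S J, VW k Y Z (pr u) β := by
  unfold fs
  rw [mul_sum]
  refine sum_congr rfl fun u hu => ?_
  rw [SS_mul_pow hq]
  unfold pr
  refine Nat.Coprime.prod_left fun i _ => ?_
  have hp := mem_TT.1 hu i
  rw [(hS.prime _ hp).coprime_iff_not_dvd]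
  intro hd
  have := Nat.le_of_dvd hq hd
  have := hS.le _ hp
  omega

lemma sum_gcd_pool {R : ℕ} {S : Finset ℕ} (hS : PP R S) {q M : ℕ} (hq : 1 ≤ q) (hqM : q ≤ R ^ M) :
    ∑ p ∈ S, (Nat.gcd q p : ℝ) ≤ 2 * (M + 1) * R := by
  have h1 : ∀ p ∈ S, (Nat.gcd q p : ℝ) ≤ 1 + if (p : ℤ) ∣ (q : ℤ) then (2 * R : ℝ) else 0 := by
    intro p hp
    split_ifs with h
    · have h2 : Nat.gcd q p ≤ 2 * R :=
        (Nat.gcd_le_right _ (hS.prime p hp).pos).trans (hS.le' p hp)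
      have h3 : (Nat.gcd q p : ℝ) ≤ 2 * R := by exact_mod_cast h2
      linarith only [h3]
    · have h2 : Nat.Coprime q p :=
        ((hS.prime p hp).coprime_iff_not_dvd.2 fun hd => h (Int.natCast_dvd_natCast.2 hd)).symm
      rw [h2]; simp
  refine (sum_le_sum h1).trans ?_
  rw [sum_add_distrib, ← sum_filter, sum_const, sum_const, nsmul_eq_mul, nsmul_eq_mul, mul_one]
  have h2 : (S.card : ℝ) ≤ 2 * R := by exact_mod_cast hS.card_le
  have h3 := hS.card_dvd_le (N := (q : ℤ)) (by omega) (B := M)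
    (by rw [abs_of_nonneg (by positivity)]; exact_mod_cast hqM)
  have h4 : ((S.filter fun p : ℕ => (p : ℤ) ∣ (q : ℤ)).card : ℝ) ≤ M := by exact_mod_cast h3
  have h5 : ((S.filter fun p : ℕ => (p : ℤ) ∣ (q : ℤ)).card : ℝ) * (2 * R) ≤ M * (2 * R) := by
    gcongr
  linarith only [h2, h5]

lemma sum_gcd_pr {R : ℕ} {S : Finset ℕ} (hS : PP R S) {q M : ℕ} (hq : 1 ≤ q) (hqM : q ≤ R ^ M)
    (J : ℕ) : ∑ u ∈ TT S J, (Nat.gcd q (pr u) : ℝ) ≤ (2 * (M + 1) * R) ^ J := by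
  induction J with
  | zero =>
    rw [sum_TT_zero S fun x => (Nat.gcd q x : ℝ)]; simp
  | succ J ih =>
    rw [sum_TT_succ S J fun x => (Nat.gcd q x : ℝ)]
    have h1 : ∀ p ∈ S, ∑ u ∈ TT S J, (Nat.gcd q (p * pr u) : ℝ)
        ≤ (Nat.gcd q p : ℝ) * (2 * (M + 1) * R) ^ J := by
      intro p _
      refine le_trans ?_ (mul_le_mul_of_nonneg_left ih (Nat.cast_nonneg _))
      rw [mul_sum]
      refine sum_le_sum fun u _ => ?_
      have h2 : Nat.gcd q (p * pr u) ≤ Nat.gcd q p * Nat.gcd q (pr u) :=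
        Nat.le_of_dvd (Nat.mul_pos (Nat.gcd_pos_of_pos_left _ hq) (Nat.gcd_pos_of_pos_left _ hq))
          (gcd_mul_dvd_mul_gcd q p (pr u))
      exact_mod_cast h2
    refine (sum_le_sum h1).trans ?_
    rw [← sum_mul, pow_succ']
    gcongr
    exact sum_gcd_pool hS hq hqM

lemma norm_SS_le_gcd {k q a w : ℕ} {C t : ℝ} (hk : 1 ≤ k) (hG : GaussB k C) (hq : 1 ≤ q)
    (ha : Nat.Coprime a q) (hC : 0 ≤ C) (ht : 0 ≤ t) (htk : t ^ k = C / q) :
    ‖SS k q ((a : ℤ) * (w : ℤ) ^ k) / q‖ ≤ t * Nat.gcd q w := by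
  rw [norm_div, Complex.norm_natCast]
  have h1 := hG q hq ((a : ℤ) * (w : ℤ) ^ k)
  have h2 : Int.gcd ((a : ℤ) * (w : ℤ) ^ k) q = Nat.gcd (w ^ k) q := by
    rw [← ha.gcd_mul_left_cancel (w ^ k), ← Int.gcd_natCast_natCast]; push_cast; rfl
  have h3 : Nat.gcd (w ^ k) q ≤ Nat.gcd q w ^ k := by
    refine Nat.le_of_dvd (pow_pos (Nat.gcd_pos_of_pos_left _ hq) _) ?_
    rw [Nat.gcd_comm]
    exact gcd_pow_right_dvd_pow_gcd (a := q) (b := w) (k := k)
  have h4 : (Nat.gcd (w ^ k) q : ℝ) ≤ (Nat.gcd q w : ℝ) ^ k := by exact_mod_cast h3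
  rw [h2] at h1
  refine (pow_le_pow_iff_left₀ (by positivity) (by positivity) (by omega : k ≠ 0)).1 (h1.trans ?_)
  rw [mul_pow, htk, div_mul_eq_mul_div]
  gcongr

/-- the integral over an arc with a large modulus -/
lemma arc_large {R : ℕ} {S : Finset ℕ} (hS : PP R S) {k s q a M J Y Z : ℕ} {C X η : ℝ}
    (hk : 1 ≤ k) (hs : 3 * k ≤ s) (hG : GaussB k C) (hC : 0 ≤ C) (hq : 1 ≤ q) (hCq : C ≤ q)
    (hqM : q ≤ R ^ M) (ha : Nat.Coprime a q) (hY : 1 ≤ Y) (hYZ : Y ≤ Z)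
    (hX : X = ((R : ℝ) ^ J * Y) ^ k) (hη : 0 ≤ η) (hη' : η ≤ 1 / 2) :
    ∫ β in -η..η, ‖fs S k J Y Z q a β‖ ^ s
      ≤ 7 * (C / q) ^ 3 * ((2 * (M + 1) * R) ^ J * Z) ^ s / X := by
  have hq' : (0 : ℝ) < q := by exact_mod_cast hq
  have hR : (0 : ℝ) < R := by have := hS.two; positivity
  have hY' : (0 : ℝ) < Y := by exact_mod_cast hY
  have hX0 : 0 < X := by rw [hX]; positivity
  obtain ⟨t, ht, htk⟩ : ∃ t : ℝ, 0 ≤ t ∧ t ^ k = C / q :=
    ⟨(C / q) ^ ((k : ℝ)⁻¹), by positivity,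
      Real.rpow_inv_natCast_pow (by positivity) (by omega)⟩
  have ht1 : t ≤ 1 := by
    refine (pow_le_one_iff_of_nonneg ht (by omega : k ≠ 0)).1 ?_
    rw [htk]; exact div_le_one_of_le₀ hCq hq'.le
  set G : ℝ := (2 * (M + 1) * R) ^ J with hGdef
  have hG0 : 0 ≤ G := by positivity
  have key : ∀ (β c : ℝ), 0 ≤ c → (∀ u ∈ TT S J, c * ‖VW k Y Z (pr u) β‖ ≤ Z) →
      c * ‖fs S k J Y Z q a β‖ ≤ t * G * Z := by
    intro β c hc h
    unfold fs
    refine (mul_le_mul_of_nonneg_left (norm_sum_le _ _) hc).trans ?_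
    rw [mul_sum]
    have h1 : ∀ u ∈ TT S J, c * ‖SS k q ((a : ℤ) * (pr u : ℤ) ^ k) / q * VW k Y Z (pr u) β‖
        ≤ t * Z * Nat.gcd q (pr u) := fun u hu => by
      rw [norm_mul, mul_left_comm]
      refine (mul_le_mul (norm_SS_le_gcd hk hG hq ha hC ht htk) (h u hu) (by positivity)
        (by positivity)).trans (le_of_eq (by ring))
    refine (sum_le_sum h1).trans ?_
    rw [← mul_sum, mul_right_comm t G]
    gcongr
    exact sum_gcd_pr hS hq hqM J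
  have h := kernel_bound (φ := fun β => ‖fs S k J Y Z q a β‖) (A := t * G * Z) (X := X) (η := η)
    (s := s) (by omega) hX0 (by positivity) hη (by fun_prop) (fun β => norm_nonneg _)
    (fun β _ => by
      have := key β 1 zero_le_one fun u _ => by rw [one_mul]; exact norm_VW_le _ _ _ _ _
      rwa [one_mul] at this)
    (fun β hβ => key β (|β| * X) (by positivity) fun u hu => by
      have h1 := norm_VW_le' hk (hS.pr_pos hu) Y Z (hβ.trans hη')
      have h2 : (R : ℝ) ^ J ≤ pr u := by exact_mod_cast hS.le_pr hu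
      have h3 : X ≤ Y * ((pr u : ℝ) ^ k * (Y : ℝ) ^ (k - 1)) := by
        clear * - Y J u k R s q a M Z hk C X t S G β hs hG hX htk key h1 hR hY h2
        have : (Y : ℝ) * ((pr u : ℝ) ^ k * (Y : ℝ) ^ (k - 1)) = ((pr u : ℝ) * Y) ^ k := by
          obtain ⟨k, rfl⟩ : ∃ k', k = k' + 1 := ⟨k - 1, by omega⟩
          simp only [Nat.add_sub_cancel]; ring
        rw [this, hX]; gcongr
      have h4 : (Y : ℝ) ≤ Z := by exact_mod_cast hYZ
      calc |β| * X * ‖VW k Y Z (pr u) β‖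
          ≤ |β| * (Y * ((pr u : ℝ) ^ k * (Y : ℝ) ^ (k - 1))) * ‖VW k Y Z (pr u) β‖ := by clear * - k Y Z J u β X h3; gcongr
        _ = Y * (|β| * ((pr u : ℝ) ^ k * (Y : ℝ) ^ (k - 1)) * ‖VW k Y Z (pr u) β‖) := by ring
        _ ≤ Y * 1 := by gcongr
        _ ≤ Z := by linarith only [h4])
  refine h.trans ?_
  have h5 : t ^ s ≤ (C / q) ^ 3 := by
    rw [← htk, ← pow_mul]
    exact pow_le_pow_of_le_one ht ht1 (by omega)
  rw [mul_assoc t, mul_pow, mul_assoc 7]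
  clear * - t s G Z C q X h5 M R hR J hX0; gcongr

lemma card_RR_le (q : ℕ) : ((RR q).card : ℝ) ≤ q := by
  have : (RR q).card ≤ (range q).card := card_filter_le _ _
  rw [card_range] at this
  exact_mod_cast this

/-- all arcs with a large modulus together -/
lemma arcs_large {R : ℕ} {S : Finset ℕ} (hS : PP R S) {k s M J Y Z : ℕ} {C X η : ℝ}
    (hk : 1 ≤ k) (hs : 3 * k ≤ s) (hG : GaussB k C) (hC : 0 ≤ C) (hCR : C ≤ R)
    (hY : 1 ≤ Y) (hYZ : Y ≤ Z)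
    (hX : X = ((R : ℝ) ^ J * Y) ^ k) (hη : 0 ≤ η) (hη' : η ≤ 1 / 2) (n : ℕ) :
    ‖∑ q ∈ Icc R (R ^ M), ∑ a ∈ RR q, ∫ β in -η..η,
        fs S k J Y Z q a β ^ s * ee (-(((a : ℝ) / q + β) * n))‖
      ≤ 14 * C ^ 3 * ((2 * (M + 1) * R) ^ J * Z) ^ s / (X * R) := by
  have hR2 := hS.two
  have hR : (0 : ℝ) < R := by positivity
  have hY' : (0 : ℝ) < Y := by exact_mod_cast hY
  have hX0 : 0 < X := by rw [hX]; positivity
  set K : ℝ := 7 * C ^ 3 * ((2 * (M + 1) * R) ^ J * Z) ^ s / X with hK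
  have hK0 : 0 ≤ K := by positivity
  have h1 : ∀ q ∈ Icc R (R ^ M), ‖∑ a ∈ RR q, ∫ β in -η..η,
        fs S k J Y Z q a β ^ s * ee (-(((a : ℝ) / q + β) * n))‖ ≤ K * ((q : ℝ) ^ 2)⁻¹ := by
    intro q hq
    rw [mem_Icc] at hq
    have hq1 : 1 ≤ q := by omega
    have hq' : (0 : ℝ) < q := by exact_mod_cast hq1
    have hRq : (R : ℝ) ≤ q := by exact_mod_cast hq.1
    refine (norm_sum_le _ _).trans ?_
    have h2 : ∀ a ∈ RR q, ‖∫ β in -η..η,
        fs S k J Y Z q a β ^ s * ee (-(((a : ℝ) / q + β) * n))‖ ≤ K * ((q : ℝ) ^ 3)⁻¹ := by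
      intro a ha
      refine (intervalIntegral.norm_integral_le_integral_norm (by linarith only [hη])).trans ?_
      simp only [norm_mul, norm_pow, norm_ee, mul_one]
      refine (arc_large hS hk hs hG hC hq1 (hCR.trans hRq) hq.2 (mem_filter.1 ha).2 hY hYZ hX hη
        hη').trans (le_of_eq ?_)
      rw [hK]; clear * - C q M R J Z s X hX0 hq1; field_simp
    refine (sum_le_sum h2).trans ?_
    rw [sum_const, nsmul_eq_mul]
    refine (mul_le_mul_of_nonneg_right (card_RR_le q) (by positivity)).trans (le_of_eq ?_)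
    field_simp
  refine (norm_sum_le _ _).trans ((sum_le_sum h1).trans ?_)
  rw [← mul_sum]
  have h3 : Icc R (R ^ M) = Ioo (R - 1) (R ^ M + 1) := by
    ext x; simp only [mem_Icc, mem_Ioo]; omega
  have h4 := sum_Ioo_inv_sq_le (α := ℝ) (R - 1) (R ^ M + 1)
  have h5 : ((R - 1 : ℕ) : ℝ) + 1 = R := by
    rw [Nat.cast_sub (by omega)]; simp
  rw [h5] at h4
  rw [h3]
  refine (mul_le_mul_of_nonneg_left h4 hK0).trans (le_of_eq ?_)
  rw [hK]; clear * - C M R J Z s X hX0 hR2; field_simp; ring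

/-- the arcs with a small modulus: singular series times singular integral -/
lemma arcs_small {R : ℕ} {S : Finset ℕ} (hS : PP R S) (k s J Y Z n : ℕ) (η : ℝ) :
    ∑ q ∈ Ico 1 R, ∑ a ∈ RR q, ∫ β in -η..η,
        fs S k J Y Z q a β ^ s * ee (-(((a : ℝ) / q + β) * n))
      = (∑ q ∈ Ico 1 R, AA k s n q) *
        ∫ β in -η..η, (∑ u ∈ TT S J, VW k Y Z (pr u) β) ^ s * ee (-(β * n)) := by
  rw [sum_mul]
  refine sum_congr rfl fun q hq => ?_
  rw [mem_Ico] at hq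
  unfold AA
  rw [sum_mul]
  refine sum_congr rfl fun a _ => ?_
  rw [← intervalIntegral.integral_const_mul]
  refine intervalIntegral.integral_congr fun β _ => ?_
  rw [fs_small hS hq.1 hq.2, mul_pow,
    show -(((a : ℝ) / q + β) * n) = -((a : ℝ) / q * n) + -(β * n) by ring, ee_add]
  ring

/-- replacing the generating function by its approximation -/
lemma arcs_replace {R : ℕ} {S : Finset ℕ} (hS : PP R S) {k J Y Z Q : ℕ} {η : ℝ} (hk : 1 ≤ k)
    (hη : 0 ≤ η) (m n : ℕ) :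
    ‖(∑ q ∈ Icc 1 Q, ∑ a ∈ RR q, ∫ β in -η..η,
        ff S k J Y Z ((a : ℝ) / q + β) ^ (m + 1) * ee (-(((a : ℝ) / q + β) * n)))
      - ∑ q ∈ Icc 1 Q, ∑ a ∈ RR q, ∫ β in -η..η,
        fs S k J Y Z q a β ^ (m + 1) * ee (-(((a : ℝ) / q + β) * n))‖
      ≤ Q * (Q * (((m + 1) * ((2 * R : ℝ) ^ J * Z) ^ m * ((2 * R : ℝ) ^ J *
        (2 * Q + 21 * Q * η * ((2 * R : ℝ) ^ J * (Z + 1)) ^ k))) * (2 * η))) := by
  set E : ℝ := (m + 1) * ((2 * R : ℝ) ^ J * Z) ^ m * ((2 * R : ℝ) ^ J *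
        (2 * Q + 21 * Q * η * ((2 * R : ℝ) ^ J * (Z + 1)) ^ k)) with hE
  have hE0 : 0 ≤ E := by positivity
  have hcard : (S.card : ℝ) ≤ 2 * R := by exact_mod_cast hS.card_le
  rw [← sum_sub_distrib]
  refine (norm_sum_le _ _).trans ?_
  have h1 : ∀ q ∈ Icc 1 Q, ‖(∑ a ∈ RR q, ∫ β in -η..η,
        ff S k J Y Z ((a : ℝ) / q + β) ^ (m + 1) * ee (-(((a : ℝ) / q + β) * n)))
      - ∑ a ∈ RR q, ∫ β in -η..η,
        fs S k J Y Z q a β ^ (m + 1) * ee (-(((a : ℝ) / q + β) * n))‖ ≤ Q * (E * (2 * η)) := by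
    intro q hq
    rw [mem_Icc] at hq
    have hqQ : (q : ℝ) ≤ Q := by exact_mod_cast hq.2
    rw [← sum_sub_distrib]
    refine (norm_sum_le _ _).trans ?_
    have h2 : ∀ a ∈ RR q, ‖(∫ β in -η..η,
        ff S k J Y Z ((a : ℝ) / q + β) ^ (m + 1) * ee (-(((a : ℝ) / q + β) * n)))
      - ∫ β in -η..η,
        fs S k J Y Z q a β ^ (m + 1) * ee (-(((a : ℝ) / q + β) * n))‖ ≤ E * (2 * η) := by
      intro a _
      rw [← intervalIntegral.integral_sub (by apply Continuous.intervalIntegrable; fun_prop)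
        (by apply Continuous.intervalIntegrable; fun_prop)]
      refine (intervalIntegral.norm_integral_le_of_norm_le_const (C := E) fun β hβ => ?_).trans
        (le_of_eq ?_)
      · have hβ' : |β| ≤ η := by
          rw [Set.uIoc_of_le (by linarith only [hη])] at hβ
          exact abs_le.2 ⟨hβ.1.le, hβ.2⟩
        rw [← sub_mul, norm_mul, norm_ee, mul_one]
        have hB : (S.card : ℝ) ^ J * Z ≤ (2 * R : ℝ) ^ J * Z := by gcongr
        refine (norm_pow_sub_le ((norm_ff_le _ _ _ _ _ _).trans hB)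
          ((norm_fs_le _ _ _ _ _ _ _ _).trans hB) m).trans ?_
        rw [hE]
        refine mul_le_mul_of_nonneg_left ((norm_ff_sub_fs hS hk hq.1 J Y Z a β).trans ?_)
          (by positivity)
        clear * - S J R q β Z k Q η hcard hqQ hβ'; gcongr
      · rw [sub_neg_eq_add, abs_of_nonneg (by linarith only [hη])]; ring
    refine (sum_le_sum h2).trans ?_
    rw [sum_const, nsmul_eq_mul]
    exact mul_le_mul_of_nonneg_right ((card_RR_le q).trans hqQ) (by positivity)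
  refine (sum_le_sum h1).trans (le_of_eq ?_)
  rw [sum_const, nsmul_eq_mul, Nat.card_Icc]; simp

end Major

end

end Pool.Agent.Work.MP_45c923_nt
end
end

-- merged part: Pool.Agent.Work.MP_45c923_nt.Cover
section
-- merged part: Pool.Agent.Work.MP_45c923_nt.Weyl
section
/-!
# A Weyl type estimate from mean values and the large sieve
-/

set_option autoImplicit false

namespace Pool.Agent.Work.MP_45c923_nt

open Finset Pool.Agent.Lib.LargeSieve

noncomputable section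

lemma rep_eq_sum_sq {κ : Type*} (P : Finset κ) (Φ : κ → ℕ) {N : ℕ} (hΦ : ∀ V ∈ P, Φ V < N) :
    rep P (fun V => (Φ V : ℤ)) 0 = ∑ n ∈ range N, (((P.filter fun V => Φ V = n).card : ℝ)) ^ 2 := by
  unfold rep
  rw [← sum_fiberwise_of_maps_to (g := Φ) (t := range N) fun V hV => mem_range.2 (hΦ V hV)]
  refine sum_congr rfl fun n _ => ?_
  rw [sum_congr rfl (g := fun _ => (((P.filter fun V => Φ V = n).card : ℝ))) fun V hV => ?_]
  · rw [sum_const, nsmul_eq_mul, sq]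
  · rw [← (mem_filter.1 hV).2, card_filter]
    push_cast
    refine sum_congr rfl fun U _ => ?_
    simp only [sub_eq_zero, Nat.cast_inj]

lemma ls_weighted {κ : Type*} (P : Finset κ) (Φ : κ → ℕ) {N : ℕ} (hN : 0 < N)
    (hΦ : ∀ V ∈ P, Φ V < N) (ε : κ → ℂ) (hε : ∀ V ∈ P, ‖ε V‖ ≤ 1) (β : ℝ) (B : ℕ)
    (hB : ∀ m ∈ range N,
      ((range N).filter fun m' : ℕ => dZ (m * β - m' * β) < 1 / N).card ≤ B) :
    ∑ n ∈ range N, ‖∑ V ∈ P, ε V * ee (n * (Φ V * β))‖ ^ 2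
      ≤ (B + 1) * (N + N * HH N) * rep P (fun V => (Φ V : ℤ)) 0 := by
  classical
  obtain ⟨c, hc, hcol⟩ := exists_colouring (fun m m' : ℕ => dZ (m * β - m' * β) < 1 / N)
    (fun a b h => by rwa [← dZ_neg, neg_sub]) B (range N) hB
  set ρ : ℕ → ℂ := fun m => ∑ V ∈ P.filter fun V => Φ V = m, ε V with hρ
  have h1 : ∀ n : ℕ, ∑ V ∈ P, ε V * ee (n * (Φ V * β)) =
      ∑ g ∈ range (B + 1), ∑ m ∈ (range N).filter fun m => c m = g, ρ m * ee (n * (m * β)) := by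
    intro n
    rw [sum_fiberwise_of_maps_to (g := c) fun m _ => mem_range.2 (Nat.lt_succ_of_le (hc m)),
      ← sum_fiberwise_of_maps_to (g := Φ) (t := range N) fun V hV => mem_range.2 (hΦ V hV)]
    refine sum_congr rfl fun m _ => ?_
    rw [hρ, sum_mul]
    refine sum_congr rfl fun V hV => ?_
    rw [(mem_filter.1 hV).2]
  have h2 : ∀ n : ℕ, ‖∑ V ∈ P, ε V * ee (n * (Φ V * β))‖ ^ 2 ≤ (B + 1) *
      ∑ g ∈ range (B + 1), ‖∑ m ∈ (range N).filter fun m => c m = g, ρ m * ee (n * (m * β))‖ ^ 2 := by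
    intro n
    rw [h1]
    refine (pow_le_pow_left₀ (norm_nonneg _) (norm_sum_le _ _) 2).trans ?_
    have := sq_sum_le_card_mul_sum_sq (s := range (B + 1))
      (f := fun g => ‖∑ m ∈ (range N).filter fun m => c m = g, ρ m * ee (n * (m * β))‖)
    simpa using this
  refine (sum_le_sum fun n _ => h2 n).trans ?_
  rw [← mul_sum, sum_comm, mul_assoc]
  refine mul_le_mul_of_nonneg_left ?_ (by positivity)
  refine (sum_le_sum fun g _ => largeSieve_dual ((range N).filter fun m => c m = g)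
    (fun m : ℕ => m * β) N hN (fun j hj k hk hjk => ?_) N ρ).trans ?_
  · by_contra h
    exact hcol j (mem_filter.1 hj).1 k (mem_filter.1 hk).1 hjk (not_le.1 h)
      ((mem_filter.1 hj).2.trans (mem_filter.1 hk).2.symm)
  rw [← mul_sum, sum_fiberwise_of_maps_to (g := c) fun m _ => mem_range.2 (Nat.lt_succ_of_le (hc m)),
    rep_eq_sum_sq P Φ hΦ]
  have := HH_nonneg N
  refine mul_le_mul_of_nonneg_left (sum_le_sum fun m _ => ?_) (by positivity)
  refine pow_le_pow_left₀ (norm_nonneg _) ((norm_sum_le _ _).trans ?_) 2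
  refine (sum_le_sum fun V hV => hε V (mem_filter.1 hV).1).trans ?_
  simp

lemma bilinear_bound {ι : Type*} (A : Finset ι) (φ : ι → ℕ) (t : ℕ) {N : ℕ} (hN : 0 < N)
    (hφ : ∀ u ∈ A, (t + 1) * φ u < N) (β : ℝ) (B : ℕ)
    (hB : ∀ m ∈ range N,
      ((range N).filter fun m' : ℕ => dZ (m * β - m' * β) < 1 / N).card ≤ B) :
    ‖∑ u ∈ A, ∑ u' ∈ A, ee (β * φ u * φ u')‖ ^ (2 * (t + 1) ^ 2) ≤
      (A.card : ℝ) ^ (4 * (t + 1) * t) * ((B + 1) * (N + N * HH N)) *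
        rep (Fintype.piFinset fun _ : Fin (t + 1) => A) (fun U => ∑ i, (φ (U i) : ℤ)) 0 ^ 2 := by
  classical
  set P := Fintype.piFinset fun _ : Fin (t + 1) => A with hP
  set Φ : (Fin (t + 1) → ι) → ℕ := fun U => ∑ i, φ (U i) with hΦ
  have hΦN : ∀ U ∈ P, Φ U < N := by
    intro U hU
    obtain ⟨j, -, hj⟩ := exists_max_image univ (fun i => φ (U i)) univ_nonempty
    refine lt_of_le_of_lt ?_ (hφ _ (Fintype.mem_piFinset.1 hU j))
    have := sum_le_card_nsmul univ (fun i => φ (U i)) _ hj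
    simpa using this
  have hM : (fun U : Fin (t + 1) → ι => ∑ i, (φ (U i) : ℤ)) = fun U => (Φ U : ℤ) := by
    funext U; simp [hΦ]
  rw [hM]
  set M := rep P (fun U => (Φ U : ℤ)) 0 with hMdef
  have hM0 : 0 ≤ M := rep_nonneg _ _ _
  set g : ι → ℂ := fun u => ∑ u' ∈ A, ee (β * φ u * φ u') with hg
  choose ε hε1 hε2 using fun u => Complex.exists_norm_eq_mul_self (g u ^ (t + 1))
  set h : ℕ → ℂ := fun n => ∑ u ∈ A, ε u * ee (n * (φ u * β)) with hh
  have hcard : (P.card : ℝ) = (A.card : ℝ) ^ (t + 1) := by simp [hP]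
  have e1 : ‖∑ u ∈ A, g u‖ ^ (t + 1) ≤ (A.card : ℝ) ^ t * ∑ u ∈ A, ‖g u‖ ^ (t + 1) :=
    (pow_le_pow_left₀ (norm_nonneg _) (norm_sum_le _ _) _).trans
      (pow_sum_le_card_mul_sum_pow (fun _ _ => norm_nonneg _) t)
  have e2 : ∑ u ∈ A, ‖g u‖ ^ (t + 1) ≤ ∑ U ∈ P, ‖h (Φ U)‖ := by
    have : ((∑ u ∈ A, ‖g u‖ ^ (t + 1) : ℝ) : ℂ) = ∑ U ∈ P, h (Φ U) := by
      simp only [hh]
      rw [sum_comm]
      push_cast
      refine sum_congr rfl fun u _ => ?_
      rw [← Complex.ofReal_pow, ← norm_pow, hε2, ← mul_sum, hg, sum_pow']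
      congr 1
      refine sum_congr rfl fun U _ => ?_
      rw [← ee_sum]
      congr 1
      simp only [hΦ]; push_cast
      rw [sum_mul]
      exact sum_congr rfl fun i _ => by ring
    refine le_trans ?_ (norm_sum_le _ _)
    rw [← this, Complex.norm_real]
    exact le_abs_self _
  have e3 : (∑ U ∈ P, ‖h (Φ U)‖) ^ (t + 1) ≤ (P.card : ℝ) ^ t * ∑ U ∈ P, ‖h (Φ U)‖ ^ (t + 1) :=
    pow_sum_le_card_mul_sum_pow (fun _ _ => norm_nonneg _) t
  have e4 : (∑ U ∈ P, ‖h (Φ U)‖ ^ (t + 1)) ^ 2 ≤ M * ∑ n ∈ range N, ‖h n ^ (t + 1)‖ ^ 2 := by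
    rw [← sum_fiberwise_of_maps_to (g := Φ) (t := range N) fun V hV => mem_range.2 (hΦN V hV),
      hMdef, rep_eq_sum_sq P Φ hΦN]
    refine le_of_eq_of_le ?_ (sum_mul_sq_le_sq_mul_sq _ _ _)
    congr 1
    refine sum_congr rfl fun n _ => ?_
    rw [sum_congr rfl (g := fun _ => ‖h n ^ (t + 1)‖) fun V hV => ?_, sum_const, nsmul_eq_mul]
    rw [(mem_filter.1 hV).2, norm_pow]
  have e5 : ∑ n ∈ range N, ‖h n ^ (t + 1)‖ ^ 2 ≤ (B + 1) * (N + N * HH N) * M := by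
    refine le_of_eq_of_le ?_ (ls_weighted P Φ hN hΦN (fun V => ∏ i, ε (V i))
      (fun V _ => by rw [norm_prod]; simp [hε1]) β B hB)
    refine sum_congr rfl fun n _ => ?_
    congr 2
    rw [hh, sum_pow']
    refine sum_congr rfl fun V _ => ?_
    rw [prod_mul_distrib, ← ee_sum]
    congr 2
    simp only [hΦ]; push_cast
    rw [sum_mul, mul_sum]
  have h0 : 0 ≤ ∑ u ∈ A, ‖g u‖ ^ (t + 1) := sum_nonneg fun _ _ => by positivity
  calc ‖∑ u ∈ A, g u‖ ^ (2 * (t + 1) ^ 2) = ((‖∑ u ∈ A, g u‖ ^ (t + 1)) ^ (t + 1)) ^ 2 := by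
        rw [← pow_mul, ← pow_mul]; congr 1; ring
    _ ≤ (((A.card : ℝ) ^ t * ∑ U ∈ P, ‖h (Φ U)‖) ^ (t + 1)) ^ 2 := by
        clear * - ι A g t P h Φ e1 e2
        gcongr
        exact e1.trans (by gcongr)
    _ ≤ (((A.card : ℝ) ^ t) ^ (t + 1) *
          ((P.card : ℝ) ^ t * ∑ U ∈ P, ‖h (Φ U)‖ ^ (t + 1))) ^ 2 := by
        clear * - ι A t P h Φ e3
        rw [mul_pow]; gcongr
    _ = (A.card : ℝ) ^ (4 * (t + 1) * t) * (∑ U ∈ P, ‖h (Φ U)‖ ^ (t + 1)) ^ 2 := by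
        rw [hcard]; ring
    _ ≤ (A.card : ℝ) ^ (4 * (t + 1) * t) * (M * ((B + 1) * (N + N * HH N) * M)) := by
        clear * - ι A t P h Φ M B N e4 e5 hM0
        gcongr
        exact e4.trans (by gcongr)
    _ = _ := by ring

lemma card_le_of_cong_nat (s : Finset ℕ) {q : ℕ} (hq : 0 < q) {Z : ℝ} (hZ : 0 ≤ Z)
    (h1 : ∀ a ∈ s, ∀ b ∈ s, (q : ℤ) ∣ (a : ℤ) - b) (h2 : ∀ a ∈ s, ∀ b ∈ s, (a : ℝ) - b ≤ Z) :
    (s.card : ℝ) ≤ Z / q + 1 := by
  rw [← card_image_of_injective s (Nat.cast_injective (R := ℤ))]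
  refine card_le_of_cong _ hq hZ ?_ ?_
  · simpa using h1
  · simpa using h2

lemma count_B {q x N : ℕ} {a : ℤ} {α Θ c : ℝ} (hq : 1 ≤ q) (ha : Int.gcd a q = 1) (hx : 1 ≤ x)
    (hN : 1 ≤ N) (h1 : (q : ℝ) ≤ Θ * N) (h2 : |q * α - a| * x * N ≤ Θ) (hc : 0 ≤ c)
    (h3 : (N : ℝ) ≤ c * q ∨ 1 ≤ c * (|q * α - a| * x * N)) {m : ℕ} (hm : m < N) :
    (((range N).filter fun m' : ℕ => dZ (m * (α * x) - m' * (α * x)) < 1 / N).card : ℝ)
      ≤ (4 * Θ + 1) * ((2 * c + 1) * Nat.gcd q x) := by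
  classical
  set D := Nat.gcd q x with hD
  have hD0 : 0 < D := Nat.gcd_pos_of_pos_left _ hq
  obtain ⟨q', x', hcop, hq', hx'⟩ := Nat.exists_coprime q x
  rw [← hD] at hq' hx'
  have hq'0 : 0 < q' := Nat.pos_of_mul_pos_right (hq' ▸ hq)
  have hx'0 : 0 < x' := Nat.pos_of_mul_pos_right (hx' ▸ hx)
  have hN' : (0 : ℝ) < N := by exact_mod_cast hN
  have hDr : (1 : ℝ) ≤ D := by exact_mod_cast hD0
  have hqr : (q : ℝ) = q' * D := by exact_mod_cast hq'
  have hxr : (x : ℝ) = x' * D := by exact_mod_cast hx'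
  have hq'r : (0 : ℝ) < q' := by exact_mod_cast hq'0
  have hx'r : (0 : ℝ) < x' := by exact_mod_cast hx'0
  set θ := q * α - a with hθ
  have hΘ : 0 ≤ Θ := le_trans (by positivity) h2
  set F := (range N).filter fun m' : ℕ => dZ (m * (α * x) - m' * (α * x)) < 1 / N with hF
  set j : ℕ → ℤ := fun m' => a * x' * (m - m') - q' * round (m * (α * x) - m' * (α * x)) with hj
  have key : ∀ m' ∈ F, |(j m' : ℝ) + θ * x' * (m - m')| < q' / N := by
    clear * - F m α x N j θ x' q' a q hj hθ D hqr hxr hq'r hq'0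
    intro m' hm'
    have := (mem_filter.1 hm').2
    unfold dZ at this
    have e : (j m' : ℝ) + θ * x' * (m - m') =
        q' * (m * (α * x) - m' * (α * x) - round (m * (α * x) - m' * (α * x))) := by
      simp only [hj, hθ]; push_cast
      generalize ((round (m * (α * x) - m' * (α * x)) : ℤ) : ℝ) = r
      rw [hqr, hxr]; ring
    rw [e, abs_mul, abs_of_pos hq'r, div_eq_mul_one_div]
    gcongr
  have hdiff : ∀ m' ∈ F, |(m : ℝ) - m'| ≤ N := by
    intro m' hm'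
    have a1 : (m' : ℝ) < N := by exact_mod_cast mem_range.1 (mem_filter.1 hm').1
    have a2 : (m : ℝ) < N := by exact_mod_cast hm
    rw [abs_le]
    constructor <;> linarith only [a1, a2, Nat.cast_nonneg (α := ℝ) m, Nat.cast_nonneg (α := ℝ) m']
  have hmaps : ∀ m' ∈ F, j m' ∈ Icc (-⌊2 * Θ⌋) ⌊2 * Θ⌋ := by
    clear * - F j θ x' m q' N key Θ hx'r x hdiff D hxr hDr hx h2 hN' q h1 hqr
    intro m' hm'
    have a1 := key m' hm'
    have a2 : |θ * x' * (m - m')| ≤ Θ := by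
      clear * - θ x' m m' Θ hx'r x N hdiff hm' D hxr hDr hx h2
      rw [abs_mul, abs_mul, abs_of_pos hx'r]
      refine le_trans ?_ h2
      have := hdiff m' hm'
      have : (x' : ℝ) ≤ x := by rw [hxr]; linarith only [hDr, mul_nonneg_of_nonpos_of_nonpos (Mathlib.Tactic.Linarith.sub_nonpos_of_le (Mathlib.Tactic.Linarith.natCast_nonneg ℝ x')) (Mathlib.Tactic.Linarith.sub_nonpos_of_le hDr)]
      gcongr
    have a3 : (q' : ℝ) / N ≤ Θ := by
      rw [div_le_iff₀ hN']; linarith only [h1, hqr, hDr, mul_nonneg_of_nonpos_of_nonpos (Mathlib.Tactic.Linarith.sub_nonpos_of_le (Mathlib.Tactic.Linarith.natCast_nonneg ℝ q')) (Mathlib.Tactic.Linarith.sub_nonpos_of_le hDr)]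
    have a4 : |(j m' : ℝ)| ≤ 2 * Θ := by
      have := abs_sub ((j m' : ℝ) + θ * x' * (m - m')) (θ * x' * (m - m'))
      rw [add_sub_cancel_right] at this
      linarith only [a1, a2, a3, this]
    rw [abs_le] at a4
    rw [mem_Icc, neg_le, Int.le_floor, Int.le_floor]
    push_cast
    constructor <;> linarith only [a4]
  have hfib : ∀ i ∈ Icc (-⌊2 * Θ⌋) ⌊2 * Θ⌋,
      ((F.filter fun m' => j m' = i).card : ℝ) ≤ (2 * c + 1) * D := by
    intro i _
    refine (card_le_of_cong_nat _ hq'0 (Z := 2 * c * D * q') (by positivity) ?_ ?_).trans ?_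
    · intro u hu v hv
      have e := (mem_filter.1 hu).2.trans (mem_filter.1 hv).2.symm
      simp only [hj] at e
      have hco : IsCoprime (q' : ℤ) (a * x') := by
        refine IsCoprime.mul_right ?_ (Nat.isCoprime_iff_coprime.2 hcop)
        have := (Int.isCoprime_iff_gcd_eq_one.2 ha).symm
        rw [hq'] at this; push_cast at this
        exact this.of_mul_left_left
      refine hco.dvd_of_dvd_mul_left ⟨round (m * (α * x) - v * (α * x)) -
        round (m * (α * x) - u * (α * x)), ?_⟩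
      linear_combination -e
    · intro u hu v hv
      have a1 := key u (mem_filter.1 hu).1
      have a2 := key v (mem_filter.1 hv).1
      rw [(mem_filter.1 hu).2] at a1
      rw [(mem_filter.1 hv).2] at a2
      rcases h3 with h3 | h3
      · have a3 : (u : ℝ) < N := by
          exact_mod_cast mem_range.1 (mem_filter.1 (mem_filter.1 hu).1).1
        have : 0 ≤ c * D * q' := by positivity
        rw [hqr] at h3
        linarith only [hN', h3, a3, Nat.cast_nonneg (α := ℝ) v]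
      · have a3 : |θ| * x' * |(u : ℝ) - v| ≤ 2 * q' / N := by
          have := abs_sub ((i : ℝ) + θ * x' * (m - v)) ((i : ℝ) + θ * x' * (m - u))
          rw [show (i : ℝ) + θ * x' * (m - v) - (i + θ * x' * (m - u)) = θ * x' * (u - v) by ring,
            abs_mul, abs_mul, abs_of_pos hx'r] at this
          rw [mul_div_assoc]; linarith only [a1, a2, this]
        rw [le_div_iff₀ hN'] at a3
        refine (le_abs_self _).trans ?_
        calc |(u : ℝ) - v| ≤ c * (|θ| * x * N) * |(u : ℝ) - v| :=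
              le_mul_of_one_le_left (abs_nonneg _) h3
          _ = c * D * (|θ| * x' * |(u : ℝ) - v| * N) := by rw [hxr]; ring
          _ ≤ c * D * (2 * q') := by gcongr
          _ = _ := by ring
    · rw [mul_div_assoc, div_self hq'r.ne']; linarith only [hDr]
  rw [card_eq_sum_card_fiberwise hmaps]
  push_cast
  refine (sum_le_card_nsmul _ _ _ hfib).trans ?_
  rw [nsmul_eq_mul, Int.card_Icc]
  gcongr
  have a1 : 0 ≤ ⌊2 * Θ⌋ := Int.floor_nonneg.2 (by linarith only [hΘ])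
  have a2 := Int.floor_le (2 * Θ)
  have a3 : (((⌊2 * Θ⌋ + 1 - -⌊2 * Θ⌋).toNat : ℤ) : ℝ) = ((⌊2 * Θ⌋ + 1 - -⌊2 * Θ⌋ : ℤ) : ℝ) := by
    rw [Int.toNat_of_nonneg (by linarith only [a1])]
  push_cast at a3
  linarith only [a2, a3]

end

end Pool.Agent.Work.MP_45c923_nt
end

-- merged part: Pool.Agent.Work.MP_45c923_nt.Sup
section
/-!
# The supremum of the generating function on a slice of pruned arcs
-/

set_option autoImplicit false

namespace Pool.Agent.Work.MP_45c923_nt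

open Finset Pool.Agent.Lib.LargeSieve

noncomputable section

lemma ff_eq (S : Finset ℕ) (k m n Y Z : ℕ) (α : ℝ) :
    ff S k (m + n) Y Z α =
      ∑ j ∈ Ioc Y Z ×ˢ TT S m, GG S k n (α * ((j.1 * pr j.2 : ℕ) : ℝ) ^ k) := by
  unfold ff
  rw [sum_product]
  refine sum_congr rfl fun y _ => ?_
  rw [GG_add]
  refine sum_congr rfl fun v _ => ?_
  push_cast; rw [mul_pow, mul_assoc]

lemma x_bounds {R : ℕ} {S : Finset ℕ} (hS : PP R S) {m Y Z K : ℕ} (hZ : Z ≤ K * Y)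
    {j : ℕ × (Fin m → ℕ)} (hj : j ∈ Ioc Y Z ×ˢ TT S m) :
    Y * R ^ m ≤ j.1 * pr j.2 ∧ j.1 * pr j.2 ≤ K * Y * (2 * R) ^ m := by
  rw [mem_product, mem_Ioc] at hj
  exact ⟨Nat.mul_le_mul hj.1.1.le (hS.le_pr hj.2),
    Nat.mul_le_mul (hj.1.2.trans hZ) (hS.pr_le hj.2)⟩

lemma GG_bound {R : ℕ} {S : Finset ℕ} (hS : PP R S) (k t i : ℕ) {N : ℕ}
    (hN : N = (t + 1) * (2 * R) ^ (i * k) + 1) (β : ℝ) (B : ℕ)
    (hB : ∀ m ∈ range N,
      ((range N).filter fun m' : ℕ => dZ (m * β - m' * β) < 1 / N).card ≤ B) :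
    ‖GG S k (2 * i) β‖ ^ (2 * (t + 1) ^ 2) ≤ (((2 * R : ℝ)) ^ i) ^ (4 * (t + 1) * t) *
      ((B + 1) * (N + N * HH N)) * MV S k (t + 1) i ^ 2 := by
  have h := bilinear_bound (TT S i) (fun u => pr u ^ k) t (N := N) (by omega) (fun u hu => by
    rw [hN, pow_mul]
    exact Nat.lt_succ_of_le (Nat.mul_le_mul_left _ (Nat.pow_le_pow_left (hS.pr_le hu) k))) β B hB
  have e1 : GG S k (2 * i) β = ∑ u ∈ TT S i, ∑ u' ∈ TT S i,
      ee (β * ((pr u ^ k : ℕ) : ℝ) * ((pr u' ^ k : ℕ) : ℝ)) := by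
    rw [two_mul, GG_add]; simp [GG]
  have e2 : MV S k (t + 1) i = rep (Fintype.piFinset fun _ : Fin (t + 1) => TT S i)
      (fun U => ∑ j, ((pr (U j) ^ k : ℕ) : ℤ)) 0 := by
    simp [MV, rr]
  rw [e1, e2]
  refine h.trans ?_
  have := HH_nonneg N
  gcongr
  rw [card_TT]; push_cast
  gcongr
  exact_mod_cast hS.card_le

lemma sup_le {R : ℕ} {S : Finset ℕ} (hS : PP R S) {k t i m Y Z K q Θ N : ℕ} {a : ℤ}
    {α Λ Mt X c₁ : ℝ} (hk : k ≤ 2 * (t + 1) ^ 2) (hY : 1 ≤ Y) (hZ : Z ≤ K * Y) (hK : 1 ≤ K)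
    (hΘ : 1 ≤ Θ) (hX : X = ((R : ℝ) ^ (m + 2 * i) * Y) ^ k) (hq : 1 ≤ q)
    (hqQ : q ≤ Θ * R ^ (i * k)) (ha : Int.gcd a q = 1)
    (h2 : |q * α - a| ≤ Θ * (R : ℝ) ^ (i * k) / X)
    (h3 : R ^ (i * k) < q ∨ (R : ℝ) ^ (i * k) / X < |q * α - a|)
    (hN : N = (t + 1) * (2 * R) ^ (i * k) + 1)
    (hc₁ : (t + 2) * ((K : ℝ) * 2 ^ (m + 2 * i)) ^ k ≤ c₁) (hM : MV S k (t + 1) i ≤ Mt)
    (hΛ0 : 0 ≤ Λ) (hΛ : (((2 * R : ℝ)) ^ i) ^ (4 * (t + 1) * t) *
      (16 * c₁ ^ 2 * Θ * (N + N * HH N)) * Mt ^ 2 ≤ Λ ^ (2 * (t + 1) ^ 2)) :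
    ‖ff S k (m + 2 * i) Y Z α‖ ≤
      Λ * ∑ j ∈ Ioc Y Z ×ˢ TT S m, (Nat.gcd q (j.1 * pr j.2) : ℝ) := by
  rw [ff_eq, mul_sum]
  refine (norm_sum_le _ _).trans (sum_le_sum fun j hj => ?_)
  obtain ⟨hx1, hx2⟩ := x_bounds hS hZ hj
  set x := j.1 * pr j.2 with hx
  have hR : (1 : ℝ) ≤ R := by have := hS.two; exact_mod_cast (by omega : 1 ≤ R)
  have hR0 : 0 < R := by have := hS.two; omega
  have hY' : (1 : ℝ) ≤ Y := by exact_mod_cast hY
  have hK' : (1 : ℝ) ≤ K := by exact_mod_cast hK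
  have hΘ' : (1 : ℝ) ≤ Θ := by exact_mod_cast hΘ
  have hx0 : 1 ≤ x := le_trans (Nat.mul_pos hY (pow_pos hR0 m)) hx1
  have hX0 : 0 < X := by rw [hX]; positivity
  obtain hN1 : (R : ℝ) ^ (i * k) ≤ N := by
    clear * - R i k N t hN hR0 hR
    rw [hN]; push_cast
    have : (R : ℝ) ^ (i * k) ≤ (2 * R) ^ (i * k) := by gcongr; linarith only [hR]
    have : (0 : ℝ) ≤ t * (2 * R) ^ (i * k) := by positivity
    nlinarith
  obtain hN2 : (N : ℝ) ≤ (t + 2) * (2 * R) ^ (i * k) := by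
    rw [hN]; push_cast
    have : (1 : ℝ) ≤ (2 * R) ^ (i * k) := one_le_pow₀ (by linarith only [hR])
    linarith only [this]
  obtain hc2 : (t + 2) * (2 : ℝ) ^ (i * k) ≤ c₁ := by
    clear * - t i k K m c₁ R Y Z q Θ N a j hK' hc₁
    refine le_trans ?_ hc₁
    rw [pow_mul]
    gcongr
    calc (2 : ℝ) ^ i ≤ 2 ^ (m + 2 * i) := pow_le_pow_right₀ (by norm_num) (by omega)
      _ ≤ _ := le_mul_of_one_le_left (by positivity) hK'
  obtain hc1 : 1 ≤ c₁ := by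
    clear * - t i k c₁ hc2
    refine le_trans ?_ hc2
    have : (1 : ℝ) ≤ 2 ^ (i * k) := one_le_pow₀ (by norm_num)
    have : (0 : ℝ) ≤ t := by positivity
    nlinarith
  have hx1' : (Y : ℝ) * R ^ m ≤ x := by exact_mod_cast hx1
  have hx2' : (x : ℝ) ≤ K * Y * (2 * R) ^ m := by exact_mod_cast hx2
  have hcnt := fun (m₀ : ℕ) (hm : m₀ < N) => count_B (q := q) (x := x ^ k) (N := N) (a := a)
    (α := α) (Θ := c₁ * Θ) (c := c₁) hq ha (Nat.one_le_pow _ _ hx0) (by omega) (by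
      calc (q : ℝ) ≤ Θ * R ^ (i * k) := by exact_mod_cast hqQ
        _ ≤ Θ * N := by gcongr
        _ ≤ _ := by rw [mul_assoc]; exact le_mul_of_one_le_left (by positivity) hc1) (by
      clear * - q α a x k N c₁ Θ t K m i R X Y h2 hx0 hx2' hΘ hR0 hX0 hN2 hK hY hX Z j m₀ hc₁ h3 hc1
        hm
      push_cast
      calc _ ≤ Θ * (R : ℝ) ^ (i * k) / X * (K * Y * (2 * R) ^ m) ^ k *
            ((t + 2) * (2 * R) ^ (i * k)) := by gcongr
        _ = (t + 2) * ((K : ℝ) * 2 ^ (m + i)) ^ k * Θ := by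
            rw [hX]; field_simp; ring
        _ ≤ (t + 2) * ((K : ℝ) * 2 ^ (m + 2 * i)) ^ k * Θ := by
            clear * - Θ t K m i k hK R Y Z q N a j m₀ hΘ
            gcongr
            · norm_num
            · omega
        _ ≤ _ := by gcongr) (by linarith only [hc1]) (by
      rcases h3 with h3 | h3
      · left
        have : (R : ℝ) ^ (i * k) ≤ q := by exact_mod_cast h3.le
        calc (N : ℝ) ≤ (t + 2) * 2 ^ (i * k) * R ^ (i * k) := by rw [mul_assoc, ← mul_pow]; exact hN2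
          _ ≤ _ := by gcongr
      · right
        push_cast
        calc (1 : ℝ) = 1 * ((R : ℝ) ^ (i * k) / X * (Y * R ^ m) ^ k * R ^ (i * k)) := by
              rw [hX]; field_simp; ring
          _ ≤ _ := by gcongr) hm
  set B := ⌊(4 * (c₁ * Θ) + 1) * ((2 * c₁ + 1) * Nat.gcd q (x ^ k))⌋₊ with hB
  have hG := GG_bound hS k t i hN (α * (x : ℝ) ^ k) B fun m₀ hm => by
    refine Nat.le_floor ?_
    have := hcnt m₀ (mem_range.1 hm)
    rwa [Nat.cast_pow] at this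
  have hg1 : (1 : ℝ) ≤ Nat.gcd q x := by exact_mod_cast Nat.gcd_pos_of_pos_left _ hq
  have hD1 : (1 : ℝ) ≤ Nat.gcd q (x ^ k) := by exact_mod_cast Nat.gcd_pos_of_pos_left _ hq
  obtain hD : (Nat.gcd q (x ^ k) : ℝ) ≤ (Nat.gcd q x : ℝ) ^ (2 * (t + 1) ^ 2) := by
    refine le_trans ?_ (pow_le_pow_right₀ hg1 hk)
    exact_mod_cast Nat.le_of_dvd (pow_pos (Nat.gcd_pos_of_pos_left _ hq) _)
      (gcd_pow_right_dvd_pow_gcd (a := q) (b := x) (k := k))
  obtain hB1 : (B : ℝ) + 1 ≤ 16 * c₁ ^ 2 * Θ * Nat.gcd q (x ^ k) := by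
    clear * - B c₁ Θ q x k hc1 hΘ hq hΘ' hD1
    have h0 : (B : ℝ) ≤ (4 * (c₁ * Θ) + 1) * ((2 * c₁ + 1) * Nat.gcd q (x ^ k)) :=
      Nat.floor_le (by positivity)
    have a1 : 1 ≤ c₁ * Θ := one_le_mul_of_one_le_of_one_le hc1 hΘ'
    have a2 : (4 * (c₁ * Θ) + 1) * ((2 * c₁ + 1) * Nat.gcd q (x ^ k)) ≤
        (5 * (c₁ * Θ)) * ((3 * c₁) * Nat.gcd q (x ^ k)) := by gcongr <;> linarith only [a1, hc1]
    have a3 : 1 ≤ (c₁ * Θ) * (c₁ * Nat.gcd q (x ^ k)) :=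
      one_le_mul_of_one_le_of_one_le a1 (one_le_mul_of_one_le_of_one_le hc1 hD1)
    linarith only [h0, a2, a3]
  refine (pow_le_pow_iff_left₀ (norm_nonneg _) (by positivity)
    (show 2 * (t + 1) ^ 2 ≠ 0 by positivity)).1 (hG.trans ?_)
  have := HH_nonneg N
  have := MV_nonneg S k (t + 1) i
  calc _ ≤ (((2 * R : ℝ)) ^ i) ^ (4 * (t + 1) * t) *
      ((16 * c₁ ^ 2 * Θ * Nat.gcd q (x ^ k)) * (N + N * HH N)) * Mt ^ 2 := by gcongr
    _ = (((2 * R : ℝ)) ^ i) ^ (4 * (t + 1) * t) *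
      (16 * c₁ ^ 2 * Θ * (N + N * HH N)) * Mt ^ 2 * Nat.gcd q (x ^ k) := by ring
    _ ≤ Λ ^ (2 * (t + 1) ^ 2) * (Nat.gcd q x : ℝ) ^ (2 * (t + 1) ^ 2) := by clear * - R i t c₁ Θ N Mt Λ q x k hΛ hD hq hΛ0; gcongr
    _ = _ := by rw [mul_pow]

end

end Pool.Agent.Work.MP_45c923_nt
end

-- merged part: Pool.Agent.Work.MP_45c923_nt.ArcMV
section
set_option autoImplicit false

namespace Pool.Agent.Work.MP_45c923_nt

open Finset Pool.Agent.Lib.LargeSieve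

noncomputable section

/-- primitive lattice points in a thin strip -/
theorem card_prim_le (β η : ℝ) (hη : 0 ≤ η) (Q : ℕ) (P : Finset (ℕ × ℤ))
    (hP : ∀ p ∈ P, 1 ≤ p.1 ∧ p.1 ≤ Q ∧ Int.gcd p.2 p.1 = 1 ∧ |(p.1 : ℝ) * β - p.2| ≤ η) :
    (P.card : ℝ) ≤ 4 * Q * η + 1 := by
  rcases P.eq_empty_or_nonempty with rfl | hne
  · simp only [card_empty, Nat.cast_zero]; positivity
  obtain ⟨p₀, hp₀, hmax⟩ := P.exists_max_image (fun p => p.1) hne
  obtain ⟨h1, h2, h3, h4⟩ := hP p₀ hp₀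
  let l : ℕ × ℤ → ℤ := fun p => (p.1 : ℤ) * p₀.2 - p₀.1 * p.2
  have hinj : Set.InjOn l P := by
    intro p hp p' hp' e
    have e1 : ((p.1 : ℤ) - p'.1) * p₀.2 = p₀.1 * (p.2 - p'.2) := by
      simp only [l] at e
      linear_combination e
    have hd : (p₀.1 : ℤ) ∣ (p.1 : ℤ) - p'.1 := by
      refine Int.dvd_of_dvd_mul_left_of_gcd_one (c := p₀.2) ⟨_, e1⟩ ?_
      rw [Int.gcd_comm]; exact h3
    have a1 := (hP p hp).1
    have a2 := (hP p' hp').1
    have a3 := hmax p hp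
    have a4 := hmax p' hp'
    have e2 : (p.1 : ℤ) - p'.1 = 0 := Int.eq_zero_of_abs_lt_dvd hd (by rw [abs_lt]; omega)
    rw [e2, zero_mul] at e1
    have e3 : p.2 - p'.2 = 0 := (mul_eq_zero.1 e1.symm).resolve_left (by omega)
    exact Prod.ext (by omega) (by omega)
  rw [← card_image_of_injOn hinj]
  have hb : ∀ p ∈ P, |((l p : ℤ) : ℝ)| ≤ 2 * Q * η := by
    intro p hp
    obtain ⟨b1, b2, -, b4⟩ := hP p hp
    have e : ((l p : ℤ) : ℝ) = p₀.1 * ((p.1 : ℝ) * β - p.2) - p.1 * ((p₀.1 : ℝ) * β - p₀.2) := by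
      simp only [l]; push_cast; ring
    rw [e]
    refine (abs_sub _ _).trans ?_
    rw [abs_mul, abs_mul, Nat.abs_cast, Nat.abs_cast]
    have c1 : (p₀.1 : ℝ) ≤ Q := by exact_mod_cast h2
    have c2 : (p.1 : ℝ) ≤ Q := by exact_mod_cast b2
    have c3 : (p₀.1 : ℝ) * |(p.1 : ℝ) * β - p.2| ≤ Q * η := by gcongr
    have c4 : (p.1 : ℝ) * |(p₀.1 : ℝ) * β - p₀.2| ≤ Q * η := by gcongr
    linarith only [c3, c4]
  have := card_le_of_cong (P.image l) (q := 1) one_pos (Z := 4 * Q * η) (by positivity)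
    (fun a _ b _ => by simp) (by
      intro a ha b hb'
      obtain ⟨p, hp, rfl⟩ := mem_image.1 ha
      obtain ⟨p', hp', rfl⟩ := mem_image.1 hb'
      have c1 := abs_le.1 (hb p hp)
      have c2 := abs_le.1 (hb p' hp')
      push_cast
      linarith only [c1, c2, c1.2, c2.1])
  simpa using this

namespace ArcAux

open MeasureTheory

lemma unfold_periodic {h : ℝ → ℝ} (hc : Continuous h) (hper : Function.Periodic h 1)
    (N : ℕ) {c r : ℝ} (hr : 0 ≤ r) (h1 : -(N : ℝ) < c - r) (h2 : c + r ≤ N) :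
    ∫ x in c - r..c + r, h x = ∑ m ∈ range (2 * N),
      ∫ b in (0 : ℝ)..1, (if |b + ((m : ℤ) - N : ℤ) - c| ≤ r then 1 else 0) * h b := by
  let F : ℝ → ℝ := (Set.Icc (c - r) (c + r)).indicator h
  have hF : ∀ a b, IntervalIntegrable F volume a b := fun a b =>
    ⟨(hc.intervalIntegrable a b).1.indicator measurableSet_Icc,
      (hc.intervalIntegrable a b).2.indicator measurableSet_Icc⟩
  have e1 : ∫ x in c - r..c + r, h x = ∫ x in (-(N : ℝ))..N, F x := by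
    rw [intervalIntegral.integral_of_le (by linarith), intervalIntegral.integral_of_le (by linarith),
      setIntegral_indicator measurableSet_Icc, ← integral_Icc_eq_integral_Ioc]
    congr 2
    ext x
    simp only [Set.mem_Icc, Set.mem_inter_iff, Set.mem_Ioc]
    constructor
    · rintro ⟨a, b⟩
      exact ⟨⟨by linarith, by linarith⟩, a, b⟩
    · exact fun hx => hx.2
  have e2 := intervalIntegral.sum_integral_adjacent_intervals (f := F) (μ := volume)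
    (a := fun m : ℕ => (m : ℝ) - N) (n := 2 * N) (fun k _ => hF _ _)
  have e3 : ((2 * N : ℕ) : ℝ) - N = N := by push_cast; ring
  simp only [Nat.cast_zero, zero_sub, e3] at e2
  rw [e1, ← e2]
  refine sum_congr rfl fun m _ => ?_
  have e4 := intervalIntegral.integral_comp_add_right (a := 0) (b := 1) F ((m : ℝ) - N)
  have e5 : ((m + 1 : ℕ) : ℝ) - N = 1 + ((m : ℝ) - N) := by push_cast; ring
  rw [zero_add] at e4
  rw [e5, ← e4]
  congr 1
  funext b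
  have e6 : h (b + ((m : ℝ) - N)) = h b := by
    have := hper.int_mul ((m : ℤ) - N) b
    simpa using this
  simp only [F, Set.indicator, Set.mem_Icc, e6, abs_le]
  push_cast
  by_cases hb : c - r ≤ b + ((m : ℝ) - N) ∧ b + ((m : ℝ) - N) ≤ c + r
  · rw [if_pos hb, if_pos ⟨by linarith only [hb, hb.1], by linarith [hb.2]⟩, one_mul]
  · rw [if_neg hb, if_neg (fun hh => hb ⟨by linarith [hh.1], by linarith [hh.2]⟩), zero_mul]

lemma ii_ite {h : ℝ → ℝ} (hc : Continuous h) (d r : ℝ) :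
    IntervalIntegrable (fun b => (if |b + d| ≤ r then 1 else 0) * h b) volume 0 1 := by
  have hm : MeasurableSet {b : ℝ | |b + d| ≤ r} :=
    (isClosed_le (by fun_prop) continuous_const).measurableSet
  have e : (fun b => (if |b + d| ≤ r then 1 else 0) * h b) = {b : ℝ | |b + d| ≤ r}.indicator h := by
    funext b
    simp only [Set.indicator, Set.mem_ofPred_eq]
    split_ifs <;> simp
  rw [e]
  exact ⟨(hc.intervalIntegrable 0 1).1.indicator hm, (hc.intervalIntegrable 0 1).2.indicator hm⟩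

lemma ii_sum {κ : Type*} (S : Finset κ) {f : κ → ℝ → ℝ} {a b : ℝ}
    (h : ∀ i ∈ S, IntervalIntegrable (f i) volume a b) :
    IntervalIntegrable (fun x => ∑ i ∈ S, f i x) volume a b := by
  have := IntervalIntegrable.sum S h
  have e : (∑ i ∈ S, f i) = fun x => ∑ i ∈ S, f i x := by
    funext x; simp
  rwa [e] at this

/-- weighted periodic covering -/
lemma periodic_cover {κ : Type*} {h : ℝ → ℝ} (hc : Continuous h) (hper : Function.Periodic h 1)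
    (h0 : ∀ x, 0 ≤ h x) (S : Finset κ) (c r w : κ → ℝ) (hr : ∀ i ∈ S, 0 ≤ r i) (M : ℝ)
    (hM : ∀ (b : ℝ) (T : Finset ℤ),
      ∑ i ∈ S, ∑ n ∈ T, w i * (if |b + n - c i| ≤ r i then 1 else 0) ≤ M) :
    ∑ i ∈ S, w i * ∫ x in c i - r i..c i + r i, h x ≤ M * ∫ b in (0 : ℝ)..1, h b := by
  classical
  obtain ⟨N, hN⟩ := exists_nat_gt (∑ i ∈ S, (|c i| + r i))
  have hN' : ∀ i ∈ S, |c i| + r i < N := fun i hi =>
    (single_le_sum (f := fun i => |c i| + r i)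
      (fun j hj => add_nonneg (abs_nonneg _) (hr j hj)) hi).trans_lt hN
  have hii : ∀ (i : κ) (m : ℕ), IntervalIntegrable
      (fun b => w i * ((if |b + ((m : ℤ) - N : ℤ) - c i| ≤ r i then 1 else 0) * h b)) volume 0 1 := by
    intro i m
    have := ii_ite hc ((((m : ℤ) - N : ℤ) : ℝ) - c i) (r i)
    simp only [← add_sub_assoc] at this
    exact this.const_mul _
  have e1 : ∑ i ∈ S, w i * ∫ x in c i - r i..c i + r i, h x = ∫ b in (0 : ℝ)..1,
      ∑ i ∈ S, ∑ m ∈ range (2 * N),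
        w i * ((if |b + ((m : ℤ) - N : ℤ) - c i| ≤ r i then 1 else 0) * h b) := by
    rw [intervalIntegral.integral_finsetSum
      (fun i _ => ii_sum _ fun m _ => hii i m)]
    refine sum_congr rfl fun i hi => ?_
    have a1 := hN' i hi
    have a2 := le_abs_self (c i)
    have a3 := neg_abs_le (c i)
    rw [unfold_periodic hc hper N (hr i hi) (by linarith) (by linarith),
      intervalIntegral.integral_finsetSum (fun m _ => hii i m), mul_sum]
    refine sum_congr rfl fun m _ => ?_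
    rw [intervalIntegral.integral_const_mul]
  rw [e1, ← intervalIntegral.integral_const_mul]
  refine intervalIntegral.integral_mono_on zero_le_one
    (ii_sum _ fun i _ => ii_sum _ fun m _ => hii i m)
    ((hc.intervalIntegrable 0 1).const_mul _) fun b _ => ?_
  have := hM b ((range (2 * N)).image fun m : ℕ => (m : ℤ) - N)
  simp only [← mul_assoc, ← sum_mul]
  refine mul_le_mul_of_nonneg_right (le_of_eq_of_le ?_ this) (h0 b)
  refine sum_congr rfl fun i _ => ?_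
  rw [sum_image (fun a _ b _ e => by simpa using e)]

lemma holder {ι : Type*} (A : Finset ι) (y g : ι → ℝ) (hy : ∀ j ∈ A, 0 ≤ y j)
    (hg : ∀ j ∈ A, 0 < g j) {G : ℝ} (hG : ∑ j ∈ A, g j ≤ G) (n : ℕ) :
    (∑ j ∈ A, y j) ^ (n + 1) ≤ G ^ n * ∑ j ∈ A, (g j ^ n)⁻¹ * y j ^ (n + 1) := by
  rcases A.eq_empty_or_nonempty with rfl | hne
  · simp
  have hs : 0 < ∑ j ∈ A, g j := sum_pos hg hne
  set s := ∑ j ∈ A, g j with hs'
  have h1 := Real.pow_arith_mean_le_arith_mean_pow A (fun j => g j / s) (fun j => y j / g j)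
    (fun j hj => (div_pos (hg j hj) hs).le) (by rw [← sum_div, div_self hs.ne'])
    (fun j hj => div_nonneg (hy j hj) (hg j hj).le) (n + 1)
  have e1 : ∑ j ∈ A, g j / s * (y j / g j) = (∑ j ∈ A, y j) / s := by
    rw [sum_div]
    refine sum_congr rfl fun j hj => ?_
    have := (hg j hj).ne'
    field_simp
  have e2 : ∑ j ∈ A, g j / s * (y j / g j) ^ (n + 1) =
      (∑ j ∈ A, (g j ^ n)⁻¹ * y j ^ (n + 1)) / s := by
    rw [sum_div]
    refine sum_congr rfl fun j hj => ?_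
    have := (hg j hj).ne'
    rw [div_pow]
    field_simp
    ring
  rw [e1, e2, div_pow, div_le_div_iff₀ (by positivity) hs] at h1
  have h2 : 0 ≤ ∑ j ∈ A, (g j ^ n)⁻¹ * y j ^ (n + 1) :=
    sum_nonneg fun j hj => mul_nonneg (inv_nonneg.2 (pow_pos (hg j hj) n).le)
      (pow_nonneg (hy j hj) _)
  have h3 : (∑ j ∈ A, y j) ^ (n + 1) ≤ s ^ n * ∑ j ∈ A, (g j ^ n)⁻¹ * y j ^ (n + 1) := by
    refine le_of_mul_le_mul_right ?_ hs
    refine h1.trans (le_of_eq ?_)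
    ring
  exact h3.trans (mul_le_mul_of_nonneg_right (pow_le_pow_left₀ hs.le hG n) h2)

lemma sum_inv_sq_le (Q : ℕ) : ∑ D ∈ Icc 1 Q, ((D : ℝ) ^ 2)⁻¹ ≤ 2 := by
  suffices h : ∀ Q : ℕ, ∑ D ∈ Icc 1 (Q + 1), ((D : ℝ) ^ 2)⁻¹ ≤ 2 - ((Q : ℝ) + 1)⁻¹ by
    rcases Q with _ | Q
    · simp
    · have : 0 ≤ ((Q : ℝ) + 1)⁻¹ := by positivity
      linarith only [this, h, h Q]
  intro Q
  induction Q with
  | zero => norm_num
  | succ Q ih =>
    rw [sum_Icc_succ_top (by omega)]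
    have : (((Q + 1 + 1 : ℕ) : ℝ) ^ 2)⁻¹ ≤ ((Q : ℝ) + 1)⁻¹ - (((Q + 1 : ℕ) : ℝ) + 1)⁻¹ := by
      push_cast
      rw [inv_sub_inv (by positivity) (by positivity), inv_eq_one_div,
        div_le_div_iff₀ (by positivity) (by positivity)]
      linarith only [(Nat.cast_nonneg Q : (0 : ℝ) ≤ Q)]
    linarith only [ih, this]

/-- the multiplicity of a point in the dilated arcs with a given common factor -/
lemma card_fixed (X D Q : ℕ) {η : ℝ} (hη : 0 ≤ η) (b : ℝ) (U : Finset ((ℕ × ℤ) × ℤ))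
    (hD : 1 ≤ D)
    (hU : ∀ u ∈ U, 1 ≤ u.1.1 ∧ u.1.1 ≤ Q ∧ u.1.2 ∈ NN u.1.1 ∧ Nat.gcd u.1.1 X = D ∧
      |b + u.2 - (u.1.2 : ℝ) * X / u.1.1| ≤ η * X / u.1.1) :
    (U.card : ℝ) ≤ 4 * D * (4 * Q * (η * X) + 1) := by
  classical
  rcases U.eq_empty_or_nonempty with rfl | ⟨u₀, hu₀⟩
  · simp only [card_empty, Nat.cast_zero]; positivity
  obtain ⟨X', rfl⟩ : D ∣ X := (hU u₀ hu₀).2.2.2.1 ▸ Nat.gcd_dvd_right _ _
  let φ : (ℕ × ℤ) × ℤ → ℕ × ℤ := fun u => (u.1.1 / D, u.1.2 * X' - u.2 * (u.1.1 / D : ℕ))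
  have hq : ∀ u ∈ U, ∃ q' : ℕ, u.1.1 = D * q' ∧ u.1.1 / D = q' ∧ 1 ≤ q' ∧ Nat.Coprime q' X' := by
    intro u hu
    obtain ⟨h1, -, -, h4, -⟩ := hU u hu
    obtain ⟨q', hq'⟩ : D ∣ u.1.1 := h4 ▸ Nat.gcd_dvd_left _ _
    refine ⟨q', hq', by rw [hq', Nat.mul_div_cancel_left _ hD], ?_, ?_⟩
    · rcases Nat.eq_zero_or_pos q' with h | h
      · rw [h] at hq'; omega
      · exact h
    · rw [hq', Nat.gcd_mul_left] at h4
      exact Nat.eq_of_mul_eq_mul_left hD (h4.trans (mul_one D).symm)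
  have h1 : ((U.image φ).card : ℝ) ≤ 4 * Q * (η * (D * X' : ℕ)) + 1 := by
    refine card_prim_le b _ (by positivity) Q _ ?_
    intro p hp
    obtain ⟨u, hu, rfl⟩ := mem_image.1 hp
    obtain ⟨q', e1, e2, e3, e4⟩ := hq u hu
    obtain ⟨a1, a2, a3, -, a5⟩ := hU u hu
    simp only [φ, e2]
    refine ⟨e3, ?_, ?_, ?_⟩
    · have : 1 * q' ≤ D * q' := Nat.mul_le_mul_right _ hD
      omega
    · have a6 : IsCoprime u.1.2 (q' : ℤ) := by
        have := Int.isCoprime_iff_gcd_eq_one.2 (mem_filter.1 a3).2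
        rw [e1, Nat.cast_mul] at this
        exact this.of_mul_right_right
      have a7 : IsCoprime (X' : ℤ) (q' : ℤ) := Nat.isCoprime_iff_coprime.2 e4.symm
      have a8 := (a6.mul_left a7).add_mul_right_left (-u.2)
      rw [← Int.isCoprime_iff_gcd_eq_one]
      rwa [neg_mul, ← sub_eq_add_neg] at a8
    · rw [e1] at a5
      have hD' : (1 : ℝ) ≤ D := by exact_mod_cast hD
      have hq' : (0 : ℝ) < q' := by exact_mod_cast e3
      have a6 : (q' : ℝ) * b - ((u.1.2 * X' - u.2 * (q' : ℕ) : ℤ) : ℝ) =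
          q' * (b + u.2 - (u.1.2 : ℝ) * (D * X' : ℕ) / (D * q' : ℕ)) := by
        push_cast
        field_simp
        ring
      rw [a6, abs_mul, abs_of_pos hq']
      refine (mul_le_mul_of_nonneg_left a5 hq'.le).trans ?_
      push_cast
      have a7 : (q' : ℝ) * (η * (D * X') / (D * q')) = η * X' := by field_simp
      rw [a7]
      have : (0 : ℝ) ≤ X' := Nat.cast_nonneg _
      gcongr
      exact le_mul_of_one_le_left this hD'
  have h2 : ∀ p ∈ U.image φ, ((U.filter fun u => φ u = p).card : ℝ) ≤ 4 * D := by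
    intro p hp
    obtain ⟨u, hu, rfl⟩ := mem_image.1 hp
    obtain ⟨q', e1, e2, e3, e4⟩ := hq u hu
    have key : ∀ v ∈ U.filter fun v => φ v = φ u, v.1.1 = D * q' ∧
        v.1.2 * X' - v.2 * q' = u.1.2 * X' - u.2 * q' := by
      intro v hv
      obtain ⟨hv, e⟩ := mem_filter.1 hv
      obtain ⟨q'', f1, f2, -, -⟩ := hq v hv
      simp only [φ, e2, f2, Prod.mk.injEq] at e
      obtain ⟨rfl, e⟩ := e
      exact ⟨f1, e⟩
    have hinj : Set.InjOn (fun v : (ℕ × ℤ) × ℤ => v.1.2) (U.filter fun v => φ v = φ u) := by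
      intro v hv v' hv' e
      obtain ⟨b1, b2⟩ := key v hv
      obtain ⟨c1, c2⟩ := key v' hv'
      have e' : v.1.2 = v'.1.2 := e
      have : (v.2 - v'.2) * q' = 0 := by rw [e'] at b2; linear_combination c2 - b2
      have : v.2 - v'.2 = 0 := (mul_eq_zero.1 this).resolve_right (by omega)
      exact Prod.ext (Prod.ext (b1.trans c1.symm) e') (by omega)
    rw [← card_image_of_injOn hinj]
    have hq' : (0 : ℝ) < q' := by exact_mod_cast e3
    have hD' : (1 : ℝ) ≤ D := by exact_mod_cast hD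
    have := card_le_of_cong ((U.filter fun v => φ v = φ u).image fun v => v.1.2) (q := q') e3
      (Z := 3 * D * q') (by positivity) (by
        intro a ha a' ha'
        obtain ⟨v, hv, rfl⟩ := mem_image.1 ha
        obtain ⟨v', hv', rfl⟩ := mem_image.1 ha'
        obtain ⟨-, b2⟩ := key v hv
        obtain ⟨-, c2⟩ := key v' hv'
        have a7 : IsCoprime (q' : ℤ) (X' : ℤ) := Nat.isCoprime_iff_coprime.2 e4
        exact a7.dvd_of_dvd_mul_right ⟨v.2 - v'.2, by linear_combination b2 - c2⟩) (by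
        intro a ha a' ha'
        obtain ⟨v, hv, rfl⟩ := mem_image.1 ha
        obtain ⟨v', hv', rfl⟩ := mem_image.1 ha'
        have b1 := (mem_Icc.1 (mem_filter.1 (hU v (mem_filter.1 hv).1).2.2.1).1).2
        have c1 := (mem_Icc.1 (mem_filter.1 (hU v' (mem_filter.1 hv').1).2.2.1).1).1
        rw [(key v hv).1] at b1
        rw [(key v' hv').1] at c1
        have : v.1.2 - v'.1.2 ≤ 3 * D * q' := by push_cast at b1 c1; linarith only [b1, c1]
        exact_mod_cast this)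
    rw [mul_div_assoc, div_self hq'.ne'] at this
    linarith only [hD', this]
  rw [card_eq_sum_card_image φ U, Nat.cast_sum]
  refine (sum_le_sum h2).trans ?_
  rw [sum_const, nsmul_eq_mul, mul_comm]
  gcongr

lemma mult_le (x k n Q : ℕ) (hx : 1 ≤ x) (hn : 3 * k ≤ n) {η : ℝ} (hη : 0 ≤ η) (b : ℝ)
    (T : Finset ℤ) :
    ∑ i ∈ (Icc 1 Q).sigma NN, ∑ m ∈ T, ((Nat.gcd i.1 x : ℝ) ^ n)⁻¹ *
      (if |b + m - (i.2 : ℝ) * (x : ℝ) ^ k / i.1| ≤ η * (x : ℝ) ^ k / i.1 then 1 else 0) ≤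
      8 * (4 * Q * (η * (x : ℝ) ^ k) + 1) := by
  classical
  let U : Finset ((Σ _ : ℕ, ℤ) × ℤ) := (((Icc 1 Q).sigma NN) ×ˢ T).filter fun u =>
    |b + u.2 - (u.1.2 : ℝ) * (x : ℝ) ^ k / u.1.1| ≤ η * (x : ℝ) ^ k / u.1.1
  have e1 : ∑ i ∈ (Icc 1 Q).sigma NN, ∑ m ∈ T, ((Nat.gcd i.1 x : ℝ) ^ n)⁻¹ *
      (if |b + m - (i.2 : ℝ) * (x : ℝ) ^ k / i.1| ≤ η * (x : ℝ) ^ k / i.1 then 1 else 0) =
      ∑ u ∈ U, ((Nat.gcd u.1.1 x : ℝ) ^ n)⁻¹ := by
    simp only [U, sum_filter, sum_product, mul_ite, mul_one, mul_zero]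
  have hU : ∀ u ∈ U, 1 ≤ u.1.1 ∧ u.1.1 ≤ Q ∧ u.1.2 ∈ NN u.1.1 ∧
      |b + u.2 - (u.1.2 : ℝ) * (x : ℝ) ^ k / u.1.1| ≤ η * (x : ℝ) ^ k / u.1.1 := by
    intro u hu
    obtain ⟨h1, h2⟩ := mem_filter.1 hu
    obtain ⟨h3, h4⟩ := mem_sigma.1 (mem_product.1 h1).1
    exact ⟨(mem_Icc.1 h3).1, (mem_Icc.1 h3).2, h4, h2⟩
  have e2 : ∑ u ∈ U, ((Nat.gcd u.1.1 x : ℝ) ^ n)⁻¹ ≤
      ∑ u ∈ U, ((Nat.gcd u.1.1 (x ^ k) : ℝ) ^ 3)⁻¹ := by
    refine sum_le_sum fun u hu => ?_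
    have h1 : 0 < Nat.gcd u.1.1 x := Nat.gcd_pos_of_pos_right _ hx
    have h2 : 0 < Nat.gcd u.1.1 (x ^ k) := Nat.gcd_pos_of_pos_right _ (pow_pos hx k)
    have h3 : Nat.gcd u.1.1 (x ^ k) ≤ Nat.gcd u.1.1 x ^ k :=
      Nat.le_of_dvd (pow_pos h1 k) (gcd_pow_right_dvd_pow_gcd (a := u.1.1) (b := x) (k := k))
    have h4 : Nat.gcd u.1.1 (x ^ k) ^ 3 ≤ Nat.gcd u.1.1 x ^ n := by
      refine (Nat.pow_le_pow_left h3 3).trans ?_
      rw [← pow_mul]
      exact Nat.pow_le_pow_right h1 (by omega)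
    refine inv_anti₀ (by positivity) ?_
    exact_mod_cast h4
  rw [e1]
  refine e2.trans ?_
  rw [← sum_fiberwise_of_maps_to (t := Icc 1 Q) (g := fun u => Nat.gcd u.1.1 (x ^ k))
    (fun u hu => mem_Icc.2 ⟨Nat.gcd_pos_of_pos_right _ (pow_pos hx k),
      (Nat.gcd_le_left _ (hU u hu).1).trans (hU u hu).2.1⟩)]
  have e3 : ∀ D ∈ Icc 1 Q, ∑ u ∈ U with Nat.gcd u.1.1 (x ^ k) = D,
      ((Nat.gcd u.1.1 (x ^ k) : ℝ) ^ 3)⁻¹ ≤
      ((D : ℝ) ^ 2)⁻¹ * (4 * (4 * Q * (η * (x : ℝ) ^ k) + 1)) := by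
    intro D hD
    have hD1 := (mem_Icc.1 hD).1
    rw [sum_congr rfl (g := fun _ => ((D : ℝ) ^ 3)⁻¹) (fun u hu => by rw [(mem_filter.1 hu).2]),
      sum_const, nsmul_eq_mul]
    let ψ : (Σ _ : ℕ, ℤ) × ℤ → (ℕ × ℤ) × ℤ := fun u => ((u.1.1, u.1.2), u.2)
    have hψ : Function.Injective ψ := by
      rintro ⟨⟨a, b⟩, c⟩ ⟨⟨a', b'⟩, c'⟩ e
      simp only [ψ, Prod.mk.injEq] at e
      obtain ⟨⟨rfl, rfl⟩, rfl⟩ := e
      rfl
    have := card_fixed (x ^ k) D Q hη b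
      ((U.filter fun u => Nat.gcd u.1.1 (x ^ k) = D).image ψ) hD1 (by
        intro u' hu'
        obtain ⟨u, hu, rfl⟩ := mem_image.1 hu'
        obtain ⟨h1, h2⟩ := mem_filter.1 hu
        obtain ⟨h3, h4, h5, h6⟩ := hU u h1
        exact ⟨h3, h4, h5, h2, by push_cast; exact h6⟩)
    rw [card_image_of_injective _ hψ] at this
    push_cast at this
    have hD' : (0 : ℝ) < D := by exact_mod_cast hD1
    refine (mul_le_mul_of_nonneg_right this (by positivity)).trans (le_of_eq ?_)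
    field_simp
  refine (sum_le_sum e3).trans ?_
  rw [← sum_mul]
  have := sum_inv_sq_le Q
  have h0 : 0 ≤ 4 * (4 * Q * (η * (x : ℝ) ^ k) + 1) := by positivity
  refine (mul_le_mul_of_nonneg_right this h0).trans (le_of_eq ?_)
  ring

end ArcAux

theorem arc_mv {ι : Type*} (g : ℝ → ℂ) (hg : Continuous g) (hper : Function.Periodic g 1)
    (A : Finset ι) (x : ι → ℕ) {k v x₀ x₁ Q : ℕ} {η G : ℝ} (hv : 3 * k + 1 ≤ 2 * v)
    (hx₀ : 1 ≤ x₀) (hx : ∀ j ∈ A, x₀ ≤ x j ∧ x j ≤ x₁) (hη : 0 ≤ η) (hG0 : 0 ≤ G)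
    (hG : ∀ q ∈ Icc 1 Q, ∑ j ∈ A, (Nat.gcd q (x j) : ℝ) ≤ G) :
    ∑ q ∈ Icc 1 Q, ∑ a ∈ NN q, ∫ β in -(η / q)..(η / q),
        ‖∑ j ∈ A, g (((a : ℝ) / q + β) * (x j : ℝ) ^ k)‖ ^ (2 * v)
      ≤ 32 * G ^ (2 * v - 1) * A.card / (x₀ : ℝ) ^ k * (Q * η * (x₁ : ℝ) ^ k + 1) *
        ∫ α in (0 : ℝ)..1, ‖g α‖ ^ (2 * v) := by
  obtain ⟨n, hn⟩ : ∃ n, 2 * v = n + 1 := ⟨2 * v - 1, by omega⟩
  rw [hn, Nat.add_sub_cancel]
  let h : ℝ → ℝ := fun α => ‖g α‖ ^ (n + 1)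
  have hc : Continuous h := hg.norm.pow _
  have hp : Function.Periodic h 1 := fun α => by simp only [h, hper α]
  have h0 : ∀ α, 0 ≤ h α := fun α => by positivity
  have hI : 0 ≤ ∫ α in (0 : ℝ)..1, h α := intervalIntegral.integral_nonneg zero_le_one fun α _ => h0 α
  have hxj : ∀ j ∈ A, 1 ≤ x j := fun j hj => hx₀.trans (hx j hj).1
  have step1 : ∀ q ∈ Icc 1 Q, ∀ a : ℤ, ∫ β in -(η / q)..(η / q),
        ‖∑ j ∈ A, g (((a : ℝ) / q + β) * (x j : ℝ) ^ k)‖ ^ (n + 1) ≤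
      G ^ n * ∑ j ∈ A, ((x j : ℝ) ^ k)⁻¹ * (((Nat.gcd q (x j) : ℝ) ^ n)⁻¹ *
        ∫ y in (a : ℝ) * (x j : ℝ) ^ k / q - η * (x j : ℝ) ^ k / q..
          (a : ℝ) * (x j : ℝ) ^ k / q + η * (x j : ℝ) ^ k / q, h y) := by
    intro q hq a
    have hq0 : 0 ≤ η / q := by positivity
    refine (int_mono (g := fun β => G ^ n * ∑ j ∈ A, ((Nat.gcd q (x j) : ℝ) ^ n)⁻¹ *
      h (((a : ℝ) / q + β) * (x j : ℝ) ^ k)) (by linarith only [hq0]) (by fun_prop) (by fun_prop)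
      fun β _ => ?_).trans (le_of_eq ?_)
    · refine (pow_le_pow_left₀ (norm_nonneg _) (norm_sum_le _ _) _).trans ?_
      exact ArcAux.holder A _ (fun j => (Nat.gcd q (x j) : ℝ)) (fun j _ => norm_nonneg _)
        (fun j hj => by exact_mod_cast Nat.gcd_pos_of_pos_right _ (hxj j hj)) (hG q hq) n
    · rw [intervalIntegral.integral_const_mul, int_sum _ _ (fun j _ => by fun_prop)]
      congr 1
      refine sum_congr rfl fun j hj => ?_
      have hX : (x j : ℝ) ^ k ≠ 0 := by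
        have : (0 : ℝ) < x j := by exact_mod_cast hxj j hj
        positivity
      have e := intervalIntegral.integral_comp_add_mul (a := -(η / q)) (b := η / q) h hX
        ((a : ℝ) * (x j : ℝ) ^ k / q)
      have e1 : ∀ β : ℝ, ((a : ℝ) / q + β) * (x j : ℝ) ^ k =
          (a : ℝ) * (x j : ℝ) ^ k / q + (x j : ℝ) ^ k * β := fun β => by ring
      have e2 : (a : ℝ) * (x j : ℝ) ^ k / q + (x j : ℝ) ^ k * -(η / q) =
          (a : ℝ) * (x j : ℝ) ^ k / q - η * (x j : ℝ) ^ k / q := by ring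
      have e3 : (a : ℝ) * (x j : ℝ) ^ k / q + (x j : ℝ) ^ k * (η / q) =
          (a : ℝ) * (x j : ℝ) ^ k / q + η * (x j : ℝ) ^ k / q := by ring
      rw [intervalIntegral.integral_const_mul]
      simp only [e1]
      rw [e, e2, e3, smul_eq_mul]
      ring
  refine (sum_le_sum fun q hq => sum_le_sum fun a _ => step1 q hq a).trans ?_
  rw [sum_sigma', ← mul_sum, sum_comm]
  have step2 : ∀ j ∈ A, ∑ i ∈ (Icc 1 Q).sigma NN, ((x j : ℝ) ^ k)⁻¹ *
      (((Nat.gcd i.1 (x j) : ℝ) ^ n)⁻¹ *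
        ∫ y in (i.2 : ℝ) * (x j : ℝ) ^ k / i.1 - η * (x j : ℝ) ^ k / i.1..
          (i.2 : ℝ) * (x j : ℝ) ^ k / i.1 + η * (x j : ℝ) ^ k / i.1, h y) ≤
      ((x₀ : ℝ) ^ k)⁻¹ * (32 * (Q * η * (x₁ : ℝ) ^ k + 1) * ∫ α in (0 : ℝ)..1, h α) := by
    intro j hj
    rw [← mul_sum]
    have a1 := ArcAux.periodic_cover hc hp h0 ((Icc 1 Q).sigma NN)
      (fun i => (i.2 : ℝ) * (x j : ℝ) ^ k / i.1) (fun i => η * (x j : ℝ) ^ k / i.1)
      (fun i => ((Nat.gcd i.1 (x j) : ℝ) ^ n)⁻¹) (fun i _ => by positivity) _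
      (ArcAux.mult_le (x j) k n Q (hxj j hj) (by omega) hη)
    have a2 : (x j : ℝ) ^ k ≤ (x₁ : ℝ) ^ k := by
      gcongr
      exact (hx j hj).2
    have a3 : ((x j : ℝ) ^ k)⁻¹ ≤ ((x₀ : ℝ) ^ k)⁻¹ := by
      have : (0 : ℝ) < x₀ := by exact_mod_cast hx₀
      refine inv_anti₀ (by positivity) ?_
      gcongr
      exact (hx j hj).1
    have a4 : 8 * (4 * Q * (η * (x j : ℝ) ^ k) + 1) ≤ 32 * (Q * η * (x₁ : ℝ) ^ k + 1) := by
      have : Q * η * (x j : ℝ) ^ k ≤ Q * η * (x₁ : ℝ) ^ k := by gcongr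
      linarith only [this]
    refine (mul_le_mul_of_nonneg_left (a1.trans (mul_le_mul_of_nonneg_right a4 hI))
      (by positivity)).trans ?_
    gcongr
  refine (mul_le_mul_of_nonneg_left (sum_le_sum step2) (by positivity)).trans (le_of_eq ?_)
  rw [sum_const, nsmul_eq_mul]
  simp only [h]
  ring

end

end Pool.Agent.Work.MP_45c923_nt
end

-- merged part: Pool.Agent.Work.MP_45c923_nt.Cover
section
set_option autoImplicit false

namespace Pool.Agent.Work.MP_45c923_nt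

open Finset Pool.Agent.Lib.LargeSieve

noncomputable section

namespace CoverAux

open MeasureTheory

lemma int_eq_indicator {E : Type*} [NormedAddCommGroup E] [NormedSpace ℝ E] (F : ℝ → E)
    (c : ℝ) {w : ℝ} (hw : 0 ≤ w) :
    ∫ β in -w..w, F (c + β) = ∫ α, (Set.Icc (c - w) (c + w)).indicator F α := by
  rw [intervalIntegral.integral_comp_add_left, integral_indicator measurableSet_Icc,
    integral_Icc_eq_integral_Ioc, intervalIntegral.integral_of_le (by linarith), sub_eq_add_neg]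

lemma integrable_ind {E : Type*} [NormedAddCommGroup E] {F : ℝ → E} (hF : Continuous F)
    (a b : ℝ) : Integrable ((Set.Icc a b).indicator F) :=
  (integrable_indicator_iff measurableSet_Icc).2 hF.integrableOn_Icc

lemma mem_iff {α c w : ℝ} : α ∈ Set.Icc (c - w) (c + w) ↔ |α - c| ≤ w := by
  rw [Set.mem_Icc, abs_le]
  constructor <;> rintro ⟨h1, h2⟩ <;> constructor <;> linarith only [h1, h2]

lemma sum_gcd_mul {q : ℕ} (a b : ℕ) : (Nat.gcd q (a * b) : ℝ) ≤ Nat.gcd q a * Nat.gcd q b := by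
  rcases Nat.eq_zero_or_pos (Nat.gcd q a * Nat.gcd q b) with h | h
  · rcases mul_eq_zero.1 h with h1 | h1
    · obtain ⟨rfl, rfl⟩ := Nat.gcd_eq_zero_iff.1 h1
      simp
    · obtain ⟨rfl, rfl⟩ := Nat.gcd_eq_zero_iff.1 h1
      simp
  · exact_mod_cast Nat.le_of_dvd h (_root_.gcd_mul_dvd_mul_gcd q a b)

end CoverAux

open CoverAux MeasureTheory in
theorem cover {ι κ : Type*} (F : ℝ → ℂ) (hF : Continuous F) (A : ℝ) (I : Finset ι)
    (c w : ι → ℝ) (K : Finset κ) (d r : κ → ℝ) (G : κ → ℝ → ℝ)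
    (hw : ∀ i ∈ I, 0 ≤ w i) (hin : ∀ i ∈ I, A ≤ c i - w i ∧ c i + w i ≤ A + 1)
    (hdis : ∀ i ∈ I, ∀ j ∈ I, i ≠ j → w i + w j < |c i - c j|)
    (hr : ∀ j ∈ K, 0 ≤ r j) (hG : ∀ j ∈ K, Continuous (G j)) (hG0 : ∀ j ∈ K, ∀ α, 0 ≤ G j α)
    (hcov : ∀ α, A ≤ α → α < A + 1 →
      (∃ i ∈ I, |α - c i| ≤ w i) ∨ ∃ j ∈ K, |α - d j| ≤ r j ∧ ‖F α‖ ≤ G j α) :
    ‖(∫ α in A..A + 1, F α) - ∑ i ∈ I, ∫ β in -w i..w i, F (c i + β)‖
      ≤ ∑ j ∈ K, ∫ β in -r j..r j, G j (d j + β) := by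
  have e0 : ∫ α in A..A + 1, F α = ∫ α, (Set.Icc A (A + 1)).indicator F α := by
    rw [integral_indicator measurableSet_Icc, integral_Icc_eq_integral_Ioc,
      intervalIntegral.integral_of_le (by linarith)]
  rw [e0, sum_congr rfl fun i hi => int_eq_indicator F (c i) (hw i hi),
    sum_congr rfl fun j hj => int_eq_indicator (G j) (d j) (hr j hj),
    ← integral_finsetSum _ fun i _ => integrable_ind hF _ _,
    ← integral_finsetSum _ fun j hj => integrable_ind (hG j hj) _ _,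
    ← integral_sub (integrable_ind hF _ _)
      (integrable_finsetSum _ fun i _ => integrable_ind hF _ _)]
  refine norm_integral_le_of_norm_le
    (integrable_finsetSum _ fun j hj => integrable_ind (hG j hj) _ _) ?_
  have hne : ∀ᵐ α : ℝ, α ≠ A + 1 := by
    filter_upwards [(Set.countable_singleton (A + 1)).ae_notMem volume] with α h using h
  filter_upwards [hne] with α hα
  have nn : ∀ j ∈ K, 0 ≤ (Set.Icc (d j - r j) (d j + r j)).indicator (G j) α := fun j hj =>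
    Set.indicator_nonneg (fun β _ => hG0 j hj β) α
  by_cases h1 : ∃ i ∈ I, |α - c i| ≤ w i
  · obtain ⟨i, hi, h2⟩ := h1
    have h3 := mem_iff.2 h2
    have h4 : α ∈ Set.Icc A (A + 1) := ⟨(hin i hi).1.trans h3.1, h3.2.trans (hin i hi).2⟩
    rw [sum_eq_single_of_mem i hi, Set.indicator_of_mem h3, Set.indicator_of_mem h4, sub_self,
      norm_zero]
    · exact sum_nonneg nn
    · intro j hj hji
      refine Set.indicator_of_notMem (fun h5 => ?_) _
      have h6 := mem_iff.1 h5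
      have h7 := hdis j hj i hi hji
      have h8 := abs_sub_le (c j) α (c i)
      rw [abs_sub_comm (c j) α] at h8
      linarith
  · rw [sum_eq_zero fun i hi => Set.indicator_of_notMem (fun h => h1 ⟨i, hi, mem_iff.1 h⟩) _,
      sub_zero]
    by_cases h2 : α ∈ Set.Icc A (A + 1)
    · obtain ⟨j, hj, h3, h4⟩ := (hcov α h2.1 (lt_of_le_of_ne h2.2 hα)).resolve_left h1
      rw [Set.indicator_of_mem h2]
      refine h4.trans (le_trans (le_of_eq ?_) (single_le_sum nn hj))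
      rw [Set.indicator_of_mem (mem_iff.2 h3)]
    · rw [Set.indicator_of_notMem h2, norm_zero]
      exact sum_nonneg nn

/-- sums of greatest common divisors -/
theorem sum_gcd_le_divisors {q : ℕ} (hq : 1 ≤ q) (Z : ℕ) :
    ∑ y ∈ Icc 1 Z, (Nat.gcd q y : ℝ) ≤ q.divisors.card * Z := by
  calc ∑ y ∈ Icc 1 Z, (Nat.gcd q y : ℝ)
      ≤ ∑ y ∈ Icc 1 Z, ∑ e ∈ q.divisors, if e ∣ y then (e : ℝ) else 0 := by
        refine sum_le_sum fun y _ => ?_
        have h1 : Nat.gcd q y ∈ q.divisors :=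
          Nat.mem_divisors.2 ⟨Nat.gcd_dvd_left _ _, by omega⟩
        refine le_trans (le_of_eq ?_) (single_le_sum (f := fun e => if e ∣ y then (e : ℝ) else 0)
          (fun e _ => by split_ifs <;> positivity) h1)
        simp only [Nat.gcd_dvd_right, if_true]
    _ = ∑ e ∈ q.divisors, (e : ℝ) * (Z / e : ℕ) := by
        rw [sum_comm]
        refine sum_congr rfl fun e _ => ?_
        rw [← sum_filter, sum_const, nsmul_eq_mul, mul_comm, ← Nat.Ioc_filter_dvd_card_eq_div]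
        rfl
    _ ≤ ∑ _e ∈ q.divisors, (Z : ℝ) :=
        sum_le_sum fun e _ => by exact_mod_cast Nat.mul_div_le Z e
    _ = _ := by rw [sum_const, nsmul_eq_mul]

theorem sum_gcd_TT {R : ℕ} {S : Finset ℕ} (hS : PP R S) {q : ℕ} (hq : 1 ≤ q) (m Y Z : ℕ) :
    ∑ j ∈ Ioc Y Z ×ˢ TT S m, (Nat.gcd q (j.1 * pr j.2) : ℝ)
      ≤ (q.divisors.card : ℝ) ^ (m + 1) * Z * (2 * R) ^ m := by
  have h1 : ∑ p ∈ S, (Nat.gcd q p : ℝ) ≤ q.divisors.card * (2 * R) := by
    have : S ⊆ Icc 1 (2 * R) := fun p hp => mem_Icc.2 ⟨(hS.prime p hp).one_le, hS.le' p hp⟩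
    refine (sum_le_sum_of_subset_of_nonneg this fun _ _ _ => by positivity).trans ?_
    exact_mod_cast sum_gcd_le_divisors hq (2 * R)
  have h2 : ∀ n, ∑ u ∈ TT S n, (Nat.gcd q (pr u) : ℝ) ≤ (q.divisors.card * (2 * R)) ^ n := by
    intro n
    induction n with
    | zero => rw [sum_TT_zero S fun x => (Nat.gcd q x : ℝ)]; simp
    | succ n ih =>
      rw [sum_TT_succ S n fun x => (Nat.gcd q x : ℝ), pow_succ']
      refine (sum_le_sum fun p _ => sum_le_sum fun u _ => CoverAux.sum_gcd_mul p (pr u)).trans ?_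
      rw [← sum_mul_sum]
      gcongr
  have h3 : ∑ y ∈ Ioc Y Z, (Nat.gcd q y : ℝ) ≤ q.divisors.card * Z := by
    have : Ioc Y Z ⊆ Icc 1 Z := fun y hy => by
      rw [mem_Ioc] at hy; rw [mem_Icc]; omega
    exact (sum_le_sum_of_subset_of_nonneg this fun _ _ _ => by positivity).trans
      (sum_gcd_le_divisors hq Z)
  rw [sum_product]
  refine (sum_le_sum fun y _ => sum_le_sum fun u _ => CoverAux.sum_gcd_mul y (pr u)).trans ?_
  rw [← sum_mul_sum]
  calc _ ≤ (q.divisors.card * Z : ℝ) * (q.divisors.card * (2 * R)) ^ m := by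
        gcongr
        exact h2 m
    _ = _ := by rw [mul_pow, pow_succ]; ring

open Filter Topology Chebyshev in
/-- many primes in `[R, 2R]` -/
theorem exists_pool (ε : ℝ) (hε : 0 < ε) : ∃ R₀ : ℕ, ∀ R : ℕ, R₀ ≤ R →
    ∃ S : Finset ℕ, PP R S ∧ (R : ℝ) ^ (1 - ε) ≤ S.card := by
  have t0 : Tendsto (fun R : ℕ => (R : ℝ)) atTop atTop := tendsto_natCast_atTop_atTop
  have t1 := Pool.Agent.Lib.ANT.tendsto_theta_div.comp t0
  have t2 := Pool.Agent.Lib.ANT.tendsto_theta_div.comp (t0.const_mul_atTop two_pos)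
  have t3 := ((isLittleO_log_rpow_atTop hε).comp_tendsto t0).def (show (0 : ℝ) < 1 / 4 by norm_num)
  have e1 := t1.eventually (gt_mem_nhds (show (1 : ℝ) < 11 / 10 by norm_num))
  have e2 := t2.eventually (lt_mem_nhds (show (9 / 10 : ℝ) < 1 by norm_num))
  obtain ⟨R₀, h⟩ := eventually_atTop.1 (((e1.and e2).and t3).and (eventually_ge_atTop 2))
  refine ⟨R₀, fun R hR => ⟨(Ioc R (2 * R)).filter Nat.Prime, ?_, ?_⟩⟩
  · exact ⟨fun p hp => (mem_filter.1 hp).2, fun p hp => (mem_Ioc.1 (mem_filter.1 hp).1).1.le,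
      fun p hp => (mem_Ioc.1 (mem_filter.1 hp).1).2, (h R hR).2⟩
  obtain ⟨⟨⟨h1, h2⟩, h3⟩, h4⟩ := h R hR
  have hR2 : (2 : ℝ) ≤ R := by exact_mod_cast h4
  have hR0 : (0 : ℝ) < R := by linarith only [hR2]
  simp only [Function.comp] at h1 h2 h3
  rw [div_lt_iff₀ hR0] at h1
  rw [lt_div_iff₀ (by positivity)] at h2
  have hl : 0 < Real.log R := Real.log_pos (by linarith only [hR2])
  rw [Real.norm_eq_abs, Real.norm_eq_abs, abs_of_pos hl, abs_of_pos (by positivity)] at h3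
  have h5 : θ (2 * R) = θ R + ∑ p ∈ (Ioc R (2 * R)).filter Nat.Prime, Real.log p := by
    unfold Chebyshev.theta
    rw [show (2 * R : ℝ) = ((2 * R : ℕ) : ℝ) by push_cast; ring, Nat.floor_natCast,
      Nat.floor_natCast, sum_filter, sum_filter, sum_filter,
      sum_Ioc_consecutive _ (Nat.zero_le _) (by omega)]
  have h6 : ∑ p ∈ (Ioc R (2 * R)).filter Nat.Prime, Real.log p ≤
      ((Ioc R (2 * R)).filter Nat.Prime).card * (2 * Real.log R) := by
    rw [← nsmul_eq_mul]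
    refine sum_le_card_nsmul _ _ _ fun p hp => ?_
    have h7 := mem_Ioc.1 (mem_filter.1 hp).1
    have h8 : (p : ℝ) ≤ 2 * R := by exact_mod_cast h7.2
    have h9 : (R : ℝ) < p := by exact_mod_cast h7.1
    calc Real.log p ≤ Real.log (R * R) := Real.log_le_log (by linarith only [hR2, h9]) (by linarith only [h8, hR2, mul_nonneg_of_nonpos_of_nonpos (Mathlib.Tactic.Linarith.sub_nonpos_of_le (Mathlib.Tactic.Linarith.natCast_nonneg ℝ R)) (Mathlib.Tactic.Linarith.sub_nonpos_of_le hR2)])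
      _ = 2 * Real.log R := by rw [Real.log_mul hR0.ne' hR0.ne']; ring
  rw [Real.rpow_sub hR0, Real.rpow_one, div_le_iff₀ (by positivity)]
  have h10 : (0 : ℝ) ≤ ((Ioc R (2 * R)).filter Nat.Prime).card := by positivity
  linarith only [h1, h2, hR2, h5, h6, h3, mul_nonneg_of_nonpos_of_nonpos (Mathlib.Tactic.Linarith.sub_nonpos_of_le (Mathlib.Tactic.Linarith.natCast_nonneg ℝ #(filter Nat.Prime (Ioc R ((2 : ℕ) * R))))) (Mathlib.Tactic.Linarith.sub_nonpos_of_le h3)]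

/-- a nonzero Fourier coefficient gives a representation -/
theorem exists_rep {S : Finset ℕ} {k J Y Z s n : ℕ} {A : ℝ}
    (h : ∫ α in A..A + 1, ff S k J Y Z α ^ s * ee (-(α * n)) ≠ 0) :
    ∃ x : Fin s → ℕ, n = ∑ i, x i ^ k := by
  by_contra hne
  apply h
  have e1 : ∀ α, ff S k J Y Z α =
      ES (Ioc Y Z ×ˢ TT S J) (fun j => ((j.1 * pr j.2 : ℕ) : ℤ) ^ k) α := by
    intro α
    unfold ff GG ES
    rw [sum_product]
    refine sum_congr rfl fun y _ => sum_congr rfl fun u _ => ?_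
    push_cast
    rw [mul_pow, mul_assoc]
  have e2 : ∀ α, ff S k J Y Z α ^ s * ee (-(α * n)) =
      ∑ U ∈ Fintype.piFinset fun _ : Fin s => Ioc Y Z ×ˢ TT S J,
        ee (α * ((∑ i, (((U i).1 * pr (U i).2 : ℕ) : ℤ) ^ k - n : ℤ) : ℝ)) := by
    intro α
    rw [e1, ES_pow]
    unfold ES
    rw [sum_mul]
    refine sum_congr rfl fun U _ => ?_
    rw [← ee_add]
    congr 1
    push_cast
    ring
  simp_rw [e2]
  have hc : ∀ m : ℤ, Continuous fun α : ℝ => ee (α * m) := fun m =>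
    continuous_ee.comp (by fun_prop)
  rw [int_sum _ _ fun U _ => hc _]
  refine sum_eq_zero fun U _ => ?_
  rw [integral_ee, if_neg]
  intro h1
  refine hne ⟨fun i => (U i).1 * pr (U i).2, ?_⟩
  have h2 := (sub_eq_zero.1 h1).symm
  exact_mod_cast h2

end

end Pool.Agent.Work.MP_45c923_nt
end
end

-- merged part: Pool.Agent.Work.MP_45c923_nt.Level
section
/-!
# The contribution of one slice of pruned arcs
-/

set_option autoImplicit false

namespace Pool.Agent.Work.MP_45c923_nt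

open Finset Pool.Agent.Lib.LargeSieve

noncomputable section

lemma level_sup {k t : ℕ} {Δ : ℝ} (ht : Adm k (t + 1) Δ) (hk : k ≤ 2 * (t + 1) ^ 2) :
    ∃ c : ℝ, 0 ≤ c ∧ ∀ J K : ℕ, 1 ≤ K → ∃ C : ℝ, 0 < C ∧ ∀ (R : ℕ) (S : Finset ℕ)
      (Y m i Θ q : ℕ) (X α : ℝ) (a : ℤ), PP R S → k < R → 1 ≤ Y → m + 2 * i = J → 1 ≤ Θ →
      X = ((R : ℝ) ^ J * Y) ^ k → 1 ≤ q → q ≤ Θ * R ^ (i * k) → Int.gcd a q = 1 →
      |q * α - a| ≤ Θ * (R : ℝ) ^ (i * k) / X →
      (R ^ (i * k) < q ∨ (R : ℝ) ^ (i * k) / X < |q * α - a|) →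
      ‖ff S k J Y (K * Y) α‖ ≤
        C * ((Θ : ℝ) * R) ^ c * ((R : ℝ) ^ i) ^ (2 - 2 * ((k - 2 * Δ) / (4 * (t + 1) ^ 2))) *
          ∑ j ∈ Ioc Y (K * Y) ×ˢ TT S m, (Nat.gcd q (j.1 * pr j.2) : ℝ) := by
  obtain ⟨c, hc, h⟩ := ht.unif
  refine ⟨2 * c + 1, by positivity, fun J K hK => ?_⟩
  obtain ⟨C, hC, h⟩ := h J
  set c₁ : ℝ := (t + 2) * ((K : ℝ) * 2 ^ J) ^ k with hc₁
  set C₁ : ℝ := (2 ^ J) ^ (4 * (t + 1) * t) * (16 * c₁ ^ 2) * ((t + 2) * (2 ^ J) ^ k) *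
    (t + 4 + 2 * J * k) * C ^ 2 with hC₁
  have hC₁0 : 0 ≤ C₁ := by positivity
  refine ⟨C₁ + 1, by positivity, fun R S Y m i Θ q X α a hS hkR hY hJ hΘ hX hq hqQ ha h2 h3 => ?_⟩
  subst hJ
  have hR := hS.one_le
  have hΘ' : (1 : ℝ) ≤ Θ := by exact_mod_cast hΘ
  set P : ℝ := (R : ℝ) ^ i with hP
  have hP1 : 1 ≤ P := one_le_pow₀ hR
  have hP0 : 0 < P := by linarith only [hP1]
  have hΘR : 1 ≤ (Θ : ℝ) * R := one_le_mul_of_one_le_of_one_le hΘ' hR
  have hM : MV S k (t + 1) i ≤ C * (R : ℝ) ^ c * P ^ (2 * (t + 1) - k + Δ : ℝ) := by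
    refine (h R S hS hkR i (by omega)).trans (le_of_eq ?_)
    rw [hP, ← Real.rpow_natCast, ← Real.rpow_natCast, ← Real.rpow_mul (by linarith only [hR]),
      ← Real.rpow_mul (by linarith only [hR])]
    push_cast; ring_nf
  refine sup_le hS hk hY le_rfl hK hΘ hX hq hqQ ha h2 h3 rfl hc₁.ge hM (by clear * - C₁ Θ R c P k Δ t m i c₁ C K hK hC hΘ hR; positivity) ?_
  set N := (t + 1) * (2 * R) ^ (i * k) + 1 with hN
  have hN2 : (N : ℝ) ≤ (t + 2) * (2 * R) ^ (i * k) := by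
    rw [hN]; push_cast
    have : (1 : ℝ) ≤ (2 * R) ^ (i * k) := one_le_pow₀ (by linarith only [hR])
    linarith only [this]
  have h2i : (2 : ℝ) ^ i ≤ 2 ^ (m + 2 * i) := pow_le_pow_right₀ (by norm_num) (by omega)
  have hN3 : (N : ℝ) ≤ (t + 2) * (2 ^ (m + 2 * i)) ^ k * P ^ k := by
    clear * - N t R i k m P hN2 h2i hR
    refine hN2.trans ?_
    rw [pow_mul, mul_pow, mul_pow, mul_assoc]
    gcongr
  have hH : 1 + HH N ≤ (t + 4 + 2 * ((m + 2 * i : ℕ) : ℝ) * k) * R := by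
    clear * - N t R i k hN hN2 hR m K Y Θ q a
    have a1 := HH_le N
    have a2 : Real.log N ≤ Real.log ((t + 2) * (2 * R) ^ (i * k)) :=
      Real.log_le_log (by rw [hN]; positivity) hN2
    rw [Real.log_mul (by positivity) (by positivity), Real.log_pow] at a2
    have a3 := Real.log_le_sub_one_of_pos (show (0 : ℝ) < t + 2 by positivity)
    have a4 := Real.log_le_sub_one_of_pos (show (0 : ℝ) < 2 * R by positivity)
    have a5 : ((i * k : ℕ) : ℝ) * Real.log (2 * R) ≤ ((m + 2 * i : ℕ) : ℝ) * k * (2 * R) := by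
      have : ((i * k : ℕ) : ℝ) ≤ ((m + 2 * i : ℕ) : ℝ) * k := by
        exact_mod_cast Nat.mul_le_mul_right k (by omega)
      have : 0 ≤ Real.log (2 * R) := Real.log_nonneg (by linarith only [hR])
      gcongr; linarith only [a4]
    have a6 : (t + 4 : ℝ) ≤ (t + 4) * R := le_mul_of_one_le_right (by positivity) hR
    linarith only [a1, a2, a3, a5, a6]
  have hH0 := HH_nonneg N
  have e1 : (P ^ (2 - 2 * ((k - 2 * Δ) / (4 * (t + 1) ^ 2)) : ℝ)) ^ (2 * (t + 1) ^ 2) =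
      P ^ (4 * (t + 1) * t) * P ^ k * (P ^ (2 * (t + 1) - k + Δ : ℝ)) ^ 2 := by
    rw [← Real.rpow_mul_natCast hP0.le, ← Real.rpow_mul_natCast hP0.le,
      ← Real.rpow_natCast P (4 * (t + 1) * t), ← Real.rpow_natCast P k,
      ← Real.rpow_add hP0, ← Real.rpow_add hP0]
    congr 1
    push_cast; field_simp; ring
  have e2 : Θ * (R * ((R : ℝ) ^ c) ^ 2) ≤ (((Θ : ℝ) * R) ^ (2 * c + 1)) ^ (2 * (t + 1) ^ 2) := by
    clear * - Θ R c t hΘ hR hΘ' hc hΘR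
    refine le_trans ?_ (le_self_pow₀ (Real.one_le_rpow hΘR (by positivity)) (by positivity))
    rw [Real.rpow_add (by positivity), Real.rpow_one, mul_comm 2 c,
      Real.rpow_mul (by positivity), ← mul_assoc, mul_comm, Real.rpow_two]
    gcongr
    exact le_mul_of_one_le_left (by positivity) hΘ'
  have e3 : C₁ ≤ (C₁ + 1) ^ (2 * (t + 1) ^ 2) :=
    le_trans (by linarith only []) (le_self_pow₀ (by linarith only [hC₁0]) (by positivity))
  rw [mul_pow _ (P ^ (_ : ℝ)) (2 * (t + 1) ^ 2), mul_pow (C₁ + 1), e1]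
  calc _ = ((2 : ℝ) ^ i) ^ (4 * (t + 1) * t) * (16 * c₁ ^ 2) * N * (1 + HH N) * C ^ 2 *
        (Θ * ((R : ℝ) ^ c) ^ 2) * (P ^ (4 * (t + 1) * t) * (P ^ (2 * (t + 1) - k + Δ : ℝ)) ^ 2) := by
        rw [mul_pow 2, mul_pow _ P]; ring
    _ ≤ ((2 : ℝ) ^ (m + 2 * i)) ^ (4 * (t + 1) * t) * (16 * c₁ ^ 2) *
        ((t + 2) * (2 ^ (m + 2 * i)) ^ k * P ^ k) *
        ((t + 4 + 2 * ((m + 2 * i : ℕ) : ℝ) * k) * R) * C ^ 2 *
        (Θ * ((R : ℝ) ^ c) ^ 2) * (P ^ (4 * (t + 1) * t) * (P ^ (2 * (t + 1) - k + Δ : ℝ)) ^ 2) := by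
        clear * - P t k Δ i c₁ N C Θ R c m h2i K hK hN3 hH hH0 hR hC hΘ
        gcongr
    _ = C₁ * (Θ * (R * ((R : ℝ) ^ c) ^ 2)) *
        (P ^ (4 * (t + 1) * t) * P ^ k * (P ^ (2 * (t + 1) - k + Δ : ℝ)) ^ 2) := by
        rw [hC₁]; ring
    _ ≤ _ := by clear * - P t k Δ C₁ Θ R c e3 e2 hΘ hR m i c₁ C K hK hC; gcongr

lemma periodic_GG (S : Finset ℕ) (k n : ℕ) : Function.Periodic (GG S k n) 1 := by
  intro α
  unfold GG
  refine sum_congr rfl fun u _ => ?_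
  rw [add_mul, one_mul, ee_add, ← Nat.cast_pow, ee_natCast, mul_one]

lemma level_mv {k v : ℕ} {Δ : ℝ} (hv : Adm k v Δ) (hv3 : 3 * k + 1 ≤ 2 * v) :
    ∃ c : ℝ, 0 ≤ c ∧ ∀ J K : ℕ, 1 ≤ K → ∃ C : ℝ, 0 < C ∧ ∀ (R : ℕ) (S : Finset ℕ)
      (Y m i Θ : ℕ) (X G : ℝ), PP R S → k < R → 1 ≤ Y → m + 2 * i = J → 1 ≤ Θ →
      X = ((R : ℝ) ^ J * Y) ^ k → (∀ q ∈ Icc 1 (Θ * R ^ (i * k)),
        ∑ j ∈ Ioc Y (K * Y) ×ˢ TT S m, (Nat.gcd q (j.1 * pr j.2) : ℝ) ≤ G) →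
      ∑ q ∈ Icc 1 (Θ * R ^ (i * k)), ∑ a ∈ NN q,
        ∫ β in -(Θ * (R : ℝ) ^ (i * k) / X / q)..(Θ * (R : ℝ) ^ (i * k) / X / q),
          ‖ff S k J Y (K * Y) ((a : ℝ) / q + β)‖ ^ (2 * v) ≤
        C * ((Θ : ℝ) * R) ^ c * G ^ (2 * v) / X * ((R : ℝ) ^ i) ^ (2 * (2 * v + Δ)) := by
  obtain ⟨c, hc, h⟩ := hv.unif
  refine ⟨c + 2, by positivity, fun J K hK => ?_⟩
  obtain ⟨C, hC, h⟩ := h J
  refine ⟨64 * ((K : ℝ) * 2 ^ J) ^ k * C, by positivity,
    fun R S Y m i Θ X G hS hkR hY hJ hΘ hX hG => ?_⟩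
  subst hJ
  have hR := hS.one_le
  have hR0 : 0 < R := by have := hS.two; omega
  have hΘ' : (1 : ℝ) ≤ Θ := by exact_mod_cast hΘ
  have hY' : (1 : ℝ) ≤ Y := by exact_mod_cast hY
  have hK' : (1 : ℝ) ≤ K := by exact_mod_cast hK
  set P : ℝ := (R : ℝ) ^ i with hP
  have hP1 : 1 ≤ P := one_le_pow₀ hR
  have hP0 : 0 < P := by linarith only [hP1]
  have hX0 : 0 < X := by rw [hX]; positivity
  have hA : ((Ioc Y (K * Y) ×ˢ TT S m).card : ℝ) ≤ G := by
    clear * - m Y K S G hG Θ R i k hΘ hR0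
    have := hG 1 (mem_Icc.2 ⟨le_rfl, Nat.mul_pos hΘ (pow_pos hR0 _)⟩)
    simpa using this
  have hG0 : 0 ≤ G := le_trans (by positivity) hA
  have hM : MV S k v (2 * i) ≤ C * (R : ℝ) ^ c * P ^ (2 * (2 * v - k + Δ) : ℝ) := by
    refine (h R S hS hkR (2 * i) (by omega)).trans (le_of_eq ?_)
    rw [hP, ← Real.rpow_natCast, ← Real.rpow_natCast, ← Real.rpow_mul (by linarith only [hR]),
      ← Real.rpow_mul (by linarith only [hR])]
    push_cast; ring_nf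
  have H := arc_mv (GG S k (2 * i)) (continuous_GG _ _ _) (periodic_GG _ _ _)
    (Ioc Y (K * Y) ×ˢ TT S m) (fun j => j.1 * pr j.2) (x₀ := Y * R ^ m)
    (x₁ := K * Y * (2 * R) ^ m) (η := Θ * (R : ℝ) ^ (i * k) / X) hv3
    (Nat.mul_pos hY (pow_pos hR0 _)) (fun j hj => x_bounds hS le_rfl hj) (by positivity) hG0 hG
  rw [← MV_eq] at H
  simp only [← ff_eq] at H
  refine H.trans ?_
  clear H
  have e1 : ((Θ * R ^ (i * k) : ℕ) : ℝ) * (Θ * (R : ℝ) ^ (i * k) / X) *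
      ((K * Y * (2 * R) ^ m : ℕ) : ℝ) ^ k + 1 ≤ 2 * (((K : ℝ) * 2 ^ (m + 2 * i)) ^ k * Θ ^ 2) := by
    clear * - Θ R i k X K Y m hX hR0 hY hΘ hK v hK' hΘ'
    have a1 : ((Θ * R ^ (i * k) : ℕ) : ℝ) * (Θ * (R : ℝ) ^ (i * k) / X) *
        ((K * Y * (2 * R) ^ m : ℕ) : ℝ) ^ k = ((K : ℝ) * 2 ^ m) ^ k * Θ ^ 2 := by
      rw [hX]; push_cast; field_simp; ring
    have a2 : ((K : ℝ) * 2 ^ m) ^ k * Θ ^ 2 ≤ ((K : ℝ) * 2 ^ (m + 2 * i)) ^ k * Θ ^ 2 := by
      gcongr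
      · norm_num
      · omega
    have a3 : 1 ≤ ((K : ℝ) * 2 ^ m) ^ k * Θ ^ 2 :=
      one_le_mul_of_one_le_of_one_le (one_le_pow₀ (one_le_mul_of_one_le_of_one_le hK'
        (one_le_pow₀ (by norm_num)))) (one_le_pow₀ hΘ')
    linarith only [a1, a2, a3]
  have e2 : (Θ : ℝ) ^ 2 * (R : ℝ) ^ c ≤ ((Θ : ℝ) * R) ^ (c + 2) := by
    clear * - Θ R c hΘ hR0 hΘ' hc hR
    rw [Real.rpow_add (by positivity), Real.rpow_two, mul_comm]
    gcongr
    · exact le_mul_of_one_le_left (by positivity) hΘ'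
    · exact le_mul_of_one_le_right (by positivity) hR
  have e3 : P ^ (2 * (2 * v + Δ) : ℝ) = P ^ (2 * (2 * v - k + Δ) : ℝ) * P ^ (2 * k) := by
    rw [← Real.rpow_natCast, ← Real.rpow_add hP0]; congr 1; push_cast; ring
  obtain ⟨w, hw⟩ : ∃ w, 2 * v = w + 1 := ⟨2 * v - 1, by omega⟩
  have hw' : 2 * v - 1 = w := by omega
  have hMV := MV_nonneg S k v (2 * i)
  rw [e3, hw', hw]
  calc _ ≤ 32 * G ^ w * G / ((Y * R ^ m : ℕ) : ℝ) ^ k *
        (2 * (((K : ℝ) * 2 ^ (m + 2 * i)) ^ k * Θ ^ 2)) *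
        (C * (R : ℝ) ^ c * P ^ (2 * (2 * v - k + Δ) : ℝ)) := by clear * - G w m Y K S R k Θ i X v C c P Δ hA hG0 hY hR0 e1 hΘ hX0 hK hM hMV; gcongr
    _ = 64 * ((K : ℝ) * 2 ^ (m + 2 * i)) ^ k * C * ((Θ : ℝ) ^ 2 * (R : ℝ) ^ c) * G ^ (w + 1) / X *
        (P ^ (2 * (2 * v - k + Δ) : ℝ) * P ^ (2 * k)) := by
        rw [hX, hP]; push_cast; field_simp; ring
    _ ≤ _ := by clear * - P v k Δ K m i C Θ R c G w X e2 hK hC hG0 hX0 hR0; gcongr

theorem level_bound {k t v u : ℕ} {Δt Δv γ : ℝ} (ht : Adm k (t + 1) Δt) (hv : Adm k v Δv)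
    (hk : k ≤ 2 * (t + 1) ^ 2) (hk1 : 1 ≤ k) (hv3 : 3 * k + 1 ≤ 2 * v) (hγ0 : 0 < γ)
    (hγ : Δv + γ ≤ u * ((k - 2 * Δt) / (4 * (t + 1) ^ 2))) :
    ∃ c : ℝ, 0 ≤ c ∧ ∀ J K : ℕ, 1 ≤ K → ∃ C : ℝ, 0 < C ∧ ∀ (R : ℕ) (S : Finset ℕ)
      (Y i Θ : ℕ) (X : ℝ), PP R S → k < R → 1 ≤ Y → 2 * i ≤ J → 1 ≤ Θ →
      X = ((R : ℝ) ^ J * Y) ^ k → ∃ Mx : ℝ, 0 ≤ Mx ∧
      (∀ (α : ℝ) (q : ℕ) (a : ℤ), 1 ≤ q → q ≤ Θ * R ^ (i * k) → Int.gcd a q = 1 →
        |q * α - a| ≤ Θ * (R : ℝ) ^ (i * k) / X →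
        (R ^ (i * k) < q ∨ (R : ℝ) ^ (i * k) / X < |q * α - a|) → ‖ff S k J Y (K * Y) α‖ ≤ Mx) ∧
      Mx ^ u * ∑ q ∈ Icc 1 (Θ * R ^ (i * k)), ∑ a ∈ NN q,
        ∫ β in -(Θ * (R : ℝ) ^ (i * k) / X / q)..(Θ * (R : ℝ) ^ (i * k) / X / q),
          ‖ff S k J Y (K * Y) ((a : ℝ) / q + β)‖ ^ (2 * v) ≤
        C * ((Θ : ℝ) * R) ^ c * ((R : ℝ) ^ i) ^ (-γ) * ((R : ℝ) ^ J * Y) ^ (2 * v + u) / X := by
  obtain ⟨c₁, hc₁, h1⟩ := level_sup ht hk
  obtain ⟨c₂, hc₂, h2⟩ := level_mv hv hv3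
  refine ⟨c₁ * u + c₂ + γ, by positivity, fun J K hK => ?_⟩
  obtain ⟨C₁, hC₁, h1⟩ := h1 J K hK
  obtain ⟨C₂, hC₂, h2⟩ := h2 J K hK
  set s := 2 * v + u with hs
  have hs0 : (0 : ℝ) < s := by exact_mod_cast (by omega : 0 < s)
  have hk0 : (1 : ℝ) ≤ k := by exact_mod_cast hk1
  obtain ⟨C₃, hC₃, h3⟩ := Pool.Agent.Lib.ANT.exists_card_divisors_le (γ / (k * ((J + 1) * s)))
    (by positivity)
  refine ⟨C₁ ^ u * C₂ * C₃ ^ ((J + 1) * s) * ((K : ℝ) * 2 ^ J) ^ s, by positivity,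
    fun R S Y i Θ X hS hkR hY hi hΘ hX => ?_⟩
  obtain ⟨m, hJ⟩ : ∃ m, m + 2 * i = J := ⟨J - 2 * i, by omega⟩
  have hR := hS.one_le
  have hR0 : 0 < R := by have := hS.two; omega
  have hΘ' : (1 : ℝ) ≤ Θ := by exact_mod_cast hΘ
  have hY' : (1 : ℝ) ≤ Y := by exact_mod_cast hY
  have hK' : (1 : ℝ) ≤ K := by exact_mod_cast hK
  have hX0 : 0 < X := by rw [hX]; positivity
  have hΘR : 1 ≤ (Θ : ℝ) * R := one_le_mul_of_one_le_of_one_le hΘ' hR
  set ε := γ / (k * ((J + 1) * s)) with hε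
  have hε0 : 0 < ε := by positivity
  set T : ℝ := C₃ * ((Θ * R ^ (i * k) : ℕ) : ℝ) ^ ε with hT
  have hQ1 : (1 : ℝ) ≤ ((Θ * R ^ (i * k) : ℕ) : ℝ) := by
    exact_mod_cast Nat.mul_pos hΘ (pow_pos hR0 _)
  have hT1 : 1 ≤ T := one_le_mul_of_one_le_of_one_le hC₃ (Real.one_le_rpow hQ1 hε0.le)
  set G : ℝ := T ^ (J + 1) * ((K : ℝ) * 2 ^ J) * (Y * R ^ m) with hG
  have hGq : ∀ q ∈ Icc 1 (Θ * R ^ (i * k)),
      ∑ j ∈ Ioc Y (K * Y) ×ˢ TT S m, (Nat.gcd q (j.1 * pr j.2) : ℝ) ≤ G := by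
    clear * - Θ R i k m Y K S G hS T C₃ ε h3 hT γ J s hγ0 hk1 hs0 hC₃ hK hY hR0 hG hT1 t v u hJ hΘ
    intro q hq
    rw [mem_Icc] at hq
    refine (sum_gcd_TT hS hq.1 m Y (K * Y)).trans ?_
    have a1 : (q.divisors.card : ℝ) ≤ T := by
      clear * - q C₃ ε T h3 Θ R i k hT hq γ J s hγ0 hk1 hs0 hC₃
      refine (h3 q).trans ?_
      rw [hT]; gcongr; exact hq.2
    calc _ ≤ T ^ (m + 1) * ((K * Y : ℕ) : ℝ) * (2 * R) ^ m := by clear * - R m q K Y T a1 hK hY hR0 hG; gcongr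
      _ = T ^ (m + 1) * ((K : ℝ) * 2 ^ m) * (Y * R ^ m) := by push_cast; ring
      _ ≤ _ := by
          rw [hG]; gcongr
          · omega
          · norm_num
          · omega
  set P : ℝ := (R : ℝ) ^ i with hP
  have hP1 : 1 ≤ P := one_le_pow₀ hR
  have hP0 : 0 < P := by linarith only [hP1]
  set τ : ℝ := (k - 2 * Δt) / (4 * (t + 1) ^ 2) with hτ
  refine ⟨C₁ * ((Θ : ℝ) * R) ^ c₁ * P ^ (2 - 2 * τ) * G, by positivity,
    fun α q a hq hqQ ha a2 a3 => ?_, ?_⟩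
  · refine (h1 R S Y m i Θ q X α a hS hkR hY hJ hΘ hX hq hqQ ha a2 a3).trans ?_
    have := hGq q (mem_Icc.2 ⟨hq, hqQ⟩)
    gcongr
  refine (mul_le_mul_of_nonneg_left (h2 R S Y m i Θ X G hS hkR hY hJ hΘ hX hGq)
    (by positivity)).trans ?_
  have e1 : T ^ ((J + 1) * s) ≤ C₃ ^ ((J + 1) * s) * (((Θ : ℝ) * R) ^ γ * P ^ γ) := by
    clear * - T J s C₃ Θ R γ P i k ε hT hΘ hR0 hε hs0 hk1 hγ0 hP hP0 hΘ' hk0 hR hC₃
    rw [hT, mul_pow]
    gcongr
    rw [← Real.rpow_natCast, ← Real.rpow_mul (by positivity)]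
    have : ε * (((J + 1) * s : ℕ) : ℝ) = γ / k := by rw [hε]; push_cast; field_simp
    rw [this]; push_cast
    rw [Real.mul_rpow (by positivity) (by positivity), pow_mul, ← hP, ← Real.rpow_natCast P,
      ← Real.rpow_mul hP0.le, mul_div_cancel₀ _ (by positivity)]
    gcongr
    calc (Θ : ℝ) ^ (γ / k) ≤ (Θ : ℝ) ^ γ :=
          Real.rpow_le_rpow_of_exponent_le hΘ' (div_le_self hγ0.le hk0)
      _ ≤ _ := by gcongr; exact le_mul_of_one_le_right (by positivity) hR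
  have e2 : (P ^ (2 - 2 * τ)) ^ u * P ^ (2 * (2 * v + Δv) : ℝ) * P ^ γ ≤ P ^ (-γ) * P ^ (2 * s) := by
    rw [← Real.rpow_natCast, ← Real.rpow_natCast, ← Real.rpow_mul hP0.le, ← Real.rpow_add hP0,
      ← Real.rpow_add hP0, ← Real.rpow_add hP0]
    refine Real.rpow_le_rpow_of_exponent_le hP1 ?_
    rw [hs]; push_cast; linarith only [hγ]
  have e3 : ((Θ : ℝ) * R) ^ (c₁ * u + c₂ + γ) =
      (((Θ : ℝ) * R) ^ c₁) ^ u * ((Θ : ℝ) * R) ^ c₂ * ((Θ : ℝ) * R) ^ γ := by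
    rw [Real.rpow_add (by positivity), Real.rpow_add (by positivity),
      Real.rpow_mul_natCast (by positivity)]
  have e4 : ((R : ℝ) ^ J * Y) ^ s = (Y * R ^ m) ^ s * P ^ (2 * s) := by
    rw [← hJ, hP]; ring
  have e5 : G ^ u * G ^ (2 * v) = T ^ ((J + 1) * s) * ((K : ℝ) * 2 ^ J) ^ s * (Y * R ^ m) ^ s := by
    rw [← pow_add, add_comm u, ← hs, hG, mul_pow, mul_pow, ← pow_mul]
  rw [e3, e4]
  calc _ = C₁ ^ u * C₂ * (((Θ : ℝ) * R) ^ c₁) ^ u * ((Θ : ℝ) * R) ^ c₂ * (G ^ u * G ^ (2 * v)) *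
        ((P ^ (2 - 2 * τ)) ^ u * P ^ (2 * (2 * v + Δv) : ℝ)) / X := by
        simp only [mul_pow]; ring
    _ ≤ C₁ ^ u * C₂ * (((Θ : ℝ) * R) ^ c₁) ^ u * ((Θ : ℝ) * R) ^ c₂ *
        ((C₃ ^ ((J + 1) * s) * (((Θ : ℝ) * R) ^ γ * P ^ γ)) * ((K : ℝ) * 2 ^ J) ^ s *
          (Y * R ^ m) ^ s) * ((P ^ (2 - 2 * τ)) ^ u * P ^ (2 * (2 * v + Δv) : ℝ)) / X := by
        clear * - C₁ u C₂ Θ R c₁ c₂ G v P τ Δv X C₃ J s γ K Y m T e5 e1 hK hY hR0 hC₁ hC₂ hΘ i hX0
        rw [e5]; gcongr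
    _ = C₁ ^ u * C₂ * C₃ ^ ((J + 1) * s) * ((K : ℝ) * 2 ^ J) ^ s *
        ((((Θ : ℝ) * R) ^ c₁) ^ u * ((Θ : ℝ) * R) ^ c₂ * ((Θ : ℝ) * R) ^ γ) * (Y * R ^ m) ^ s *
        ((P ^ (2 - 2 * τ)) ^ u * P ^ (2 * (2 * v + Δv) : ℝ) * P ^ γ) / X := by ring
    _ ≤ C₁ ^ u * C₂ * C₃ ^ ((J + 1) * s) * ((K : ℝ) * 2 ^ J) ^ s *
        ((((Θ : ℝ) * R) ^ c₁) ^ u * ((Θ : ℝ) * R) ^ c₂ * ((Θ : ℝ) * R) ^ γ) * (Y * R ^ m) ^ s *
        (P ^ (-γ) * P ^ (2 * s)) / X := by clear * - C₁ u C₂ C₃ J s K Θ R c₁ c₂ γ Y m P τ v Δv X e2 hC₁ hC₂ hC₃ hK hΘ hR0 hY hX0; gcongr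
    _ = _ := by ring

end

end Pool.Agent.Work.MP_45c923_nt
end

-- merged part: Pool.Agent.Work.MP_45c923_nt.Point
section
/-!
# Inclusion-exclusion over a few primes and the pointwise trichotomy
-/

set_option autoImplicit false

namespace Pool.Agent.Work.MP_45c923_nt

open Finset Pool.Agent.Lib.LargeSieve

noncomputable section

theorem Mx_nonneg (S : Finset ℕ) (k e N : ℕ) (α : ℝ) : 0 ≤ Mx S k e N α := by
  induction N generalizing α with
  | zero => simp only [Mx]; positivity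
  | succ N ih => exact add_nonneg (by positivity) (sum_nonneg fun p _ => ih _)

theorem le_Mx (S : Finset ℕ) (k e N : ℕ) (α : ℝ) : ‖GG S k N α‖ ^ e ≤ Mx S k e N α := by
  cases N with
  | zero => exact le_rfl
  | succ N => exact le_add_of_nonneg_right (sum_nonneg fun p _ => Mx_nonneg _ _ _ _ _)

theorem continuous_Mx (S : Finset ℕ) (k e N : ℕ) : Continuous (Mx S k e N) := by
  induction N with
  | zero =>
    show Continuous fun α => ‖GG S k 0 α‖ ^ e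
    fun_prop
  | succ N ih =>
    show Continuous fun α => ‖GG S k (N + 1) α‖ ^ e + ∑ p ∈ S, Mx S k e N (α * (p : ℝ) ^ k)
    fun_prop

theorem periodic_Mx (S : Finset ℕ) (k e N : ℕ) : Function.Periodic (Mx S k e N) 1 := by
  induction N with
  | zero => intro α; simp only [Mx, periodic_GG S k 0 α]
  | succ N ih =>
    intro α
    simp only [Mx, periodic_GG S k (N + 1) α]
    congr 1
    refine sum_congr rfl fun p _ => ?_
    have := (ih.nat_mul (p ^ k)) (α * (p : ℝ) ^ k)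
    rw [← this]
    congr 1
    push_cast
    ring

namespace PointAux

/-- the first `a` primes avoid `T`, the last `b` are free -/
def HH (S T : Finset ℕ) (k a b : ℕ) (x : ℝ) : ℂ :=
  ∑ u ∈ TT (S \ T) a, GG S k b (x * (pr u : ℝ) ^ k)

variable {S T : Finset ℕ} {k e : ℕ}

lemma HH_zero (b : ℕ) (x : ℝ) : HH S T k 0 b x = GG S k b x := by
  unfold HH
  rw [sum_TT_zero (S \ T) fun y => GG S k b (x * (y : ℝ) ^ k)]
  simp

lemma HH_zero' (a : ℕ) (x : ℝ) : HH S T k a 0 x = GG (S \ T) k a x := by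
  unfold HH
  refine sum_congr rfl fun u _ => ?_
  unfold GG
  rw [sum_TT_zero S fun y => ee (x * (pr u : ℝ) ^ k * (y : ℝ) ^ k)]
  simp

lemma HH_succ (hT : T ⊆ S) (a b : ℕ) (x : ℝ) :
    HH S T k (a + 1) b x = HH S T k a (b + 1) x - ∑ p ∈ T, HH S T k a b (x * (p : ℝ) ^ k) := by
  have h1 : HH S T k (a + 1) b x = ∑ p ∈ S \ T, HH S T k a b (x * (p : ℝ) ^ k) := by
    unfold HH
    rw [sum_TT_succ (S \ T) a fun y => GG S k b (x * (y : ℝ) ^ k)]
    refine sum_congr rfl fun p _ => sum_congr rfl fun u _ => ?_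
    push_cast; rw [mul_pow, mul_assoc]
  have h2 : HH S T k a (b + 1) x = ∑ p ∈ S, HH S T k a b (x * (p : ℝ) ^ k) := by
    unfold HH
    rw [sum_comm]
    refine sum_congr rfl fun u _ => ?_
    rw [GG_succ]
    refine sum_congr rfl fun p _ => ?_
    rw [mul_right_comm]
  rw [h1, h2, ← sum_sdiff hT, add_sub_cancel_right]

lemma lemA (hT : T ⊆ S) (he : 1 ≤ e) {M : ℝ} (hM : 0 ≤ M) (a : ℕ) : ∀ (b : ℕ) (x : ℝ),
    Mx S k e (a + b) x ≤ M ^ e → ‖HH S T k a b x‖ ≤ (1 + (T.card : ℝ)) ^ a * M := by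
  induction a with
  | zero =>
    intro b x h
    rw [HH_zero, pow_zero, one_mul]
    rw [zero_add] at h
    exact le_of_pow_le_pow_left₀ (by omega) hM ((le_Mx S k e b x).trans h)
  | succ a ih =>
    intro b x h
    have h1 := ih (b + 1) x (by rwa [show a + (b + 1) = a + 1 + b by ring])
    have h2 : ∀ p ∈ T, ‖HH S T k a b (x * (p : ℝ) ^ k)‖ ≤ (1 + (T.card : ℝ)) ^ a * M := by
      intro p hp
      refine ih b _ (le_trans ?_ h)
      rw [show a + 1 + b = a + b + 1 by ring]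
      exact le_add_of_nonneg_of_le (by positivity) (single_le_sum
        (f := fun p : ℕ => Mx S k e (a + b) (x * (p : ℝ) ^ k)) (fun p _ => Mx_nonneg _ _ _ _ _)
        (hT hp))
    have h3 := (norm_sum_le _ _).trans (sum_le_card_nsmul _ _ _ h2)
    rw [HH_succ hT]
    refine (norm_sub_le _ _).trans ((add_le_add h1 h3).trans (le_of_eq ?_))
    rw [nsmul_eq_mul]; ring

lemma lemB (hT : T ⊆ S) (he : 1 ≤ e) {M x : ℝ} (hM : 0 ≤ M) {N : ℕ}
    (h : ∑ p ∈ S, Mx S k e N (x * (p : ℝ) ^ k) ≤ M ^ e) (a : ℕ) : ∀ b : ℕ, a + b = N + 1 →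
    ‖HH S T k a b x - GG S k (N + 1) x‖ ≤ ((1 + (T.card : ℝ)) ^ a - 1) * M := by
  induction a with
  | zero =>
    intro b hb
    rw [zero_add] at hb
    simp [HH_zero, hb]
  | succ a ih =>
    intro b hb
    have h1 := ih (b + 1) (by omega)
    have h2 : ∀ p ∈ T, ‖HH S T k a b (x * (p : ℝ) ^ k)‖ ≤ (1 + (T.card : ℝ)) ^ a * M := by
      intro p hp
      refine lemA hT he hM a b _ (le_trans ?_ h)
      rw [show a + b = N by omega]
      exact single_le_sum (f := fun p : ℕ => Mx S k e N (x * (p : ℝ) ^ k))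
        (fun p _ => Mx_nonneg _ _ _ _ _) (hT hp)
    have h3 := (norm_sum_le _ _).trans (sum_le_card_nsmul _ _ _ h2)
    rw [HH_succ hT, sub_right_comm]
    refine (norm_sub_le _ _).trans ((add_le_add h1 h3).trans (le_of_eq ?_))
    rw [nsmul_eq_mul]; ring

end PointAux

open PointAux in
/-- removing a few primes from the pool -/
theorem incl_excl (S T : Finset ℕ) (hT : T ⊆ S) (k e N : ℕ) (he : 1 ≤ e) (α M : ℝ) (hM : 0 ≤ M)
    (h : ∑ p ∈ S, Mx S k e N (α * (p : ℝ) ^ k) ≤ M ^ e) :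
    ‖GG (S \ T) k (N + 1) α - GG S k (N + 1) α‖ ≤ (1 + (T.card : ℝ)) ^ (N + 1) * M := by
  have := lemB hT he hM h (N + 1) 0 rfl
  rw [HH_zero'] at this
  linarith only [hM, this]

/-- the pointwise trichotomy -/
theorem pointwise (S : Finset ℕ) (k s w N J L : ℕ) (hw : w ≤ s + 1) (hs : 1 ≤ s)
    (hJ : J + L = N + 1) (Θ : ℝ) (hΘ : 0 ≤ Θ) (α : ℝ) :
    ‖GG S k (N + 1) α‖ ^ (2 * (s + 1))
      ≤ (8 * Θ) ^ (s + 1 - w) * ‖GG S k (N + 1) α‖ ^ (2 * w)
        + (2 * (1 + (J : ℝ)) ^ (N + 1)) ^ (2 * (s + 1)) *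
            ∑ p ∈ S, Mx S k (2 * (s + 1)) N (α * (p : ℝ) ^ k)
        + 8 * (S.card : ℝ) ^ (J * (2 * s - 1)) * ∑ v ∈ TT S J,
            max 0 (‖GG (S \ univ.image v) k (N + 1) α‖ ^ 2 - Θ) *
              ‖GG S k L (α * (pr v : ℝ) ^ k)‖ ^ (2 * s) := by
  set f := ‖GG S k (N + 1) α‖ with hf
  set C : ℝ := (1 + (J : ℝ)) ^ (N + 1) with hC
  set A := ∑ p ∈ S, Mx S k (2 * (s + 1)) N (α * (p : ℝ) ^ k) with hA
  set B := ∑ v ∈ TT S J, max 0 (‖GG (S \ univ.image v) k (N + 1) α‖ ^ 2 - Θ) *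
    ‖GG S k L (α * (pr v : ℝ) ^ k)‖ ^ (2 * s) with hB
  have f0 : 0 ≤ f := norm_nonneg _
  have C0 : 0 < C := by positivity
  have A0 : 0 ≤ A := sum_nonneg fun p _ => Mx_nonneg _ _ _ _ _
  have B0 : 0 ≤ B := sum_nonneg fun v _ => mul_nonneg (le_max_left _ _) (by positivity)
  have t1 : 0 ≤ (8 * Θ) ^ (s + 1 - w) * f ^ (2 * w) := by positivity
  have t2 : 0 ≤ (2 * C) ^ (2 * (s + 1)) * A := by positivity
  have t3 : 0 ≤ 8 * (S.card : ℝ) ^ (J * (2 * s - 1)) * B := by clear * - S J s B k N α Θ L; positivity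
  rcases le_or_gt (f ^ 2) (8 * Θ) with h1 | h1
  · have : f ^ (2 * (s + 1)) ≤ (8 * Θ) ^ (s + 1 - w) * f ^ (2 * w) := by
      clear * - f s Θ w N J L hw h1 S k α
      rw [show 2 * (s + 1) = 2 * (s + 1 - w) + 2 * w by omega, pow_add, pow_mul]
      gcongr
    linarith only [t2, t3, this]
  rcases le_or_gt A ((f / (2 * C)) ^ (2 * (s + 1))) with h2 | h2
  swap
  · have : f ^ (2 * (s + 1)) ≤ (2 * C) ^ (2 * (s + 1)) * A := by
      rw [div_pow, div_lt_iff₀ (by positivity)] at h2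
      linarith only [h2]
    linarith only [t1, t3, this]
  have h3 : ∀ v ∈ TT S J, f ^ 2 / 8 ≤ max 0 (‖GG (S \ univ.image v) k (N + 1) α‖ ^ 2 - Θ) := by
    clear * - J S k N α f C s w L hs h2 hC C0 Θ h1
    intro v hv
    have a1 := incl_excl S (univ.image v) (fun p hp => by
      obtain ⟨i, -, rfl⟩ := mem_image.1 hp
      exact mem_TT.1 hv i) k _ N (by omega) α _ (by positivity) h2
    have a2 : ((univ.image v).card : ℝ) ≤ J := by
      exact_mod_cast card_image_le.trans (by simp)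
    have a3 : (1 + ((univ.image v).card : ℝ)) ^ (N + 1) * (f / (2 * C)) ≤ f / 2 := by
      calc _ ≤ C * (f / (2 * C)) := by rw [hC]; gcongr
        _ = f / 2 := by field_simp
    have a4 := norm_sub_norm_le (GG S k (N + 1) α) (GG (S \ univ.image v) k (N + 1) α)
    rw [norm_sub_rev] at a4
    have a5 : f / 2 ≤ ‖GG (S \ univ.image v) k (N + 1) α‖ := by linarith only [a1, a3, a4]
    have a6 := pow_le_pow_left₀ (by positivity) a5 2
    exact le_max_of_le_right (by linarith only [h1, a6])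
  obtain ⟨m, hm⟩ : ∃ m, 2 * s = m + 1 := ⟨2 * s - 1, by omega⟩
  have h4 : f ^ (2 * s) ≤ (S.card : ℝ) ^ (J * (2 * s - 1)) *
      ∑ v ∈ TT S J, ‖GG S k L (α * (pr v : ℝ) ^ k)‖ ^ (2 * s) := by
    have a1 : f ≤ ∑ v ∈ TT S J, ‖GG S k L (α * (pr v : ℝ) ^ k)‖ := by
      rw [hf, ← hJ, GG_add]
      exact norm_sum_le _ _
    refine (pow_le_pow_left₀ f0 a1 _).trans ?_
    rw [hm, Nat.add_sub_cancel, pow_mul, ← Nat.cast_pow, ← card_TT]
    exact pow_sum_le_card_mul_sum_pow (fun v _ => norm_nonneg _) m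
  have h5 : f ^ 2 / 8 * ∑ v ∈ TT S J, ‖GG S k L (α * (pr v : ℝ) ^ k)‖ ^ (2 * s) ≤ B := by
    rw [mul_sum]
    exact sum_le_sum fun v hv => mul_le_mul_of_nonneg_right (h3 v hv) (by positivity)
  have h6 : f ^ (2 * (s + 1)) ≤ 8 * (S.card : ℝ) ^ (J * (2 * s - 1)) * B := by
    clear * - f s S J k L α B h4 h5
    calc f ^ (2 * (s + 1)) = f ^ 2 * f ^ (2 * s) := by ring
      _ ≤ f ^ 2 * ((S.card : ℝ) ^ (J * (2 * s - 1)) *
        ∑ v ∈ TT S J, ‖GG S k L (α * (pr v : ℝ) ^ k)‖ ^ (2 * s)) := by gcongr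
      _ = 8 * (S.card : ℝ) ^ (J * (2 * s - 1)) *
        (f ^ 2 / 8 * ∑ v ∈ TT S J, ‖GG S k L (α * (pr v : ℝ) ^ k)‖ ^ (2 * s)) := by ring
      _ ≤ _ := by gcongr
  linarith only [t1, t2, h6]

end

end Pool.Agent.Work.MP_45c923_nt
end

-- merged part: Pool.Agent.Work.MP_45c923_nt.Major
section
-- merged part: Pool.Agent.Work.MP_45c923_nt.Gauss
section
/-!
# Complete exponential sums: `(|S(q,b)|/q)^k ≤ C gcd(b,q)/q`
-/

set_option autoImplicit false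

namespace Pool.Agent.Work.MP_45c923_nt

open Finset Pool.Agent.Lib.LargeSieve

noncomputable section

namespace GaussAux

lemma ee_congr {q : ℕ} (hq : 0 < q) {m n : ℤ} (h : (q : ℤ) ∣ n - m) :
    ee ((m : ℝ) / q) = ee ((n : ℝ) / q) := by
  obtain ⟨c, hc⟩ := h
  have hq' : (q : ℝ) ≠ 0 := by positivity
  have : (n : ℝ) / q = (m : ℝ) / q + (c : ℝ) := by
    have : (n : ℝ) = m + q * c := by exact_mod_cast (by linarith only [hc] : n = m + q * c)
    rw [this]; field_simp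
  rw [this, ee_add_int]

lemma SS_eq (k q : ℕ) (b : ℤ) :
    SS k q b = ∑ x ∈ range q, ee (((b * (x : ℤ) ^ k : ℤ) : ℝ) / q) := by
  unfold SS; push_cast; rfl

lemma norm_SS_le (k q : ℕ) (b : ℤ) : ‖SS k q b‖ ≤ q := by
  unfold SS
  refine (norm_sum_le _ _).trans ?_
  simp

lemma sum_split {M : Type*} [AddCommMonoid M] (f : ℕ → M) (q D : ℕ) :
    ∑ x ∈ range (q * D), f x = ∑ z ∈ range D, ∑ y ∈ range q, f (q * z + y) := by
  induction D with
  | zero => simp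
  | succ D ih => rw [Nat.mul_succ, sum_range_add, ih, sum_range_succ]

lemma ee_stdAddChar (q : ℕ) [NeZero q] (m : ℤ) :
    ee ((m : ℝ) / q) = ZMod.stdAddChar (m : ZMod q) := by
  rw [ZMod.stdAddChar_coe]
  unfold ee
  congr 1
  push_cast
  ring

lemma sum_range_zmod {M : Type*} [AddCommMonoid M] (q : ℕ) [NeZero q] (f : ZMod q → M) :
    ∑ x ∈ range q, f (x : ZMod q) = ∑ t : ZMod q, f t := by
  refine sum_nbij' (fun x => (x : ZMod q)) (fun t => t.val) ?_ ?_ ?_ ?_ ?_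
  · intro x _; exact mem_univ _
  · intro t _; exact mem_range.2 (ZMod.val_lt t)
  · intro x hx; exact ZMod.val_cast_of_lt (mem_range.1 hx)
  · intro t _; exact ZMod.natCast_zmod_val t
  · intro x _; rfl

lemma SS_zmod (k q : ℕ) [NeZero q] (b : ℤ) :
    SS k q b = ∑ t : ZMod q, ZMod.stdAddChar ((b : ZMod q) * t ^ k) := by
  rw [SS_eq, ← sum_range_zmod]
  refine sum_congr rfl fun x _ => ?_
  rw [ee_stdAddChar]; push_cast; rfl

/-- a complete linear sum vanishes -/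
lemma sum_lin_zero (N : ℕ) (hN : 0 < N) (m : ℤ) (hm : ¬ (N : ℤ) ∣ m) :
    ∑ z ∈ range N, ee (((m * (z : ℤ) : ℤ) : ℝ) / N) = 0 := by
  have : NeZero N := ⟨hN.ne'⟩
  have h := AddChar.sum_mulShift (m : ZMod N) (ZMod.isPrimitive_stdAddChar N)
  rw [if_neg (by rwa [ZMod.intCast_zmod_eq_zero_iff_dvd])] at h
  rw [← sum_range_zmod] at h
  push_cast at h
  rw [← h]
  refine sum_congr rfl fun x _ => ?_
  rw [ee_stdAddChar]; push_cast; rw [mul_comm]

/-- reduction to lowest terms -/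
lemma SS_scale (k q D : ℕ) (hq : 0 < q) (hD : 0 < D) (b : ℤ) :
    SS k (q * D) (b * D) = D * SS k q b := by
  have hq' : (q : ℝ) ≠ 0 := by positivity
  have hD' : (D : ℝ) ≠ 0 := by positivity
  rw [SS_eq, sum_split, SS_eq]
  have : ∀ z ∈ range D, ∑ y ∈ range q,
      ee (((b * D * ((q * z + y : ℕ) : ℤ) ^ k : ℤ) : ℝ) / ((q * D : ℕ) : ℝ))
      = ∑ x ∈ range q, ee (((b * (x : ℤ) ^ k : ℤ) : ℝ) / q) := by
    intro z _
    refine sum_congr rfl fun y _ => ?_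
    have e : ((b * D * ((q * z + y : ℕ) : ℤ) ^ k : ℤ) : ℝ) / ((q * D : ℕ) : ℝ)
        = ((b * ((q * z + y : ℕ) : ℤ) ^ k : ℤ) : ℝ) / q := by
      push_cast; field_simp
    rw [e]
    refine ee_congr hq ?_
    rw [← mul_sub]
    refine Dvd.dvd.mul_left ?_ _
    refine Dvd.dvd.trans ?_ (sub_dvd_pow_sub_pow _ _ k)
    exact ⟨-z, by push_cast; ring⟩
  rw [sum_congr rfl this]
  simp

/-- multiplicativity -/
lemma SS_mul (k q₁ q₂ : ℕ) (h₁ : 0 < q₁) (h₂ : 0 < q₂) (u v : ℤ) (huv : u * q₁ + v * q₂ = 1)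
    (a : ℤ) : SS k (q₁ * q₂) a = SS k q₁ (a * v) * SS k q₂ (a * u) := by
  have : NeZero q₂ := ⟨h₂.ne'⟩
  have hq₁ : (q₁ : ℝ) ≠ 0 := by positivity
  have hq₂ : (q₂ : ℝ) ≠ 0 := by positivity
  have huv' : (u : ℝ) * q₁ + v * q₂ = 1 := by exact_mod_cast huv
  rw [SS_eq, sum_split, sum_comm, SS_eq k q₁, sum_mul]
  refine sum_congr rfl fun y _ => ?_
  have hunit : IsUnit ((q₁ : ℕ) : ZMod q₂) := by
    refine IsUnit.of_mul_eq_one (u : ZMod q₂) ?_
    have := congrArg (fun t : ℤ => (t : ZMod q₂)) huv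
    simpa [mul_comm] using this
  have key : SS k q₂ (a * u) = ∑ z ∈ range q₂,
      ee (((a * u * ((q₁ * z + y : ℕ) : ℤ) ^ k : ℤ) : ℝ) / q₂) := by
    rw [SS_zmod]
    rw [← Equiv.sum_comp (Equiv.addRight ((y : ℕ) : ZMod q₂)), ← Equiv.sum_comp hunit.unit.mulLeft,
      ← sum_range_zmod]
    refine sum_congr rfl fun z _ => ?_
    rw [ee_stdAddChar]; push_cast; simp
  rw [key, mul_sum]
  refine sum_congr rfl fun z _ => ?_
  have e1 : ee (((a * v * (y : ℤ) ^ k : ℤ) : ℝ) / q₁)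
      = ee (((a * v * ((q₁ * z + y : ℕ) : ℤ) ^ k : ℤ) : ℝ) / q₁) := by
    refine ee_congr h₁ ?_
    rw [← mul_sub]
    refine Dvd.dvd.mul_left ?_ _
    refine Dvd.dvd.trans ?_ (sub_dvd_pow_sub_pow _ _ k)
    exact ⟨z, by push_cast; ring⟩
  rw [e1, ← ee_add]
  congr 1
  push_cast
  field_simp
  linear_combination (-(a : ℝ) * ((q₁ : ℝ) * z + y) ^ k) * huv'

lemma card_pow_le (p k : ℕ) [Fact p.Prime] (hk : 0 < k) (c : ZMod p) :
    (univ.filter fun z : ZMod p => z ^ k = c).card ≤ k := by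
  have : (univ.filter fun z : ZMod p => z ^ k = c) = (Polynomial.nthRoots k c).toFinset := by
    ext z; simp [Polynomial.mem_nthRoots hk]
  rw [this]
  exact (Multiset.toFinset_card_le _).trans (Polynomial.card_nthRoots _ _)

/-- prime modulus -/
lemma prime_sq (p k : ℕ) [hp : Fact p.Prime] (hk : 0 < k) (c : ZMod p) (hc : c ≠ 0) :
    ((p : ℝ) - 1) * ‖∑ t : ZMod p, ZMod.stdAddChar (c * t ^ k)‖ ^ 2 ≤ (k : ℝ) ^ 2 * p ^ 2 := by
  set S : ZMod p → ℂ := fun d => ∑ t : ZMod p, ZMod.stdAddChar (d * t ^ k) with hS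
  have hinv : ∀ z : ZMod p, z ≠ 0 → S (c * z ^ k) = S c := by
    intro z hz
    simp only [hS]
    rw [← Equiv.sum_comp (Equiv.mulLeft₀ z hz) (fun t => ZMod.stdAddChar (c * t ^ k))]
    refine sum_congr rfl fun t _ => ?_
    simp [mul_pow, mul_assoc]
  have h1 : ∑ z ∈ univ.erase (0 : ZMod p), ‖S (c * z ^ k)‖ ^ 2 = ((p : ℝ) - 1) * ‖S c‖ ^ 2 := by
    rw [sum_congr rfl fun z hz => by rw [hinv z (ne_of_mem_erase hz)]]
    rw [sum_const, card_erase_of_mem (mem_univ _), card_univ, ZMod.card, nsmul_eq_mul,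
      Nat.cast_sub hp.out.one_le]
    simp
  have h2 : ∑ z : ZMod p, ‖S (c * z ^ k)‖ ^ 2 ≤ k * ∑ d : ZMod p, ‖S d‖ ^ 2 := by
    rw [← sum_fiberwise_of_maps_to (s := univ) (t := univ) (g := fun z : ZMod p => z ^ k)
      (fun _ _ => mem_univ _), ← Equiv.sum_comp (Equiv.mulLeft₀ c hc) (fun d => ‖S d‖ ^ 2), mul_sum]
    refine sum_le_sum fun d _ => ?_
    rw [sum_congr rfl (g := fun _ => ‖S (c * d)‖ ^ 2) fun z hz => by rw [(mem_filter.1 hz).2]]
    rw [sum_const, nsmul_eq_mul]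
    exact mul_le_mul_of_nonneg_right (by exact_mod_cast card_pow_le p k hk d) (by positivity)
  have h3 : ∑ d : ZMod p, ‖S d‖ ^ 2 ≤ (k : ℝ) * p ^ 2 := by
    have e : ((∑ d : ZMod p, ‖S d‖ ^ 2 : ℝ) : ℂ)
        = ∑ x : ZMod p, ∑ y : ZMod p, if x ^ k - y ^ k = 0 then (p : ℂ) else 0 := by
      push_cast
      have : ∀ d : ZMod p, ((‖S d‖ : ℝ) : ℂ) ^ 2
          = ∑ x : ZMod p, ∑ y : ZMod p, ZMod.stdAddChar (d * (x ^ k - y ^ k)) := by
        intro d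
        rw [← Complex.mul_conj', hS]
        simp only [map_sum, sum_mul_sum]
        refine sum_congr rfl fun x _ => sum_congr rfl fun y _ => ?_
        rw [← AddChar.map_neg_eq_conj, ← AddChar.map_add_eq_mul]
        congr 1; ring
      rw [sum_congr rfl fun d _ => this d, sum_comm]
      refine sum_congr rfl fun x _ => ?_
      rw [sum_comm]
      refine sum_congr rfl fun y _ => ?_
      rw [AddChar.sum_mulShift _ (ZMod.isPrimitive_stdAddChar p)]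
      simp [ZMod.card]
    have e' : ∑ d : ZMod p, ‖S d‖ ^ 2
        = ∑ x : ZMod p, ∑ y : ZMod p, if x ^ k - y ^ k = 0 then (p : ℝ) else 0 := by
      apply Complex.ofReal_injective
      rw [e]; push_cast
      refine sum_congr rfl fun x _ => sum_congr rfl fun y _ => ?_
      split_ifs <;> simp
    rw [e']
    calc _ ≤ ∑ _x : ZMod p, (k : ℝ) * p := by
          refine sum_le_sum fun x _ => ?_
          rw [← sum_filter, sum_const, nsmul_eq_mul]
          refine mul_le_mul_of_nonneg_right ?_ (by positivity)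
          have : (univ.filter fun y : ZMod p => x ^ k - y ^ k = 0)
              = univ.filter fun y : ZMod p => y ^ k = x ^ k := by
            ext y; simp [sub_eq_zero, eq_comm]
          rw [this]
          exact_mod_cast card_pow_le p k hk _
      _ = _ := by simp [ZMod.card]; ring
  have h4 : ∑ z ∈ univ.erase (0 : ZMod p), ‖S (c * z ^ k)‖ ^ 2
      ≤ ∑ z : ZMod p, ‖S (c * z ^ k)‖ ^ 2 :=
    sum_le_sum_of_subset_of_nonneg (erase_subset _ _) fun _ _ _ => by positivity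
  have hk' : (0 : ℝ) ≤ k := by positivity
  calc _ = _ := h1.symm
    _ ≤ _ := h4
    _ ≤ _ := h2
    _ ≤ k * ((k : ℝ) * p ^ 2) := mul_le_mul_of_nonneg_left h3 hk'
    _ = _ := by ring

lemma prime_bound (p k : ℕ) (hp : p.Prime) (hk : 3 ≤ k) (hpk : (2 * k ^ 2) ^ k ≤ p) (a : ℤ)
    (ha : IsCoprime a p) : (‖SS k p a‖ / p) ^ k ≤ 1 / p := by
  have : Fact p.Prime := ⟨hp⟩
  have hc : (a : ZMod p) ≠ 0 := by
    rw [Ne, ZMod.intCast_zmod_eq_zero_iff_dvd]
    intro h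
    have := ha.isUnit_of_dvd' h dvd_rfl
    rw [Int.isUnit_iff] at this
    have := hp.two_le
    omega
  have h := prime_sq p k (by omega) _ hc
  rw [← SS_zmod] at h
  have hp2 : (2 : ℝ) ≤ p := by exact_mod_cast hp.two_le
  have hp0 : (0 : ℝ) < p := by linarith only [hp2]
  set T : ℝ := ‖SS k p a‖ / p with hT
  have hT0 : 0 ≤ T := by positivity
  have hT2 : T ^ 2 ≤ 2 * (k : ℝ) ^ 2 / p := by
    rw [hT, div_pow, div_le_div_iff₀ (by positivity) hp0]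
    have : 0 ≤ ‖SS k p a‖ ^ 2 := by positivity
    linarith only [h, hp2, mul_nonneg_of_nonpos_of_nonpos (Mathlib.Tactic.Linarith.sub_nonpos_of_le (sq_nonneg ‖SS k p a‖)) (Mathlib.Tactic.Linarith.sub_nonpos_of_le hp2)]
  have hK : (2 * (k : ℝ) ^ 2) ^ k ≤ p := by exact_mod_cast hpk
  have h3 : (T ^ k) ^ 2 ≤ (1 / p) ^ 2 := by
    calc (T ^ k) ^ 2 = (T ^ 2) ^ k := by ring
      _ ≤ (2 * (k : ℝ) ^ 2 / p) ^ k := pow_le_pow_left₀ (by positivity) hT2 k
      _ = (2 * (k : ℝ) ^ 2) ^ k / p ^ k := div_pow _ _ _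
      _ ≤ p / p ^ 3 := by
          refine div_le_div₀ hp0.le hK (by positivity) ?_
          exact pow_le_pow_right₀ (by linarith only [hp2]) hk
      _ = (1 / p) ^ 2 := by field_simp
  exact pow_le_pow_left₀ (by positivity) h3 1 |> fun _ =>
    (pow_le_pow_iff_left₀ (by positivity) (by positivity) two_ne_zero).1 h3

/-- prime powers: only the multiples of `p` contribute -/
lemma SS_pp (p k t h : ℕ) (hp : p.Prime) (ht : ¬ p ^ (t + 1) ∣ k) (hh : 2 * t + 2 ≤ h) (a : ℤ)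
    (ha : IsCoprime a p) :
    SS k (p ^ h) a = ∑ x ∈ range (p ^ (h - 1)),
      ee (((a * ((p * x : ℕ) : ℤ) ^ k : ℤ) : ℝ) / ((p ^ h : ℕ) : ℝ)) := by
  obtain ⟨j, rfl⟩ : ∃ j, h = (j + 1) + (t + 1) := ⟨h - t - 2, by omega⟩
  have hp0 := hp.pos
  set F : ℕ → ℂ := fun x =>
    ee (((a * (x : ℤ) ^ k : ℤ) : ℝ) / ((p ^ (j + 1 + (t + 1)) : ℕ) : ℝ)) with hF
  have hzero : ∑ x ∈ range (p ^ (j + 1 + (t + 1))), (if p ∣ x then 0 else F x) = 0 := by
    rw [pow_add, sum_split, sum_comm]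
    refine sum_eq_zero fun y _ => ?_
    by_cases hy : p ∣ y
    · refine sum_eq_zero fun z _ => if_pos ?_
      exact Dvd.dvd.add (Dvd.dvd.mul_right (dvd_pow_self p (by omega)) _) hy
    · have hne : ∀ z, ¬ p ∣ p ^ (j + 1) * z + y := fun z hz =>
        hy ((Nat.dvd_add_right (Dvd.dvd.mul_right (dvd_pow_self p (by omega)) _)).1 hz)
      simp only [hne, if_false]
      have hterm : ∀ z : ℕ, F (p ^ (j + 1) * z + y)
          = F y * ee (((a * k * (y : ℤ) ^ (k - 1) * (z : ℤ) : ℤ) : ℝ) / ((p ^ (t + 1) : ℕ) : ℝ)) := by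
        intro z
        simp only [hF]
        rw [← ee_add]
        have e : ((a * (y : ℤ) ^ k : ℤ) : ℝ) / ((p ^ (j + 1 + (t + 1)) : ℕ) : ℝ)
            + ((a * k * (y : ℤ) ^ (k - 1) * (z : ℤ) : ℤ) : ℝ) / ((p ^ (t + 1) : ℕ) : ℝ)
            = ((a * ((y : ℤ) ^ k + (y : ℤ) ^ (k - 1) * ((p : ℤ) ^ (j + 1) * z) * k) : ℤ) : ℝ)
              / ((p ^ (j + 1 + (t + 1)) : ℕ) : ℝ) := by
          have : (p : ℝ) ≠ 0 := by positivity
          push_cast; field_simp; ring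
        rw [e]
        symm
        refine ee_congr (pow_pos hp0 _) ?_
        rw [← mul_sub]
        refine Dvd.dvd.mul_left ?_ _
        have hd := sq_dvd_add_pow_sub_sub ((p : ℤ) ^ (j + 1) * z) (y : ℤ) k
        have hd2 : ((p ^ (j + 1 + (t + 1)) : ℕ) : ℤ) ∣ ((p : ℤ) ^ (j + 1) * z) ^ 2 := by
          push_cast
          rw [mul_pow, ← pow_mul]
          exact Dvd.dvd.mul_right (pow_dvd_pow _ (by omega)) _
        refine hd2.trans ?_
        convert hd using 1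
        push_cast; ring
      rw [sum_congr rfl fun z _ => hterm z, ← mul_sum, sum_lin_zero _ (pow_pos hp0 _), mul_zero]
      intro hdiv
      apply ht
      have hcop : IsCoprime (((p ^ (t + 1) : ℕ)) : ℤ) (a * (y : ℤ) ^ (k - 1)) := by
        push_cast
        refine IsCoprime.pow_left (IsCoprime.mul_right ha.symm (IsCoprime.pow_right ?_))
        exact Nat.isCoprime_iff_coprime.2 ((Nat.Prime.coprime_iff_not_dvd hp).2 hy)
      have : (((p ^ (t + 1) : ℕ)) : ℤ) ∣ (k : ℤ) := by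
        refine hcop.dvd_of_dvd_mul_left ?_
        rwa [show a * (y : ℤ) ^ (k - 1) * k = a * k * (y : ℤ) ^ (k - 1) by ring]
      exact_mod_cast this
  have hsplit : SS k (p ^ (j + 1 + (t + 1))) a
      = ∑ x ∈ range (p ^ (j + 1 + (t + 1))), (if p ∣ x then F x else 0) := by
    have : SS k (p ^ (j + 1 + (t + 1))) a
        = ∑ x ∈ range (p ^ (j + 1 + (t + 1))), (if p ∣ x then F x else 0)
          + ∑ x ∈ range (p ^ (j + 1 + (t + 1))), (if p ∣ x then 0 else F x) := by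
      rw [SS_eq, ← sum_add_distrib]
      refine sum_congr rfl fun x _ => ?_
      split_ifs <;> simp [hF]
    rw [this, hzero, add_zero]
  rw [hsplit]
  have e : p ^ (j + 1 + (t + 1)) = p * p ^ (j + 1 + (t + 1) - 1) := by
    rw [← pow_succ']; congr 1
  conv_lhs => rw [e, sum_split]
  refine sum_congr rfl fun z _ => ?_
  rw [sum_eq_single 0]
  · simp [hF]
  · intro y hy hy0
    refine if_neg fun hd => hy0 ?_
    have : p ∣ y := (Nat.dvd_add_right (dvd_mul_right _ _)).1 hd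
    exact Nat.eq_zero_of_dvd_of_lt this (mem_range.1 hy)
  · intro h0; exact absurd (mem_range.2 hp0) h0

lemma pp_bound (p k t M : ℕ) (hp : p.Prime) (hk : 0 < k) (hM : 0 < M) (ht : ¬ p ^ (t + 1) ∣ k)
    (hsmall : ∀ h < 2 * t + 2, ∀ a : ℤ, IsCoprime a p →
      (‖SS k (p ^ h) a‖ / (p ^ h : ℕ)) ^ k ≤ (Nat.gcd M (p ^ h) : ℝ) / (p ^ h : ℕ)) :
    ∀ h : ℕ, ∀ a : ℤ, IsCoprime a p →
      (‖SS k (p ^ h) a‖ / (p ^ h : ℕ)) ^ k ≤ (Nat.gcd M (p ^ h) : ℝ) / (p ^ h : ℕ) := by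
  intro h
  induction h using Nat.strong_induction_on with
  | _ h ih =>
  intro a ha
  by_cases hh : h < 2 * t + 2
  · exact hsmall h hh a ha
  have hp0 := hp.pos
  have hpR : (0 : ℝ) < p := by exact_mod_cast hp0
  have hp1 : (1 : ℝ) ≤ p := by exact_mod_cast hp0
  rw [SS_pp p k t h hp ht (by omega) a ha]
  by_cases hkh : k ≤ h
  · obtain ⟨j, rfl⟩ : ∃ j, h = j + k := ⟨h - k, by omega⟩
    have e : ∑ x ∈ range (p ^ (j + k - 1)),
        ee (((a * ((p * x : ℕ) : ℤ) ^ k : ℤ) : ℝ) / ((p ^ (j + k) : ℕ) : ℝ))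
        = SS k (p ^ j * p ^ (k - 1)) (a * (p ^ (k - 1) : ℕ)) := by
      rw [SS_eq, ← pow_add, show j + (k - 1) = j + k - 1 by omega]
      refine sum_congr rfl fun x _ => ?_
      congr 1
      obtain ⟨i, rfl⟩ : ∃ i, k = i + 1 := ⟨k - 1, by omega⟩
      simp only [Nat.add_sub_cancel, ← add_assoc]
      push_cast; field_simp; ring
    rw [e, SS_scale k _ _ (pow_pos hp0 _) (pow_pos hp0 _), norm_mul]
    have ih' := ih j (by omega) a ha
    have e2 : ‖((p ^ (k - 1) : ℕ) : ℂ)‖ * ‖SS k (p ^ j) a‖ / ((p ^ (j + k) : ℕ) : ℝ)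
        = (‖SS k (p ^ j) a‖ / ((p ^ j : ℕ) : ℝ)) / p := by
      obtain ⟨i, rfl⟩ : ∃ i, k = i + 1 := ⟨k - 1, by omega⟩
      rw [Complex.norm_natCast]
      simp only [Nat.add_sub_cancel]
      push_cast; field_simp; ring
    rw [e2, div_pow]
    have hg : (Nat.gcd M (p ^ j) : ℝ) ≤ (Nat.gcd M (p ^ (j + k)) : ℝ) := by
      exact_mod_cast Nat.le_of_dvd (Nat.gcd_pos_of_pos_left _ hM)
        (Nat.gcd_dvd_gcd_of_dvd_right _ (pow_dvd_pow _ (by omega)))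
    calc _ ≤ ((Nat.gcd M (p ^ j) : ℝ) / (p ^ j : ℕ)) / (p : ℝ) ^ k :=
          div_le_div_of_nonneg_right ih' (by positivity)
      _ = (Nat.gcd M (p ^ j) : ℝ) / (p ^ (j + k) : ℕ) := by push_cast; field_simp; ring
      _ ≤ _ := div_le_div_of_nonneg_right hg (by positivity)
  · have hn : ‖∑ x ∈ range (p ^ (h - 1)),
        ee (((a * ((p * x : ℕ) : ℤ) ^ k : ℤ) : ℝ) / ((p ^ h : ℕ) : ℝ))‖ ≤ (p : ℝ) ^ (h - 1) := by
      refine (norm_sum_le _ _).trans ?_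
      simp
    have hg : (1 : ℝ) ≤ (Nat.gcd M (p ^ h) : ℝ) := by
      exact_mod_cast Nat.gcd_pos_of_pos_left _ hM
    obtain ⟨i, rfl⟩ : ∃ i, h = i + 1 := ⟨h - 1, by omega⟩
    calc _ ≤ ((p : ℝ) ^ (i + 1 - 1) / ((p ^ (i + 1) : ℕ) : ℝ)) ^ k :=
          pow_le_pow_left₀ (by positivity) (div_le_div_of_nonneg_right hn (by positivity)) k
      _ = 1 / (p : ℝ) ^ k := by
          simp only [Nat.add_sub_cancel]; push_cast
          rw [show (p : ℝ) ^ i / p ^ (i + 1) = 1 / p by field_simp; ring, div_pow, one_pow]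
      _ ≤ 1 / (p : ℝ) ^ (i + 1) :=
          div_le_div_of_nonneg_left zero_le_one (by positivity) (pow_le_pow_right₀ hp1 (by omega))
      _ ≤ _ := by push_cast; exact div_le_div_of_nonneg_right hg (by positivity)

lemma coprime_bound {k : ℕ} (hk : 3 ≤ k) : ∃ M : ℕ, 0 < M ∧ ∀ q : ℕ, 0 < q → ∀ a : ℤ,
    IsCoprime a q → (‖SS k q a‖ / q) ^ k ≤ (Nat.gcd M q : ℝ) / q := by
  set P : ℕ := (2 * k ^ 2) ^ k + k with hP
  refine ⟨P.factorial ^ (2 * k + 1), pow_pos (Nat.factorial_pos _) _, ?_⟩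
  set M : ℕ := P.factorial ^ (2 * k + 1) with hM
  have hM0 : 0 < M := pow_pos (Nat.factorial_pos _) _
  have triv : ∀ q : ℕ, 0 < q → q ∣ M → ∀ a : ℤ, (‖SS k q a‖ / q) ^ k ≤ (Nat.gcd M q : ℝ) / q := by
    intro q hq hd a
    have hq' : (0 : ℝ) < q := by exact_mod_cast hq
    rw [Nat.gcd_eq_right hd, div_self hq'.ne']
    exact pow_le_one₀ (by positivity) ((div_le_one hq').2 (norm_SS_le _ _ _))
  intro q
  induction q using Nat.recOnPosPrimePosCoprime with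
  | zero => intro h; exact absurd h (lt_irrefl _)
  | one => intro h a _; exact triv 1 h (one_dvd _) a
  | prime_pow p n hp hn =>
    intro _ a ha
    have ha' : IsCoprime a p := by
      push_cast at ha
      exact (IsCoprime.pow_right_iff hn).1 ha
    by_cases hpP : p ≤ P
    · refine pp_bound p k k M hp (by omega) hM0 ?_ ?_ n a ha'
      · intro hd
        have h1 := Nat.le_of_dvd (by omega) hd
        have h2 : k + 1 < p ^ (k + 1) := Nat.lt_pow_self hp.one_lt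
        omega
      · intro h hh b _
        refine triv _ (pow_pos hp.pos _) ?_ b
        exact (pow_dvd_pow p (by omega : h ≤ 2 * k + 1)).trans
          (pow_dvd_pow_of_dvd (Nat.dvd_factorial hp.pos hpP) _)
    · refine pp_bound p k 0 M hp (by omega) hM0 ?_ ?_ n a ha'
      · intro hd
        have h1 := Nat.le_of_dvd (by omega) hd
        simp at h1
        omega
      · intro h hh b hb
        obtain rfl | rfl : h = 0 ∨ h = 1 := by omega
        · exact triv _ (by simp) (by simp) b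
        · rw [pow_one]
          refine (prime_bound p k hp hk (by omega) b hb).trans ?_
          refine div_le_div_of_nonneg_right ?_ (by positivity)
          exact_mod_cast Nat.gcd_pos_of_pos_left _ hM0
  | coprime q₁ q₂ h₁ h₂ hc ih₁ ih₂ =>
    intro _ a ha
    obtain ⟨u, v, huv⟩ := Nat.isCoprime_iff_coprime.2 hc
    push_cast at ha
    have c₁ : IsCoprime (a * v) q₁ :=
      IsCoprime.mul_left ha.of_mul_right_left ⟨q₂, u, by linarith only [huv]⟩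
    have c₂ : IsCoprime (a * u) q₂ :=
      IsCoprime.mul_left ha.of_mul_right_right ⟨q₁, v, by linarith only [huv]⟩
    have b₁ := ih₁ (by omega) _ c₁
    have b₂ := ih₂ (by omega) _ c₂
    rw [SS_mul k q₁ q₂ (by omega) (by omega) u v huv, norm_mul, hc.gcd_mul]
    push_cast
    rw [← div_mul_div_comm, mul_pow, ← div_mul_div_comm]
    exact mul_le_mul b₁ b₂ (by positivity) (by positivity)

end GaussAux

theorem gauss_bound {k : ℕ} (hk : 3 ≤ k) : ∃ C : ℝ, 1 ≤ C ∧ GaussB k C := by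
  obtain ⟨M, hM, h⟩ := GaussAux.coprime_bound hk
  refine ⟨M, by exact_mod_cast hM, fun q hq b => ?_⟩
  have hg : 0 < Int.gcd b q := Int.gcd_pos_of_ne_zero_right _ (by omega)
  obtain ⟨b', q', hcop, hb, hq'⟩ := Int.exists_gcd_one hg
  set D : ℕ := Int.gcd b q with hD
  have hq'0 : 0 < q' := by
    by_contra hneg
    have : (q : ℤ) ≤ 0 := by
      rw [hq']; exact mul_nonpos_of_nonpos_of_nonneg (not_lt.1 hneg) (by positivity)
    omega
  lift q' to ℕ using hq'0.le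
  have hq'' : q = q' * D := by exact_mod_cast hq'
  have hq0 : 0 < q' := by exact_mod_cast hq'0
  have hb' := h q' hq0 b' (Int.isCoprime_iff_gcd_eq_one.2 hcop)
  have hDR : (0 : ℝ) < D := by exact_mod_cast hg
  have hqR : (0 : ℝ) < q' := by exact_mod_cast hq0
  have e : SS k q b = D * SS k q' b' := by
    conv_lhs => rw [hq'', hb]
    exact GaussAux.SS_scale k q' D hq0 hg b'
  have e2 : (q : ℝ) = q' * D := by exact_mod_cast hq''
  rw [e, e2, norm_mul, Complex.norm_natCast]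
  have hM' : (Nat.gcd M q' : ℝ) ≤ M := by exact_mod_cast Nat.gcd_le_left _ hM
  calc (D * ‖SS k q' b'‖ / (q' * D)) ^ k = (‖SS k q' b'‖ / q') ^ k := by
        congr 1; field_simp
    _ ≤ _ := hb'
    _ ≤ M / q' := div_le_div_of_nonneg_right hM' hqR.le
    _ = _ := by field_simp

end

end Pool.Agent.Work.MP_45c923_nt
end

-- merged part: Pool.Agent.Work.MP_45c923_nt.Sing
section
/-!
# Lower bound for the truncated singular series
-/

set_option autoImplicit false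

namespace Pool.Agent.Work.MP_45c923_nt

open Finset Pool.Agent.Lib.LargeSieve

noncomputable section

namespace Sing

lemma chi_prod_ge {k s : ℕ} (hk : 1 ≤ k) (hs : 4 * k ≤ s) (S : Finset ℕ)
    (hS : ∀ p ∈ S, p.Prime) :
    ∃ c : ℝ, 0 < c ∧ ∃ g : ℕ, ∀ h, g ≤ h → ∀ n, c ≤ chi k s n (∏ p ∈ S, p ^ h) := by
  induction S using Finset.induction_on with
  | empty => exact ⟨1, one_pos, 0, fun h _ n => by simp [chi_one]⟩
  | insert p S hp ih =>
    obtain ⟨c, hc, g, hg⟩ := ih fun q hq => hS q (mem_insert_of_mem hq)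
    have hpp := hS p (mem_insert_self _ _)
    obtain ⟨c', hc', g', hg'⟩ := chi_local hpp hk hs
    refine ⟨c' * c, mul_pos hc' hc, max g g', fun h hh n => ?_⟩
    have hcop : Nat.Coprime (p ^ h) (∏ q ∈ S, q ^ h) := by
      refine Nat.Coprime.prod_right fun q hq => Nat.Coprime.pow _ _ ?_
      refine (Nat.coprime_primes hpp (hS q (mem_insert_of_mem hq))).mpr ?_
      rintro rfl; exact hp hq
    rw [prod_insert hp, chi_mul _ _ _ hcop]
    exact mul_le_mul (hg' h (le_trans (le_max_right _ _) hh) n)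
      (hg h (le_trans (le_max_left _ _) hh) n) hc.le (chi_nonneg _ _ _ _)

lemma dvd_prod_primes {q Z : ℕ} (hq : 1 ≤ q) (hZ : q < Z) :
    q ∣ ∏ p ∈ (range Z).filter Nat.Prime, p ^ Z := by
  have h1 : q = ∏ p ∈ q.primeFactors, p ^ q.factorization p := by
    conv_lhs => rw [← Nat.prod_factorization_pow_eq_self (show q ≠ 0 by omega)]
    rfl
  have h2 : ∏ p ∈ q.primeFactors, p ^ q.factorization p ∣ ∏ p ∈ q.primeFactors, p ^ Z :=
    prod_dvd_prod_of_dvd _ _ fun p _ =>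
      pow_dvd_pow _ ((Nat.factorization_lt p (show q ≠ 0 by omega)).le.trans hZ.le)
  have h3 : q.primeFactors ⊆ (range Z).filter Nat.Prime := by
    intro p hp
    rw [mem_filter, mem_range]
    exact ⟨(Nat.le_of_mem_primeFactors hp).trans_lt hZ, Nat.prime_of_mem_primeFactors hp⟩
  exact h1 ▸ h2.trans (prod_dvd_prod_of_subset _ _ _ h3)

lemma chi_rough {k s : ℕ} {C : ℝ} (hs : 3 * k ≤ s + 1) (hG : GaussB k C) (n m : ℕ) {W : ℕ}
    (hW : 0 < W) (hr : ∀ p, p.Prime → p ∣ W → m < p) :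
    1 - C ^ 3 * (2 / (m + 1)) ≤ chi k s n W := by
  have h1 := sum_divisors_eq_chi k s n hW
  rw [← add_sum_erase _ _ (Nat.one_mem_divisors.mpr hW.ne'), AA_one] at h1
  have h2 := norm_tail_le hs hG n (W.divisors.erase 1) m (by
    intro q hq
    rw [mem_erase] at hq
    have hd := Nat.dvd_of_mem_divisors hq.2
    have hq0 : 0 < q := Nat.pos_of_mem_divisors hq.2
    have h3 := hr _ (Nat.minFac_prime hq.1) ((Nat.minFac_dvd q).trans hd)
    exact h3.trans_le (Nat.minFac_le hq0))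
  have h3 := congrArg Complex.re h1
  simp only [Complex.add_re, Complex.one_re, Complex.ofReal_re] at h3
  have h4 := (Complex.abs_re_le_norm (∑ q ∈ W.divisors.erase 1, AA k (s + 1) n q)).trans h2
  rw [abs_le] at h4
  linarith only [h3, h4, h4.1]

end Sing

open Sing in
theorem sing_lower {k s : ℕ} {C : ℝ} (hk : 3 ≤ k) (hs : 5 * k ≤ s) (hG : GaussB k C) :
    ∃ c : ℝ, 0 < c ∧ ∃ B : ℝ, 0 < B ∧ ∃ Z₀ : ℕ, ∀ Z : ℕ, Z₀ ≤ Z → ∀ n : ℕ,
      c ≤ (∑ q ∈ Ico 1 Z, AA k s n q).re ∧ ‖∑ q ∈ Ico 1 Z, AA k s n q‖ ≤ B := by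
  obtain ⟨s, rfl⟩ : ∃ s', s = s' + 1 := ⟨s - 1, by omega⟩
  have hC := gauss_nonneg hG
  obtain ⟨m, hm⟩ := exists_nat_ge (4 * C ^ 3)
  have hm2 : C ^ 3 * (2 / (m + 1)) ≤ 1 / 2 := by
    rw [← mul_div_assoc, div_le_iff₀ (by positivity)]; linarith only [hm]
  obtain ⟨c, hc, g, hg⟩ := chi_prod_ge (k := k) (s := s) (by omega) (by omega)
    ((range (m + 1)).filter Nat.Prime) fun p hp => (mem_filter.mp hp).2
  obtain ⟨Z₁, hZ₁⟩ := exists_nat_ge (8 * C ^ 3 / c)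
  refine ⟨c / 4, by positivity, C ^ 3 * 2 + 1, by positivity, max (max g (m + 1)) Z₁,
    fun Z hZ n => ⟨?_, ?_⟩⟩
  · have hgZ : g ≤ Z := le_trans (le_trans (le_max_left _ _) (le_max_left _ _)) hZ
    have hmZ : m + 1 ≤ Z := le_trans (le_trans (le_max_right _ _) (le_max_left _ _)) hZ
    have hZ1 : Z₁ ≤ Z := le_trans (le_max_right _ _) hZ
    set S₁ := (range (m + 1)).filter Nat.Prime with hS₁
    set S := (range Z).filter Nat.Prime with hS
    have hsub : S₁ ⊆ S := filter_subset_filter _ (range_subset_range.mpr hmZ)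
    set W₁ := ∏ p ∈ S₁, p ^ Z with hW₁
    set W₂ := ∏ p ∈ S \ S₁, p ^ Z with hW₂
    have hW : ∏ p ∈ S, p ^ Z = W₂ * W₁ := (prod_sdiff hsub).symm
    have hW₁0 : 0 < W₁ := prod_pos fun p hp => pow_pos (mem_filter.mp hp).2.pos _
    have hW₂0 : 0 < W₂ :=
      prod_pos fun p hp => pow_pos (mem_filter.mp (mem_sdiff.mp hp).1).2.pos _
    have hcop : Nat.Coprime W₂ W₁ := by
      refine Nat.Coprime.prod_left fun p hp => Nat.Coprime.prod_right fun q hq =>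
        Nat.Coprime.pow _ _ ?_
      rw [mem_sdiff] at hp
      refine (Nat.coprime_primes (mem_filter.mp hp.1).2 (mem_filter.mp hq).2).mpr ?_
      rintro rfl; exact hp.2 hq
    have h2 : 1 / 2 ≤ chi k s n W₂ := by
      have := chi_rough (s := s) (by omega) hG n m hW₂0 (by
        intro p hp hd
        obtain ⟨q, hq, hd'⟩ := (Prime.dvd_finsetProd_iff hp.prime _).mp hd
        rw [mem_sdiff] at hq
        have hqp := (mem_filter.mp hq.1).2
        have hpq : p = q := (Nat.prime_dvd_prime_iff_eq hp hqp).mp (hp.dvd_of_dvd_pow hd')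
        subst hpq
        by_contra hlt
        exact hq.2 (mem_filter.mpr ⟨mem_range.mpr (by omega), hp⟩))
      linarith only [hm2, this]
    have h1 : c ≤ chi k s n W₁ := hg Z hgZ n
    have h3 : c / 2 ≤ chi k s n (W₂ * W₁) := by
      rw [chi_mul _ _ _ hcop]
      linarith only [h1, hc, h2, mul_nonneg_of_nonpos_of_nonpos (le_of_lt (Mathlib.Tactic.Linarith.sub_neg_of_lt hc)) (Mathlib.Tactic.Linarith.sub_nonpos_of_le h2), mul_nonneg_of_nonpos_of_nonpos (Mathlib.Tactic.Linarith.sub_nonpos_of_le h2) (Mathlib.Tactic.Linarith.sub_nonpos_of_le h1)]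
    have hIco : Ico 1 Z ⊆ (W₂ * W₁).divisors := by
      intro q hq
      rw [mem_Ico] at hq
      rw [Nat.mem_divisors, ← hW]
      exact ⟨dvd_prod_primes hq.1 hq.2, by rw [hW]; positivity⟩
    have h4 := sum_divisors_eq_chi k s n (Nat.mul_pos hW₂0 hW₁0)
    rw [← sum_sdiff hIco] at h4
    have h5 := norm_tail_le (s := s + 1) (by omega) hG n ((W₂ * W₁).divisors \ Ico 1 Z) (Z - 1) (by
      intro q hq
      rw [mem_sdiff, mem_Ico] at hq
      have := Nat.pos_of_mem_divisors hq.1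
      omega)
    have h6 : ((Z - 1 : ℕ) : ℝ) + 1 = Z := by
      rw [Nat.cast_sub (by omega)]; simp
    have hZ0 : (0 : ℝ) < Z := by exact_mod_cast (show 0 < Z by omega)
    have h7 : C ^ 3 * (2 / (Z : ℝ)) ≤ c / 4 := by
      have h8 : (Z₁ : ℝ) ≤ Z := by exact_mod_cast hZ1
      have h9 : 8 * C ^ 3 ≤ Z * c := (div_le_iff₀ hc).mp (hZ₁.trans h8)
      rw [← mul_div_assoc, div_le_iff₀ hZ0]; linarith only [h9]
    rw [h6] at h5
    have h10 := congrArg Complex.re h4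
    simp only [Complex.add_re, Complex.ofReal_re] at h10
    have h11 := (Complex.abs_re_le_norm _).trans h5
    rw [abs_le] at h11
    linarith only [h3, h7, h10, h11, h11.2]
  · have h5 := norm_tail_le (s := s + 1) (by omega) hG n (Ico 1 Z) 0 (by
      intro q hq
      rw [mem_Ico] at hq
      omega)
    simp only [Nat.cast_zero, zero_add, div_one] at h5
    linarith only [h5]

end

end Pool.Agent.Work.MP_45c923_nt
end

-- merged part: Pool.Agent.Work.MP_45c923_nt.Major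
section
set_option autoImplicit false

namespace Pool.Agent.Work.MP_45c923_nt

open Finset Pool.Agent.Lib.LargeSieve

noncomputable section

namespace Major

lemma replace_num {k J M m : ℕ} {R Y X : ℝ} (hR : 1 ≤ R) (hY : R ^ (5 * M + 1) ≤ Y)
    (hX : X = (R ^ J * Y) ^ k) :
    R ^ M * (R ^ M * (((m + 1) * ((2 * R) ^ J * (2 ^ (J + 1) * Y)) ^ m * ((2 * R) ^ J *
        (2 * R ^ M + 21 * R ^ M * (R ^ M / X) * ((2 * R) ^ J * (2 ^ (J + 1) * Y + 1)) ^ k)))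
          * (2 * (R ^ M / X))))
      ≤ (46 * (m + 1) * (2 ^ (2 * J + 1)) ^ m * 2 ^ J * (2 ^ (2 * J + 2)) ^ k)
          * (R ^ J * Y) ^ (m + 1) / (X * R) := by
  have hR0 : 0 < R := by linarith
  have hY1 : 1 ≤ Y := (one_le_pow₀ hR).trans hY
  have hY0 : 0 < Y := by linarith
  have hX0 : 0 < X := by rw [hX]; positivity
  have hQ : 1 ≤ R ^ M := one_le_pow₀ hR
  set D : ℝ := (2 ^ (2 * J + 2)) ^ k with hD
  have hD1 : 1 ≤ D := one_le_pow₀ (one_le_pow₀ one_le_two)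
  have h1 : ((2 * R) ^ J * (2 ^ (J + 1) * Y + 1)) ^ k ≤ D * X := by
    rw [hX, hD, ← mul_pow]
    refine pow_le_pow_left₀ (by positivity) ?_ _
    have h2 : (1 : ℝ) ≤ 2 ^ (J + 1) * Y := one_le_mul_of_one_le_of_one_le (one_le_pow₀ one_le_two) hY1
    calc (2 * R) ^ J * (2 ^ (J + 1) * Y + 1) ≤ (2 * R) ^ J * (2 ^ (J + 1) * Y + 2 ^ (J + 1) * Y) := by
          gcongr
      _ = 2 ^ (2 * J + 2) * (R ^ J * Y) := by ring
  have h2 : 2 * R ^ M + 21 * R ^ M * (R ^ M / X) * ((2 * R) ^ J * (2 ^ (J + 1) * Y + 1)) ^ k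
      ≤ 23 * D * (R ^ M) ^ 2 := by
    have h3 : 21 * R ^ M * (R ^ M / X) * ((2 * R) ^ J * (2 ^ (J + 1) * Y + 1)) ^ k
        ≤ 21 * R ^ M * (R ^ M / X) * (D * X) := by gcongr
    have h4 : 21 * R ^ M * (R ^ M / X) * (D * X) = 21 * D * (R ^ M) ^ 2 := by field_simp
    have h5 : R ^ M ≤ D * (R ^ M) ^ 2 := by linarith only [hQ, hD1, mul_nonneg (sub_nonneg.2 hD1) (sq_nonneg (R ^ M)), sq_nonneg (R ^ M), mul_nonneg_of_nonpos_of_nonpos (Mathlib.Tactic.Linarith.sub_nonpos_of_le hQ) (Mathlib.Tactic.Linarith.sub_nonpos_of_le hQ)]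
    linarith only [h3, h4, h5]
  have h3 : (2 * R) ^ J * (2 ^ (J + 1) * Y) = 2 ^ (2 * J + 1) * (R ^ J * Y) := by ring
  calc _ ≤ R ^ M * (R ^ M * (((m + 1) * ((2 * R) ^ J * (2 ^ (J + 1) * Y)) ^ m * ((2 * R) ^ J *
        (23 * D * (R ^ M) ^ 2))) * (2 * (R ^ M / X)))) := by gcongr
    _ = (46 * (m + 1) * (2 ^ (2 * J + 1)) ^ m * 2 ^ J * D)
          * ((R ^ J * Y) ^ m * (R ^ J * R ^ (5 * M + 1))) / (X * R) := by
        rw [h3, mul_pow (2 ^ (2 * J + 1) : ℝ), mul_pow 2 R]; field_simp; ring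
    _ ≤ (46 * (m + 1) * (2 ^ (2 * J + 1)) ^ m * 2 ^ J * D)
          * ((R ^ J * Y) ^ m * (R ^ J * Y)) / (X * R) := by gcongr
    _ = _ := by rw [← pow_succ]

end Major

open Major in
theorem major {k s J M L : ℕ} (hk : 3 ≤ k) (hs : 5 * k ≤ s) (hM : 1 ≤ M) (hL : 5 * M + 2 ≤ L) :
    ∃ c : ℝ, 0 < c ∧ ∃ C : ℝ, 0 < C ∧ ∃ R₀ : ℕ, ∀ (R : ℕ) (S : Finset ℕ) (Y n : ℕ) (X : ℝ),
      R₀ ≤ R → PP R S → R ^ L ≤ Y → X = ((R : ℝ) ^ J * Y) ^ k →
      2 * s * ((2 * R) ^ J * Y) ^ k ≤ n → n ≤ 3 * s * ((2 * R) ^ J * Y) ^ k →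
      c * ((S.card : ℝ) ^ J * Y) ^ s / X - C * ((R : ℝ) ^ J * Y) ^ s / (X * R) ≤
        (∑ q ∈ Icc 1 (R ^ M), ∑ a ∈ RR q, ∫ β in -((R : ℝ) ^ M / X)..((R : ℝ) ^ M / X),
          ff S k J Y (2 ^ (J + 1) * Y) ((a : ℝ) / q + β) ^ s *
            ee (-(((a : ℝ) / q + β) * n))).re := by
  obtain ⟨CG, hCG1, hG⟩ := gauss_bound hk
  obtain ⟨c₁, hc₁, B, hB, Z₀, hsing⟩ := sing_lower hk hs hG
  obtain ⟨c₂, hc₂, C₂, hC₂, Y₀, hsint⟩ :=
    sint (k := k) (s := s) (H := 2 ^ J) (by omega) (by omega) Nat.one_le_two_pow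
  obtain ⟨m, rfl⟩ : ∃ m, s = m + 1 := ⟨s - 1, by omega⟩
  set C₁ : ℝ := 46 * (m + 1) * (2 ^ (2 * J + 1)) ^ m * 2 ^ J * (2 ^ (2 * J + 2)) ^ k with hC₁
  set C₃ : ℝ := 14 * CG ^ 3 * ((2 * (M + 1)) ^ J * 2 ^ (J + 1)) ^ (m + 1) with hC₃
  set C₄ : ℝ := B * C₂ * (2 ^ J) ^ (m + 1) with hC₄
  refine ⟨c₁ * c₂, by positivity, C₁ + C₃ + C₄, by positivity, max (max Z₀ Y₀) ⌈CG⌉₊, ?_⟩
  intro R S Y n X hR₀ hS hY hX hn1 hn2
  have hR2 := hS.two
  have hR1 : (1 : ℝ) ≤ R := by exact_mod_cast (by omega : 1 ≤ R)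
  have hR0 : (0 : ℝ) < R := by linarith only [hR1]
  have hRZ : Z₀ ≤ R := (le_max_left _ _).trans ((le_max_left _ _).trans hR₀)
  have hRY : Y₀ ≤ R := (le_max_right _ _).trans ((le_max_left _ _).trans hR₀)
  have hRC : CG ≤ R := Nat.ceil_le.1 ((le_max_right _ _).trans hR₀)
  have hpow : ∀ e, e ≤ L → R ^ e ≤ Y := fun e he =>
    (Nat.pow_le_pow_right (by omega) he).trans hY
  have hRY' : R ≤ Y := by simpa using hpow 1 (by omega)
  have hY1 : 1 ≤ Y := by omega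
  have hY1' : (1 : ℝ) ≤ Y := by exact_mod_cast hY1
  have hX0 : 0 < X := by rw [hX]; positivity
  have hRQ : R ≤ R ^ M := Nat.le_self_pow (by omega) R
  have hRQ' : (R : ℝ) ≤ (R : ℝ) ^ M := by exact_mod_cast hRQ
  have hQX : 2 * (R : ℝ) ^ M ≤ X := by
    have h1 : 2 * R ^ M ≤ Y := by
      refine le_trans ?_ (hpow (M + 1) (by omega))
      rw [pow_succ']; gcongr
    have h2 : 2 * (R : ℝ) ^ M ≤ Y := by exact_mod_cast h1
    have h3 : (Y : ℝ) ≤ (R : ℝ) ^ J * Y := le_mul_of_one_le_left (by positivity) (one_le_pow₀ hR1)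
    have h4 : (R : ℝ) ^ J * Y ≤ ((R : ℝ) ^ J * Y) ^ k :=
      le_self_pow₀ (hY1'.trans h3) (by omega)
    rw [hX]; linarith only [h2, h3, h4]
  set η : ℝ := (R : ℝ) ^ M / X with hη
  have hη0 : 0 ≤ η := by positivity
  have hη1 : η ≤ 1 / 2 := by rw [hη, div_le_div_iff₀ hX0 two_pos]; linarith only [hQX]
  set Z : ℕ := 2 ^ (J + 1) * Y with hZ
  have hZ' : (Z : ℝ) = 2 ^ (J + 1) * Y := by rw [hZ]; push_cast; ring
  have hYZ : Y ≤ Z := Nat.le_mul_of_pos_left _ (by positivity)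
  set P : ℝ := ((R : ℝ) ^ J * Y) ^ (m + 1) / (X * R) with hP
  have hP0 : 0 ≤ P := by positivity
  -- replacement
  have e1 := arcs_replace hS (k := k) (J := J) (Y := Y) (Z := Z) (Q := R ^ M) (by omega) hη0 m n
  have e1' := replace_num (k := k) (J := J) (M := M) (m := m) hR1
    (by exact_mod_cast hpow (5 * M + 1) (by omega)) hX
  rw [hZ', Nat.cast_pow] at e1
  replace e1 := e1.trans e1'
  rw [← hC₁, mul_div_assoc, ← hP] at e1
  -- large moduli
  have e2 := arcs_large hS (k := k) (s := m + 1) (M := M) (J := J) (by omega) (by omega) hG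
    (by linarith only [hCG1]) hRC hY1 hYZ hX hη0 hη1 n
  have e2' : 14 * CG ^ 3 * ((2 * (M + 1) * R : ℝ) ^ J * Z) ^ (m + 1) / (X * R) = C₃ * P := by
    rw [hC₃, hP, hZ', mul_pow (2 * (M + 1) : ℝ) R,
      show (2 * (M + 1) : ℝ) ^ J * (R : ℝ) ^ J * (2 ^ (J + 1) * Y)
        = ((2 * (M + 1)) ^ J * 2 ^ (J + 1)) * ((R : ℝ) ^ J * Y) by ring, mul_pow]
    ring
  rw [e2'] at e2
  -- small moduli
  have e3 := arcs_small hS k (m + 1) J Y Z n η
  obtain ⟨hs1, hs2⟩ := hsing R hRZ n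
  have hXW : (((R ^ J : ℕ) : ℝ) * Y) ^ k = X := by rw [hX]; push_cast; ring
  obtain ⟨I, hI1, hI2⟩ := hsint (Fin J → ℕ) (TT S J) pr (R ^ J) Y n ((R : ℝ) ^ M)
    (Nat.one_le_pow _ _ (by omega)) (hRY.trans hRY')
    (fun u hu => ⟨hS.le_pr hu, by rw [← mul_pow]; exact hS.pr_le hu⟩)
    (by rw [← mul_pow]; exact hn1) (by rw [← mul_pow]; exact hn2) (one_le_pow₀ hR1)
    (by rw [hXW]; exact hQX)
  have hZ2 : 2 * 2 ^ J * Y = Z := by rw [hZ]; ring
  rw [hXW, card_TT, Nat.cast_pow] at hI1 hI2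
  rw [hZ2, ← hη] at hI2
  have hI0 : 0 ≤ I := le_trans (by clear * - c₂ S J Y m X hc₂ hY1 hX0 hI1; positivity) hI1
  have hcard : (S.card : ℝ) ≤ 2 * R := by exact_mod_cast hS.card_le
  have hI3 : B * (C₂ * ((S.card : ℝ) ^ J * Y) ^ (m + 1) / (X * (R : ℝ) ^ M)) ≤ C₄ * P := by
    clear * - B C₂ S J Y m X R M C₄ P hC₂ hR2 hY1 hcard hX0 hRQ' hB hC₄ hP
    calc _ ≤ B * (C₂ * ((2 * R : ℝ) ^ J * Y) ^ (m + 1) / (X * R)) := by gcongr
      _ = _ := by rw [hC₄, hP, mul_pow (2 : ℝ) R, mul_assoc ((2 : ℝ) ^ J), mul_pow]; ring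
  set Sg := ∑ q ∈ Ico 1 R, AA k (m + 1) n q
  set Iη := ∫ β in -η..η, (∑ u ∈ TT S J, VW k Y Z (pr u) β) ^ (m + 1) * ee (-(β * n))
  have e4 : c₁ * c₂ * ((S.card : ℝ) ^ J * Y) ^ (m + 1) / X - C₄ * P ≤ (Sg * Iη).re := by
    clear * - Sg Iη I C₄ P B C₂ S J Y m X R M hs2 hI2 hB hI3 c₁ c₂ hs1 hI1 hc₂ hY1 hX0 hc₁
    have h1 : Sg * Iη = Sg * I + Sg * (Iη - I) := by ring
    have h2 : (Sg * (I : ℂ)).re = Sg.re * I := by simp
    have h3 : ‖Sg * (Iη - I)‖ ≤ C₄ * P := by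
      rw [norm_mul]
      exact (mul_le_mul hs2 hI2 (norm_nonneg _) hB.le).trans hI3
    have h4 := (abs_le.1 ((Complex.abs_re_le_norm _).trans h3)).1
    have h5 : c₁ * (c₂ * ((S.card : ℝ) ^ J * Y) ^ (m + 1) / X) ≤ Sg.re * I :=
      mul_le_mul hs1 hI1 (by clear * - c₂ S J Y m X hc₂ hY1 hX0 hc₁ hs1; positivity) (by linarith only [hc₁, hs1])
    have h6 : c₁ * c₂ * ((S.card : ℝ) ^ J * Y) ^ (m + 1) / X
        = c₁ * (c₂ * ((S.card : ℝ) ^ J * Y) ^ (m + 1) / X) := by ring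
    rw [h1, Complex.add_re, h2, h6]
    linarith only [h4, h5]
  -- assembly
  have hsplit : Icc 1 (R ^ M) = Ico 1 R ∪ Icc R (R ^ M) := by
    ext x; simp only [mem_Icc, mem_union, mem_Ico]; omega
  have hdis : Disjoint (Ico 1 R) (Icc R (R ^ M)) := by
    rw [disjoint_left]; intro x h1 h2; rw [mem_Ico] at h1; rw [mem_Icc] at h2; omega
  set T := ∑ q ∈ Icc 1 (R ^ M), ∑ a ∈ RR q, ∫ β in -η..η,
    ff S k J Y Z ((a : ℝ) / q + β) ^ (m + 1) * ee (-(((a : ℝ) / q + β) * n))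
  rw [hsplit, sum_union hdis, e3] at e1
  have h7 := (abs_le.1 ((Complex.abs_re_le_norm _).trans e1)).1
  have h8 := (abs_le.1 ((Complex.abs_re_le_norm _).trans e2)).1
  rw [Complex.sub_re, Complex.add_re] at h7
  rw [mul_div_assoc (C₁ + C₃ + C₄), ← hP]
  linarith only [e4, h7, h8]

end

end Pool.Agent.Work.MP_45c923_nt
end
end
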