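import Pool.Agent.Work.MP_45c923_nt.VmDefs

set_option autoImplicit false

namespace Pool.Agent.Work.MP_45c923_nt

open Finset Pool.Agent.Lib.LargeSieve

noncomputable section

namespace VmCntAux

lemma fib_eq {β G : Type*} [DecidableEq G] (X : Finset β) (Φ : β → G) (g h : G) :
    ((X ×ˢ X).filter fun p => Φ p.1 = g ∧ Φ p.2 = h).card =
      (X.filter fun x => Φ x = g).card * (X.filter fun x => Φ x = h).card := by
  rw [← card_product, ← filter_product]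

lemma cnt_eq_sum {β G : Type*} [DecidableEq G] (X : Finset β) (Φ : β → G) (T : Finset G)
    (hT : ∀ x ∈ X, Φ x ∈ T) : cnt X Φ = ∑ g ∈ T, (X.filter fun x => Φ x = g).card ^ 2 := by
  unfold cnt
  rw [card_eq_sum_card_fiberwise (f := fun p => Φ p.1) (t := T)
    (fun p hp => hT _ (mem_product.1 (mem_filter.1 hp).1).1)]
  refine sum_congr rfl fun g _ => ?_
  rw [sq, ← fib_eq, filter_filter]
  congr 1
  refine filter_congr fun p _ => ?_
  constructor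
  · rintro ⟨h1, h2⟩; exact ⟨h2, h1 ▸ h2⟩
  · rintro ⟨h1, h2⟩; exact ⟨h1.trans h2.symm, h1⟩

lemma sum_le_cnt {β G : Type*} [DecidableEq G] (X : Finset β) (Φ : β → G) (T : Finset G) :
    ∑ g ∈ T, (X.filter fun x => Φ x = g).card ^ 2 ≤ cnt X Φ := by
  rw [cnt_eq_sum X Φ (T ∪ X.image Φ) fun x hx => mem_union_right _ (mem_image_of_mem _ hx)]
  exact sum_le_sum_of_subset subset_union_left

lemma cnt_congr {β G G' : Type*} [DecidableEq G] [DecidableEq G'] (X : Finset β) (Φ : β → G)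
    (Ψ : β → G') (h : ∀ x ∈ X, ∀ y ∈ X, Φ x = Φ y ↔ Ψ x = Ψ y) : cnt X Φ = cnt X Ψ := by
  unfold cnt
  congr 1
  exact filter_congr fun p hp => h _ (mem_product.1 hp).1 _ (mem_product.1 hp).2

lemma char_sum {ι H : Type*} [AddCommGroup H] (ψ : AddChar H ℂ) (s : Finset ι) (f : ι → H) :
    ψ (∑ i ∈ s, f i) = ∏ i ∈ s, ψ (f i) := by
  classical
  induction s using Finset.induction_on with
  | empty => simp
  | insert a s ha ih => rw [sum_insert ha, prod_insert ha, AddChar.map_add_eq_mul, ih]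

lemma char_prod {δ α H : Type*} [AddCommGroup H] (ψ : AddChar H ℂ) (D : Finset δ) (A : Finset α)
    (Φ : δ → H) (φ : α → H) (m : ℕ) :
    ∑ p ∈ D ×ˢ tup m A, ψ (Φ p.1 + ∑ i, φ (p.2 i)) =
      (∑ x ∈ D, ψ (Φ x)) * (∑ a ∈ A, ψ (φ a)) ^ m := by
  rw [sum_pow', sum_mul_sum, sum_product]
  refine sum_congr rfl fun x _ => sum_congr rfl fun z _ => ?_
  rw [AddChar.map_add_eq_mul, char_sum]

lemma exists_mod {l : ℕ} (T : Finset (Fin l → ℤ)) : ∃ Q : ℕ, 0 < Q ∧ ∀ u ∈ T, ∀ v ∈ T,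
    (fun t => (u t : ZMod Q)) = (fun t => (v t : ZMod Q)) → u = v := by
  have hb : ∀ u ∈ T, ∀ t, (u t).natAbs ≤ ∑ u ∈ T, ∑ t, (u t).natAbs := by
    intro u hu t
    exact (single_le_sum (f := fun t => (u t).natAbs) (fun _ _ => Nat.zero_le _)
      (mem_univ t)).trans
      (single_le_sum (f := fun u => ∑ t, (u t).natAbs) (fun _ _ => Nat.zero_le _) hu)
  refine ⟨2 * (∑ u ∈ T, ∑ t, (u t).natAbs) + 1, by omega, fun u hu v hv h => funext fun t => ?_⟩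
  have h1 := (ZMod.intCast_eq_intCast_iff_dvd_sub _ _ _).1 (congrFun h t)
  have h2 := hb u hu t
  have h3 := hb v hv t
  have h4 := Int.eq_zero_of_dvd_of_natAbs_lt_natAbs h1 (by rw [Int.natAbs_natCast]; omega)
  omega

lemma cnt_one {α G : Type*} [AddCommGroup G] [DecidableEq G] (Y : Finset α) (F : α → G) :
    cnt Y F = cnt (({()} : Finset Unit) ×ˢ Y) (fun p => (0 : G) + F p.2) := by
  unfold cnt
  refine card_bij (fun p _ => (((), p.1), ((), p.2))) ?_ ?_ ?_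
  · intro p hp
    simpa using hp
  · intro p _ q _ h
    simp only [Prod.mk.injEq, true_and] at h
    exact Prod.ext h.1 h.2
  · rintro ⟨⟨_, a⟩, ⟨_, b⟩⟩ hp
    exact ⟨(a, b), by simpa using hp, rfl⟩

end VmCntAux

open VmCntAux

theorem cnt_le_sq {β G : Type*} [DecidableEq G] (X : Finset β) (Φ : β → G) :
    cnt X Φ ≤ X.card ^ 2 := by
  unfold cnt
  rw [sq, ← card_product]
  exact card_filter_le _ _

theorem cnt_le_of_inj {β γ G G' : Type*} [DecidableEq G] [DecidableEq G'] (X : Finset β)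
    (Y : Finset γ) (Φ : β → G) (Ψ : γ → G') (e : β → γ) (he : Set.InjOn e X)
    (hm : ∀ x ∈ X, e x ∈ Y) (h : ∀ x ∈ X, ∀ y ∈ X, Φ x = Φ y → Ψ (e x) = Ψ (e y)) :
    cnt X Φ ≤ cnt Y Ψ := by
  unfold cnt
  refine card_le_card_of_injOn (fun p => (e p.1, e p.2)) (fun p hp => ?_) ?_
  · obtain ⟨h1, h2⟩ := mem_filter.1 hp
    obtain ⟨h3, h4⟩ := mem_product.1 h1
    exact mem_filter.2 ⟨mem_product.2 ⟨hm _ h3, hm _ h4⟩, h _ h3 _ h4 h2⟩
  · intro p hp q hq hpq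
    obtain ⟨h3, h4⟩ := mem_product.1 (mem_filter.1 hp).1
    obtain ⟨h5, h6⟩ := mem_product.1 (mem_filter.1 hq).1
    simp only [Prod.mk.injEq] at hpq
    exact Prod.ext (he h3 h5 hpq.1) (he h4 h6 hpq.2)

theorem cnt_cover {β G ι : Type*} [DecidableEq G] (X : Finset β) (Φ : β → G) (I : Finset ι)
    (Y : ι → Finset β) (h : ∀ x ∈ X, ∃ i ∈ I, x ∈ Y i) :
    cnt X Φ ≤ I.card * ∑ i ∈ I, cnt (Y i) Φ := by
  classical
  rw [cnt_eq_sum X Φ (X.image Φ) fun x hx => mem_image_of_mem _ hx]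
  calc ∑ g ∈ X.image Φ, (X.filter fun x => Φ x = g).card ^ 2
      ≤ ∑ g ∈ X.image Φ, I.card * ∑ i ∈ I, ((Y i).filter fun x => Φ x = g).card ^ 2 := by
        refine sum_le_sum fun g _ => ?_
        have h1 : (X.filter fun x => Φ x = g).card ≤
            ∑ i ∈ I, ((Y i).filter fun x => Φ x = g).card := by
          refine le_trans (card_le_card fun x hx => ?_) card_biUnion_le
          obtain ⟨h1, h2⟩ := mem_filter.1 hx
          obtain ⟨i, hi, hx⟩ := h x h1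
          exact mem_biUnion.2 ⟨i, hi, mem_filter.2 ⟨hx, h2⟩⟩
        exact (Nat.pow_le_pow_left h1 2).trans sq_sum_le_card_mul_sum_sq
    _ = I.card * ∑ i ∈ I, ∑ g ∈ X.image Φ, ((Y i).filter fun x => Φ x = g).card ^ 2 := by
        rw [← mul_sum, sum_comm]
    _ ≤ _ := Nat.mul_le_mul_left _ (sum_le_sum fun i _ => sum_le_cnt _ _ _)

theorem cnt_shift {β G : Type*} [AddCommGroup G] [DecidableEq G] (X : Finset β) (Φ : β → G)
    (σ : G) : ((X ×ˢ X).filter fun p => Φ p.1 = Φ p.2 + σ).card ≤ cnt X Φ := by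
  have h1 : ((X ×ˢ X).filter fun p => Φ p.1 = Φ p.2 + σ).card = ∑ g ∈ X.image Φ,
      (X.filter fun x => Φ x = g + σ).card * (X.filter fun x => Φ x = g).card := by
    rw [card_eq_sum_card_fiberwise (f := fun p => Φ p.2) (t := X.image Φ)
      (fun p hp => mem_image_of_mem _ (mem_product.1 (mem_filter.1 hp).1).2)]
    refine sum_congr rfl fun g _ => ?_
    rw [← fib_eq, filter_filter]
    congr 1
    refine filter_congr fun p _ => ?_
    constructor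
    · rintro ⟨h1, h2⟩; exact ⟨h2 ▸ h1, h2⟩
    · rintro ⟨h1, h2⟩; exact ⟨h2 ▸ h1, h2⟩
  have h2 := sum_le_cnt X Φ (X.image Φ)
  have h3 := sum_le_cnt X Φ ((X.image Φ).image (· + σ))
  rw [sum_image fun a _ b _ h => add_right_cancel h] at h3
  have h4 : 2 * ∑ g ∈ X.image Φ,
      (X.filter fun x => Φ x = g + σ).card * (X.filter fun x => Φ x = g).card ≤
      ∑ g ∈ X.image Φ, (X.filter fun x => Φ x = g + σ).card ^ 2 +
        ∑ g ∈ X.image Φ, (X.filter fun x => Φ x = g).card ^ 2 := by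
    rw [mul_sum, ← sum_add_distrib]
    refine sum_le_sum fun g _ => ?_
    rw [← mul_assoc]
    exact two_mul_le_add_sq _ _
  omega

theorem cnt_prod_le {δ β G : Type*} [AddCommGroup G] [DecidableEq G] (D : Finset δ) (Y : Finset β)
    (Φ₁ : δ → G) (Φ₂ : β → G) (Rel : δ → δ → Prop) [DecidableRel Rel]
    (h : ∀ x ∈ D, ∀ y ∈ D, ∀ z ∈ Y, ∀ z' ∈ Y, Φ₁ x + Φ₂ z = Φ₁ y + Φ₂ z' → Rel x y) :
    cnt (D ×ˢ Y) (fun p => Φ₁ p.1 + Φ₂ p.2)
      ≤ ((D ×ˢ D).filter fun p => Rel p.1 p.2).card * cnt Y Φ₂ := by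
  classical
  rw [mul_comm]
  refine card_le_mul_card_image_of_maps_to (f := fun p => (p.1.1, p.2.1)) (fun p hp => ?_) _
    (fun b _ => ?_)
  · obtain ⟨h1, h2⟩ := mem_filter.1 hp
    obtain ⟨h3, h4⟩ := mem_product.1 h1
    obtain ⟨h5, h6⟩ := mem_product.1 h3
    obtain ⟨h7, h8⟩ := mem_product.1 h4
    exact mem_filter.2 ⟨mem_product.2 ⟨h5, h7⟩, h _ h5 _ h7 _ h6 _ h8 h2⟩
  · refine le_trans (card_le_card_of_injOn (fun p => (p.1.2, p.2.2)) (fun p hp => ?_) ?_)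
      (cnt_shift Y Φ₂ (Φ₁ b.2 - Φ₁ b.1))
    · obtain ⟨h0, rfl⟩ := mem_filter.1 hp
      obtain ⟨h1, h2⟩ := mem_filter.1 h0
      obtain ⟨h3, h4⟩ := mem_product.1 h1
      refine mem_filter.2 ⟨mem_product.2 ⟨(mem_product.1 h3).2, (mem_product.1 h4).2⟩, ?_⟩
      simp only at h2 ⊢
      rw [← sub_eq_zero] at h2 ⊢
      rw [← h2]; abel
    · intro p hp q hq hpq
      have h1 := (mem_filter.1 hp).2.trans (mem_filter.1 hq).2.symm
      simp only [Prod.mk.injEq] at hpq h1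
      exact Prod.ext (Prod.ext h1.1 hpq.1) (Prod.ext h1.2 hpq.2)

theorem cnt_fibre {β G G' : Type*} [AddCommGroup G] [DecidableEq G] [DecidableEq G']
    (X : Finset β) (Φ : β → G) (Ψ : β → G') (Λ : Finset G)
    (h : ∀ x ∈ X, ∀ y ∈ X, Ψ x = Ψ y → Φ x - Φ y ∈ Λ) : cnt X Ψ ≤ Λ.card * cnt X Φ := by
  rw [mul_comm]
  refine card_le_mul_card_image_of_maps_to (f := fun p => Φ p.1 - Φ p.2) (fun p hp => ?_) _
    (fun b _ => ?_)
  · obtain ⟨h1, h2⟩ := mem_filter.1 hp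
    exact h _ (mem_product.1 h1).1 _ (mem_product.1 h1).2 h2
  · refine le_trans (card_le_card fun p hp => ?_) (cnt_shift X Φ b)
    obtain ⟨h0, rfl⟩ := mem_filter.1 hp
    exact mem_filter.2 ⟨(mem_filter.1 h0).1, by abel⟩

theorem cnt_fourier {β H : Type*} [AddCommGroup H] [Fintype H] [DecidableEq H] (X : Finset β)
    (Φ : β → H) :
    (Fintype.card H : ℝ) * cnt X Φ = ∑ ψ : AddChar H ℂ, ‖∑ x ∈ X, ψ (Φ x)‖ ^ 2 := by
  have h1 : ∀ ψ : AddChar H ℂ, ((‖∑ x ∈ X, ψ (Φ x)‖ ^ 2 : ℝ) : ℂ) =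
      ∑ p ∈ X ×ˢ X, ψ (Φ p.1 - Φ p.2) := by
    intro ψ
    rw [Complex.ofReal_pow, ← Complex.mul_conj', map_sum, sum_mul_sum, sum_product]
    refine sum_congr rfl fun x _ => sum_congr rfl fun y _ => ?_
    rw [sub_eq_add_neg, AddChar.map_add_eq_mul, AddChar.map_neg_eq_conj]
  apply Complex.ofReal_injective
  rw [Complex.ofReal_sum, sum_congr rfl fun ψ _ => h1 ψ, sum_comm]
  simp only [AddChar.sum_apply_eq_ite, sub_eq_zero]
  rw [← sum_filter, sum_const, nsmul_eq_mul, cnt]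
  push_cast
  ring

theorem cnt_split_fin {δ α ξ H : Type*} [AddCommGroup H] [Fintype H] [DecidableEq H]
    [DecidableEq ξ] (D : Finset δ) (A : Finset α) (Ξ : Finset ξ) (cl : α → ξ)
    (hcl : ∀ a ∈ A, cl a ∈ Ξ) (Φ : δ → H) (φ : α → H) (m : ℕ) (hm : 1 ≤ m) :
    cnt (D ×ˢ tup m A) (fun p => Φ p.1 + ∑ i, φ (p.2 i))
      ≤ Ξ.card ^ (2 * m - 1) * ∑ c ∈ Ξ,
        cnt (D ×ˢ tup m (A.filter fun a => cl a = c)) (fun p => Φ p.1 + ∑ i, φ (p.2 i)) := by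
  have hpos : (0 : ℝ) < Fintype.card H := by exact_mod_cast Fintype.card_pos
  have key : (Fintype.card H : ℝ) * cnt (D ×ˢ tup m A) (fun p => Φ p.1 + ∑ i, φ (p.2 i)) ≤
      (Fintype.card H : ℝ) * ((Ξ.card : ℝ) ^ (2 * m - 1) * ∑ c ∈ Ξ,
        (cnt (D ×ˢ tup m (A.filter fun a => cl a = c)) (fun p => Φ p.1 + ∑ i, φ (p.2 i)) : ℝ)) := by
    rw [mul_left_comm, mul_sum, cnt_fourier, sum_congr rfl fun c _ => cnt_fourier _ _, sum_comm,
      mul_sum]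
    refine sum_le_sum fun ψ _ => ?_
    simp only [char_prod, norm_mul, norm_pow, mul_pow, ← pow_mul]
    rw [← mul_sum, mul_left_comm]
    refine mul_le_mul_of_nonneg_left ?_ (by positivity)
    rw [← sum_fiberwise_of_maps_to hcl]
    have e : m * 2 = (2 * m - 1) + 1 := by omega
    rw [e]
    refine le_trans (pow_le_pow_left₀ (norm_nonneg _) (norm_sum_le _ _) _) ?_
    exact pow_sum_le_card_mul_sum_pow (fun _ _ => norm_nonneg _) _
  exact_mod_cast le_of_mul_le_mul_left key hpos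

theorem cnt_split_int {δ α ξ : Type*} {l : ℕ} [DecidableEq ξ] (D : Finset δ) (A : Finset α)
    (Ξ : Finset ξ) (cl : α → ξ) (hcl : ∀ a ∈ A, cl a ∈ Ξ) (Φ : δ → Fin l → ℤ)
    (φ : α → Fin l → ℤ) (m : ℕ) (hm : 1 ≤ m) :
    cnt (D ×ˢ tup m A) (fun p => Φ p.1 + ∑ i, φ (p.2 i))
      ≤ Ξ.card ^ (2 * m - 1) * ∑ c ∈ Ξ,
        cnt (D ×ˢ tup m (A.filter fun a => cl a = c)) (fun p => Φ p.1 + ∑ i, φ (p.2 i)) := by
  obtain ⟨Q, hQ, hinj⟩ := exists_mod
    ((D ×ˢ tup m A).image fun p => Φ p.1 + ∑ i, φ (p.2 i))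
  have : NeZero Q := ⟨hQ.ne'⟩
  have key : ∀ B ⊆ A, cnt (D ×ˢ tup m B) (fun p => Φ p.1 + ∑ i, φ (p.2 i)) =
      cnt (D ×ˢ tup m B) (fun p => (fun t => (Φ p.1 t : ZMod Q)) +
        ∑ i, fun t => (φ (p.2 i) t : ZMod Q)) := by
    intro B hB
    have hsub : ∀ p ∈ D ×ˢ tup m B, p ∈ D ×ˢ tup m A := fun p hp =>
      mem_product.2 ⟨(mem_product.1 hp).1, mem_tup.2 fun i => hB (mem_tup.1 (mem_product.1 hp).2 i)⟩
    have hcast : ∀ p : δ × (Fin m → α), ((fun t => (Φ p.1 t : ZMod Q)) +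
        ∑ i, fun t => (φ (p.2 i) t : ZMod Q)) =
        fun t => (((Φ p.1 + ∑ i, φ (p.2 i)) t : ℤ) : ZMod Q) := by
      intro p
      funext t
      simp [Finset.sum_apply]
    refine cnt_congr _ _ _ fun x hx y hy => ?_
    rw [hcast, hcast]
    exact ⟨fun h => by rw [h], hinj _ (mem_image_of_mem _ (hsub x hx)) _
      (mem_image_of_mem _ (hsub y hy))⟩
  rw [key A Subset.rfl, sum_congr rfl fun c _ => key _ (filter_subset _ _)]
  exact cnt_split_fin D A Ξ cl hcl (fun x t => (Φ x t : ZMod Q)) (fun a t => (φ a t : ZMod Q)) m hm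

theorem cnt_split_fin_one {α ξ H : Type*} [AddCommGroup H] [Fintype H] [DecidableEq H]
    [DecidableEq ξ] (A : Finset α) (Ξ : Finset ξ) (cl : α → ξ)
    (hcl : ∀ a ∈ A, cl a ∈ Ξ) (φ : α → H) (m : ℕ) (hm : 1 ≤ m) :
    cnt (tup m A) (fun z => ∑ i, φ (z i))
      ≤ Ξ.card ^ (2 * m - 1) * ∑ c ∈ Ξ,
        cnt (tup m (A.filter fun a => cl a = c)) (fun z => ∑ i, φ (z i)) := by
  rw [cnt_one, sum_congr rfl fun c _ => cnt_one _ _]
  exact cnt_split_fin {()} A Ξ cl hcl (fun _ => 0) φ m hm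

theorem cnt_split_int_one {α ξ : Type*} {l : ℕ} [DecidableEq ξ] (A : Finset α)
    (Ξ : Finset ξ) (cl : α → ξ) (hcl : ∀ a ∈ A, cl a ∈ Ξ)
    (φ : α → Fin l → ℤ) (m : ℕ) (hm : 1 ≤ m) :
    cnt (tup m A) (fun z => ∑ i, φ (z i))
      ≤ Ξ.card ^ (2 * m - 1) * ∑ c ∈ Ξ,
        cnt (tup m (A.filter fun a => cl a = c)) (fun z => ∑ i, φ (z i)) := by
  rw [cnt_one, sum_congr rfl fun c _ => cnt_one _ _]
  exact cnt_split_int {()} A Ξ cl hcl (fun _ => 0) φ m hm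

end

end Pool.Agent.Work.MP_45c923_nt
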