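import Pool.Agent.Work.MP_45c923_nt.VmStep

set_option autoImplicit false

namespace Pool.Agent.Work.MP_45c923_nt

open Finset Pool.Agent.Lib.LargeSieve

noncomputable section

namespace VmMainAux

lemma JJ_le (l m Z : ℕ) : (JJ l m Z : ℝ) ≤ (Z : ℝ) ^ (2 * m) := by
  have h := cnt_le_sq (tup m (range Z)) fun z => ∑ i, pw l (z i)
  rw [card_tup, card_range, ← pow_mul, mul_comm m 2] at h
  exact_mod_cast h

lemma cast_pred (l : ℕ) (hl : 1 ≤ l) : ((l * (l - 1) / 2 : ℕ) : ℝ) = l * (l - 1) / 2 := by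
  rw [Nat.cast_div (Nat.even_mul_pred_self l).two_dvd (by norm_num), Nat.cast_mul,
    Nat.cast_sub hl]
  norm_num

lemma cast_succ (l : ℕ) : ((l * (l + 1) / 2 : ℕ) : ℝ) = l * (l + 1) / 2 := by
  rw [Nat.cast_div (Nat.even_mul_succ_self l).two_dvd (by norm_num)]
  norm_num

lemma exists_prime (z : ℝ) (hz : 1 ≤ z) : ∃ p : ℕ, p.Prime ∧ z < p ∧ (p : ℝ) ≤ 4 * z := by
  have h0 : ⌈z⌉₊ ≠ 0 := (Nat.ceil_pos.mpr (by linarith)).ne'
  obtain ⟨p, hp, h1, h2⟩ := Nat.exists_prime_lt_and_le_two_mul _ h0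
  have h3 : z ≤ (⌈z⌉₊ : ℝ) := Nat.le_ceil z
  have h4 : (⌈z⌉₊ : ℝ) < z + 1 := Nat.ceil_lt_add_one (by linarith)
  have h5 : (⌈z⌉₊ : ℝ) < p := by exact_mod_cast h1
  have h6 : (p : ℝ) ≤ 2 * ⌈z⌉₊ := by exact_mod_cast h2
  exact ⟨p, hp, by linarith, by linarith⟩

lemma lam_ge (l τ : ℕ) (hl : 2 ≤ l) :
    2 * (l : ℝ) ≤ 2 * (l * (τ + 1)) - l * (l + 1) / 2 + l * (l + 1) / 2 * (1 - 1 / l) ^ τ := by
  have hl' : (2 : ℝ) ≤ l := by exact_mod_cast hl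
  have h1 : (1 : ℝ) / l ≤ 1 := by rw [div_le_one (by linarith)]; linarith
  have h := one_add_mul_le_pow (a := -(1 / (l : ℝ))) (by linarith) τ
  rw [← sub_eq_add_neg] at h
  have h2 := mul_le_mul_of_nonneg_left h (by positivity : (0 : ℝ) ≤ l * (l + 1) / 2)
  have h3 : (l : ℝ) * (l + 1) / 2 * (1 + τ * -(1 / l)) = l * (l + 1) / 2 - τ * (l + 1) / 2 := by
    field_simp
    ring
  have h4 : (0 : ℝ) ≤ τ := Nat.cast_nonneg τ
  nlinarith only [h2, h3, hl']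

lemma two_pow_ge (l : ℕ) (hl : 16 ≤ l) : 8 * (l * (l + 1)) ≤ 2 ^ l := by
  induction l, hl using Nat.le_induction with
  | base => norm_num
  | succ n hn ih => rw [pow_succ]; nlinarith only [hn, ih]

lemma tail_le (l : ℕ) (hl : 16 ≤ l) :
    (l : ℝ) * (l + 1) / 2 * (1 - 1 / l) ^ (l ^ 2) ≤ 1 / 16 := by
  have hl' : (16 : ℝ) ≤ l := by exact_mod_cast hl
  have h0 : (0 : ℝ) ≤ 1 - 1 / l := by
    rw [sub_nonneg, div_le_one (by linarith)]; linarith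
  have h1 : (1 - 1 / (l : ℝ)) ^ l ≤ 1 / 2 := by
    have a1 : (1 - 1 / (l : ℝ)) ≤ Real.exp (-(1 / l)) := by
      linarith only [Real.add_one_le_exp (-(1 / (l : ℝ)))]
    have a2 := pow_le_pow_left₀ h0 a1 l
    rw [← Real.exp_nat_mul, show (l : ℝ) * -(1 / l) = -1 by field_simp] at a2
    refine a2.trans ?_
    rw [Real.exp_neg, one_div]
    exact inv_anti₀ two_pos (by linarith [Real.add_one_le_exp 1])
  have h2 : (1 - 1 / (l : ℝ)) ^ (l ^ 2) ≤ (1 / 2) ^ l := by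
    rw [sq, pow_mul]
    exact pow_le_pow_left₀ (pow_nonneg h0 _) h1 l
  have h3 : (8 : ℝ) * (l * (l + 1)) ≤ 2 ^ l := by exact_mod_cast two_pow_ge l hl
  refine (mul_le_mul_of_nonneg_left h2 (by positivity)).trans ?_
  rw [one_div_pow, mul_one_div, div_le_iff₀ (by positivity)]
  linarith only [h3]

end VmMainAux

open VmMainAux

theorem vmvt_step (l m : ℕ) (hl : 2 ≤ l) (hm : 1 ≤ m) (lam' lam : ℝ) (h0 : 0 ≤ lam')
    (hlam : lam = (2 * m + l * (l - 1) / 2) / l + l + (1 - 1 / l) * lam') (h2 : 2 * l ≤ lam)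
    (h : ∃ C : ℝ, 0 < C ∧ ∀ Z : ℕ, 1 ≤ Z → (JJ l m Z : ℝ) ≤ C * (Z : ℝ) ^ lam') :
    ∃ C : ℝ, 0 < C ∧ ∀ Z : ℕ, 1 ≤ Z → (JJ l (l + m) Z : ℝ) ≤ C * (Z : ℝ) ^ lam := by
  obtain ⟨C', hC', h⟩ := h
  obtain ⟨C, hC⟩ := JJ_step l m (by omega) hm
  obtain ⟨n, rfl⟩ : ∃ n, l = n + 1 := ⟨l - 1, by omega⟩
  have hn : 1 ≤ n := by omega
  have hn' : (1 : ℝ) ≤ n := by exact_mod_cast hn
  obtain ⟨a, ha⟩ : ∃ a : ℕ, a = 2 * m + (n + 1) * (n + 1 - 1) / 2 := ⟨_, rfl⟩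
  have hlam0 : 0 ≤ lam := le_trans (by positivity) h2
  have hexp : ((n + 1 : ℕ) : ℝ) * lam = a + ((n + 1) * (n + 1) : ℕ) + n * lam' := by
    rw [hlam, ha, Nat.cast_add (2 * m), cast_pred _ (by omega)]
    push_cast
    field_simp
    ring
  obtain ⟨z₀, hz₀⟩ : ∃ z₀ : ℝ, z₀ = 2 * (C * 4 ^ (2 * n) * 2 ^ lam) + n + 3 := ⟨_, rfl⟩
  have hA : (0 : ℝ) ≤ C * 4 ^ (2 * n) * 2 ^ lam := by positivity
  obtain ⟨K₁, hK₁⟩ : ∃ K₁ : ℝ, K₁ = C * 4 ^ a * C' * 2 ^ lam' := ⟨_, rfl⟩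
  have hK₁0 : 0 ≤ K₁ := by rw [hK₁]; positivity
  have hz₀0 : 0 < z₀ := by linarith only [hn', hz₀, hA]
  obtain ⟨K, hK⟩ : ∃ K : ℝ, K = 2 * K₁ + (z₀ ^ (n + 1)) ^ (2 * (n + 1 + m)) := ⟨_, rfl⟩
  have hK₂ : 0 < (z₀ ^ (n + 1)) ^ (2 * (n + 1 + m)) := by positivity
  have hK0 : 0 < K := by linarith only [hK₁0, hK, hK₂]
  refine ⟨K, hK0, fun Z => ?_⟩
  induction Z using Nat.strong_induction_on with
  | _ Z ih =>
  intro hZ
  have hZ' : (1 : ℝ) ≤ Z := by exact_mod_cast hZ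
  obtain ⟨z, hz1, hz⟩ : ∃ z : ℝ, 1 ≤ z ∧ z ^ (n + 1) = Z :=
    ⟨(Z : ℝ) ^ (((n + 1 : ℕ) : ℝ)⁻¹), Real.one_le_rpow hZ' (by positivity),
      Real.rpow_inv_natCast_pow (by linarith only [hZ']) (by omega)⟩
  have hz0 : 0 < z := by linarith only [hz1]
  rcases le_total z z₀ with hzz | hzz
  · have h1 : (Z : ℝ) ≤ z₀ ^ (n + 1) := hz ▸ pow_le_pow_left₀ hz0.le hzz _
    have h3 := pow_le_pow_left₀ (by linarith only [hZ']) h1 (2 * (n + 1 + m))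
    have h4 : K ≤ K * (Z : ℝ) ^ lam := le_mul_of_one_le_right hK0.le (Real.one_le_rpow hZ' hlam0)
    linarith only [hK₁0, hK, h3, h4, JJ_le (n + 1) (n + 1 + m) Z]
  obtain ⟨p, hp, hp1, hp2⟩ := exists_prime z hz1
  have hp0 : (0 : ℝ) < p := by linarith only [hn', hz₀, hA, hzz, hp1]
  have hlp : n + 1 < p := by
    have : ((n + 1 : ℕ) : ℝ) < p := by push_cast; linarith only [hz₀, hA, hzz, hp1]
    exact_mod_cast this
  have hZp : Z ≤ p ^ (n + 1) := by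
    have : (Z : ℝ) ≤ (p : ℝ) ^ (n + 1) := hz ▸ pow_le_pow_left₀ hz0.le hp1.le _
    exact_mod_cast this
  have hzn : 1 ≤ z ^ n := one_le_pow₀ hz1
  have hY : ((Z / p + 1 : ℕ) : ℝ) ≤ 2 * z ^ n := by
    have a1 : ((Z / p : ℕ) : ℝ) ≤ Z / p := Nat.cast_div_le
    have a2 : (Z : ℝ) / p ≤ z ^ n := by
      rw [div_le_iff₀ hp0, ← hz, pow_succ]
      exact mul_le_mul_of_nonneg_left hp1.le (by linarith only [hzn])
    rw [Nat.cast_add, Nat.cast_one]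
    linarith only [hzn, a1, a2]
  have hYZ : Z / p + 1 < Z := by
    have : ((Z / p + 1 : ℕ) : ℝ) < Z := by
      refine hY.trans_lt ?_
      rw [← hz, pow_succ]
      nlinarith only [hn', hz₀, hA, hzz, hzn, hz1]
    exact_mod_cast this
  have hpw : ∀ t : ℝ, 0 ≤ t → ((Z / p + 1 : ℕ) : ℝ) ^ t ≤ 2 ^ t * z ^ (n * t) := by
    intro t ht
    refine (Real.rpow_le_rpow (Nat.cast_nonneg _) hY ht).trans (le_of_eq ?_)
    rw [Real.mul_rpow zero_le_two (by linarith only [hzn]), Real.rpow_natCast_mul hz0.le]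
  have hZl : (Z : ℝ) ^ lam = z ^ (((n + 1 : ℕ) : ℝ) * lam) := by
    rw [Real.rpow_natCast_mul hz0.le, hz]
  have i1 := (ih _ hYZ (Nat.le_add_left _ _)).trans
    (mul_le_mul_of_nonneg_left (hpw lam hlam0) hK0.le)
  have i2 := (h _ (Nat.le_add_left 1 (Z / p))).trans
    (mul_le_mul_of_nonneg_left (hpw lam' h0) hC'.le)
  have i3 : (JJ (n + 1) (n + 1 + m) Z : ℝ) ≤
      C * ((p : ℝ) ^ (2 * n) * JJ (n + 1) (n + 1 + m) (Z / p + 1) +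
        (p : ℝ) ^ a * (Z : ℝ) ^ (n + 1) * JJ (n + 1) m (Z / p + 1)) := by
    have := hC p Z hp hlp hZp
    rw [← ha, show 2 * (n + 1) - 2 = 2 * n by omega] at this
    exact_mod_cast this
  have hpp : ∀ e : ℕ, (p : ℝ) ^ e ≤ 4 ^ e * z ^ e := fun e => by
    rw [← mul_pow]; exact pow_le_pow_left₀ hp0.le hp2 e
  have t1 : C * ((p : ℝ) ^ (2 * n) * JJ (n + 1) (n + 1 + m) (Z / p + 1)) ≤
      K / 2 * (Z : ℝ) ^ lam := by
    have b1 : z ^ (2 * n) * z * z ^ (n * lam) ≤ (Z : ℝ) ^ lam := by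
      rw [hZl, ← pow_succ, ← Real.rpow_natCast, ← Real.rpow_add hz0]
      refine Real.rpow_le_rpow_of_exponent_le hz1 ?_
      push_cast at h2 ⊢
      linarith only [h2]
    have b2 : C * 4 ^ (2 * n) * 2 ^ lam ≤ z / 2 := by linarith only [hn', hz₀, hzz]
    have b3 : 0 ≤ K * (z ^ (2 * n) * z ^ (n * lam)) :=
      mul_nonneg hK0.le (mul_nonneg (pow_nonneg hz0.le _) (Real.rpow_nonneg hz0.le _))
    calc C * ((p : ℝ) ^ (2 * n) * JJ (n + 1) (n + 1 + m) (Z / p + 1))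
        ≤ C * ((4 ^ (2 * n) * z ^ (2 * n)) * (K * (2 ^ lam * z ^ (n * lam)))) :=
          mul_le_mul_of_nonneg_left (mul_le_mul (hpp _) i1 (Nat.cast_nonneg _) (by positivity))
            (Nat.cast_nonneg _)
      _ = (C * 4 ^ (2 * n) * 2 ^ lam) * (K * (z ^ (2 * n) * z ^ (n * lam))) := by ring
      _ ≤ z / 2 * (K * (z ^ (2 * n) * z ^ (n * lam))) := mul_le_mul_of_nonneg_right b2 b3
      _ = K / 2 * (z ^ (2 * n) * z * z ^ (n * lam)) := by ring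
      _ ≤ _ := mul_le_mul_of_nonneg_left b1 (by linarith only [hK₁0, hK, hK₂])
  have t2 : C * ((p : ℝ) ^ a * (Z : ℝ) ^ (n + 1) * JJ (n + 1) m (Z / p + 1)) ≤
      K / 2 * (Z : ℝ) ^ lam := by
    have b1 : (Z : ℝ) ^ lam = z ^ a * (Z : ℝ) ^ (n + 1) * z ^ (n * lam') := by
      rw [hZl, hexp, Real.rpow_add hz0, Real.rpow_add hz0, Real.rpow_natCast, Real.rpow_natCast,
        pow_mul, hz]
    calc C * ((p : ℝ) ^ a * (Z : ℝ) ^ (n + 1) * JJ (n + 1) m (Z / p + 1))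
        ≤ C * ((4 ^ a * z ^ a) * (Z : ℝ) ^ (n + 1) * (C' * (2 ^ lam' * z ^ (n * lam')))) :=
          mul_le_mul_of_nonneg_left (mul_le_mul
            (mul_le_mul_of_nonneg_right (hpp _) (by positivity)) i2 (Nat.cast_nonneg _)
            (by positivity)) (Nat.cast_nonneg _)
      _ = K₁ * (Z : ℝ) ^ lam := by rw [b1, hK₁]; ring
      _ ≤ _ := mul_le_mul_of_nonneg_right (by linarith only [hK, hK₂]) (Real.rpow_nonneg (by linarith only [hZ']) _)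
  linarith only [i3, t1, t2]

/-- Vinogradov's mean value theorem, classical form -/
theorem vmvt (l τ : ℕ) (hl : 2 ≤ l) : ∃ C : ℝ, 0 < C ∧ ∀ Z : ℕ, 1 ≤ Z →
    (JJ l (l * (τ + 1)) Z : ℝ) ≤ C * (Z : ℝ) ^ ((2 * (l * (τ + 1)) - l * (l + 1) / 2
      + l * (l + 1) / 2 * (1 - 1 / l) ^ τ : ℝ)) := by
  have hl' : (2 : ℝ) ≤ l := by exact_mod_cast hl
  induction τ with
  | zero =>
    refine ⟨1, one_pos, fun Z _ => (JJ_le _ _ _).trans (le_of_eq ?_)⟩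
    rw [one_mul, ← Real.rpow_natCast]
    congr 1
    push_cast
    ring
  | succ τ ih =>
    rw [show l * (τ + 1 + 1) = l + l * (τ + 1) by ring]
    refine vmvt_step l (l * (τ + 1)) hl (Nat.mul_pos (by omega) (by omega)) _ _
      (le_trans (by positivity) (lam_ge l τ hl)) ?_ (lam_ge l (τ + 1) hl) ih
    push_cast
    rw [pow_succ]
    generalize (1 - 1 / (l : ℝ)) ^ τ = w
    field_simp
    ring

theorem vmvt' (l : ℕ) (hl : 16 ≤ l) : ∃ C : ℝ, 0 < C ∧ ∀ Z : ℕ, 1 ≤ Z →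
    (JJ l (l * (l ^ 2 + 1)) Z : ℝ) * (Z : ℝ) ^ (l * (l + 1) / 2)
      ≤ C * (Z : ℝ) ^ (2 * (l * (l ^ 2 + 1))) * (Z : ℝ) ^ (1 / 16 : ℝ) := by
  obtain ⟨C, hC, h⟩ := vmvt l (l ^ 2) (by omega)
  refine ⟨C, hC, fun Z hZ => ?_⟩
  have hZ' : (1 : ℝ) ≤ Z := by exact_mod_cast hZ
  have hZ0 : (0 : ℝ) < Z := by linarith
  refine (mul_le_mul_of_nonneg_right (h Z hZ) (by positivity)).trans ?_
  rw [mul_assoc, mul_assoc, ← Real.rpow_natCast _ (l * (l + 1) / 2),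
    ← Real.rpow_natCast _ (2 * (l * (l ^ 2 + 1))), ← Real.rpow_add hZ0, ← Real.rpow_add hZ0]
  refine mul_le_mul_of_nonneg_left (Real.rpow_le_rpow_of_exponent_le hZ' ?_) hC.le
  rw [cast_succ]
  have := tail_le l hl
  push_cast
  linarith only [this]

end

end Pool.Agent.Work.MP_45c923_nt
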