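import Pool.Agent.Work.MP_45c923_nt.VmDefs

set_option autoImplicit false

namespace Pool.Agent.Work.MP_45c923_nt

open Finset Pool.Agent.Lib.LargeSieve

noncomputable section

namespace WBilAux

variable {R : Type} [CommRing R] [Fintype R] [DecidableEq R] (ψ : AddChar R ℂ)

omit [Fintype R] [DecidableEq R] in
lemma map_sum_eq {ι : Type*} (s : Finset ι) (f : ι → R) :
    ψ (∑ i ∈ s, f i) = ∏ i ∈ s, ψ (f i) := by
  classical
  induction s using Finset.induction_on with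
  | empty => simp
  | insert a s ha ih => rw [sum_insert ha, prod_insert ha, AddChar.map_add_eq_mul, ih]

omit [Fintype R] [DecidableEq R] in
/-- one application of Hoelder's inequality -/
lemma holder_step {α β : Type*} (X : Finset β) (A : Finset α) (f : β → R) (g : α → R)
    (θ : β → ℂ) (a : α → ℂ) (hθ : ∀ x, ‖θ x‖ ≤ 1) (ha : ∀ y, ‖a y‖ ≤ 1) (n : ℕ) :
    ∃ (θ' : β → ℂ) (a' : (Fin (n + 1) → α) → ℂ), (∀ x, ‖θ' x‖ ≤ 1) ∧ (∀ z, ‖a' z‖ ≤ 1) ∧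
      ‖∑ x ∈ X, ∑ y ∈ A, θ x * a y * ψ (f x * g y)‖ ^ (n + 1) ≤ (X.card : ℝ) ^ n *
        ‖∑ z ∈ tup (n + 1) A, ∑ x ∈ X, a' z * θ' x * ψ ((∑ i, g (z i)) * f x)‖ := by
  classical
  obtain ⟨G, hG⟩ : ∃ G : β → ℂ, ∀ x, G x = ∑ y ∈ A, a y * ψ (f x * g y) := ⟨_, fun _ => rfl⟩
  choose θ' h1 h2 using fun x => Complex.exists_norm_eq_mul_self (G x ^ (n + 1))
  refine ⟨θ', fun z => ∏ i, a (z i), fun x => (h1 x).le, fun z => ?_, ?_⟩
  · rw [norm_prod]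
    exact prod_le_one (fun _ _ => norm_nonneg _) fun _ _ => ha _
  have e1 : ‖∑ x ∈ X, ∑ y ∈ A, θ x * a y * ψ (f x * g y)‖ ≤ ∑ x ∈ X, ‖G x‖ := by
    refine (norm_sum_le _ _).trans (sum_le_sum fun x _ => ?_)
    simp only [mul_assoc, ← mul_sum, ← hG, norm_mul]
    exact mul_le_of_le_one_left (norm_nonneg _) (hθ x)
  have e2 : ∑ z ∈ tup (n + 1) A, ∑ x ∈ X, (∏ i, a (z i)) * θ' x * ψ ((∑ i, g (z i)) * f x)
      = ((∑ x ∈ X, ‖G x‖ ^ (n + 1) : ℝ) : ℂ) := by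
    rw [sum_comm, Complex.ofReal_sum]
    refine sum_congr rfl fun x _ => ?_
    rw [← norm_pow, h2, hG, sum_pow', mul_sum]
    refine sum_congr rfl fun z _ => ?_
    rw [prod_mul_distrib, ← map_sum_eq, ← mul_sum, mul_comm (f x)]
    ring
  rw [e2, Complex.norm_real, Real.norm_of_nonneg (sum_nonneg fun _ _ => by positivity)]
  exact (pow_le_pow_left₀ (norm_nonneg _) e1 _).trans
    (pow_sum_le_card_mul_sum_pow (fun _ _ => norm_nonneg _) n)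

omit [CommRing R] in
lemma cnt_eq {β : Type*} (Z : Finset β) (Φ : β → R) :
    (cnt Z Φ : ℝ) = ∑ t, ((Z.filter fun z => Φ z = t).card : ℝ) ^ 2 := by
  classical
  unfold cnt
  rw [card_eq_sum_card_fiberwise (f := fun p : β × β => Φ p.1) (t := univ)
    (fun _ _ => mem_coe.2 (mem_univ _))]
  push_cast
  refine sum_congr rfl fun t _ => ?_
  rw [pow_two, ← Nat.cast_mul, ← card_product]
  congr 2
  ext ⟨u, v⟩
  simp only [mem_filter, mem_product]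
  constructor
  · rintro ⟨⟨⟨h1, h2⟩, h3⟩, h4⟩
    exact ⟨⟨h1, h4⟩, h2, h3 ▸ h4⟩
  · rintro ⟨⟨h1, h2⟩, h3, h4⟩
    exact ⟨⟨⟨h1, h3⟩, h2.trans h4.symm⟩, h2⟩

lemma mean_sq (hψ : ψ.IsPrimitive) {β : Type*} (Z : Finset β) (Φ : β → R) {c : R} (hc : IsUnit c)
    (b : β → ℂ) (hb : ∀ w, ‖b w‖ ≤ 1) :
    ∑ t, ‖∑ w ∈ Z, b w * ψ (t * (c * Φ w))‖ ^ 2 ≤ Fintype.card R * (cnt Z Φ : ℝ) := by
  have e : ((∑ t, ‖∑ w ∈ Z, b w * ψ (t * (c * Φ w))‖ ^ 2 : ℝ) : ℂ) =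
      ∑ p ∈ Z ×ˢ Z, b p.1 * (starRingEnd ℂ) (b p.2) *
        if Φ p.1 = Φ p.2 then (Fintype.card R : ℂ) else 0 := by
    rw [Complex.ofReal_sum]
    simp only [normSq_sum_eq, ← sum_product' Z Z]
    rw [sum_comm]
    refine sum_congr rfl fun p _ => ?_
    have h1 := AddChar.sum_mulShift (c * (Φ p.1 - Φ p.2)) hψ
    simp only [hc.mul_right_eq_zero, sub_eq_zero, Nat.cast_ite, Nat.cast_zero] at h1
    rw [← h1, mul_sum]
    refine sum_congr rfl fun t _ => ?_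
    rw [map_mul (starRingEnd ℂ), ← AddChar.map_neg_eq_conj,
      show t * (c * (Φ p.1 - Φ p.2)) = t * (c * Φ p.1) + -(t * (c * Φ p.2)) by ring,
      AddChar.map_add_eq_mul]
    ring
  have e2 := congrArg norm e
  rw [Complex.norm_real, Real.norm_of_nonneg (sum_nonneg fun _ _ => by positivity)] at e2
  rw [e2]
  refine (norm_sum_le _ _).trans ?_
  unfold cnt
  rw [card_filter]
  push_cast
  rw [mul_sum]
  refine sum_le_sum fun p _ => ?_
  split_ifs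
  · rw [norm_mul, norm_mul, Complex.norm_conj, Complex.norm_natCast, mul_one]
    exact mul_le_of_le_one_left (by positivity)
      (mul_le_one₀ (hb _) (norm_nonneg _) (hb _))
  · simp

lemma bilin (hψ : ψ.IsPrimitive) {β : Type*} (Z : Finset β) (Φ : β → R) {c : R} (hc : IsUnit c)
    (a b : β → ℂ) (ha : ∀ w, ‖a w‖ ≤ 1) (hb : ∀ w, ‖b w‖ ≤ 1) :
    ‖∑ z ∈ Z, ∑ w ∈ Z, a z * b w * ψ (Φ z * (c * Φ w))‖ ^ 2 ≤
      Fintype.card R * (cnt Z Φ : ℝ) ^ 2 := by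
  obtain ⟨G, hG⟩ : ∃ G : R → ℝ, ∀ t, G t = ‖∑ w ∈ Z, b w * ψ (t * (c * Φ w))‖ :=
    ⟨_, fun _ => rfl⟩
  have e1 : ‖∑ z ∈ Z, ∑ w ∈ Z, a z * b w * ψ (Φ z * (c * Φ w))‖ ≤
      ∑ t, ((Z.filter fun z => Φ z = t).card : ℝ) * G t := by
    refine (norm_sum_le _ _).trans ?_
    simp only [← nsmul_eq_mul, ← sum_const]
    rw [sum_fiberwise' Z Φ G]
    refine sum_le_sum fun z _ => ?_
    simp only [mul_assoc, ← mul_sum, norm_mul, hG]
    exact mul_le_of_le_one_left (norm_nonneg _) (ha z)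
  refine (pow_le_pow_left₀ (norm_nonneg _) e1 2).trans
    ((sum_mul_sq_le_sq_mul_sq _ _ _).trans ?_)
  rw [← cnt_eq]
  have := mean_sq ψ hψ Z Φ hc b hb
  simp only [← hG] at this
  calc _ ≤ (cnt Z Φ : ℝ) * (Fintype.card R * (cnt Z Φ : ℝ)) := by gcongr
    _ = _ := by ring

lemma main (hψ : ψ.IsPrimitive) {α : Type*} (A : Finset α) (φ : α → R) {c : R} (hc : IsUnit c)
    (n : ℕ) :
    ‖∑ x ∈ A, ∑ y ∈ A, ψ (c * φ x * φ y)‖ ^ (2 * (n + 1) ^ 2) ≤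
      (A.card : ℝ) ^ (4 * (n + 1) * n) * Fintype.card R *
        (cnt (tup (n + 1) A) (fun z => ∑ i, φ (z i)) : ℝ) ^ 2 := by
  obtain ⟨θ, a, hθ, ha, h1⟩ := holder_step ψ A A (fun x => c * φ x) φ (fun _ => 1) (fun _ => 1)
    (by simp) (by simp) n
  obtain ⟨θ', a', hθ', ha', h2⟩ := holder_step ψ (tup (n + 1) A) A (fun z => ∑ i, φ (z i))
    (fun x => c * φ x) a θ ha hθ n
  have h3 := bilin ψ hψ (tup (n + 1) A) (fun z => ∑ i, φ (z i)) hc a' θ' ha' hθ'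
  simp only [mul_one, one_mul] at h1
  have e : ∀ z w : Fin (n + 1) → α, (∑ i, c * φ (z i)) * ∑ i, φ (w i) =
      (∑ i, φ (z i)) * (c * ∑ i, φ (w i)) := fun z w => by rw [← mul_sum]; ring
  simp only [e, card_tup, Nat.cast_pow] at h2
  have h4 := pow_le_pow_left₀ (by positivity) h1 (n + 1)
  rw [mul_pow] at h4
  have h5 := pow_le_pow_left₀ (by positivity)
    (h4.trans (mul_le_mul_of_nonneg_left h2 (by positivity))) 2
  rw [mul_pow, mul_pow] at h5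
  have h6 := h5.trans (mul_le_mul_of_nonneg_left (mul_le_mul_of_nonneg_left h3 (by positivity))
    (by positivity))
  refine le_trans (le_of_eq ?_) (h6.trans (le_of_eq ?_))
  · rw [← pow_mul, ← pow_mul]
    congr 1
    ring
  · ring

end WBilAux

/-- two applications of Hoelder's inequality to a bilinear sum -/
theorem bilinear_holder {α : Type*} (A : Finset α) (φ : α → ℤ) (q : ℕ) (hq : 0 < q) (c : ℤ)
    (hc : IsCoprime c (q : ℤ)) (m : ℕ) (hm : 1 ≤ m) :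
    ‖∑ x ∈ A, ∑ y ∈ A, ee ((c : ℝ) * (φ x : ℝ) * (φ y : ℝ) / (q : ℝ))‖ ^ (2 * m ^ 2)
      ≤ (A.card : ℝ) ^ (4 * m * (m - 1)) * q *
        (cnt (tup m A) (fun z => ((∑ i, φ (z i) : ℤ) : ZMod q)) : ℝ) ^ 2 := by
  obtain ⟨n, rfl⟩ : ∃ n, m = n + 1 := ⟨m - 1, by omega⟩
  have : NeZero q := ⟨hq.ne'⟩
  have hu : IsUnit (c : ZMod q) := by
    obtain ⟨u, v, h⟩ := hc
    have := congrArg (Int.cast : ℤ → ZMod q) h
    push_cast at this
    rw [ZMod.natCast_self, mul_zero, add_zero] at this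
    exact IsUnit.of_mul_eq_one_right _ this
  have h := WBilAux.main ZMod.stdAddChar (ZMod.isPrimitive_stdAddChar q) A
    (fun x => (φ x : ZMod q)) hu n
  have e : ∀ x y, ee ((c : ℝ) * (φ x : ℝ) * (φ y : ℝ) / (q : ℝ)) =
      ZMod.stdAddChar ((c : ZMod q) * (φ x : ZMod q) * (φ y : ZMod q)) := by
    intro x y
    rw [← Int.cast_mul (α := ZMod q), ← Int.cast_mul (α := ZMod q), ZMod.stdAddChar_coe]
    unfold ee
    congr 1
    push_cast
    ring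
  simpa only [e, ZMod.card, Int.cast_sum, Nat.add_sub_cancel] using h

end

end Pool.Agent.Work.MP_45c923_nt
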