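import Pool.Agent.Work.MP_45c923_nt.VmDefs
import Pool.Agent.Work.MP_45c923_nt.Major
import Pool.Agent.Work.MP_45c923_nt.VmCnt
import Pool.Agent.Work.MP_45c923_nt.VmMain
import Pool.Agent.Work.MP_45c923_nt.WBil

-- merged part: Pool.Agent.Work.MP_45c923_nt.Fibre
section
set_option autoImplicit false

namespace Pool.Agent.Work.MP_45c923_nt

open Finset Pool.Agent.Lib.LargeSieve

noncomputable section

/-- the Halasz–Montgomery inequality -/
theorem halasz {α β : Type*} (A : Finset α) (a : α → ℂ) (B : Finset β) (φ : β → α → ℂ) (K : ℝ)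
    (hK0 : 0 ≤ K)
    (hK : ∀ b ∈ B, ∑ b' ∈ B, ‖∑ x ∈ A, φ b x * (starRingEnd ℂ) (φ b' x)‖ ≤ K) :
    ∑ b ∈ B, ‖∑ x ∈ A, a x * φ b x‖ ^ 2 ≤ (∑ x ∈ A, ‖a x‖ ^ 2) * K := by
  set z : β → ℂ := fun b => ∑ x ∈ A, a x * φ b x with hz
  set I : β → β → ℂ := fun b b' => ∑ x ∈ A, φ b x * (starRingEnd ℂ) (φ b' x) with hI
  set g : α → ℂ := fun x => ∑ b ∈ B, (starRingEnd ℂ) (z b) * φ b x with hg
  set Z : ℝ := ∑ b ∈ B, ‖z b‖ ^ 2 with hZ
  have hZ0 : 0 ≤ Z := sum_nonneg fun _ _ => sq_nonneg _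
  have hA0 : 0 ≤ ∑ x ∈ A, ‖a x‖ ^ 2 := sum_nonneg fun _ _ => sq_nonneg _
  have h1 : (Z : ℂ) = ∑ x ∈ A, a x * g x := by
    simp only [hg, mul_sum]
    rw [sum_comm, hZ]
    push_cast
    refine sum_congr rfl fun b _ => ?_
    rw [← Complex.conj_mul']
    conv_lhs => enter [2]; rw [hz]
    rw [mul_sum]
    exact sum_congr rfl fun x _ => by ring
  have h2 : Z ≤ ∑ x ∈ A, ‖a x‖ * ‖g x‖ := by
    have : Z = ‖(Z : ℂ)‖ := by rw [Complex.norm_real, Real.norm_of_nonneg hZ0]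
    rw [this, h1]
    exact (norm_sum_le _ _).trans (le_of_eq (sum_congr rfl fun x _ => norm_mul _ _))
  have h3 : Z ^ 2 ≤ (∑ x ∈ A, ‖a x‖ ^ 2) * ∑ x ∈ A, ‖g x‖ ^ 2 :=
    (pow_le_pow_left₀ hZ0 h2 2).trans (sum_mul_sq_le_sq_mul_sq _ _ _)
  have hsym : ∀ b b', ‖I b b'‖ = ‖I b' b‖ := fun b b' => by
    rw [← Complex.norm_conj]
    simp only [hI, map_sum, map_mul, Complex.conj_conj]
    congr 1
    exact sum_congr rfl fun x _ => mul_comm _ _
  have h4 : ((∑ x ∈ A, ‖g x‖ ^ 2 : ℝ) : ℂ) =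
      ∑ b ∈ B, ∑ b' ∈ B, (starRingEnd ℂ) (z b) * z b' * I b b' := by
    push_cast
    simp_rw [← Complex.mul_conj']
    simp only [hg, hI, map_sum, map_mul, Complex.conj_conj, sum_mul_sum]
    simp only [mul_sum]
    rw [sum_comm]
    refine sum_congr rfl fun b _ => ?_
    rw [sum_comm]
    exact sum_congr rfl fun b' _ => sum_congr rfl fun x _ => by ring
  have h5 : ∑ x ∈ A, ‖g x‖ ^ 2 ≤ Z * K := by
    have h0 : 0 ≤ ∑ x ∈ A, ‖g x‖ ^ 2 := sum_nonneg fun _ _ => sq_nonneg _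
    have e : ∑ x ∈ A, ‖g x‖ ^ 2 = ‖((∑ x ∈ A, ‖g x‖ ^ 2 : ℝ) : ℂ)‖ := by
      rw [Complex.norm_real, Real.norm_of_nonneg h0]
    have h6 : ∑ b ∈ B, ∑ b' ∈ B, ‖z b‖ ^ 2 * ‖I b b'‖ ≤ Z * K := by
      rw [hZ, sum_mul]
      refine sum_le_sum fun b hb => ?_
      rw [← mul_sum]
      exact mul_le_mul_of_nonneg_left (hK b hb) (sq_nonneg _)
    have h7 : ∑ b ∈ B, ∑ b' ∈ B, ‖z b'‖ ^ 2 * ‖I b b'‖ ≤ Z * K := by
      rw [sum_comm]
      exact le_trans (le_of_eq (sum_congr rfl fun b _ => sum_congr rfl fun b' _ => by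
        rw [hsym])) h6
    rw [e, h4]
    calc _ ≤ ∑ b ∈ B, ∑ b' ∈ B, (‖z b‖ ^ 2 * ‖I b b'‖ + ‖z b'‖ ^ 2 * ‖I b b'‖) / 2 := by
          refine (norm_sum_le _ _).trans (sum_le_sum fun b _ =>
            (norm_sum_le _ _).trans (sum_le_sum fun b' _ => ?_))
          rw [norm_mul, norm_mul, Complex.norm_conj]
          linarith only [mul_nonneg (sq_nonneg (‖z b‖ - ‖z b'‖)) (norm_nonneg (I b b')), sq_nonneg (‖z b‖ - ‖z b'‖)]
      _ ≤ Z * K := by
          simp_rw [← sum_div, sum_add_distrib]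
          linarith only [h6, h7]
  rcases hZ0.eq_or_lt with h | h
  · rw [← h]; positivity
  · have h8 : Z * Z ≤ Z * ((∑ x ∈ A, ‖a x‖ ^ 2) * K) := by
      linarith only [h3, h5, hA0, mul_le_mul_of_nonneg_left h5 hA0]
    exact le_of_mul_le_mul_left h8 h

namespace FibreAux

/-- number of ordered factorisations inside the pool -/
def nu (U : Finset ℕ) (n x : ℕ) : ℕ := ((TT U n).filter fun u => pr u = x).card

lemma nu_le {R : ℕ} {U : Finset ℕ} (hU : PP R U) (n x : ℕ) : nu U n x ≤ n ^ n := by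
  unfold nu
  rcases ((TT U n).filter fun u => pr u = x).eq_empty_or_nonempty with h | ⟨u, hu⟩
  · rw [h]; simp
  have : ((TT U n).filter fun u => pr u = x) ⊆ TT (univ.image u) n := by
    intro v hv
    refine mem_TT.2 fun i => ?_
    have e : pr v = pr u := (mem_filter.1 hv).2.trans (mem_filter.1 hu).2.symm
    have hp := hU.prime _ (mem_TT.1 (mem_filter.1 hv).1 i)
    have hd : v i ∣ ∏ j, u j := by
      rw [show ∏ j, u j = pr u from rfl, ← e]; exact dvd_prod_of_mem _ (mem_univ i)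
    obtain ⟨j, _, hj⟩ := (Prime.dvd_finsetProd_iff hp.prime _).1 hd
    exact mem_image.2 ⟨j, mem_univ _, ((Nat.prime_dvd_prime_iff_eq hp
      (hU.prime _ (mem_TT.1 (mem_filter.1 hu).1 j))).1 hj).symm⟩
  have h2 := card_le_card this
  rw [card_TT] at h2
  have h3 : (univ.image u).card ≤ n := card_image_le.trans (by simp)
  exact h2.trans (Nat.pow_le_pow_left h3 n)

lemma pr_mem {R : ℕ} {U : Finset ℕ} (hU : PP R U) {n r X : ℕ} (hcop : ∀ p ∈ U, Nat.Coprime p r)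
    (hX : (2 * R) ^ n < X) {u : Fin n → ℕ} (hu : u ∈ TT U n) : pr u ∈ AX X r :=
  mem_filter.2 ⟨mem_range.2 ((hU.pr_le hu).trans_lt hX),
    Nat.Coprime.prod_left fun i _ => hcop _ (mem_TT.1 hu i)⟩

lemma sum_nu {R : ℕ} {U : Finset ℕ} (hU : PP R U) {n r X : ℕ} (hcop : ∀ p ∈ U, Nat.Coprime p r)
    (hX : (2 * R) ^ n < X) {γ : Type*} [CommSemiring γ] (F : ℕ → γ) :
    ∑ u ∈ TT U n, F (pr u) = ∑ x ∈ AX X r, (nu U n x : γ) * F x := by
  rw [← sum_fiberwise_of_maps_to (fun u hu => pr_mem hU hcop hX hu)]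
  refine sum_congr rfl fun x _ => ?_
  rw [sum_congr rfl fun u hu => by rw [(mem_filter.1 hu).2], sum_const, nsmul_eq_mul, nu]

lemma sum_nu_sq {R : ℕ} {U : Finset ℕ} (hU : PP R U) {n r X : ℕ}
    (hcop : ∀ p ∈ U, Nat.Coprime p r) (hX : (2 * R) ^ n < X) :
    ∑ x ∈ AX X r, (nu U n x : ℝ) ^ 2 ≤ (n : ℝ) ^ n * (2 * R) ^ n := by
  have h1 := sum_nu hU hcop hX (fun _ => (1 : ℝ))
  simp only [sum_const, card_TT, nsmul_eq_mul, mul_one] at h1
  calc _ ≤ ∑ x ∈ AX X r, (n : ℝ) ^ n * (nu U n x : ℝ) := by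
        refine sum_le_sum fun x _ => ?_
        rw [sq]
        exact mul_le_mul_of_nonneg_right (by exact_mod_cast nu_le hU n x) (by positivity)
    _ = (n : ℝ) ^ n * (U.card : ℝ) ^ n := by rw [← mul_sum, ← h1]; push_cast; ring
    _ ≤ _ := by
        have : (U.card : ℝ) ≤ 2 * R := by exact_mod_cast hU.card_le
        gcongr

lemma card_dvd_le {q r : ℕ} (hq : 0 < q) (hr : 0 < r) (b : ℕ) (B : Finset ℕ) (hB : B ⊆ range q) :
    (B.filter fun b' : ℕ => (q : ℤ) ∣ ((b : ℤ) - b') * r).card ≤ r := by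
  refine le_trans (card_le_card_of_injOn (t := range r) (fun b' => b' * r / q) (fun c hc => ?_)
    fun c hc d hd e => ?_) (card_range r).le
  · have := mem_range.1 (hB (mem_filter.1 hc).1)
    simp only [coe_range, Set.mem_Iio]
    rw [Nat.div_lt_iff_lt_mul hq, mul_comm r q]
    exact Nat.mul_lt_mul_of_pos_right this hr
  · have h1 := (mem_filter.1 hc).2
    have h2 := (mem_filter.1 hd).2
    have h3 : c * r ≡ d * r [MOD q] := by
      rw [Nat.modEq_iff_dvd]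
      have := dvd_sub h1 h2
      push_cast
      rwa [show ((b : ℤ) - c) * r - (b - d) * r = d * r - c * r by ring] at this
    have h4 : c * r = d * r := by
      have e' : c * r / q = d * r / q := e
      rw [← Nat.div_add_mod (c * r) q, ← Nat.div_add_mod (d * r) q, e', h3]
    exact Nat.eq_of_mul_eq_mul_right hr h4

lemma norm_WS_le (k r X q : ℕ) (c : ℤ) : ‖WS k r X q c‖ ≤ (X : ℝ) ^ 2 := by
  have h : ((AX X r).card : ℝ) ≤ X := by
    exact_mod_cast (card_filter_le _ _).trans (card_range X).le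
  unfold WS
  refine (norm_sum_le _ _).trans ((sum_le_sum fun x _ => norm_sum_le _ _).trans ?_)
  simp only [norm_ee, sum_const, nsmul_eq_mul, mul_one]
  rw [sq]
  gcongr

end FibreAux

open FibreAux in
/-- large values on a fibre -/
theorem fibre_bound {R : ℕ} {U : Finset ℕ} (hU : PP R U) (k n₁ n₂ r q X : ℕ) (hq : 0 < q)
    (hr : 0 < r) (hcop : ∀ p ∈ U, Nat.Coprime p r) (hX₁ : (2 * R) ^ n₁ < X)
    (hX₂ : (2 * R) ^ n₂ < X) {W N Θ : ℝ} (hW0 : 0 < W)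
    (hW : ∀ c : ℤ, ¬ (q : ℤ) ∣ c * r → ‖WS k r X q c‖ ≤ W)
    (hN : ((n₁ : ℝ) ^ n₁ * (2 * R) ^ n₁) * ((n₂ : ℝ) ^ n₂ * (2 * R) ^ n₂) ≤ N)
    (hΘ : 2 * N * W ≤ Θ) (β : ℝ) :
    ∑ b ∈ range q, max 0 (‖GG U k (n₁ + n₂) ((β + b) / q)‖ ^ 2 - Θ)
      ≤ 2 * N * r * (X : ℝ) ^ 2 := by
  classical
  have hN0 : 0 ≤ N := le_trans (by positivity) hN
  have hΘ0 : 0 ≤ Θ := le_trans (by positivity) hΘ
  set z : ℕ → ℂ := fun b => GG U k (n₁ + n₂) ((β + b) / q) with hz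
  set B := (range q).filter fun b => Θ ≤ ‖z b‖ ^ 2 with hB
  set A := AX X r ×ˢ AX X r with hA
  set a : ℕ × ℕ → ℂ := fun p =>
    (nu U n₁ p.1 : ℂ) * (nu U n₂ p.2 : ℂ) * ee (β * ((p.1 : ℝ) * p.2) ^ k / q) with ha
  set φ : ℕ → ℕ × ℕ → ℂ := fun b p => ee ((b : ℝ) * ((p.1 : ℝ) * p.2) ^ k / q) with hφ
  have h1 : ∀ b, ∑ p ∈ A, a p * φ b p = z b := fun b => by
    simp only [hz, GG]
    rw [sum_TT_add U n₁ n₂ fun x => ee ((β + b) / q * (x : ℝ) ^ k),
      sum_nu hU hcop hX₁ fun x => ∑ u ∈ TT U n₂, ee ((β + b) / q * ((x * pr u : ℕ) : ℝ) ^ k),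
      hA, sum_product]
    refine sum_congr rfl fun x _ => ?_
    rw [sum_nu hU hcop hX₂ fun y => ee ((β + b) / q * ((x * y : ℕ) : ℝ) ^ k), mul_sum]
    refine sum_congr rfl fun y _ => ?_
    simp only [ha, hφ]
    rw [mul_assoc, ← ee_add, mul_assoc]
    congr 3
    push_cast
    ring
  have h2 : ∀ b b' : ℕ, ∑ p ∈ A, φ b p * (starRingEnd ℂ) (φ b' p) =
      WS k r X q ((b : ℤ) - b') := fun b b' => by
    rw [hA, sum_product, WS]
    refine sum_congr rfl fun x _ => sum_congr rfl fun y _ => ?_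
    simp only [hφ]
    rw [conj_ee, ← ee_add]
    congr 1
    push_cast
    ring
  have h3 : ∑ p ∈ A, ‖a p‖ ^ 2 ≤ N := by
    have e : ∑ p ∈ A, ‖a p‖ ^ 2 =
        (∑ x ∈ AX X r, (nu U n₁ x : ℝ) ^ 2) * ∑ y ∈ AX X r, (nu U n₂ y : ℝ) ^ 2 := by
      rw [hA, sum_product, sum_mul_sum]
      refine sum_congr rfl fun x _ => sum_congr rfl fun y _ => ?_
      simp only [ha, norm_mul, norm_ee, Complex.norm_natCast]
      ring
    rw [e]
    exact le_trans (mul_le_mul (sum_nu_sq hU hcop hX₁) (sum_nu_sq hU hcop hX₂)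
      (sum_nonneg fun _ _ => sq_nonneg _) (by positivity)) hN
  have hK0 : (0 : ℝ) ≤ r * (X : ℝ) ^ 2 + W * B.card := by positivity
  have h4 := halasz A a B φ (r * (X : ℝ) ^ 2 + W * B.card) hK0 fun b _ => by
    simp_rw [h2]
    rw [← sum_filter_add_sum_filter_not B fun b' : ℕ => (q : ℤ) ∣ ((b : ℤ) - b') * r]
    refine add_le_add ?_ ?_
    · refine (sum_le_sum fun b' _ => norm_WS_le k r X q _).trans ?_
      rw [sum_const, nsmul_eq_mul]
      have : ((B.filter fun b' : ℕ => (q : ℤ) ∣ ((b : ℤ) - b') * r).card : ℝ) ≤ r := by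
        exact_mod_cast card_dvd_le hq hr b B (filter_subset _ _)
      gcongr
    · refine (sum_le_sum fun b' hb' => hW _ (mem_filter.1 hb').2).trans ?_
      rw [sum_const, nsmul_eq_mul, mul_comm]
      have : ((B.filter fun b' : ℕ => ¬ (q : ℤ) ∣ ((b : ℤ) - b') * r).card : ℝ) ≤ B.card := by
        exact_mod_cast card_filter_le _ _
      gcongr
  simp_rw [h1] at h4
  have h5 : Θ * B.card ≤ ∑ b ∈ B, ‖z b‖ ^ 2 := by
    rw [mul_comm, ← nsmul_eq_mul, ← sum_const]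
    exact sum_le_sum fun b hb => (mem_filter.1 hb).2
  have h6 : ∑ b ∈ range q, max 0 (‖z b‖ ^ 2 - Θ) ≤ ∑ b ∈ B, ‖z b‖ ^ 2 := by
    rw [hB, sum_filter]
    refine sum_le_sum fun b _ => ?_
    split_ifs with h
    · exact max_le (sq_nonneg _) (by linarith only [hΘ0])
    · exact max_le le_rfl (by linarith only [h])
  have h7 := mul_le_mul_of_nonneg_right h3 hK0
  have h8 := mul_le_mul_of_nonneg_right hΘ (Nat.cast_nonneg (α := ℝ) B.card)
  refine h6.trans ?_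
  linarith only [h4, h5, h7, h8]

/-- integration along fibres -/
theorem fibre_integral (F G : ℝ → ℝ) (hF : Continuous F) (hG : Continuous G)
    (hG0 : ∀ x, 0 ≤ G x) (hper : Function.Periodic G 1) (q : ℕ) (hq : 0 < q) (K : ℝ)
    (hK : ∀ β : ℝ, ∑ b ∈ range q, F ((β + b) / q) ≤ K) :
    ∫ α in (0 : ℝ)..1, F α * G (α * q) ≤ K / q * ∫ β in (0 : ℝ)..1, G β := by
  have hq' : (0 : ℝ) < q := by exact_mod_cast hq
  set H : ℝ → ℝ := fun γ => F (γ / q) * G γ with hH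
  have cH : Continuous H := by simp only [hH]; fun_prop
  have h1 : ∫ α in (0 : ℝ)..1, F α * G (α * q) = (q : ℝ)⁻¹ * ∫ γ in (0 : ℝ)..q, H γ := by
    have := intervalIntegral.integral_comp_mul_right (a := 0) (b := 1) H hq'.ne'
    rw [zero_mul, one_mul, smul_eq_mul] at this
    rw [← this]
    refine intervalIntegral.integral_congr fun α _ => ?_
    simp only [hH]
    rw [mul_div_cancel_right₀ _ hq'.ne']
  have h2 : ∫ γ in (0 : ℝ)..q, H γ =
      ∑ b ∈ range q, ∫ β in (0 : ℝ)..1, F ((β + b) / q) * G β := by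
    have := intervalIntegral.sum_integral_adjacent_intervals (f := H) (μ := MeasureTheory.volume)
      (a := fun b : ℕ => (b : ℝ)) (n := q) fun _ _ => cH.intervalIntegrable _ _
    rw [Nat.cast_zero] at this
    rw [← this]
    refine sum_congr rfl fun b _ => ?_
    have h3 := intervalIntegral.integral_comp_add_right (a := 0) (b := 1) H (b : ℝ)
    rw [zero_add, add_comm (1 : ℝ)] at h3
    push_cast
    rw [← h3]
    refine intervalIntegral.integral_congr fun β _ => ?_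
    have h4 := hper.nat_mul b β
    rw [mul_one] at h4
    simp only [hH]
    rw [h4]
  rw [h1, h2, ← int_sum _ _ fun b _ => by fun_prop, div_eq_inv_mul, mul_assoc,
    ← intervalIntegral.integral_const_mul K]
  refine mul_le_mul_of_nonneg_left (int_mono zero_le_one (by fun_prop) (by fun_prop)
    fun β _ => ?_) (by positivity)
  rw [← sum_mul]
  exact mul_le_mul_of_nonneg_right (hK β) (hG0 β)

end

end Pool.Agent.Work.MP_45c923_nt
end

-- merged part: Pool.Agent.Work.MP_45c923_nt.Prune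
section
/-!
# The pruning step for admissible exponents
-/

set_option autoImplicit false

namespace Pool.Agent.Work.MP_45c923_nt

open Finset Pool.Agent.Lib.LargeSieve

noncomputable section

namespace PruneAux

lemma int_mul_le (G : ℝ → ℝ) (hG : Continuous G) (hG0 : ∀ x, 0 ≤ G x)
    (hper : Function.Periodic G 1) (q : ℕ) (hq : 0 < q) :
    ∫ α in (0 : ℝ)..1, G (α * q) ≤ ∫ β in (0 : ℝ)..1, G β := by
  have := fibre_integral (fun _ => 1) G continuous_const hG hG0 hper q hq q (fun β => by simp)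
  have hq' : (q : ℝ) ≠ 0 := by exact_mod_cast hq.ne'
  simpa [hq'] using this

lemma pp_sub {R : ℕ} {S U : Finset ℕ} (h : PP R S) (hU : U ⊆ S) : PP R U :=
  ⟨fun p hp => h.prime p (hU hp), fun p hp => h.le p (hU hp), fun p hp => h.le' p (hU hp), h.two⟩

lemma image_sub {S : Finset ℕ} {J : ℕ} {v : Fin J → ℕ} (hv : v ∈ TT S J) : univ.image v ⊆ S := by
  intro p hp
  obtain ⟨i, _, rfl⟩ := mem_image.1 hp
  exact mem_TT.1 hv i

/-- the contribution of one fibre -/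
lemma fibre_term {k j : ℕ} {η CW : ℝ} (hCW : 0 < CW)
    (hWB : ∀ (X r q : ℕ) (c : ℤ), 1 ≤ X → Squarefree r →
      (∀ p : ℕ, p.Prime → p ∣ r → k < p) → 0 < q → (∀ p : ℕ, p.Prime → p ∣ q → p ∣ r) →
      r ^ 16 ≤ X → q ≤ X ^ (2 * j) → ¬ (q : ℤ) ∣ c * r →
      ‖WS k r X q c‖ ≤ CW * (X : ℝ) ^ (2 - 4 * η))
    {R : ℕ} {S : Finset ℕ} (hS : PP R S) (hkR : k < R) (s L n₁ n₂ J : ℕ) (h12 : n₁ ≤ n₂)
    (hJ1 : 16 * J ≤ n₂) (hJ2 : J * k ≤ n₂ * (2 * j)) {X : ℕ} (hX : X = (2 * R) ^ n₂ + 1) {N Θ : ℝ}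
    (hN : N = ((n₁ : ℝ) ^ n₁ * (2 * R) ^ n₁) * ((n₂ : ℝ) ^ n₂ * (2 * R) ^ n₂))
    (hΘ : Θ = 2 * N * (CW * (X : ℝ) ^ (2 - 4 * η))) {v : Fin J → ℕ} (hv : v ∈ TT S J) :
    ∫ α in (0 : ℝ)..1, max 0 (‖GG (S \ univ.image v) k (n₁ + n₂) α‖ ^ 2 - Θ) *
        ‖GG S k L (α * (pr v : ℝ) ^ k)‖ ^ (2 * s)
      ≤ 2 * N * (2 * R) ^ J * (X : ℝ) ^ 2 / (R : ℝ) ^ (J * k) * MV S k s L := by
  set T := univ.image v with hT
  have hTS : T ⊆ S := image_sub hv
  have hTc : T.card ≤ J := card_image_le.trans (by simp)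
  set r := ∏ p ∈ T, p with hr
  have hR2 := hS.two
  have h2R : 1 ≤ 2 * R := by omega
  have hrpos : 0 < r := prod_pos fun p hp => (hS.prime p (hTS hp)).pos
  have hrle : r ≤ (2 * R) ^ J := (hS.prod_le_pow hTS).trans (Nat.pow_le_pow_right h2R hTc)
  have hsq : Squarefree r := by
    refine Finset.squarefree_prod_of_pairwise_isCoprime (fun p hp p' hp' hne => ?_)
      fun p hp => (hS.prime p (hTS hp)).prime.squarefree
    exact Nat.coprime_iff_isRelPrime.1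
      ((Nat.coprime_primes (hS.prime p (hTS hp)) (hS.prime p' (hTS hp'))).2 hne)
  have hdv : ∀ p : ℕ, p.Prime → p ∣ r → p ∈ T := by
    intro p hp hd
    obtain ⟨p', hp', h⟩ := (Prime.dvd_finsetProd_iff hp.prime _).1 hd
    rwa [(Nat.prime_dvd_prime_iff_eq hp (hS.prime p' (hTS hp'))).1 h]
  have hqpos : 0 < pr v ^ k := pow_pos (hS.pr_pos hv) k
  have hX1 : 1 ≤ X := by omega
  have hXle : (2 * R) ^ n₂ ≤ X := by omega
  have hW : ∀ c : ℤ, ¬ ((pr v ^ k : ℕ) : ℤ) ∣ c * r →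
      ‖WS k r X (pr v ^ k) c‖ ≤ CW * (X : ℝ) ^ (2 - 4 * η) := by
    intro c hc
    refine hWB X r _ c hX1 hsq (fun p hp hd => lt_of_lt_of_le hkR (hS.le p (hTS (hdv p hp hd))))
      hqpos (fun p hp hd => ?_) ?_ ?_ hc
    · obtain ⟨i, _, h⟩ := (Prime.dvd_finsetProd_iff hp.prime _).1 (hp.dvd_of_dvd_pow hd)
      exact h.trans (dvd_prod_of_mem (fun p => p) (mem_image_of_mem v (mem_univ i)))
    · calc r ^ 16 ≤ ((2 * R) ^ J) ^ 16 := Nat.pow_le_pow_left hrle _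
        _ = (2 * R) ^ (16 * J) := by ring
        _ ≤ (2 * R) ^ n₂ := Nat.pow_le_pow_right h2R hJ1
        _ ≤ X := hXle
    · calc pr v ^ k ≤ ((2 * R) ^ J) ^ k := Nat.pow_le_pow_left (hS.pr_le hv) _
        _ = (2 * R) ^ (J * k) := by ring
        _ ≤ (2 * R) ^ (n₂ * (2 * j)) := Nat.pow_le_pow_right h2R hJ2
        _ = ((2 * R) ^ n₂) ^ (2 * j) := by ring
        _ ≤ X ^ (2 * j) := Nat.pow_le_pow_left hXle _
  have hcop : ∀ p ∈ S \ T, Nat.Coprime p r := by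
    intro p hp
    rw [mem_sdiff] at hp
    exact (Nat.Prime.coprime_iff_not_dvd (hS.prime p hp.1)).2
      fun hd => hp.2 (hdv p (hS.prime p hp.1) hd)
  have hXpos : (0 : ℝ) < X := by exact_mod_cast hX1
  have hfb := fibre_bound (pp_sub hS (sdiff_subset (t := T))) k n₁ n₂ r (pr v ^ k) X hqpos hrpos hcop
    (by have := Nat.pow_le_pow_right h2R h12; omega) (by omega)
    (W := CW * (X : ℝ) ^ (2 - 4 * η)) (N := N) (Θ := Θ) (by positivity) hW hN.ge hΘ.ge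
  have hfi := fibre_integral (fun α => max 0 (‖GG (S \ T) k (n₁ + n₂) α‖ ^ 2 - Θ))
    (fun β => ‖GG S k L β‖ ^ (2 * s)) (by fun_prop) (by fun_prop) (fun x => by positivity)
    (fun x => by simp only [periodic_GG S k L x]) (pr v ^ k) hqpos _ hfb
  rw [← MV_eq] at hfi
  push_cast at hfi
  refine hfi.trans (mul_le_mul_of_nonneg_right ?_ (MV_nonneg _ _ _ _))
  have hN0 : 0 ≤ N := by rw [hN]; positivity
  have hR0 : (0 : ℝ) < R := by exact_mod_cast (by omega : 0 < R)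
  have e1 : (r : ℝ) ≤ (2 * R) ^ J := by exact_mod_cast hrle
  have e2 : (R : ℝ) ^ (J * k) ≤ (pr v : ℝ) ^ k := by
    rw [pow_mul]
    exact pow_le_pow_left₀ (by positivity) (by exact_mod_cast hS.le_pr hv) k
  gcongr

/-- the integrated trichotomy -/
lemma int_step {k j : ℕ} {η CW : ℝ} (hCW : 0 < CW)
    (hWB : ∀ (X r q : ℕ) (c : ℤ), 1 ≤ X → Squarefree r →
      (∀ p : ℕ, p.Prime → p ∣ r → k < p) → 0 < q → (∀ p : ℕ, p.Prime → p ∣ q → p ∣ r) →
      r ^ 16 ≤ X → q ≤ X ^ (2 * j) → ¬ (q : ℤ) ∣ c * r →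
      ‖WS k r X q c‖ ≤ CW * (X : ℝ) ^ (2 - 4 * η))
    {R : ℕ} {S : Finset ℕ} (hS : PP R S) (hkR : k < R) (s w M L n₁ n₂ J : ℕ) (hs : 1 ≤ s)
    (hws : w ≤ s + 1) (h12 : n₁ ≤ n₂) (hn : n₁ + n₂ = M + 1) (hJL : J + L = M + 1)
    (hJ1 : 16 * J ≤ n₂) (hJ2 : J * k ≤ n₂ * (2 * j)) {X : ℕ} (hX : X = (2 * R) ^ n₂ + 1) {N Θ : ℝ}
    (hN : N = ((n₁ : ℝ) ^ n₁ * (2 * R) ^ n₁) * ((n₂ : ℝ) ^ n₂ * (2 * R) ^ n₂))
    (hΘ : Θ = 2 * N * (CW * (X : ℝ) ^ (2 - 4 * η))) :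
    ∫ α in (0 : ℝ)..1, Mx S k (2 * (s + 1)) (M + 1) α
      ≤ (8 * Θ) ^ (s + 1 - w) * MV S k w (M + 1)
        + ((2 * (1 + (J : ℝ)) ^ (M + 1)) ^ (2 * (s + 1)) + 1) * (2 * R) *
            (∫ α in (0 : ℝ)..1, Mx S k (2 * (s + 1)) M α)
        + 8 * (2 * R : ℝ) ^ (J * (2 * s - 1)) * (2 * R) ^ J *
            (2 * N * (2 * R) ^ J * (X : ℝ) ^ 2 / (R : ℝ) ^ (J * k) * MV S k s L) := by
  have cM := continuous_Mx S k (2 * (s + 1)) M
  have hN0 : 0 ≤ N := by rw [hN]; positivity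
  have hΘ0 : 0 ≤ Θ := by rw [hΘ]; positivity
  have hcard : (S.card : ℝ) ≤ 2 * R := by exact_mod_cast hS.card_le
  set I := ∫ α in (0 : ℝ)..1, Mx S k (2 * (s + 1)) M α with hI
  have hI0 : 0 ≤ I := intervalIntegral.integral_nonneg zero_le_one fun x _ => Mx_nonneg _ _ _ _ _
  have h1 : ∫ α in (0 : ℝ)..1, ∑ p ∈ S, Mx S k (2 * (s + 1)) M (α * (p : ℝ) ^ k) ≤ 2 * R * I := by
    rw [int_sum _ _ fun p _ => by fun_prop]
    refine (sum_le_card_nsmul _ _ I fun p hp => ?_).trans ?_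
    · have := int_mul_le _ cM (Mx_nonneg _ _ _ _) (periodic_Mx _ _ _ _) (p ^ k)
        (pow_pos (hS.prime p hp).pos k)
      push_cast at this
      exact this
    · rw [nsmul_eq_mul]; gcongr
  set Y := 2 * N * (2 * R) ^ J * (X : ℝ) ^ 2 / (R : ℝ) ^ (J * k) * MV S k s L with hY
  have hY0 : 0 ≤ Y := by clear * - S k s L N R J X hN0; have := MV_nonneg S k s L; positivity
  have h2 : ∫ α in (0 : ℝ)..1, ∑ v ∈ TT S J, max 0 (‖GG (S \ univ.image v) k (M + 1) α‖ ^ 2 - Θ) *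
      ‖GG S k L (α * (pr v : ℝ) ^ k)‖ ^ (2 * s) ≤ (2 * R) ^ J * Y := by
    rw [int_sum _ _ fun p _ => by fun_prop]
    refine (sum_le_card_nsmul _ _ Y fun v hv => ?_).trans ?_
    · rw [← hn]
      exact fibre_term hCW hWB hS hkR s L n₁ n₂ J h12 hJ1 hJ2 hX hN hΘ hv
    · rw [nsmul_eq_mul, card_TT]; push_cast; clear * - Y S J R hcard hY0; gcongr
  have h3 := int_mono zero_le_one (by fun_prop) (by fun_prop)
    fun α _ => pointwise S k s w M J L hws hs hJL Θ hΘ0 α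
  rw [int_add (by fun_prop) (by fun_prop), int_add (by fun_prop) (by fun_prop),
    intervalIntegral.integral_const_mul, intervalIntegral.integral_const_mul,
    intervalIntegral.integral_const_mul, ← MV_eq S k w] at h3
  have h4 : ∫ α in (0 : ℝ)..1, Mx S k (2 * (s + 1)) (M + 1) α
      = (∫ α in (0 : ℝ)..1, ‖GG S k (M + 1) α‖ ^ (2 * (s + 1)))
        + ∫ α in (0 : ℝ)..1, ∑ p ∈ S, Mx S k (2 * (s + 1)) M (α * (p : ℝ) ^ k) := by
    rw [← int_add (by fun_prop) (by fun_prop)]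
    rfl
  have h5 := mul_le_mul_of_nonneg_left h1
    (show 0 ≤ (2 * (1 + (J : ℝ)) ^ (M + 1)) ^ (2 * (s + 1)) by positivity)
  have h6 : 8 * (S.card : ℝ) ^ (J * (2 * s - 1)) * (∫ α in (0 : ℝ)..1, ∑ v ∈ TT S J,
      max 0 (‖GG (S \ univ.image v) k (M + 1) α‖ ^ 2 - Θ) *
      ‖GG S k L (α * (pr v : ℝ) ^ k)‖ ^ (2 * s))
      ≤ 8 * (2 * R : ℝ) ^ (J * (2 * s - 1)) * ((2 * R) ^ J * Y) := by
    clear * - S J s k M Θ L R Y h2 hcard hY0
    refine (mul_le_mul_of_nonneg_left h2 (by positivity)).trans ?_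
    gcongr
  rw [h4]
  linarith only [h1, h3, h5, h6]

lemma X_rpow_le {ρ X η : ℝ} (hρ : 1 ≤ ρ) (hX0 : 0 < X) {n n₂ : ℕ} (hn : 2 * n₂ ≤ n + 1)
    (hX : X ≤ 2 * (2 * ρ) ^ n₂) (hη0 : 0 ≤ η) (hη : η ≤ 1 / 2) :
    X ^ (2 - 4 * η) ≤ (2 * 2 ^ n₂) ^ 2 * ρ ^ (1 + n * (1 - 2 * η)) := by
  have ha : 0 ≤ 2 - 4 * η := by linarith only [hη]
  have hρ0 : 0 < ρ := by linarith
  have hn' : (2 * n₂ : ℝ) ≤ n + 1 := by exact_mod_cast hn
  have h1 : (1 : ℝ) ≤ 2 * 2 ^ n₂ := by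
    have : (1 : ℝ) ≤ 2 ^ n₂ := one_le_pow₀ (by norm_num)
    linarith only [this]
  calc X ^ (2 - 4 * η) ≤ ((2 * 2 ^ n₂) * ρ ^ n₂) ^ (2 - 4 * η) := by
        refine Real.rpow_le_rpow hX0.le (hX.trans (le_of_eq ?_)) ha
        rw [mul_pow]; ring
    _ = (2 * 2 ^ n₂) ^ (2 - 4 * η) * ρ ^ (n₂ * (2 - 4 * η)) := by
        rw [Real.mul_rpow (by positivity) (by positivity), Real.rpow_natCast_mul hρ0.le]
    _ ≤ (2 * 2 ^ n₂) ^ ((2 : ℕ) : ℝ) * ρ ^ (1 + n * (1 - 2 * η)) := by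
        refine mul_le_mul (Real.rpow_le_rpow_of_exponent_le h1 (by push_cast; linarith only [hη0]))
          (Real.rpow_le_rpow_of_exponent_le hρ ?_) (by positivity) (by positivity)
        linarith only [hη0, hη, hn', mul_nonneg_of_nonpos_of_nonpos (Mathlib.Tactic.Linarith.sub_nonpos_of_le hη) (Mathlib.Tactic.Linarith.sub_nonpos_of_le hn')]
    _ = _ := by rw [Real.rpow_natCast]

lemma term_a {ρ B Θ Cw cw μ c lam a m : ℝ} {D n : ℕ} (hρ : 1 ≤ ρ) (hΘ0 : 0 ≤ Θ) (hB : 0 ≤ B)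
    (hCw : 0 ≤ Cw) (hΘ : Θ ≤ B * ρ ^ a) (hm0 : 0 ≤ m) (hm : m ≤ Cw * ρ ^ cw * (ρ ^ μ) ^ n)
    (he : a * D + cw + μ * n ≤ c + lam * n) :
    (8 * Θ) ^ D * m ≤ (8 * B) ^ D * Cw * (ρ ^ c * (ρ ^ lam) ^ n) := by
  have hρ0 : 0 < ρ := by linarith
  calc (8 * Θ) ^ D * m ≤ (8 * (B * ρ ^ a)) ^ D * (Cw * ρ ^ cw * (ρ ^ μ) ^ n) := by gcongr
    _ = (8 * B) ^ D * Cw * ((ρ ^ a) ^ D * ρ ^ cw * (ρ ^ μ) ^ n) := by
        rw [← mul_assoc 8, mul_pow]; ring
    _ ≤ _ := by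
        rw [← Real.rpow_mul_natCast hρ0.le, ← Real.rpow_mul_natCast hρ0.le,
          ← Real.rpow_mul_natCast hρ0.le, ← Real.rpow_add hρ0, ← Real.rpow_add hρ0,
          ← Real.rpow_add hρ0]
        gcongr

lemma term_c {ρ A X Cs cs μ c lam m : ℝ} {a J n n₂ k L : ℕ} (hρ : 1 ≤ ρ) (hA : 0 ≤ A)
    (hCs : 0 ≤ Cs) (hX0 : 0 ≤ X) (hX : X ≤ 2 * (2 * ρ) ^ n₂) (hm0 : 0 ≤ m)
    (hm : m ≤ Cs * ρ ^ cs * (ρ ^ μ) ^ L)
    (he : (a + J + n + J + 2 * n₂ : ℝ) - J * k + cs + μ * L ≤ c + lam * n) :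
    8 * (2 * ρ) ^ a * (2 * ρ) ^ J * (2 * (A * ρ ^ n) * (2 * ρ) ^ J * X ^ 2 / ρ ^ (J * k) * m)
      ≤ 8 * 2 ^ a * 2 ^ J * (2 * A * 2 ^ J * (2 * 2 ^ n₂) ^ 2 * Cs) * (ρ ^ c * (ρ ^ lam) ^ n) := by
  have hρ0 : 0 < ρ := by linarith
  calc _ ≤ 8 * (2 * ρ) ^ a * (2 * ρ) ^ J * (2 * (A * ρ ^ n) * (2 * ρ) ^ J *
        (2 * (2 * ρ) ^ n₂) ^ 2 / ρ ^ (J * k) * (Cs * ρ ^ cs * (ρ ^ μ) ^ L)) := by gcongr
    _ = 8 * 2 ^ a * 2 ^ J * (2 * A * 2 ^ J * (2 * 2 ^ n₂) ^ 2 * Cs) *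
        (ρ ^ (a + J + n + J + 2 * n₂) / ρ ^ (J * k) * ρ ^ cs * (ρ ^ μ) ^ L) := by
        simp only [mul_pow, pow_add]
        rw [mul_comm 2 n₂, pow_mul ρ n₂ 2]
        field_simp
    _ ≤ _ := by
        rw [← Real.rpow_mul_natCast hρ0.le, ← Real.rpow_mul_natCast hρ0.le,
          ← Real.rpow_natCast ρ (a + J + n + J + 2 * n₂), ← Real.rpow_natCast ρ (J * k),
          ← Real.rpow_sub hρ0, ← Real.rpow_add hρ0, ← Real.rpow_add hρ0, ← Real.rpow_add hρ0]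
        push_cast
        gcongr

end PruneAux

open PruneAux

/-- the pruning step -/
theorem Adm.prune {k s w j : ℕ} {E Ew η : ℝ} (hWB : WB k j η) (hk : 1 ≤ k) (hj : 32 * j ≤ k)
    (hη0 : 0 ≤ η) (hη : η ≤ 1 / 2) (hs : Adm k s (1 + E)) (hw : Adm k w (1 + Ew))
    (hws : w ≤ s + 1) (hks : k ≤ 2 * s) (hE : 0 ≤ E) (hwait : Ew ≤ 2 * η * ((s : ℝ) + 1 - w)) :
    Adm k (s + 1) (1 + (1 - (j : ℝ) / k) * E) := by
  obtain ⟨CW, hCW, hWB⟩ := hWB
  obtain ⟨cs, hcs, Hs⟩ := hs.unif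
  obtain ⟨cw, hcw, Hw⟩ := hw
  have hk0 : (0 : ℝ) < k := by exact_mod_cast hk
  have hjk : (j : ℝ) ≤ k := by exact_mod_cast (by omega : j ≤ k)
  have hθ0 : (0 : ℝ) ≤ j / k := by positivity
  have hθ1 : (j : ℝ) / k ≤ 1 := (div_le_one hk0).2 hjk
  have hks' : (k : ℝ) ≤ 2 * s := by exact_mod_cast hks
  have hθE : 0 ≤ (1 - (j : ℝ) / k) * E := mul_nonneg (by linarith only [hθ1]) hE
  set lam : ℝ := 2 * ((s + 1 : ℕ) : ℝ) - k + (1 + (1 - (j : ℝ) / k) * E) with hlam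
  have hlam1 : 1 ≤ lam := by rw [hlam]; push_cast; linarith only [hks', hθE]
  set c : ℝ := cs + cw + E + (s + 1) + 1 with hc
  have hs0 : (0 : ℝ) ≤ s := by positivity
  have hc0 : 0 ≤ c := by rw [hc]; positivity
  have key : ∀ M : ℕ, ∃ C : ℝ, 0 < C ∧ ∀ (R : ℕ) (S : Finset ℕ), PP R S → k < R →
      ∫ α in (0 : ℝ)..1, Mx S k (2 * (s + 1)) M α ≤ C * ((R : ℝ) ^ c * ((R : ℝ) ^ lam) ^ M) := by
    intro M
    induction M with
    | zero =>
      refine ⟨1, one_pos, fun R S hS _ => ?_⟩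
      have : ∀ α : ℝ, Mx S k (2 * (s + 1)) 0 α = 1 := by
        intro α
        simp [Mx, GG, TT]
      simp only [this, intervalIntegral.integral_const, sub_zero, smul_eq_mul, mul_one, pow_zero,
        one_mul]
      exact Real.one_le_rpow hS.one_le hc0
    | succ M ih =>
      obtain ⟨CI, hCI, ih⟩ := ih
      obtain ⟨Cs, hCs, Hs⟩ := Hs (M + 1)
      obtain ⟨Cw, hCw, Hw⟩ := Hw (M + 1)
      obtain ⟨n₁, hn₁⟩ : ∃ n₁, n₁ = (M + 1) / 2 := ⟨_, rfl⟩
      obtain ⟨n₂, hn₂⟩ : ∃ n₂, n₂ = (M + 2) / 2 := ⟨_, rfl⟩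
      obtain ⟨J, hJ⟩ : ∃ J, J = j * (M + 1) / k := ⟨_, rfl⟩
      have hJk : J * k ≤ j * (M + 1) := by rw [hJ]; exact Nat.div_mul_le_self _ _
      have hJk' : j * (M + 1) < (J + 1) * k := by
        rw [hJ, mul_comm _ k]; exact Nat.lt_mul_div_succ _ hk
      have hJ32 : 32 * J ≤ M + 1 := by
        have : 32 * J * k ≤ (M + 1) * k := by nlinarith only [hj, hJk]
        exact Nat.le_of_mul_le_mul_right this hk
      obtain ⟨L, hL⟩ : ∃ L, J + L = M + 1 := ⟨M + 1 - J, by omega⟩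
      have hJ2 : J * k ≤ n₂ * (2 * j) := by
        have : M + 1 ≤ 2 * n₂ := by omega
        nlinarith only [hJk, this]
      set A : ℝ := (n₁ : ℝ) ^ n₁ * (n₂ : ℝ) ^ n₂ * 2 ^ (M + 1) with hA
      have hA0 : 0 ≤ A := by positivity
      set B : ℝ := 2 * A * CW * (2 * 2 ^ n₂) ^ 2 with hB
      have hB0 : 0 ≤ B := by positivity
      set C₂ : ℝ := (2 * (1 + (J : ℝ)) ^ (M + 1)) ^ (2 * (s + 1)) + 1 with hC₂
      have hC₂0 : 0 < C₂ := by positivity
      refine ⟨(8 * B) ^ (s + 1 - w) * Cw + C₂ * 2 * CI +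
        8 * 2 ^ (J * (2 * s - 1)) * 2 ^ J * (2 * A * 2 ^ J * (2 * 2 ^ n₂) ^ 2 * Cs),
        by clear * - B s w Cw C₂ CI J A n₂ Cs CW n₁ M hCW hCw hCI hCs; positivity, fun R S hS hkR => ?_⟩
      have hρ := hS.one_le
      have hρ0 : (0 : ℝ) < R := by linarith only [hρ]
      have h12 : n₁ + n₂ = M + 1 := by omega
      have hN : ((n₁ : ℝ) ^ n₁ * (2 * R) ^ n₁) * ((n₂ : ℝ) ^ n₂ * (2 * R) ^ n₂)
          = A * (R : ℝ) ^ (M + 1) := by
        rw [hA, ← h12]; simp only [mul_pow, pow_add]; ring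
      have hXle : (((2 * R) ^ n₂ + 1 : ℕ) : ℝ) ≤ 2 * (2 * (R : ℝ)) ^ n₂ := by
        have : (1 : ℝ) ≤ (2 * (R : ℝ)) ^ n₂ := one_le_pow₀ (by linarith only [hρ])
        push_cast; linarith only [this]
      have hX0 : (0 : ℝ) < (((2 * R) ^ n₂ + 1 : ℕ) : ℝ) := by positivity
      have H := int_step hCW hWB hS hkR s w M L n₁ n₂ J (by omega) hws (by omega) h12 hL (by omega)
        hJ2 rfl hN.symm rfl
      refine H.trans ?_
      rw [add_mul _ _ ((R : ℝ) ^ c * _), add_mul _ _ ((R : ℝ) ^ c * _)]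
      have hwr : ((s + 1 - w : ℕ) : ℝ) = s + 1 - w := by rw [Nat.cast_sub hws]; push_cast; ring
      have hw0 : (0 : ℝ) ≤ w := by positivity
      have hM0 : (0 : ℝ) ≤ M := by positivity
      refine add_le_add (add_le_add ?_ ?_) ?_
      · refine term_a (a := 1 + 2 * (M + 1 : ℕ) * (1 - η)) hρ (by clear * - A R M CW n₂ η n₁ hρ hCW B E Ew Hw S hB hB0 hCw hE hS hX0 hXle hc hcs hkR hlam hwait hwr hη hη0 hθE hρ0 j k s w; positivity) hB0 hCw.le ?_
          (MV_nonneg _ _ _ _) (Hw R S hS hkR) ?_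
        · have h1 := X_rpow_le (n := M + 1) hρ hX0 (by omega) hXle hη0 hη
          calc _ ≤ 2 * (A * (R : ℝ) ^ (M + 1)) * (CW * ((2 * 2 ^ n₂) ^ 2 *
                (R : ℝ) ^ (1 + (M + 1 : ℕ) * (1 - 2 * η)))) := by clear * - A R M CW n₂ η h1 hCW n₁ hρ; gcongr
            _ = B * ((R : ℝ) ^ (M + 1) * (R : ℝ) ^ (1 + (M + 1 : ℕ) * (1 - 2 * η))) := by
                rw [hB]; ring
            _ = _ := by
                rw [← Real.rpow_natCast (R : ℝ) (M + 1), ← Real.rpow_add hρ0]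
                congr 2; ring
        · rw [hwr, hc, hlam]
          push_cast
          have : 0 ≤ ((M : ℝ) + 1) * (2 * η * ((s : ℝ) + 1 - w) - Ew + (1 - (j : ℝ) / k) * E) :=
            mul_nonneg (by linarith only []) (by linarith only [hwait, hθE])
          linarith only [hE, hcs, this]
      · have h1 := ih R S hS hkR
        have h2 : (R : ℝ) ≤ (R : ℝ) ^ lam := by
          simpa using Real.rpow_le_rpow_of_exponent_le hρ hlam1
        calc _ ≤ C₂ * (2 * (R : ℝ) ^ lam) * (CI * ((R : ℝ) ^ c * ((R : ℝ) ^ lam) ^ M)) := by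
              clear * - C₂ R lam h2 J M s S k CI c h1 hρ
              have h3 : C₂ * (2 * (R : ℝ)) ≤ C₂ * (2 * (R : ℝ) ^ lam) := by gcongr
              refine mul_le_mul h3 h1 ?_ (by positivity)
              exact intervalIntegral.integral_nonneg zero_le_one fun x _ => Mx_nonneg _ _ _ _ _
          _ = _ := by ring
      · refine term_c hρ hA0 hCs.le hX0.le hXle (MV_nonneg _ _ _ _) (Hs R S hS hkR L (by omega)) ?_
        have e1 : ((J * (2 * s - 1) : ℕ) : ℝ) = J * (2 * s - 1) := by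
          rw [Nat.cast_mul, Nat.cast_sub (by omega)]; push_cast; ring
        have e2 : (L : ℝ) = M + 1 - J := by
          have : ((J + L : ℕ) : ℝ) = (M + 1 : ℕ) := by rw [hL]
          push_cast at this; linarith only [this]
        have e3 : (2 * n₂ : ℝ) ≤ M + 2 := by exact_mod_cast (by omega : 2 * n₂ ≤ M + 2)
        have e4 : (j : ℝ) / k * (M + 1) ≤ J + 1 := by
          rw [div_mul_eq_mul_div, div_le_iff₀ hk0]
          exact_mod_cast hJk'.le
        have e5 := mul_le_mul_of_nonneg_left e4 hE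
        rw [e1, e2, hc, hlam]
        push_cast
        linarith only [hcw, hk0, hks', e3, e5]
  refine ⟨c, hc0, fun n => ?_⟩
  obtain ⟨C, hC, h⟩ := key n
  refine ⟨C, hC, fun R S hS hkR => ?_⟩
  rw [MV_eq, mul_assoc]
  exact (int_mono zero_le_one (by fun_prop) (continuous_Mx _ _ _ _)
    fun α _ => le_Mx _ _ _ _ _).trans (h R S hS hkR)

end

end Pool.Agent.Work.MP_45c923_nt
end

-- merged part: Pool.Agent.Work.MP_45c923_nt.WCount
section
-- merged part: Pool.Agent.Work.MP_45c923_nt.WSmall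
section
set_option autoImplicit false

namespace Pool.Agent.Work.MP_45c923_nt

open Finset Pool.Agent.Lib.LargeSieve

noncomputable section

namespace WSmallAux

lemma ee_div_ne_one (a : ℤ) (p : ℕ) (hp : 0 < p) (h : ¬ (p : ℤ) ∣ a) : ee ((a : ℝ) / p) ≠ 1 := by
  intro h1
  unfold ee at h1
  obtain ⟨n, hn⟩ := Complex.exp_eq_one_iff.1 h1
  apply h
  refine ⟨n, ?_⟩
  have hp' : (p : ℝ) ≠ 0 := by exact_mod_cast hp.ne'
  have h2 : ((2 * Real.pi * ((a : ℝ) / p) : ℝ) : ℂ) = ((n * (2 * Real.pi) : ℝ) : ℂ) := by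
    apply mul_left_cancel₀ Complex.I_ne_zero
    rw [hn]; push_cast; ring
  have h3 : 2 * Real.pi * ((a : ℝ) / p) = n * (2 * Real.pi) := by exact_mod_cast h2
  have h4 : (a : ℝ) / p = n := by
    have hpi : (2 * Real.pi) ≠ 0 := by positivity
    apply mul_left_cancel₀ hpi
    rw [h3]; ring
  rw [div_eq_iff hp'] at h4
  have h5 : (a : ℝ) = ((p * n : ℤ) : ℝ) := by rw [h4]; push_cast; ring
  exact_mod_cast h5

lemma geom_zero (a : ℤ) (p : ℕ) (hp : 0 < p) (h : ¬ (p : ℤ) ∣ a) :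
    ∑ t ∈ range p, ee ((t : ℝ) * ((a : ℝ) / p)) = 0 := by
  have hp' : (p : ℝ) ≠ 0 := by exact_mod_cast hp.ne'
  have h1 := ee_div_ne_one a p hp h
  have h2 : ee ((a : ℝ) / p) ^ p = 1 := by
    rw [← ee_nat_mul, mul_div_cancel₀ _ hp', ee_intCast]
  simp only [ee_nat_mul]
  rw [geom_sum_eq h1, h2, sub_self, zero_div]

lemma sum_range_mul {M : Type*} [AddCommMonoid M] (f : ℕ → M) (h n : ℕ) :
    ∑ y ∈ range (h * n), f y = ∑ u ∈ range h, ∑ t ∈ range n, f (u + h * t) := by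
  induction n with
  | zero => simp
  | succ n ih =>
    rw [Nat.mul_succ, sum_range_add, ih, ← sum_add_distrib]
    refine sum_congr rfl fun u _ => ?_
    rw [sum_range_succ, add_comm (h * n) u]

lemma norm_le_of_blocks (g : ℕ → ℂ) (L : ℕ) (hL : 0 < L) (hg : ∀ x, ‖g x‖ ≤ 1)
    (hb : ∀ x, ∑ y ∈ range L, g (x + y) = 0) (X : ℕ) : ‖∑ x ∈ range X, g x‖ ≤ L := by
  induction X using Nat.strong_induction_on with
  | _ X ih =>
    rcases le_or_gt X L with hX | hX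
    · refine (norm_sum_le _ _).trans ?_
      refine (sum_le_sum fun x _ => hg x).trans ?_
      simp only [sum_const, card_range, nsmul_eq_mul, mul_one]
      exact_mod_cast hX
    · obtain ⟨Y, rfl⟩ : ∃ Y, X = Y + L := ⟨X - L, by omega⟩
      rw [sum_range_add, hb, add_zero]
      exact ih Y (by omega)

lemma lattice_aux (q d : ℕ) (hq : 0 < q) (hd : 0 < d) (l : ℕ) :
    ∀ (c : Fin l → ℤ) (_ : ∀ i, IsCoprime (c i) (q : ℤ)) (B : Fin l → ℕ) (_ : ∀ i, d ≤ B i),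
    Nat.gcd q (d ^ (l + 1)) * ((Fintype.piFinset fun i => Icc (-(B i : ℤ)) (B i)).filter
        fun σ => ((Nat.gcd q (d ^ (l + 1)) : ℕ) : ℤ) ∣ ∑ i, c i * (d : ℤ) ^ (i.val + 1) * σ i).card
      ≤ d * ∏ i, (3 * B i) := by
  induction l with
  | zero =>
    intro c _ B _
    have h1 : Nat.gcd q (d ^ (0 + 1)) ≤ d := by
      simpa using Nat.gcd_le_right q hd
    refine Nat.mul_le_mul h1 ?_
    refine (card_filter_le _ _).trans ?_
    simp
  | succ l ih =>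
    intro c hc B hB
    have ih' := ih (fun i => c i.castSucc) (fun i => hc _) (fun i => B i.castSucc) (fun i => hB _)
    set g := Nat.gcd q (d ^ (l + 1)) with hg
    set g' := Nat.gcd q (d ^ (l + 1 + 1)) with hg'
    have hg0 : 0 < g := Nat.gcd_pos_of_pos_left _ hq
    have hgg' : g ∣ g' := Nat.gcd_dvd_gcd_of_dvd_right _ (pow_dvd_pow _ (by omega))
    obtain ⟨e, he⟩ := hgg'
    have hg'0 : 0 < g' := Nat.gcd_pos_of_pos_left _ hq
    have he0 : 0 < e := by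
      rcases Nat.eq_zero_or_pos e with h | h
      · rw [h] at he; omega
      · exact h
    have hgd : g' ∣ g * d := by
      rw [hg, ← Nat.gcd_mul_right]
      refine Nat.dvd_gcd ((Nat.gcd_dvd_left _ _).mul_right _) ?_
      rw [← pow_succ]; exact Nat.gcd_dvd_right _ _
    have hed : e ≤ d := by
      have := Nat.le_of_dvd (by positivity) hgd
      rw [he] at this
      exact Nat.le_of_mul_le_mul_left this hg0
    have hkey : ∀ u : ℤ, (g' : ℤ) ∣ c (Fin.last l) * (d : ℤ) ^ (l + 1) * u → (e : ℤ) ∣ u := by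
      intro u hu
      have h1 : IsCoprime (g' : ℤ) (c (Fin.last l)) :=
        ((hc (Fin.last l)).of_isCoprime_of_dvd_right
          (Int.natCast_dvd_natCast.2 (Nat.gcd_dvd_left _ _))).symm
      rw [mul_assoc] at hu
      have h2 := h1.dvd_of_dvd_mul_left hu
      have h3 : g' ∣ d ^ (l + 1) * u.natAbs := by
        have := Int.natAbs_dvd_natAbs.2 h2
        simpa [Int.natAbs_mul, Int.natAbs_pow] using this
      have h4 : g' ∣ g * u.natAbs := by
        rw [hg, ← Nat.gcd_mul_right]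
        exact Nat.dvd_gcd ((Nat.gcd_dvd_left _ _).mul_right _) h3
      rw [he] at h4
      have h5 := Nat.dvd_of_mul_dvd_mul_left hg0 h4
      exact Int.natCast_dvd.2 h5
    set S' := ((Fintype.piFinset fun i => Icc (-(B i : ℤ)) (B i)).filter
        fun σ : Fin (l + 1) → ℤ => (g' : ℤ) ∣ ∑ i, c i * (d : ℤ) ^ (i.val + 1) * σ i) with hS'
    set S := ((Fintype.piFinset fun i : Fin l => Icc (-(B i.castSucc : ℤ)) (B i.castSucc)).filter
        fun σ : Fin l → ℤ => (g : ℤ) ∣ ∑ i, c i.castSucc * (d : ℤ) ^ (i.val + 1) * σ i) with hS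
    have hmaps : ∀ σ ∈ S', Fin.init σ ∈ S := by
      intro σ hσ
      rw [hS', mem_filter, Fintype.mem_piFinset] at hσ
      rw [hS, mem_filter, Fintype.mem_piFinset]
      refine ⟨fun i => hσ.1 _, ?_⟩
      have h1 : (g : ℤ) ∣ ∑ i, c i * (d : ℤ) ^ (i.val + 1) * σ i :=
        (Int.natCast_dvd_natCast.2 ⟨e, he⟩).trans hσ.2
      rw [Fin.sum_univ_castSucc] at h1
      have h2 : (g : ℤ) ∣ c (Fin.last l) * (d : ℤ) ^ ((Fin.last l).val + 1) * σ (Fin.last l) := by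
        refine Dvd.dvd.mul_right (Dvd.dvd.mul_left ?_ _) _
        have : (g : ℤ) ∣ ((d ^ (l + 1) : ℕ) : ℤ) :=
          Int.natCast_dvd_natCast.2 (Nat.gcd_dvd_right _ _)
        simpa using this
      exact (dvd_add_left h2).1 h1
    have hfib : ∀ τ ∈ S, (S'.filter fun σ => Fin.init σ = τ).card ≤ 3 * B (Fin.last l) / e := by
      intro τ _
      rw [Nat.le_div_iff_mul_le he0]
      have hinj : Set.InjOn (fun σ : Fin (l + 1) → ℤ => σ (Fin.last l))
          (S'.filter fun σ => Fin.init σ = τ) := by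
        intro σ hσ σ' hσ' hh
        have a1 := (mem_filter.1 hσ).2
        have a2 := (mem_filter.1 hσ').2
        rw [← Fin.snoc_init_self σ, ← Fin.snoc_init_self σ', a1, a2]
        congr 1
      rw [← card_image_of_injOn hinj]
      have hb := card_le_of_cong ((S'.filter fun σ => Fin.init σ = τ).image
        fun σ : Fin (l + 1) → ℤ => σ (Fin.last l)) he0 (Z := 2 * (B (Fin.last l) : ℝ))
        (by positivity) ?_ ?_
      · have he' : (0 : ℝ) < e := by exact_mod_cast he0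
        have h1 : (e : ℝ) ≤ B (Fin.last l) := by exact_mod_cast hed.trans (hB _)
        have h2 := mul_le_mul_of_nonneg_right hb he'.le
        rw [add_mul, div_mul_cancel₀ _ he'.ne', one_mul] at h2
        have h3 : (((S'.filter fun σ => Fin.init σ = τ).image
          fun σ : Fin (l + 1) → ℤ => σ (Fin.last l)).card : ℝ) * e ≤ 3 * B (Fin.last l) := by
          linarith only [h1, h2]
        exact_mod_cast h3
      · intro a ha b hb
        obtain ⟨σ, hσ, rfl⟩ := mem_image.1 ha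
        obtain ⟨σ', hσ', rfl⟩ := mem_image.1 hb
        obtain ⟨a1, a2⟩ := mem_filter.1 hσ
        obtain ⟨b1, b2⟩ := mem_filter.1 hσ'
        have a3 := (mem_filter.1 a1).2
        have b3 := (mem_filter.1 b1).2
        have h1 := dvd_sub a3 b3
        rw [Fin.sum_univ_castSucc, Fin.sum_univ_castSucc] at h1
        have h2 : ∑ i : Fin l, c i.castSucc * (d : ℤ) ^ (i.castSucc.val + 1) * σ i.castSucc
            = ∑ i : Fin l, c i.castSucc * (d : ℤ) ^ (i.castSucc.val + 1) * σ' i.castSucc := by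
          refine sum_congr rfl fun i _ => ?_
          have : σ i.castSucc = σ' i.castSucc := congrFun (a2.trans b2.symm) i
          rw [this]
        rw [h2] at h1
        apply hkey
        rw [add_sub_add_left_eq_sub, ← mul_sub, Fin.val_last] at h1
        exact h1
      · intro a ha b hb
        obtain ⟨σ, hσ, rfl⟩ := mem_image.1 ha
        obtain ⟨σ', hσ', rfl⟩ := mem_image.1 hb
        have a1 := mem_Icc.1
          (Fintype.mem_piFinset.1 (mem_filter.1 (mem_filter.1 hσ).1).1 (Fin.last l))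
        have b1 := mem_Icc.1
          (Fintype.mem_piFinset.1 (mem_filter.1 (mem_filter.1 hσ').1).1 (Fin.last l))
        have : σ (Fin.last l) - σ' (Fin.last l) ≤ 2 * (B (Fin.last l) : ℤ) := by omega
        exact_mod_cast this
    have hcard := card_le_mul_card_image_of_maps_to hmaps _ hfib
    rw [Fin.prod_univ_castSucc, he]
    calc g * e * S'.card ≤ g * e * (3 * B (Fin.last l) / e * S.card) := by gcongr
      _ = (g * S.card) * (e * (3 * B (Fin.last l) / e)) := by ring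
      _ ≤ (d * ∏ i : Fin l, (3 * B i.castSucc)) * (3 * B (Fin.last l)) :=
          Nat.mul_le_mul ih' (Nat.mul_div_le _ _)
      _ = _ := by ring

end WSmallAux

open WSmallAux

/-- small moduli: complete sums vanish -/
theorem W_small (k r q X p : ℕ) (c : ℤ) (hk : 1 ≤ k) (hr : Squarefree r) (hq : 0 < q)
    (hp : p.Prime) (hpk : k < p) (hp2 : p ^ 2 ∣ q) (hpr : p ∣ r) (hc : ¬ (p : ℤ) ∣ c) :
    ‖∑ x ∈ AX X r, ee ((c : ℝ) * (x : ℝ) ^ k / (q : ℝ))‖ ≤ (q : ℝ) * r := by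
  obtain ⟨r', rfl⟩ := hpr
  obtain ⟨q', rfl⟩ := hp2
  have hr' : ¬ p ∣ r' := by
    intro h
    have : p * p ∣ p * r' := Nat.mul_dvd_mul_left p h
    exact hp.one_lt.ne' (Nat.isUnit_iff.1 (hr p this))
  have hr'0 : 0 < r' := Nat.pos_of_ne_zero fun h => hr' (h ▸ dvd_zero p)
  have hq'0 : 0 < q' := Nat.pos_of_ne_zero fun h => by simp [h] at hq
  have hp0 := hp.pos
  have hpR : (p : ℝ) ≠ 0 := by exact_mod_cast hp0.ne'
  have hq'R : (q' : ℝ) ≠ 0 := by exact_mod_cast hq'0.ne'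
  set h := p * r' * q' with hh
  set g : ℕ → ℂ := fun x => if Nat.Coprime x (p * r') then
    ee ((c : ℝ) * (x : ℝ) ^ k / ((p ^ 2 * q' : ℕ) : ℝ)) else 0 with hgdef
  have hsum : ∑ x ∈ AX X (p * r'), ee ((c : ℝ) * (x : ℝ) ^ k / ((p ^ 2 * q' : ℕ) : ℝ))
      = ∑ x ∈ range X, g x := by
    rw [AX, sum_filter]
  have hg1 : ∀ x, ‖g x‖ ≤ 1 := by
    intro x
    simp only [hgdef]
    split_ifs <;> simp
  have hvan : ∀ x, ∑ t ∈ range p, g (x + h * t) = 0 := by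
    intro x
    have hcop : ∀ t, Nat.Coprime (x + h * t) (p * r') ↔ Nat.Coprime x (p * r') := by
      intro t
      rw [hh, mul_assoc (p * r') q' t]
      exact Nat.coprime_add_mul_left_left _ _ _
    by_cases hx : Nat.Coprime x (p * r')
    · have hpZ : Prime (p : ℤ) := Nat.prime_iff_prime_int.1 hp
      have ha : ¬ (p : ℤ) ∣ c * k * (x : ℤ) ^ (k - 1) * r' := by
        intro hdv
        rcases hpZ.dvd_or_dvd hdv with h1 | h1
        · rcases hpZ.dvd_or_dvd h1 with h2 | h2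
          · rcases hpZ.dvd_or_dvd h2 with h3 | h3
            · exact hc h3
            · have := Nat.le_of_dvd (by omega) (Int.natCast_dvd_natCast.1 h3)
              omega
          · have h3 := Int.natCast_dvd_natCast.1 (hpZ.dvd_of_dvd_pow h2)
            have h4 : p ∣ Nat.gcd x (p * r') := Nat.dvd_gcd h3 (dvd_mul_right _ _)
            rw [hx] at h4
            exact hp.one_lt.ne' (Nat.dvd_one.1 h4)
        · exact hr' (Int.natCast_dvd_natCast.1 h1)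
      have hterm : ∀ t ∈ range p, g (x + h * t)
          = ee ((c : ℝ) * (x : ℝ) ^ k / ((p ^ 2 * q' : ℕ) : ℝ)) *
            ee ((t : ℝ) * (((c * k * (x : ℤ) ^ (k - 1) * r' : ℤ) : ℝ) / p)) := by
        clear * - p g x h c k q' r' hgdef hcop hx hh hq'R hpR
        intro t _
        simp only [hgdef]
        rw [if_pos ((hcop t).2 hx), ← ee_add]
        obtain ⟨w, hw⟩ := sq_dvd_add_pow_sub_sub ((h * t : ℕ) : ℤ) (x : ℤ) k
        symm
        rw [← ee_add_int _ (c * w * r' ^ 2 * q' * t ^ 2)]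
        congr 1
        have hw' : (((x + h * t : ℕ) : ℝ)) ^ k = (x : ℝ) ^ k + (x : ℝ) ^ (k - 1) * (h * t) * k
            + (h * t) ^ 2 * w := by
          have : ((x : ℤ) + ((h * t : ℕ) : ℤ)) ^ k = (x : ℤ) ^ k
              + (x : ℤ) ^ (k - 1) * ((h * t : ℕ) : ℤ) * k + ((h * t : ℕ) : ℤ) ^ 2 * w := by
            rw [← hw]; ring
          exact_mod_cast this
        rw [hw', hh]
        push_cast
        field_simp
      rw [sum_congr rfl hterm, ← mul_sum, geom_zero _ p hp0 ha, mul_zero]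
    · refine sum_eq_zero fun t _ => ?_
      simp only [hgdef]
      rw [if_neg fun h' => hx ((hcop t).1 h')]
  have hblock : ∀ x, ∑ y ∈ range (h * p), g (x + y) = 0 := by
    intro x
    rw [WSmallAux.sum_range_mul (fun y => g (x + y)) h p]
    refine sum_eq_zero fun u _ => ?_
    simp only [← add_assoc]
    exact hvan (x + u)
  rw [hsum]
  refine (norm_le_of_blocks g (h * p) (by positivity) hg1 hblock X).trans ?_
  have : h * p ≤ p ^ 2 * q' * (p * r') := by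
    calc h * p = p ^ 2 * q' * (1 * r') := by rw [hh]; ring
      _ ≤ _ := by gcongr; exact hp0
  exact_mod_cast this

theorem exists_d (l q r : ℕ) (hq : 0 < q) (hr : 0 < r) (h : ∀ p : ℕ, p.Prime → p ∣ q → p ∣ r) :
    ∃ d : ℕ, 0 < d ∧ r ∣ d ∧ q ∣ d ^ (l + 1) ∧ d ^ (l + 1) ≤ q * r ^ (l + 1) := by
  have hf : Nat.floorRoot (l + 1) q ≠ 0 := Nat.floorRoot_ne_zero.2 ⟨by omega, hq.ne'⟩
  refine ⟨r * Nat.floorRoot (l + 1) q, by positivity, dvd_mul_right _ _, ?_, ?_⟩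
  · rw [← Nat.factorization_prime_le_iff_dvd hq.ne' (by positivity)]
    intro p hp
    by_cases hpq : p ∣ q
    · have h1 : 1 ≤ r.factorization p := hp.factorization_pos_of_dvd hr.ne' (h p hp hpq)
      rw [Nat.factorization_pow, Nat.factorization_mul hr.ne' hf, Nat.factorization_floorRoot]
      simp only [Finsupp.smul_apply, Finsupp.add_apply, Finsupp.floorDiv_apply,
        Nat.floorDiv_eq_div, smul_eq_mul]
      have h2 := Nat.lt_mul_div_succ (q.factorization p) (show 0 < l + 1 by omega)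
      nlinarith only [h1, h2]
    · rw [Nat.factorization_eq_zero_of_not_dvd hpq]
      exact Nat.zero_le _
  · rw [mul_pow, mul_comm]
    gcongr
    exact Nat.le_of_dvd hq Nat.floorRoot_pow_dvd

theorem exists_sq_dvd (q r : ℕ) (hq : 0 < q) (h : ∀ p : ℕ, p.Prime → p ∣ q → p ∣ r)
    (hn : ¬ q ∣ r) : ∃ p : ℕ, p.Prime ∧ p ^ 2 ∣ q := by
  by_contra hcon
  push Not at hcon
  have hsq : Squarefree q := Nat.squarefree_iff_prime_squarefree.2 fun p hp => by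
    rw [← sq]; exact hcon p hp
  apply hn
  rw [← Nat.prod_primeFactors_of_squarefree hsq]
  refine Finset.prod_primes_dvd _ (fun p hp => (Nat.prime_of_mem_primeFactors hp).prime)
    fun p hp => h p (Nat.prime_of_mem_primeFactors hp) (Nat.dvd_of_mem_primeFactors hp)

theorem lattice_count (l q d : ℕ) (hq : 0 < q) (hd : 0 < d) (hqd : q ∣ d ^ (l + 1))
    (c : Fin l → ℤ) (hc : ∀ i, IsCoprime (c i) (q : ℤ)) (B : Fin l → ℕ) (hB : ∀ i, d ≤ B i) :
    q * ((Fintype.piFinset fun i => Icc (-(B i : ℤ)) (B i)).filter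
        fun σ => (q : ℤ) ∣ ∑ i, c i * (d : ℤ) ^ (i.val + 1) * σ i).card
      ≤ d * ∏ i, (3 * B i) := by
  have := lattice_aux q d hq hd l c hc B hB
  rwa [Nat.gcd_eq_left hqd] at this

end

end Pool.Agent.Work.MP_45c923_nt
end

-- merged part: Pool.Agent.Work.MP_45c923_nt.WCount
section
set_option autoImplicit false

namespace Pool.Agent.Work.MP_45c923_nt

open Finset Pool.Agent.Lib.LargeSieve

noncomputable section

namespace WCountAux

lemma binom {R : Type*} [CommRing R] (k l : ℕ) (hlk : l ≤ k) (x d u : R) (hd : d ^ (l + 1) = 0) :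
    (d * u + x) ^ k = x ^ k + ∑ t : Fin l,
      (k.choose (t.val + 1) : R) * x ^ (k - (t.val + 1)) * d ^ (t.val + 1) * u ^ (t.val + 1) := by
  rw [add_pow, ← sum_subset (s₁ := range (l + 1)) (range_subset_range.2 (by omega)), sum_range_succ',
    add_comm, Finset.sum_range]
  · congr 1
    · simp
    · exact sum_congr rfl fun t _ => by ring
  · intro i _ hi
    obtain ⟨j, rfl⟩ : ∃ j, i = l + 1 + j := Nat.exists_eq_add_of_le (by simpa using hi)
    rw [mul_pow, pow_add d, hd]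
    ring

lemma sum_fin (l : ℕ) : ∑ t : Fin l, (t.val + 1) = l * (l + 1) / 2 := by
  have h := Finset.sum_range_id_mul_two (l + 1)
  rw [sum_range_succ', Finset.sum_range] at h
  simp only [Nat.add_sub_cancel, add_zero] at h
  rw [mul_comm l, ← h, Nat.mul_div_cancel _ (by decide)]

lemma prod_fin (l m Z : ℕ) :
    ∏ t : Fin l, (3 * (m * Z ^ (t.val + 1))) = (3 * m) ^ l * Z ^ (l * (l + 1) / 2) := by
  simp only [← mul_assoc]
  rw [prod_mul_distrib, prod_const, card_univ, Fintype.card_fin, prod_pow_eq_pow_sum, sum_fin]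

lemma pw_bound (l m Z : ℕ) (u : Fin m → ℕ) (hu : ∀ i, u i < Z) (t : Fin l) :
    0 ≤ (∑ i, pw l (u i)) t ∧ (∑ i, pw l (u i)) t ≤ (m * Z ^ (t.val + 1) : ℕ) := by
  rw [Finset.sum_apply]
  refine ⟨sum_nonneg fun i _ => by unfold pw; positivity, ?_⟩
  refine (sum_le_card_nsmul _ _ ((Z : ℤ) ^ (t.val + 1)) fun i _ => ?_).trans (by simp)
  unfold pw
  exact pow_le_pow_left₀ (by positivity) (by exact_mod_cast (hu i).le) _

lemma one_class (k l m q r d X x0 : ℕ) (hlk : l ≤ k) (hm : 1 ≤ m) (hq : 0 < q)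
    (hp : ∀ p : ℕ, p.Prime → p ∣ q → k < p ∧ p ∣ r) (hd : 0 < d) (hrd : r ∣ d)
    (hqd : q ∣ d ^ (l + 1)) (hdX : d * d ≤ X) :
    q * cnt (tup m ((AX X r).filter fun a => a % d = x0)) (fun z => ∑ i, (z i : ZMod q) ^ k)
      ≤ d * ((3 * m) ^ l * (X / d + 1) ^ (l * (l + 1) / 2)) * JJ l m (X / d + 1) := by
  set A := (AX X r).filter fun a => a % d = x0 with hA
  rcases A.eq_empty_or_nonempty with h0 | ⟨a, ha⟩
  · have : tup m A = ∅ := eq_empty_of_forall_notMem fun u hu => by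
      simpa [h0] using mem_tup.1 hu ⟨0, hm⟩
    simp [this, cnt]
  have hA' : ∀ x ∈ A, x < X ∧ Nat.Coprime x r ∧ d * (x / d) + x0 = x := fun x hx => by
    simp only [hA, AX, mem_filter, mem_range] at hx
    exact ⟨hx.1.1, hx.1.2, hx.2 ▸ Nat.div_add_mod x d⟩
  have hZ : ∀ x ∈ A, x / d < X / d + 1 := fun x hx =>
    Nat.lt_succ_of_le (Nat.div_le_div_right (hA' x hx).1.le)
  have hc : ∀ t : Fin l,
      IsCoprime ((k.choose (t.val + 1) * x0 ^ (k - (t.val + 1)) : ℕ) : ℤ) (q : ℤ) := by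
    intro t
    refine Nat.isCoprime_iff_coprime.2 (Nat.coprime_of_dvd fun p pp h1 h2 => ?_)
    obtain ⟨h3, h4⟩ := hp p pp h2
    rcases (Nat.Prime.dvd_mul pp).1 h1 with h5 | h5
    · have h6 := Nat.choose_mul_factorial_mul_factorial (n := k) (k := t.val + 1) (by omega)
      have h7 : p ∣ k.factorial := h6 ▸ (h5.mul_right _).mul_right _
      have := (pp.dvd_factorial).1 h7
      omega
    · obtain ⟨-, h6, h7⟩ := hA' a ha
      have h8 : p ∣ a := h7 ▸ Nat.dvd_add ((h4.trans hrd).mul_right _) (pp.dvd_of_dvd_pow h5)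
      exact pp.one_lt.ne' (Nat.eq_one_of_dvd_coprimes h6 h8 h4)
  have hB : ∀ t : Fin l, d ≤ m * (X / d + 1) ^ (t.val + 1) := fun t => by
    have h1 : d ≤ X / d := (Nat.le_div_iff_mul_le hd).2 hdX
    have h2 : X / d + 1 ≤ (X / d + 1) ^ (t.val + 1) := Nat.le_self_pow (by omega) _
    have h3 := Nat.mul_le_mul_right ((X / d + 1) ^ (t.val + 1)) hm
    omega
  have h1 := lattice_count l q d hq hd hqd _ hc _ hB
  rw [prod_fin] at h1
  have h2 := cnt_fibre (tup m A) (fun z => ∑ i, pw l (z i / d)) (fun z => ∑ i, (z i : ZMod q) ^ k)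
    ((Fintype.piFinset fun t : Fin l => Icc (-((m * (X / d + 1) ^ (t.val + 1) : ℕ) : ℤ))
      (m * (X / d + 1) ^ (t.val + 1) : ℕ)).filter fun σ => (q : ℤ) ∣
        ∑ t, ((k.choose (t.val + 1) * x0 ^ (k - (t.val + 1)) : ℕ) : ℤ) * (d : ℤ) ^ (t.val + 1) * σ t)
    (fun x hx y hy hxy => by
      rw [mem_filter, Fintype.mem_piFinset]
      refine ⟨fun t => ?_, ?_⟩
      · have e1 := pw_bound l m _ (fun i => x i / d) (fun i => hZ _ (mem_tup.1 hx i)) t
        have e2 := pw_bound l m _ (fun i => y i / d) (fun i => hZ _ (mem_tup.1 hy i)) t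
        rw [mem_Icc, Pi.sub_apply]
        constructor <;> linarith only [e1, e2, e1.1, e1.2, e2.1, e2.2]
      · have hd0 : (d : ZMod q) ^ (l + 1) = 0 := by
          rw [← Nat.cast_pow, ZMod.natCast_eq_zero_iff]; exact hqd
        have key : ∀ z ∈ tup m A, ∑ i, (z i : ZMod q) ^ k = m * (x0 : ZMod q) ^ k + ∑ t : Fin l,
            (k.choose (t.val + 1) : ZMod q) * (x0 : ZMod q) ^ (k - (t.val + 1)) *
              (d : ZMod q) ^ (t.val + 1) * ∑ i, ((z i / d : ℕ) : ZMod q) ^ (t.val + 1) := by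
          intro z hz
          have e : ∀ i, (z i : ZMod q) = d * ((z i / d : ℕ) : ZMod q) + x0 := fun i => by
            exact_mod_cast congrArg (Nat.cast : ℕ → ZMod q) (hA' _ (mem_tup.1 hz i)).2.2.symm
          rw [sum_congr rfl fun i _ => by rw [e i, binom k l hlk _ _ _ hd0], sum_add_distrib,
            sum_comm]
          simp only [mul_sum, sum_const, card_univ, Fintype.card_fin, nsmul_eq_mul]
        rw [key x hx, key y hy, add_right_inj, ← sub_eq_zero, ← sum_sub_distrib] at hxy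
        rw [← ZMod.intCast_zmod_eq_zero_iff_dvd, ← hxy, Int.cast_sum]
        refine sum_congr rfl fun t _ => ?_
        simp only [Pi.sub_apply, Finset.sum_apply, pw]
        push_cast [-Int.natCast_ediv]
        ring)
  have h3 : cnt (tup m A) (fun z => ∑ i, pw l (z i / d)) ≤ JJ l m (X / d + 1) := by
    refine cnt_le_of_inj _ _ _ _ (fun z i => z i / d) (fun x hx y hy hxy => funext fun i => ?_)
      (fun x hx => mem_tup.2 fun i => mem_range.2 (hZ _ (mem_tup.1 hx i))) fun x _ y _ h => h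
    rw [← (hA' _ (mem_tup.1 hx i)).2.2, ← (hA' _ (mem_tup.1 hy i)).2.2,
      show x i / d = y i / d from congrFun hxy i]
  exact (Nat.mul_le_mul_left q h2).trans (by rw [← mul_assoc]; exact Nat.mul_le_mul h1 h3)

end WCountAux

/-- congruences to a powerful modulus, reduced to Vinogradov's system -/
theorem N_bound (k l m q r d X : ℕ) (hlk : l ≤ k) (hm : 1 ≤ m) (hq : 0 < q)
    (hp : ∀ p : ℕ, p.Prime → p ∣ q → k < p ∧ p ∣ r) (hd : 0 < d) (hrd : r ∣ d)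
    (hqd : q ∣ d ^ (l + 1)) (hdX : d * d ≤ X) :
    q * cnt (tup m (AX X r)) (fun z => ((∑ i, (z i : ℤ) ^ k : ℤ) : ZMod q))
      ≤ d ^ (2 * m) * (d * ((3 * m) ^ l * (X / d + 1) ^ (l * (l + 1) / 2)))
        * JJ l m (X / d + 1) := by
  have : NeZero q := ⟨hq.ne'⟩
  have h1 := cnt_split_fin_one (AX X r) (range d) (fun a => a % d)
    (fun a _ => mem_range.2 (Nat.mod_lt _ hd)) (fun a => (a : ZMod q) ^ k) m hm
  have h2 := sum_le_card_nsmul (range d) _ _ fun x0 _ =>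
    WCountAux.one_class k l m q r d X x0 hlk hm hq hp hd hrd hqd hdX
  rw [← mul_sum, card_range, smul_eq_mul] at h2
  rw [card_range] at h1
  have h3 : d ^ (2 * m) = d ^ (2 * m - 1) * d := by rw [← pow_succ]; congr 1; omega
  simp only [Int.cast_sum, Int.cast_pow, Int.cast_natCast]
  refine (Nat.mul_le_mul_left q h1).trans ?_
  rw [mul_left_comm, h3, mul_assoc, mul_assoc, mul_assoc]
  refine Nat.mul_le_mul_left _ (h2.trans_eq (by ring))

end

end Pool.Agent.Work.MP_45c923_nt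
end
end

-- merged part: Pool.Agent.Work.MP_45c923_nt.Final
section
-- merged part: Pool.Agent.Work.MP_45c923_nt.WBound
section
set_option autoImplicit false

namespace Pool.Agent.Work.MP_45c923_nt

open Finset Pool.Agent.Lib.LargeSieve

noncomputable section

namespace WBoundAux

lemma root_le (W D X ε : ℝ) (n : ℕ) (hn : n ≠ 0) (_hW : 0 ≤ W) (hD : 0 ≤ D) (hX : 1 ≤ X)
    (hε : ε ≤ 1 / n) (h : W ^ n * X ≤ D * X ^ (2 * n)) :
    W ≤ D ^ ((n : ℝ)⁻¹) * X ^ (2 - ε) := by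
  have X0 : 0 < X := by linarith only [hX]
  have n0 : (n : ℝ) ≠ 0 := by exact_mod_cast hn
  have e1 : (D ^ ((n : ℝ)⁻¹) * X ^ (2 - 1 / (n : ℝ))) ^ n * X = D * X ^ (2 * n) := by
    rw [mul_pow, Real.rpow_inv_natCast_pow hD hn, ← Real.rpow_mul_natCast X0.le, mul_assoc,
      ← Real.rpow_add_one X0.ne', ← Real.rpow_natCast]
    congr 2
    push_cast
    field_simp
    ring
  have h2 : W ^ n ≤ (D ^ ((n : ℝ)⁻¹) * X ^ (2 - 1 / (n : ℝ))) ^ n :=
    le_of_mul_le_mul_right (by rw [e1]; exact h) X0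
  have h3 := le_of_pow_le_pow_left₀ hn (by positivity) h2
  refine h3.trans (mul_le_mul_of_nonneg_left ?_ (by positivity))
  exact Real.rpow_le_rpow_of_exponent_le hX (by linarith only [hε])

lemma card_AX (X r : ℕ) : (AX X r).card ≤ X := by
  unfold AX
  exact (card_filter_le _ _).trans (by simp)

lemma WS_reduce (k r X q g : ℕ) (c : ℤ) (hg : 0 < g) :
    WS k r X (g * q) (g * c) = WS k r X q c := by
  unfold WS
  refine sum_congr rfl fun x _ => sum_congr rfl fun y _ => ?_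
  have : (g : ℝ) ≠ 0 := by positivity
  congr 1
  push_cast
  rw [mul_assoc, mul_div_mul_left _ _ this]

lemma small_case (k r q X p : ℕ) (c : ℤ) (hk : 1 ≤ k) (hr : Squarefree r) (hq : 0 < q)
    (hp : p.Prime) (hpk : k < p) (hp2 : p ^ 2 ∣ q) (hpr : p ∣ r) (hc : ¬ (p : ℤ) ∣ c)
    (hr16 : r ^ 16 ≤ X) (hqX : q ^ 2 ≤ X) :
    ‖WS k r X q c‖ ^ 16 * X ≤ 1 * (X : ℝ) ^ (2 * 16) := by
  have h1 : ‖WS k r X q c‖ ≤ (X : ℝ) * (q * r) := by
    unfold WS
    refine (norm_sum_le _ _).trans ?_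
    refine (sum_le_card_nsmul _ _ ((q : ℝ) * r) fun x hx => ?_).trans ?_
    · have hx' : Nat.Coprime x r := (mem_filter.1 hx).2
      have hc' : ¬ (p : ℤ) ∣ c * (x : ℤ) ^ k := by
        intro h
        rcases (Nat.prime_iff_prime_int.1 hp).dvd_or_dvd h with h | h
        · exact hc h
        · have h2 : p ∣ x := by
            have := (Nat.prime_iff_prime_int.1 hp).dvd_of_dvd_pow h
            exact_mod_cast this
          exact hp.one_lt.ne' (Nat.eq_one_of_dvd_coprimes hx' h2 hpr)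
      have := W_small k r q X p (c * (x : ℤ) ^ k) hk hr hq hp hpk hp2 hpr hc'
      refine le_of_eq_of_le ?_ this
      congr 1
      refine sum_congr rfl fun y _ => ?_
      congr 1
      push_cast
      ring
    · rw [nsmul_eq_mul]
      exact mul_le_mul_of_nonneg_right (by exact_mod_cast card_AX X r) (by positivity)
  have h2 : (X * (q * r)) ^ 16 * X ≤ X ^ (2 * 16) := by
    have X1 : 1 ≤ X := le_trans (Nat.one_le_pow _ _ hq) hqX
    calc (X * (q * r)) ^ 16 * X = X ^ 17 * (q ^ 2) ^ 8 * r ^ 16 := by ring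
      _ ≤ X ^ 17 * X ^ 8 * X := by gcongr
      _ = X ^ 26 := by ring
      _ ≤ X ^ (2 * 16) := Nat.pow_le_pow_right X1 (by norm_num)
  have h3 : ((X : ℝ) * (q * r)) ^ 16 * X ≤ (X : ℝ) ^ (2 * 16) := by exact_mod_cast h2
  rw [one_mul]
  refine le_trans ?_ h3
  gcongr

lemma d_bounds (j q r d X : ℕ) (hj : 1 ≤ j) (hq : 0 < q) (hX : 1 ≤ X) (hr16 : r ^ 16 ≤ X)
    (hqX : q ≤ X ^ (2 * j)) (hXq : X < q ^ 2)
    (hd : d ^ (16 * j + 1) ≤ q * r ^ (16 * j + 1)) :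
    d * d ≤ X ∧ d ^ 16 * X ^ 2 ≤ q ^ 8 := by
  have h16 : (d ^ 16) ^ (16 * j + 1) ≤ q ^ 16 * X ^ (16 * j + 1) := by
    calc (d ^ 16) ^ (16 * j + 1) = (d ^ (16 * j + 1)) ^ 16 := by rw [← pow_mul, ← pow_mul, mul_comm]
      _ ≤ (q * r ^ (16 * j + 1)) ^ 16 := Nat.pow_le_pow_left hd _
      _ = q ^ 16 * (r ^ 16) ^ (16 * j + 1) := by
          rw [mul_pow, ← pow_mul, ← pow_mul, mul_comm (16 * j + 1)]
      _ ≤ q ^ 16 * X ^ (16 * j + 1) := by gcongr
  constructor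
  · have : (d * d) ^ (8 * (16 * j + 1)) ≤ X ^ (8 * (16 * j + 1)) := by
      calc (d * d) ^ (8 * (16 * j + 1)) = (d ^ 16) ^ (16 * j + 1) := by
            rw [pow_mul]; congr 1; ring
        _ ≤ (X ^ (2 * j)) ^ 16 * X ^ (16 * j + 1) := h16.trans (by gcongr)
        _ = X ^ (2 * j * 16 + (16 * j + 1)) := by rw [← pow_mul, ← pow_add]
        _ ≤ X ^ (8 * (16 * j + 1)) := Nat.pow_le_pow_right hX (by omega)
    exact (Nat.pow_le_pow_iff_left (by omega)).1 this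
  · have h1 : (d ^ 16) ^ (16 * j + 1) ≤ (q * X) ^ (16 * j + 1) := by
      rw [mul_pow]
      exact h16.trans (Nat.mul_le_mul_right _ (Nat.pow_le_pow_right hq (by omega)))
    have h2 : d ^ 16 ≤ q * X := (Nat.pow_le_pow_iff_left (by omega)).1 h1
    calc d ^ 16 * X ^ 2 ≤ q * X * X ^ 2 := by gcongr
      _ = q * X ^ 3 := by ring
      _ ≤ q * (q ^ 2) ^ 3 := by gcongr
      _ = q ^ 7 := by ring
      _ ≤ q ^ 8 := Nat.pow_le_pow_right hq (by norm_num)

lemma final_alg (W X q d N K u : ℝ) (m : ℕ) (hm : 1 ≤ m) (hW : 0 ≤ W) (hX : 1 ≤ X) (hq : 0 < q)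
    (hN : 0 ≤ N) (hu : u ^ 16 ≤ 2 * X)
    (h1 : W ^ (2 * m ^ 2) ≤ X ^ (4 * m * (m - 1)) * q * N ^ 2)
    (h2 : q * N ≤ K * d * X ^ (2 * m) * u) (h3 : d ^ 16 * X ^ 2 ≤ q ^ 8) :
    W ^ (16 * m ^ 2) * X ≤ 2 * K ^ 16 * X ^ (2 * (16 * m ^ 2)) := by
  have X0 : 0 < X := by linarith only [hX]
  have e : 4 * m * (m - 1) + 2 * m * 2 = 4 * m ^ 2 := by
    obtain ⟨n, rfl⟩ := Nat.exists_eq_add_of_le hm
    rw [Nat.add_sub_cancel_left]; ring
  have h4 : W ^ (2 * m ^ 2) * q ≤ X ^ (4 * m ^ 2) * (K * d * u) ^ 2 := by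
    calc W ^ (2 * m ^ 2) * q ≤ X ^ (4 * m * (m - 1)) * q * N ^ 2 * q := by gcongr
      _ = X ^ (4 * m * (m - 1)) * (q * N) ^ 2 := by ring
      _ ≤ X ^ (4 * m * (m - 1)) * (K * d * X ^ (2 * m) * u) ^ 2 := by gcongr
      _ = X ^ (4 * m ^ 2) * (K * d * u) ^ 2 := by rw [← e, pow_add, pow_mul X (2 * m) 2]; ring
  have h5 : (W ^ (2 * m ^ 2) * q) ^ 8 ≤ (X ^ (4 * m ^ 2) * (K * d * u) ^ 2) ^ 8 := by gcongr
  have e1 : (W ^ (2 * m ^ 2) * q) ^ 8 = W ^ (16 * m ^ 2) * q ^ 8 := by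
    rw [mul_pow, ← pow_mul]; congr 2; ring
  have e2 : (X ^ (4 * m ^ 2) * (K * d * u) ^ 2) ^ 8
      = X ^ (2 * (16 * m ^ 2)) * K ^ 16 * d ^ 16 * u ^ 16 := by
    rw [mul_pow, ← pow_mul, show 4 * m ^ 2 * 8 = 2 * (16 * m ^ 2) by ring]; ring
  rw [e1, e2] at h5
  have K0 : 0 ≤ K ^ 16 := by positivity
  have d0 : 0 ≤ d ^ 16 := by positivity
  have h6 : W ^ (16 * m ^ 2) * X * (q ^ 8 * X)
      ≤ 2 * K ^ 16 * X ^ (2 * (16 * m ^ 2)) * (q ^ 8 * X) := by
    clear * - W m X q K d u h5 hX h3 hu hq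
    calc W ^ (16 * m ^ 2) * X * (q ^ 8 * X) = W ^ (16 * m ^ 2) * q ^ 8 * X ^ 2 := by ring
      _ ≤ X ^ (2 * (16 * m ^ 2)) * K ^ 16 * d ^ 16 * u ^ 16 * X ^ 2 := by gcongr
      _ = X ^ (2 * (16 * m ^ 2)) * K ^ 16 * (d ^ 16 * X ^ 2) * u ^ 16 := by ring
      _ ≤ X ^ (2 * (16 * m ^ 2)) * K ^ 16 * q ^ 8 * (2 * X) := by
          have : 0 ≤ u ^ 16 := by positivity
          gcongr
      _ = _ := by ring
  exact le_of_mul_le_mul_right h6 (by positivity)

end WBoundAux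

open WBoundAux in
theorem W_bound (k j : ℕ) (hj : 1 ≤ j) (hjk : 32 * j ≤ k) :
    WB k j (1 / (2 ^ 32 * (j : ℝ) ^ 6)) := by
  obtain ⟨C0, hC0, hV⟩ := vmvt' (16 * j) (by omega)
  set l := 16 * j with hl
  set m := l * (l ^ 2 + 1) with hmd
  have hm : 1 ≤ m := Nat.mul_pos (by omega) (by positivity)
  set K : ℝ := (3 * m) ^ l * C0 * 2 ^ (2 * m) with hK
  have j1 : (1 : ℝ) ≤ j := by exact_mod_cast hj
  have hε : 4 * (1 / (2 ^ 32 * (j : ℝ) ^ 6)) ≤ 1 / ((16 * m ^ 2 : ℕ) : ℝ) := by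
    have h1 : m ≤ 2 ^ 13 * j ^ 3 := by
      have : 1 ≤ j ^ 2 := Nat.one_le_pow _ _ hj
      calc m = 16 * j * (256 * j ^ 2 + 1) := by rw [hmd, hl]; ring
        _ ≤ 16 * j * (256 * j ^ 2 + 256 * j ^ 2) := by gcongr; omega
        _ = 2 ^ 13 * j ^ 3 := by ring
    have h2 : 16 * m ^ 2 ≤ 2 ^ 30 * j ^ 6 := by
      calc 16 * m ^ 2 ≤ 16 * (2 ^ 13 * j ^ 3) ^ 2 := by gcongr
        _ = 2 ^ 30 * j ^ 6 := by ring
    have h3 : ((16 * m ^ 2 : ℕ) : ℝ) ≤ 2 ^ 30 * (j : ℝ) ^ 6 := by exact_mod_cast h2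
    have h4 : 4 * (1 / (2 ^ 32 * (j : ℝ) ^ 6)) = 1 / (2 ^ 30 * (j : ℝ) ^ 6) := by
      field_simp; norm_num
    rw [h4]
    exact one_div_le_one_div_of_le (by positivity) h3
  have hε' : 4 * (1 / (2 ^ 32 * (j : ℝ) ^ 6)) ≤ 1 / ((16 : ℕ) : ℝ) := by
    refine hε.trans (one_div_le_one_div_of_le (by positivity) ?_)
    have : 16 ≤ 16 * m ^ 2 := Nat.le_mul_of_pos_right _ (by positivity)
    exact_mod_cast this
  refine ⟨1 + (2 * K ^ 16) ^ ((((16 * m ^ 2 : ℕ) : ℝ))⁻¹), by positivity, ?_⟩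
  intro X r q c hX hr hrk hq hqr hr16 hqX hcr
  have X1 : (1 : ℝ) ≤ X := by exact_mod_cast hX
  have r0 : 0 < r := Nat.pos_of_ne_zero hr.ne_zero
  have g0 : 0 < Int.gcd c q := Int.gcd_pos_of_ne_zero_right _ (by exact_mod_cast hq.ne')
  obtain ⟨c', q1, hcop, hc', hq1⟩ := Int.exists_gcd_one g0
  set g := Int.gcd c q with hg
  have q10 : 0 < q1 := by
    have : (0 : ℤ) < q1 * g := by rw [← hq1]; exact_mod_cast hq
    exact (mul_pos_iff_of_pos_right (by exact_mod_cast g0)).1 this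
  obtain ⟨q', rfl⟩ := Int.eq_ofNat_of_zero_le q10.le
  have hq' : q = g * q' := by rw [mul_comm]; exact_mod_cast hq1
  have q'0 : 0 < q' := by exact_mod_cast q10
  have hW : WS k r X q c = WS k r X q' c' := by
    rw [← WS_reduce k r X q' g c' g0, ← hq', mul_comm, ← hc']
  have hco : IsCoprime c' (q' : ℤ) := Int.isCoprime_iff_gcd_eq_one.2 hcop
  have hq'r : ∀ p : ℕ, p.Prime → p ∣ q' → p ∣ r := fun p hp h =>
    hqr p hp (by rw [hq']; exact h.mul_left _)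
  have hq'X : q' ≤ X ^ (2 * j) := le_trans (by rw [hq']; exact Nat.le_mul_of_pos_left _ g0) hqX
  have hnd : ¬ q' ∣ r := by
    intro h
    apply hcr
    rw [hq1, hc', mul_right_comm]
    exact mul_dvd_mul_right (Dvd.dvd.mul_left (by exact_mod_cast h) _) _
  rw [hW]
  have P0 : 0 ≤ (X : ℝ) ^ (2 - 4 * (1 / (2 ^ 32 * (j : ℝ) ^ 6))) := by positivity
  have D0 : 0 ≤ (2 * K ^ 16) ^ ((((16 * m ^ 2 : ℕ) : ℝ))⁻¹) := by positivity
  rcases le_or_gt (q' ^ 2) X with hs | hs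
  · obtain ⟨p, hp, hp2⟩ := exists_sq_dvd q' r q'0 hq'r hnd
    have hpq : p ∣ q' := (dvd_pow_self p two_ne_zero).trans hp2
    have hpc : ¬ (p : ℤ) ∣ c' := fun h =>
      (Nat.prime_iff_prime_int.1 hp).not_isUnit (hco.isUnit_of_dvd' h (by exact_mod_cast hpq))
    have h1 := small_case k r q' X p c' (by omega) hr q'0 hp (hrk p hp (hq'r p hp hpq)) hp2
      (hq'r p hp hpq) hpc hr16 hs
    have h2 := root_le _ 1 X _ 16 (by norm_num) (norm_nonneg _) zero_le_one X1 hε' h1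
    rw [Real.one_rpow] at h2
    clear * - k r X q' c' K m j h2 P0 D0; linarith only [h2, P0, D0, mul_nonneg_of_nonpos_of_nonpos (Mathlib.Tactic.Linarith.sub_nonpos_of_le P0) (Mathlib.Tactic.Linarith.sub_nonpos_of_le D0)]
  · obtain ⟨d, d0, hrd, hqd, hdl⟩ := exists_d l q' r q'0 r0 hq'r
    obtain ⟨hdX, hd16⟩ := d_bounds j q' r d X hj q'0 hX hr16 hq'X hs hdl
    have hN := N_bound k l m q' r d X (by omega) hm q'0
      (fun p hp h => ⟨hrk p hp (hq'r p hp h), hq'r p hp h⟩) d0 hrd hqd hdX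
    have hB := bilinear_holder (AX X r) (fun x : ℕ => (x : ℤ) ^ k) q' q'0 c' hco m hm
    set Z := X / d + 1 with hZ
    have hJ := hV Z (Nat.le_add_left 1 _)
    set N := cnt (tup m (AX X r)) (fun z => ((∑ i, (z i : ℤ) ^ k : ℤ) : ZMod q')) with hNd
    have hdZ : d * Z ≤ 2 * X := by
      have h1 : d * (X / d) ≤ X := Nat.mul_div_le X d
      have h2 : d ≤ d * d := Nat.le_mul_self d
      rw [hZ, mul_add]; omega
    have hZX : Z ≤ 2 * X := le_trans (Nat.le_mul_of_pos_left _ d0) hdZ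
    have hdZ' : (d : ℝ) * Z ≤ 2 * X := by exact_mod_cast hdZ
    have hu : ((Z : ℝ) ^ (1 / 16 : ℝ)) ^ 16 ≤ 2 * X := by
      rw [← Real.rpow_mul_natCast (by positivity)]
      norm_num
      exact_mod_cast hZX
    have hN' : (q' : ℝ) * N ≤ (d : ℝ) ^ (2 * m) * (d * ((3 * m) ^ l * (Z : ℝ) ^ (l * (l + 1) / 2)))
        * JJ l m Z := by exact_mod_cast hN
    have h2 : (q' : ℝ) * N ≤ K * d * (X : ℝ) ^ (2 * m) * (Z : ℝ) ^ (1 / 16 : ℝ) := by
      clear * - q' N m l C0 d X Z K hN' j hJ d0 hj hdZ' hC0 hK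
      calc (q' : ℝ) * N ≤ _ := hN'
        _ = (d : ℝ) ^ (2 * m) * d * (3 * m) ^ l * (JJ l m Z * (Z : ℝ) ^ (l * (l + 1) / 2)) := by ring
        _ ≤ (d : ℝ) ^ (2 * m) * d * (3 * m) ^ l
            * (C0 * (Z : ℝ) ^ (2 * m) * (Z : ℝ) ^ (1 / 16 : ℝ)) := by gcongr
        _ = (3 * m) ^ l * C0 * d * ((d : ℝ) * Z) ^ (2 * m) * (Z : ℝ) ^ (1 / 16 : ℝ) := by
            rw [mul_pow]; ring
        _ ≤ (3 * m) ^ l * C0 * d * (2 * (X : ℝ)) ^ (2 * m) * (Z : ℝ) ^ (1 / 16 : ℝ) := by gcongr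
        _ = _ := by rw [hK, mul_pow]; ring
    have h1 : ‖WS k r X q' c'‖ ^ (2 * m ^ 2) ≤ (X : ℝ) ^ (4 * m * (m - 1)) * q' * (N : ℝ) ^ 2 := by
      have e : WS k r X q' c' = ∑ x ∈ AX X r, ∑ y ∈ AX X r,
          ee ((c' : ℝ) * (((x : ℤ) ^ k : ℤ) : ℝ) * (((y : ℤ) ^ k : ℤ) : ℝ) / (q' : ℝ)) := by
        unfold WS
        refine sum_congr rfl fun x _ => sum_congr rfl fun y _ => ?_
        congr 1
        push_cast
        ring
      rw [e]
      refine hB.trans ?_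
      have : ((AX X r).card : ℝ) ≤ X := by exact_mod_cast card_AX X r
      exact mul_le_mul_of_nonneg_right (mul_le_mul_of_nonneg_right
        (pow_le_pow_left₀ (Nat.cast_nonneg _) this _) (Nat.cast_nonneg _)) (sq_nonneg _)
    have h3 := final_alg _ X q' d N K _ m hm (norm_nonneg _) X1 (by exact_mod_cast q'0)
      (by clear * - N h1 h2 hd16 hu; positivity) hu h1 h2 (by exact_mod_cast hd16)
    have h4 := root_le _ _ X _ (16 * m ^ 2) (by positivity) (norm_nonneg _) (by positivity) X1 hε h3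
    linarith only [P0, h4]

end

end Pool.Agent.Work.MP_45c923_nt
end

-- merged part: Pool.Agent.Work.MP_45c923_nt.Final
section
/-!
# The circle method: from admissible exponents to representations
-/

set_option autoImplicit false

namespace Pool.Agent.Work.MP_45c923_nt

open Finset Pool.Agent.Lib.LargeSieve

noncomputable section

/-- `α` lies on a major arc of height `Q` -/
def Pm (X : ℝ) (Q : ℕ) (α : ℝ) : Prop :=
  ∃ (q : ℕ) (a : ℤ), 1 ≤ q ∧ q ≤ Q ∧ Int.gcd a q = 1 ∧ |q * α - a| ≤ Q / X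

lemma Pm_of_le {X : ℝ} {Q : ℕ} (hX : 0 < X) (hQ : 0 < Q) (h : X ≤ (Q : ℝ) ^ 2) (α : ℝ) :
    Pm X Q α := by
  obtain ⟨r, h1, h2⟩ := Real.exists_rat_abs_sub_le_and_den_le α hQ
  have hd : (0 : ℝ) < r.den := by exact_mod_cast r.pos
  have hQ' : (0 : ℝ) < Q := by exact_mod_cast hQ
  refine ⟨r.den, r.num, r.pos, h2, r.reduced, ?_⟩
  have e : (r.den : ℝ) * α - r.num = r.den * (α - r) := by
    rw [Rat.cast_def]; field_simp
  rw [e, abs_mul, abs_of_pos hd]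
  calc _ ≤ (r.den : ℝ) * (1 / ((Q + 1) * r.den)) := by gcongr
    _ = 1 / (Q + 1) := by field_simp
    _ ≤ _ := by rw [div_le_div_iff₀ (by positivity) hX]; linarith only [h, hQ']

lemma classify (p : ℕ → Prop) {i₀ I : ℕ} (h : i₀ ≤ I) (h0 : ¬ p i₀) :
    ∃ i ∈ Icc i₀ I, ¬ p i ∧ (i < I → p (i + 1)) := by
  classical
  obtain ⟨i, hi, hm⟩ := exists_max_image ((Icc i₀ I).filter fun i => ¬ p i) id
    ⟨i₀, mem_filter.2 ⟨mem_Icc.2 ⟨le_rfl, h⟩, h0⟩⟩
  rw [mem_filter, mem_Icc] at hi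
  refine ⟨i, mem_Icc.2 hi.1, hi.2, fun hI => by_contra fun hp => ?_⟩
  have := hm (i + 1) (mem_filter.2 ⟨mem_Icc.2 ⟨by omega, hI⟩, hp⟩)
  simp at this

lemma exists_floor (g : ℕ → ℕ) (hg : ∀ x, x ≤ g x) {x₀ n : ℕ} (h : g x₀ ≤ n) :
    ∃ x, x₀ ≤ x ∧ g x ≤ n ∧ n < g (x + 1) := by
  classical
  refine ⟨Nat.findGreatest (fun x => g x ≤ n) n, Nat.le_findGreatest ((hg _).trans h) h,
    Nat.findGreatest_spec (P := fun x => g x ≤ n) ((hg _).trans h) h, ?_⟩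
  by_contra hc
  have hc := not_lt.1 hc
  exact Nat.findGreatest_is_greatest (P := fun x => g x ≤ n) (Nat.lt_succ_self _)
    ((hg _).trans hc) hc

lemma succ_pow_le {k Y : ℕ} (h : 3 * k ≤ Y) : 2 * (Y + 1) ^ k ≤ 3 * Y ^ k := by
  have h' : (3 * k : ℝ) ≤ Y := by exact_mod_cast h
  have h0 : (0 : ℝ) < Y + 1 := by positivity
  have h1 := one_add_mul_le_pow (a := -(1 / (Y + 1 : ℝ))) (by
    have : 1 / (Y + 1 : ℝ) ≤ 1 := by rw [div_le_one h0]; linarith [Nat.cast_nonneg (α := ℝ) Y]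
    linarith only [this]) k
  have h2 : 1 + -(1 / (Y + 1 : ℝ)) = Y / (Y + 1) := by field_simp; ring
  have h3 : (2 / 3 : ℝ) ≤ 1 + k * -(1 / (Y + 1 : ℝ)) := by
    have : k * (1 / (Y + 1 : ℝ)) ≤ 1 / 3 := by
      rw [mul_one_div, div_le_iff₀ h0]; linarith only [h']
    linarith only [this]
  rw [h2, div_pow] at h1
  have h4 := h3.trans h1
  rw [le_div_iff₀ (by positivity)] at h4
  have : (2 * (Y + 1) ^ k : ℝ) ≤ 3 * Y ^ k := by linarith only [h4]
  exact_mod_cast this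

/-- the dissection -/
lemma dissect (f : ℝ → ℂ) (hf : Continuous f) (n v u : ℕ) {X : ℝ} {i₀ I : ℕ} (hI : i₀ ≤ I)
    (Q Q' : ℕ → ℕ) (Mx : ℕ → ℝ) (hQ : 2 * (Q i₀ : ℝ) ^ 3 < X) (hQ0 : 1 ≤ Q i₀)
    (hQ1 : ∀ i < I, Q' i = Q (i + 1)) (hQ2 : X ≤ (Q' I : ℝ) ^ 2)
    (hQ3 : ∀ i ∈ Icc i₀ I, (Q' i : ℝ) ≤ X) (hM0 : ∀ i ∈ Icc i₀ I, 0 ≤ Mx i)
    (hM : ∀ i ∈ Icc i₀ I, ∀ (α : ℝ) (q : ℕ) (a : ℤ), 1 ≤ q → q ≤ Q' i → Int.gcd a q = 1 →
      |q * α - a| ≤ Q' i / X → (Q i < q ∨ Q i / X < |q * α - a|) → ‖f α‖ ≤ Mx i) :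
    ‖(∫ α in -(Q i₀ / X)..-(Q i₀ / X) + 1, f α ^ (2 * v + u) * ee (-(α * n))) -
      ∑ q ∈ Icc 1 (Q i₀), ∑ a ∈ RR q, ∫ β in -(Q i₀ / X)..(Q i₀ / X),
        f ((a : ℝ) / q + β) ^ (2 * v + u) * ee (-(((a : ℝ) / q + β) * n))‖ ≤
      ∑ i ∈ Icc i₀ I, Mx i ^ u * ∑ q ∈ Icc 1 (Q' i), ∑ a ∈ NN q,
        ∫ β in -(Q' i / X / q)..(Q' i / X / q), ‖f ((a : ℝ) / q + β)‖ ^ (2 * v) := by
  have hQr : (1 : ℝ) ≤ Q i₀ := by exact_mod_cast hQ0
  have hX : 0 < X := lt_of_le_of_lt (by positivity) hQ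
  set η : ℝ := Q i₀ / X with hη
  have hη0 : 0 < η := by positivity
  have hη1 : 2 * (Q i₀ : ℝ) ^ 2 * η < 1 := by
    rw [hη, mul_div_assoc', div_lt_one hX]; linarith only [hQ]
  have hsq : (Q i₀ : ℝ) ≤ (Q i₀ : ℝ) ^ 2 := by linarith only [hQr, mul_nonneg_of_nonpos_of_nonpos (Mathlib.Tactic.Linarith.sub_nonpos_of_le (Mathlib.Tactic.Linarith.natCast_nonneg ℝ (Q i₀))) (Mathlib.Tactic.Linarith.sub_nonpos_of_le hQr)]
  have H := cover (fun α => f α ^ (2 * v + u) * ee (-(α * n))) (by fun_prop) (-η)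
    ((Icc 1 (Q i₀)).sigma RR) (fun p => (p.2 : ℝ) / p.1) (fun _ => η)
    ((Icc i₀ I).sigma fun i => (Icc 1 (Q' i)).sigma NN) (fun p => (p.2.2 : ℝ) / p.2.1)
    (fun p => Q' p.1 / X / p.2.1) (fun p α => Mx p.1 ^ u * ‖f α‖ ^ (2 * v))
    (fun _ _ => hη0.le) (fun p hp => ?_) (fun p hp p' hp' hne => ?_) (fun _ _ => by positivity)
    (fun _ _ => by fun_prop) (fun p hp α => by
      have := hM0 _ (mem_sigma.1 hp).1
      positivity) (fun α h1 h2 => ?_)
  · rw [sum_sigma, sum_sigma] at H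
    refine H.trans (le_of_eq (sum_congr rfl fun i _ => ?_))
    rw [sum_sigma]
    simp only [intervalIntegral.integral_const_mul, mul_sum]
  · simp only [mem_sigma, RR, mem_filter, mem_range, mem_Icc] at hp
    have a1 : (0 : ℝ) < p.1 := by exact_mod_cast hp.1.1
    have a2 : (p.1 : ℝ) ≤ Q i₀ := by exact_mod_cast hp.1.2
    have a3 : (p.2 : ℝ) + 1 ≤ p.1 := by exact_mod_cast hp.2.1
    refine ⟨by have : (0 : ℝ) ≤ (p.2 : ℝ) / p.1 := by positivity
               linarith only [this], ?_⟩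
    have : (p.2 : ℝ) / p.1 ≤ 1 - 2 * η := by
      rw [div_le_iff₀ a1]; linarith only [hη1, a3, hη0, hsq, a2, mul_nonneg_of_nonpos_of_nonpos (le_of_lt (Mathlib.Tactic.Linarith.sub_neg_of_lt hη0)) (Mathlib.Tactic.Linarith.sub_nonpos_of_le hsq), mul_nonneg_of_nonpos_of_nonpos (le_of_lt (Mathlib.Tactic.Linarith.sub_neg_of_lt hη0)) (Mathlib.Tactic.Linarith.sub_nonpos_of_le a2)]
    linarith only [this]
  · simp only [mem_sigma, RR, mem_filter, mem_range] at hp hp'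
    have h1 := farey_spaced hp.1 hp'.1 hp.2.1 hp'.2.1 hp.2.2 hp'.2.2 fun h => hne (by
      rcases p with ⟨_, _⟩; rcases p' with ⟨_, _⟩
      simp only [Prod.mk.injEq] at h
      obtain ⟨rfl, rfl⟩ := h; rfl)
    have h2 := dZ_le ((p.2 : ℝ) / p.1 - (p'.2 : ℝ) / p'.1) 0
    simp only [Int.cast_zero, sub_zero] at h2
    refine lt_of_lt_of_le ?_ (h1.trans h2)
    push_cast
    rw [lt_div_iff₀ (by positivity)]; linarith only [hη1]
  · by_cases h0 : Pm X (Q i₀) α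
    · left
      obtain ⟨q, a, hq1, hq2, ha, h⟩ := h0
      have a1 : (1 : ℝ) ≤ q := by exact_mod_cast hq1
      have a2 : (q : ℝ) ≤ Q i₀ := by exact_mod_cast hq2
      rw [← hη] at h
      have h' := abs_le.1 h
      have a3 : 0 ≤ a := by
        have : (-1 : ℝ) < a := by linarith only [hη1, h', h1, hQr, hη0, hsq, a2, mul_nonneg_of_nonpos_of_nonpos (Mathlib.Tactic.Linarith.sub_nonpos_of_le (Mathlib.Tactic.Linarith.natCast_nonneg ℝ q)) (Mathlib.Tactic.Linarith.sub_nonpos_of_le h1), mul_nonneg_of_nonpos_of_nonpos (Mathlib.Tactic.Linarith.sub_nonpos_of_le hQr) (le_of_lt (Mathlib.Tactic.Linarith.sub_neg_of_lt hη0)), mul_nonneg_of_nonpos_of_nonpos (le_of_lt (Mathlib.Tactic.Linarith.sub_neg_of_lt hη0)) (Mathlib.Tactic.Linarith.sub_nonpos_of_le hsq), mul_nonneg_of_nonpos_of_nonpos (le_of_lt (Mathlib.Tactic.Linarith.sub_neg_of_lt hη0)) (Mathlib.Tactic.Linarith.sub_nonpos_of_le a2)]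
        have : -1 < a := by exact_mod_cast this
        omega
      have a4 : a < q := by
        have : (a : ℝ) < q := by linarith only [h2, h', hη0, a1, mul_nonneg_of_nonpos_of_nonpos (le_of_lt (Mathlib.Tactic.Linarith.sub_neg_of_lt hη0)) (Mathlib.Tactic.Linarith.sub_nonpos_of_le a1), mul_nonneg_of_nonpos_of_nonpos (le_of_lt (Mathlib.Tactic.Linarith.sub_neg_of_lt h2)) (Mathlib.Tactic.Linarith.sub_nonpos_of_le a1)]
        exact_mod_cast this
      lift a to ℕ using a3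
      refine ⟨⟨q, a⟩, ?_, ?_⟩
      · simp only [mem_sigma, RR, mem_filter, mem_range, mem_Icc]
        exact ⟨⟨hq1, hq2⟩, by exact_mod_cast a4, by simpa using ha⟩
      · have e : α - (a : ℝ) / q = (q * α - (a : ℤ)) / q := by push_cast; field_simp
        rw [e, abs_div, abs_of_pos (by linarith only [a1] : (0 : ℝ) < q)]
        exact (div_le_self (abs_nonneg _) a1).trans h
    · right
      obtain ⟨i, hi, hp, hp'⟩ := classify (fun i => Pm X (Q i) α) hI h0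
      have h3 : Pm X (Q' i) α := by
        rcases (mem_Icc.1 hi).2.lt_or_eq with h | h
        · rw [hQ1 i h]; exact hp' h
        · rw [h]
          refine Pm_of_le hX (Nat.pos_of_ne_zero fun h => ?_) hQ2 α
          rw [h] at hQ2; simp at hQ2; linarith only [hX, hQ2]
      obtain ⟨q, a, hq1, hq2, ha, h⟩ := h3
      have a1 : (1 : ℝ) ≤ q := by exact_mod_cast hq1
      have h4 := abs_le.1 (h.trans ((div_le_one hX).2 (hQ3 i hi)))
      have hη2 : η < 1 := by (refine lt_of_not_ge fun h_nl => ?_; linarith only [h_nl, hQr, hη1, hsq, mul_nonneg_of_nonpos_of_nonpos (Mathlib.Tactic.Linarith.sub_nonpos_of_le (sq_nonneg ↑(Q i₀))) (Mathlib.Tactic.Linarith.sub_nonpos_of_le h_nl)])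
      refine ⟨⟨i, q, a⟩, ?_, ?_, ?_⟩
      · simp only [mem_sigma, NN, mem_filter]
        refine ⟨hi, mem_Icc.2 ⟨hq1, hq2⟩, mem_Icc.2 ⟨?_, ?_⟩, ha⟩
        · have : -(q : ℝ) - 1 < a := by linarith only [h4, h1, hQr, hη0, hη1, hsq, hη2, a1, mul_nonneg_of_nonpos_of_nonpos (Mathlib.Tactic.Linarith.sub_nonpos_of_le (Mathlib.Tactic.Linarith.natCast_nonneg ℝ q)) (Mathlib.Tactic.Linarith.sub_nonpos_of_le h1), mul_nonneg_of_nonpos_of_nonpos (Mathlib.Tactic.Linarith.sub_nonpos_of_le hQr) (le_of_lt (Mathlib.Tactic.Linarith.sub_neg_of_lt hη0)), mul_pos_of_neg_of_neg (Mathlib.Tactic.Linarith.sub_neg_of_lt hη0) (Mathlib.Tactic.Linarith.sub_neg_of_lt hη0), mul_pos_of_neg_of_neg (Mathlib.Tactic.Linarith.sub_neg_of_lt hη0) (Mathlib.Tactic.Linarith.sub_neg_of_lt hη1), mul_nonneg_of_nonpos_of_nonpos (le_of_lt (Mathlib.Tactic.Linarith.sub_neg_of_lt hη0)) (Mathlib.Tactic.Linarith.sub_nonpos_of_le hsq), mul_pos_of_neg_of_neg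 (Mathlib.Tactic.Linarith.sub_neg_of_lt hη0) (Mathlib.Tactic.Linarith.sub_neg_of_lt hη2), mul_pos_of_neg_of_neg (Mathlib.Tactic.Linarith.sub_neg_of_lt hη1) (Mathlib.Tactic.Linarith.sub_neg_of_lt hη2), mul_nonneg_of_nonpos_of_nonpos (Mathlib.Tactic.Linarith.sub_nonpos_of_le a1) (le_of_lt (Mathlib.Tactic.Linarith.sub_neg_of_lt hη2))]
          have : -(q : ℤ) - 1 < a := by exact_mod_cast this
          omega
        · have : (a : ℝ) ≤ 2 * q := by linarith only [a1, h4, hη0, h2, mul_nonneg_of_nonpos_of_nonpos (Mathlib.Tactic.Linarith.sub_nonpos_of_le (Mathlib.Tactic.Linarith.natCast_nonneg ℝ q)) (le_of_lt (Mathlib.Tactic.Linarith.sub_neg_of_lt hη0)), mul_nonneg_of_nonpos_of_nonpos (Mathlib.Tactic.Linarith.sub_nonpos_of_le (Mathlib.Tactic.Linarith.natCast_nonneg ℝ q)) (le_of_lt (Mathlib.Tactic.Linarith.sub_neg_of_lt h2))]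
          exact_mod_cast this
      · have e : α - (a : ℝ) / q = (q * α - a) / q := by field_simp
        rw [e, abs_div, abs_of_pos (by linarith only [hη0, a1, hη2] : (0 : ℝ) < q)]
        gcongr
      · have h5 := hM i hi α q a hq1 hq2 ha h (by
          by_contra hc
          push Not at hc
          exact hp ⟨q, a, hq1, hc.1, ha, hc.2⟩)
        simp only [norm_mul, norm_ee, mul_one, norm_pow]
        rw [pow_add, mul_comm]
        gcongr

theorem waring_of_adm {k t v u : ℕ} {Δt Δv : ℝ} (ht : Adm k (t + 1) Δt) (hv : Adm k v Δv)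
    (hk : k ≤ 2 * (t + 1) ^ 2) (hk3 : 3 ≤ k) (hv3 : 3 * k + 1 ≤ 2 * v) (hs : 5 * k ≤ 2 * v + u)
    (hγ : Δv < u * ((k - 2 * Δt) / (4 * (t + 1) ^ 2))) :
    ∃ n₀ : ℕ, ∀ n : ℕ, n₀ ≤ n → ∃ x : Fin (2 * v + u) → ℕ, n = ∑ i, x i ^ k := by
  obtain ⟨γ, hγ0, hγ⟩ : ∃ γ, 0 < γ ∧ Δv + γ ≤ u * ((k - 2 * Δt) / (4 * (t + 1) ^ 2)) :=
    ⟨_, sub_pos.2 hγ, by linarith only []⟩
  obtain ⟨c, hc, h1⟩ := level_bound ht hv hk (by omega) hv3 hγ0 hγ
  obtain ⟨i₀, hi₀, hi₁⟩ : ∃ i₀ : ℕ, 1 ≤ i₀ ∧ ((k + 1 : ℕ) : ℝ) * c + 1 ≤ i₀ * γ := by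
    obtain ⟨i, hi⟩ := exists_nat_ge ((((k + 1 : ℕ) : ℝ) * c + 1) / γ)
    rw [div_le_iff₀ hγ0] at hi
    exact ⟨i + 1, by omega, by push_cast at hi ⊢; linarith only [hγ0, hi]⟩
  set L := 5 * (i₀ * k) + 2 with hL
  obtain ⟨I, hI₀, hI₁⟩ : ∃ I : ℕ, i₀ ≤ I ∧ (((L + 1) * k + 1 : ℕ) : ℝ) * c + 1 ≤ I * γ := by
    obtain ⟨i, hi⟩ := exists_nat_ge (((((L + 1) * k + 1 : ℕ) : ℝ) * c + 1) / γ)
    rw [div_le_iff₀ hγ0] at hi
    refine ⟨i + i₀, by omega, ?_⟩
    have : 0 ≤ i₀ * γ := by positivity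
    push_cast at hi ⊢; linarith only [this, hi]
  set J := 2 * I with hJ
  set s := 2 * v + u with hsdef
  have hs0 : 0 < s := by omega
  obtain ⟨C, hC, h1⟩ := h1 J (2 ^ (J + 1)) Nat.one_le_two_pow
  obtain ⟨c', hc', C', hC', R₀, h2⟩ := major (J := J) hk3 hs
    (show 1 ≤ i₀ * k from Nat.mul_pos hi₀ (by omega)) hL.ge
  have hJs : (0 : ℝ) < J * s := by
    have : 0 < J * s := Nat.mul_pos (by omega) hs0
    exact_mod_cast this
  obtain ⟨R₁, h3⟩ := exists_pool (1 / (2 * (J * s))) (by positivity)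
  obtain ⟨R₂, h4⟩ := exists_nat_gt (((C' + (I + 1) * C) / c') ^ 2)
  obtain ⟨E, hE⟩ : ∃ E, 2 ^ (J + L) ≤ E := ⟨_, le_rfl⟩
  obtain ⟨R₃, hR₃⟩ : ∃ R₃, R₃ = R₀ + R₁ + R₂ + 3 * k + E := ⟨_, rfl⟩
  refine ⟨2 * s * ((2 * R₃) ^ J * R₃ ^ L) ^ k, fun n hn => ?_⟩
  obtain ⟨R, hR, hR1, hR2⟩ := exists_floor (fun R => 2 * s * ((2 * R) ^ J * R ^ L) ^ k)
    (fun R => by
      rcases Nat.eq_zero_or_pos R with rfl | hR
      · exact Nat.zero_le _
      calc R ≤ R ^ L := Nat.le_self_pow (by omega) R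
        _ ≤ (2 * R) ^ J * R ^ L := Nat.le_mul_of_pos_left _ (by positivity)
        _ ≤ ((2 * R) ^ J * R ^ L) ^ k := Nat.le_self_pow (by omega) _
        _ ≤ _ := Nat.le_mul_of_pos_left _ (by positivity)) hn
  have hR0 : 0 < R := by omega
  obtain ⟨Y, hY, hY1, hY2⟩ := exists_floor (fun Y => 2 * s * ((2 * R) ^ J * Y) ^ k)
    (fun Y => by
      calc Y ≤ (2 * R) ^ J * Y := Nat.le_mul_of_pos_left _ (by positivity)
        _ ≤ ((2 * R) ^ J * Y) ^ k := Nat.le_self_pow (by omega) _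
        _ ≤ _ := Nat.le_mul_of_pos_left _ (by positivity)) hR1
  have hRY : R ≤ Y := (Nat.le_self_pow (by omega) R).trans hY
  have hY3 : n ≤ 3 * s * ((2 * R) ^ J * Y) ^ k := by
    refine hY2.le.trans ?_
    have := succ_pow_le (k := k) (Y := Y) (by omega)
    calc _ = s * ((2 * R) ^ J) ^ k * (2 * (Y + 1) ^ k) := by rw [mul_pow]; ring
      _ ≤ s * ((2 * R) ^ J) ^ k * (3 * Y ^ k) := by gcongr
      _ = _ := by ring
  have hY4 : Y ≤ R ^ (L + 1) := by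
    clear * - R J Y L k s n hY1 hR2 t v u i₀ I R₀ R₁ R₂ E R₃ hR0 hE hk3 hR₃ hR
    have a1 := lt_of_pow_lt_pow_left₀ k (Nat.zero_le _)
      (lt_of_mul_lt_mul_left (hY1.trans_lt hR2) (Nat.zero_le _))
    have a2 : (2 * (R + 1)) ^ J * (R + 1) ^ L ≤ (2 * R) ^ J * R ^ (L + 1) := by
      calc _ ≤ (2 * (2 * R)) ^ J * (2 * R) ^ L := by gcongr <;> omega
        _ = (2 * R) ^ J * (R ^ L * 2 ^ (J + L)) := by rw [mul_pow 2 (2 * R)]; ring
        _ ≤ (2 * R) ^ J * (R ^ L * R) := by gcongr; exact hE.trans (by omega)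
        _ = _ := by ring
    exact (lt_of_mul_lt_mul_left (a1.trans_le a2) (Nat.zero_le _)).le
  obtain ⟨S, hS, hScard⟩ := h3 R (by omega)
  have hr := hS.one_le
  have hr2 : (2 : ℝ) ≤ R := by exact_mod_cast hS.two
  have hY0 : 1 ≤ Y := by omega
  have hYr : (1 : ℝ) ≤ Y := by exact_mod_cast hY0
  set X : ℝ := ((R : ℝ) ^ J * Y) ^ k with hX
  have hX0 : 0 < X := by positivity
  set Θ : ℕ → ℕ := fun i => if i < I then R ^ k else Y ^ k with hΘ
  have hΘ1 : ∀ i, 1 ≤ Θ i := fun i => by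
    simp only [hΘ]; split_ifs <;> exact Nat.one_le_pow _ _ (by omega)
  have h5 := fun (i : ℕ) (hi : i ∈ Icc i₀ I) => h1 R S Y i (Θ i) X hS (by omega) hY0
    (by have := (mem_Icc.1 hi).2; omega) (hΘ1 i) hX
  choose! Mx hM0 hM hM' using h5
  have H := dissect (ff S k J Y (2 ^ (J + 1) * Y)) (continuous_ff _ _ _ _ _) n v u (X := X) hI₀
    (fun i => R ^ (i * k)) (fun i => Θ i * R ^ (i * k)) Mx (by
      clear * - R L Y hY X J hY0 hr k hYr t v u hk3 i₀ I R₀ R₁ R₂ E R₃ n hr2 hR0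
      have a1 : (R : ℝ) ^ L ≤ Y := by exact_mod_cast hY
      have a2 : (Y : ℝ) ≤ X := le_trans (le_mul_of_one_le_left (by positivity) (one_le_pow₀ hr))
        (le_self_pow₀ (one_le_mul_of_one_le_of_one_le (one_le_pow₀ hr) hYr) (by omega))
      refine lt_of_lt_of_le ?_ (a1.trans a2)
      push_cast
      calc 2 * ((R : ℝ) ^ (i₀ * k)) ^ 3 < (R : ℝ) ^ 2 * ((R : ℝ) ^ (i₀ * k)) ^ 3 := by
            gcongr; linarith only [hr2, mul_nonneg_of_nonpos_of_nonpos (Mathlib.Tactic.Linarith.sub_nonpos_of_le (Mathlib.Tactic.Linarith.natCast_nonneg ℝ R)) (Mathlib.Tactic.Linarith.sub_nonpos_of_le hr2)]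
        _ = (R : ℝ) ^ (3 * (i₀ * k) + 2) := by ring
        _ ≤ _ := pow_le_pow_right₀ hr (by omega)) (Nat.one_le_pow _ _ hR0)
    (fun i hi => by simp only [hΘ, if_pos hi]; ring) (by
      clear * - X Θ I R k Y hΘ J hX hJ hYr hR0 hM hM0 hRY
      simp only [hΘ, lt_irrefl, if_false]
      push_cast
      calc X = ((R : ℝ) ^ (I * k)) ^ 2 * Y ^ k := by rw [hX, hJ]; ring
        _ ≤ ((R : ℝ) ^ (I * k)) ^ 2 * (Y ^ k) ^ 2 := by
            gcongr; exact le_self_pow₀ (one_le_pow₀ hYr) two_ne_zero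
        _ = _ := by ring) (fun i hi => by
      have a1 : Θ i ≤ Y ^ k := by
        simp only [hΘ]; split_ifs
        · exact Nat.pow_le_pow_left hRY k
        · exact le_rfl
      have a2 : (Θ i : ℝ) ≤ Y ^ k := by exact_mod_cast a1
      have a3 := (mem_Icc.1 hi).2
      push_cast
      calc _ ≤ Y ^ k * (R : ℝ) ^ (J * k) := by gcongr; omega
        _ = _ := by rw [hX]; ring) hM0 (fun i hi α q a b1 b2 b3 b4 b5 =>
      hM i hi α q a b1 b2 b3 (by simpa using b4) (by simpa using b5))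
  have h6 := h2 R S Y n X (by omega) hS hY hX hY1 hY3
  push_cast at H
  refine exists_rep (S := S) (J := J) (Y := Y) (Z := 2 ^ (J + 1) * Y)
    (A := -((R : ℝ) ^ (i₀ * k) / X)) fun h0 => ?_
  rw [h0, zero_sub, norm_neg] at H
  set W : ℝ := ((R : ℝ) ^ J * Y) ^ s with hW
  have hW0 : 0 < W := by positivity
  have h7 : ∀ i ∈ Icc i₀ I, C * ((Θ i : ℝ) * R) ^ c * ((R : ℝ) ^ i) ^ (-γ) * W / X ≤
      C * W / (X * R) := by
    clear * - i₀ I Θ R c γ C W X k Y hΘ hi₁ hγ0 L hY4 hI₁ hR0 hY0 hc hr2 hr v u J s hC hX0 hW0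
    intro i hi
    obtain ⟨e, he1, he2⟩ : ∃ e : ℕ, Θ i * R ≤ R ^ e ∧ e * c + 1 ≤ i * γ := by
      clear * - i I Θ R c γ i₀ hi k Y hΘ hi₁ hγ0 L hY4 hI₁
      rcases (mem_Icc.1 hi).2.lt_or_eq with h | h
      · refine ⟨k + 1, by simp only [hΘ, if_pos h]; rw [pow_succ], hi₁.trans ?_⟩
        have := (mem_Icc.1 hi).1
        gcongr
      · refine ⟨(L + 1) * k + 1, ?_, h ▸ hI₁⟩
        simp only [hΘ, h, lt_irrefl, if_false]
        rw [pow_succ, pow_mul]; gcongr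
    have a1 : ((Θ i : ℝ) * R) ^ c * ((R : ℝ) ^ i) ^ (-γ) ≤ (R : ℝ)⁻¹ := by
      clear * - Θ i R e he1 c γ I k Y hR0 hY0 hc hr2 hr he2
      have : (Θ i : ℝ) * R ≤ R ^ e := by exact_mod_cast he1
      calc _ ≤ ((R : ℝ) ^ e) ^ c * ((R : ℝ) ^ i) ^ (-γ) := by gcongr
        _ = (R : ℝ) ^ (e * c + i * -γ) := by
            rw [Real.rpow_add (by linarith only [hr2]), Real.rpow_natCast_mul (by linarith only [hr2]),
              Real.rpow_natCast_mul (by linarith only [hr2])]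
        _ ≤ (R : ℝ) ^ (-1 : ℝ) := Real.rpow_le_rpow_of_exponent_le hr (by linarith only [he2])
        _ = _ := Real.rpow_neg_one _
    calc _ = C * (((Θ i : ℝ) * R) ^ c * ((R : ℝ) ^ i) ^ (-γ)) * W / X := by ring
      _ ≤ C * (R : ℝ)⁻¹ * W / X := by clear * - C Θ i R c γ W X a1 hC J Y hR0 hY0 s k; gcongr
      _ = _ := by field_simp
  have h8 := (h6.trans ((Complex.re_le_norm _).trans H)).trans
    (sum_le_card_nsmul _ _ _ fun i hi => (hM' i hi).trans (h7 i hi))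
  have h9 : ((Icc i₀ I).card : ℝ) ≤ I + 1 := by
    rw [Nat.card_Icc]; exact_mod_cast Nat.sub_le _ _
  have h10 : W ≤ ((S.card : ℝ) ^ J * Y) ^ s * √R := by
    clear * - R J s hr2 hJs W S Y hW I v u hR0 hScard hY0
    have a1 : ((R : ℝ) ^ (1 - 1 / (2 * (J * s)) : ℝ)) ^ (J * s) * √R = R ^ (J * s) := by
      rw [← Real.rpow_mul_natCast (by linarith only [hr2]), Real.sqrt_eq_rpow, ← Real.rpow_add (by linarith only [hr2]),
        ← Real.rpow_natCast]
      congr 1; push_cast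
      generalize (J : ℝ) * s = z at hJs
      field_simp; ring
    calc W = (R : ℝ) ^ (J * s) * Y ^ s := by rw [hW]; ring
      _ = ((R : ℝ) ^ (1 - 1 / (2 * (J * s)) : ℝ)) ^ (J * s) * √R * Y ^ s := by rw [a1]
      _ ≤ (S.card : ℝ) ^ (J * s) * √R * Y ^ s := by gcongr
      _ = _ := by ring
  have h11 : (C' + (I + 1) * C) / c' < √R := by
    refine Real.lt_sqrt_of_sq_lt (h4.trans_le ?_)
    exact_mod_cast (by omega : R₂ ≤ R)
  rw [div_lt_iff₀ hc'] at h11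
  rw [nsmul_eq_mul] at h8
  have h12 : c' * ((S.card : ℝ) ^ J * Y) ^ s / X ≤ (C' + (I + 1) * C) * W / (X * R) := by
    clear * - i₀ I C W X R h9 hC J Y hR0 hY0 s k c' S C' v u h8
    have : ((Icc i₀ I).card : ℝ) * (C * W / (X * R)) ≤ (I + 1) * (C * W / (X * R)) := by gcongr
    calc _ ≤ C' * W / (X * R) + (I + 1) * (C * W / (X * R)) := by linarith only [h8, this]
      _ = _ := by ring
  rw [div_le_div_iff₀ hX0 (by positivity)] at h12
  have h13 : √R * √R = R := Real.mul_self_sqrt (by linarith only [hr2])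
  have h14 : 0 < √R := Real.sqrt_pos.2 (by linarith only [hr2])
  have h15 : (C' + (I + 1) * C) * W * X < √R * c' * W * X := by clear * - X C' I C W R c' h11 J Y hR0 hY0 s k; gcongr
  have h16 : √R * c' * W * X ≤ √R * c' * (((S.card : ℝ) ^ J * Y) ^ s * √R) * X := by clear * - X R c' W S J Y s h10 hR0 hc' hY0 k; gcongr
  have h17 : √R * c' * (((S.card : ℝ) ^ J * Y) ^ s * √R) * X =
      c' * ((S.card : ℝ) ^ J * Y) ^ s * (X * (√R * √R)) := by ring
  rw [h17, h13] at h16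
  linarith only [h12, h15, h16]

end

end Pool.Agent.Work.MP_45c923_nt
end
end

-- merged part: Pool.Agent.Work.MP_45c923_nt.Linear
section
set_option autoImplicit false

namespace Pool.Agent.Work.MP_45c923_nt

open Finset Pool.Agent.Lib.LargeSieve

noncomputable section

theorem Adm.succ {k s : ℕ} {Δ : ℝ} (h : Adm k s Δ) : Adm k (s + 1) Δ := by
  obtain ⟨c, hc, h⟩ := h
  refine ⟨c, hc, fun n => ?_⟩
  obtain ⟨C, hC, h⟩ := h n
  refine ⟨C * 4 ^ n, by positivity, fun R S hS hk => ?_⟩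
  have hr := hS.one_le
  have hr0 : (0 : ℝ) < R := by linarith
  have h1 : ∀ α, ‖GG S k n α‖ ≤ (2 * R : ℝ) ^ n := fun α => by
    refine (norm_sum_le _ _).trans ?_
    simp only [norm_ee, sum_const, card_TT, nsmul_eq_mul, mul_one]
    exact_mod_cast Nat.pow_le_pow_left hS.card_le n
  have h2 : MV S k (s + 1) n ≤ ((2 * R : ℝ) ^ n) ^ 2 * MV S k s n := by
    rw [MV_eq, MV_eq, ← intervalIntegral.integral_const_mul]
    refine int_mono zero_le_one (by fun_prop) (by fun_prop) fun α _ => ?_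
    rw [mul_add, pow_add, mul_comm, mul_one]
    gcongr
    exact h1 α
  refine h2.trans ((mul_le_mul_of_nonneg_left (h R S hS hk) (by positivity)).trans (le_of_eq ?_))
  rw [show (2 * ((s + 1 : ℕ) : ℝ) - k + Δ) = (2 * s - k + Δ) + (2 : ℕ) by push_cast; ring,
    Real.rpow_add hr0 _ (2 : ℕ), Real.rpow_natCast, mul_pow, mul_pow, mul_pow, ← pow_mul, ← pow_mul,
    ← pow_mul, show (4 : ℝ) = 2 ^ 2 by norm_num, ← pow_mul]
  ring

namespace LinearAux

lemma add {k s : ℕ} {Δ : ℝ} (h : Adm k s Δ) (a : ℕ) : Adm k (s + a) Δ := by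
  induction a with
  | zero => exact h
  | succ a ih => exact ih.succ

lemma decay {x : ℝ} (h1 : x ≤ 1) {t : ℕ} (ht : 5 ≤ x * t) : (1 - x) ^ t ≤ 1 / 128 := by
  have a : (1 - x) ^ t ≤ Real.exp (-x) ^ t :=
    pow_le_pow_left₀ (by linarith) (by linarith [Real.add_one_le_exp (-x)]) t
  have b : Real.exp (-x) ^ t ≤ Real.exp (-5) := by
    rw [← Real.exp_nat_mul, Real.exp_le_exp]; linarith
  have c : (128 : ℝ) ≤ Real.exp 5 := by
    have h := Real.exp_one_gt_d9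
    have : Real.exp 5 = Real.exp 1 ^ 5 := by rw [← Real.exp_nat_mul]; norm_num
    rw [this]
    calc (128 : ℝ) ≤ 2.7 ^ 5 := by norm_num
      _ ≤ _ := pow_le_pow_left₀ (by norm_num) (by linarith only [h]) 5
  refine a.trans (b.trans ?_)
  rw [Real.exp_neg, one_div]
  exact inv_anti₀ (by norm_num) c

end LinearAux

/-- one stage of the iteration -/
theorem adm_stage {k s i : ℕ} (hi : 32 * 2 ^ i ≤ k) (hks : k ≤ s)
    (h : Adm k s (1 + (k : ℝ) / 2 ^ (7 * i))) :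
    Adm k (s + (2 ^ 31 + 5) * (k / 2 ^ i + 1)) (1 + (k : ℝ) / 2 ^ (7 * (i + 1))) := by
  have hj : 1 ≤ 2 ^ i := Nat.one_le_two_pow
  have hWB := W_bound k (2 ^ i) hj hi
  set κ := k / 2 ^ i + 1 with hκ
  have hκ1 : (k : ℝ) ≤ 2 ^ i * κ := by
    have := Nat.lt_mul_div_succ k (show 0 < 2 ^ i by omega)
    exact_mod_cast this.le
  have hJ : (1 : ℝ) ≤ 2 ^ i := by exact_mod_cast hj
  have hi' : (32 * 2 ^ i : ℝ) ≤ k := by exact_mod_cast hi
  have hk0 : (0 : ℝ) < k := by linarith only [hJ, hi']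
  set E : ℝ := k / 2 ^ (7 * i) with hE
  have hE0 : 0 ≤ E := by positivity
  set x : ℝ := ((2 ^ i : ℕ) : ℝ) / k with hx
  have hx1 : x ≤ 1 := by rw [hx, div_le_one hk0]; push_cast; linarith only [hJ, hi']
  obtain ⟨a, ha⟩ : ∃ a : ℕ, a = 2 ^ 31 * κ := ⟨_, rfl⟩
  have ha' : (a : ℝ) = 2 ^ 31 * κ := by rw [ha]; push_cast; ring
  have key : ∀ t : ℕ, Adm k (s + a + t) (1 + (1 - x) ^ t * E) := by
    intro t
    induction t with
    | zero => simpa using LinearAux.add h a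
    | succ t ih =>
      have := Adm.prune hWB (by omega) hi (by positivity) (by
        rw [div_le_div_iff₀ (by positivity) (by norm_num)]
        have : (1 : ℝ) ≤ ((2 ^ i : ℕ) : ℝ) ^ 6 := one_le_pow₀ (by exact_mod_cast hj)
        linarith only [this]) ih h (by omega) (by omega) (mul_nonneg (pow_nonneg (by linarith only [hx1]) t) hE0) (by
        have e1 : E ≤ 2 * (1 / (2 ^ 32 * ((2 ^ i : ℕ) : ℝ) ^ 6)) * a := by
          rw [hE, div_le_iff₀ (by positivity), ha']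
          refine hκ1.trans (le_of_eq ?_)
          push_cast
          rw [show 7 * i = i * 6 + i by ring, pow_add, pow_mul]
          field_simp
        refine e1.trans (mul_le_mul_of_nonneg_left ?_ (by positivity))
        push_cast
        have : (0 : ℝ) ≤ t := by positivity
        linarith only [])
      rw [← mul_assoc, ← pow_succ'] at this
      exact this
  have h5 := (key (5 * κ)).mono (Δ' := 1 + (k : ℝ) / 2 ^ (7 * (i + 1))) (by
    have := LinearAux.decay hx1 (t := 5 * κ) (by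
      rw [hx, div_mul_eq_mul_div, le_div_iff₀ hk0]; push_cast; linarith only [hκ1])
    have e : (k : ℝ) / 2 ^ (7 * (i + 1)) = 1 / 128 * E := by
      rw [hE, mul_add, pow_add]; field_simp; norm_num
    rw [e]
    gcongr)
  rwa [add_mul, ← add_assoc, ← ha]

theorem adm_linear (k : ℕ) (hk : 32 ≤ k) : ∃ v : ℕ, 2 * k ≤ v ∧ v ≤ 2 ^ 34 * k ∧ Adm k v 2 := by
  have key : ∀ i : ℕ, (∀ i' < i, 2 ^ (7 * i') < k) → ∃ s : ℕ, 2 * k ≤ s ∧
      s + (2 ^ 31 + 5) * (2 * (k / 2 ^ i)) ≤ 2 * k + (2 ^ 31 + 5) * (2 * k + i) ∧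
      Adm k s (1 + (k : ℝ) / 2 ^ (7 * i)) := by
    intro i
    induction i with
    | zero =>
      exact fun _ => ⟨2 * k, le_rfl, by simp, (adm_triv k _).mono (by simp)⟩
    | succ i ih =>
      intro hi
      obtain ⟨s, h1, h2, h3⟩ := ih fun i' h => hi i' (by omega)
      have h4 : 32 * 2 ^ i ≤ k := by
        rcases Nat.eq_zero_or_pos i with rfl | h0
        · simpa using hk
        · have a := hi i (by omega)
          have b : 2 ^ (5 + i) ≤ 2 ^ (7 * i) := Nat.pow_le_pow_right (by norm_num) (by omega)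
          rw [pow_add] at b
          omega
      refine ⟨_, by omega, ?_, adm_stage h4 (by omega) h3⟩
      have : 2 * (k / 2 ^ (i + 1)) ≤ k / 2 ^ i := by
        rw [pow_succ, ← Nat.div_div_eq_div_mul]; omega
      omega
  have hex : ∃ i, k ≤ 2 ^ (7 * i) := ⟨k, Nat.lt_two_pow_self.le.trans
    (Nat.pow_le_pow_right (by norm_num) (by omega))⟩
  obtain ⟨s, h1, h2, h3⟩ := key (Nat.find hex) fun i' h => not_le.1 (Nat.find_min hex h)
  have h4 : Nat.find hex ≤ k := Nat.find_min' hex (Nat.lt_two_pow_self.le.trans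
    (Nat.pow_le_pow_right (by norm_num) (by omega)))
  refine ⟨s, h1, by omega, h3.mono ?_⟩
  have h5 : (k : ℝ) ≤ 2 ^ (7 * Nat.find hex) := by exact_mod_cast Nat.find_spec hex
  have := (div_le_one (by positivity)).2 h5
  linarith only [hex, this]

theorem waring_linear : ∃ C : ℕ, ∀ k : ℕ, 2 ≤ k → ∃ m : ℕ, m ≤ C * k ∧
    ∃ n₀ : ℕ, ∀ n : ℕ, n₀ ≤ n → ∃ x : Fin m → ℕ, n = ∑ i, x i ^ k := by
  refine ⟨(2 ^ 35 + 2 ^ 73) * 32, fun k hk => ?_⟩
  obtain ⟨v, h1, h2, h3⟩ := adm_linear (32 * k) (by omega)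
  obtain ⟨t, rfl⟩ : ∃ t, v = t + 1 := ⟨v - 1, by omega⟩
  obtain ⟨n₀, h⟩ := waring_of_adm (u := 2 ^ 73 * (32 * k)) h3 h3 (by linarith only [hk, h1, mul_nonneg_of_nonpos_of_nonpos (Mathlib.Tactic.Linarith.sub_nonpos_of_le (Mathlib.Tactic.Linarith.natCast_nonneg ℤ t)) (Mathlib.Tactic.Linarith.sub_nonpos_of_le (Mathlib.Tactic.Linarith.natCast_nonneg ℤ t))]) (by omega)
    (by omega) (by omega) (by
      have a : ((t : ℝ) + 1) ≤ 2 ^ 34 * (32 * k) := by exact_mod_cast h2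
      have b : (2 : ℝ) ≤ k := by exact_mod_cast hk
      have c : ((t : ℝ) + 1) ^ 2 ≤ (2 ^ 34 * (32 * k)) ^ 2 :=
        pow_le_pow_left₀ (by positivity) a 2
      rw [← mul_div_assoc, lt_div_iff₀ (by positivity)]
      push_cast
      linarith only [b, c, mul_nonneg_of_nonpos_of_nonpos (Mathlib.Tactic.Linarith.sub_nonpos_of_le (Mathlib.Tactic.Linarith.natCast_nonneg ℝ k)) (Mathlib.Tactic.Linarith.sub_nonpos_of_le b)])
  refine ⟨2 * (t + 1) + 2 ^ 73 * (32 * k), by omega, n₀, fun n hn => ?_⟩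
  obtain ⟨x, hx⟩ := h n hn
  exact ⟨fun i => x i ^ 32, by simpa only [pow_mul] using hx⟩

end

end Pool.Agent.Work.MP_45c923_nt
end
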