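import Pool.Agent.Lib.LargeSieve.Additive

/-!
# Exponential sums, positive kernels and the associated quadratic forms
-/

set_option autoImplicit false

namespace Pool.Agent.Work.MP_45c923_nt

open Finset Pool.Agent.Lib.LargeSieve

noncomputable section

@[fun_prop] lemma continuous_ee : Continuous ee := by unfold ee; fun_prop

lemma int_sum {ι E : Type*} [NormedAddCommGroup E] [NormedSpace ℝ E] (s : Finset ι)
    (f : ι → ℝ → E) (hf : ∀ i ∈ s, Continuous (f i)) (a b : ℝ) :
    ∫ x in a..b, ∑ i ∈ s, f i x = ∑ i ∈ s, ∫ x in a..b, f i x :=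
  intervalIntegral.integral_finsetSum fun i hi => (hf i hi).intervalIntegrable _ _

lemma int_mono {f g : ℝ → ℝ} {a b : ℝ} (hab : a ≤ b) (hf : Continuous f) (hg : Continuous g)
    (h : ∀ x ∈ Set.Icc a b, f x ≤ g x) : ∫ x in a..b, f x ≤ ∫ x in a..b, g x :=
  intervalIntegral.integral_mono_on hab (hf.intervalIntegrable _ _) (hg.intervalIntegrable _ _) h

lemma int_add {E : Type*} [NormedAddCommGroup E] [NormedSpace ℝ E] {f g : ℝ → E} {a b : ℝ}
    (hf : Continuous f) (hg : Continuous g) :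
    ∫ x in a..b, (f x + g x) = (∫ x in a..b, f x) + ∫ x in a..b, g x :=
  intervalIntegral.integral_add (hf.intervalIntegrable _ _) (hg.intervalIntegrable _ _)

lemma ee_sum {ι : Type*} (s : Finset ι) (f : ι → ℝ) : ee (∑ i ∈ s, f i) = ∏ i ∈ s, ee (f i) := by
  classical
  induction s using Finset.induction_on with
  | empty => simp
  | insert a s ha ih => rw [sum_insert ha, prod_insert ha, ee_add, ih]

lemma norm_ee_sub_one_le (x : ℝ) : ‖ee x - 1‖ ≤ 7 * |x| := by
  unfold ee
  rw [Complex.norm_exp_I_mul_ofReal_sub_one, Real.norm_eq_abs, abs_mul, abs_two]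
  have h := Real.abs_sin_le_abs (x := 2 * Real.pi * x / 2)
  have h2 : |2 * Real.pi * x / 2| = Real.pi * |x| := by
    rw [show 2 * Real.pi * x / 2 = Real.pi * x by ring, abs_mul, abs_of_pos Real.pi_pos]
  have h3 := Real.pi_lt_d2
  nlinarith [abs_nonneg x]

lemma norm_ee_sub_ee_le (x y : ℝ) : ‖ee x - ee y‖ ≤ 7 * |x - y| := by
  have : ee x - ee y = ee y * (ee (x - y) - 1) := by
    rw [mul_sub, ← ee_add]; simp
  rw [this, norm_mul, norm_ee, one_mul]
  exact norm_ee_sub_one_le _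

lemma integral_ee (m : ℤ) (A : ℝ) :
    ∫ α in A..A + 1, ee (α * m) = if m = 0 then 1 else 0 := by
  split_ifs with h
  · subst h; simp
  · have hc : (Complex.I * (2 * Real.pi * m) : ℂ) ≠ 0 := by
      have : (m : ℂ) ≠ 0 := by exact_mod_cast h
      have h2 : (Real.pi : ℂ) ≠ 0 := by exact_mod_cast Real.pi_ne_zero
      simp [this, h2, Complex.I_ne_zero]
    have h1 : ∀ α : ℝ, ee (α * m) = Complex.exp ((Complex.I * (2 * Real.pi * m)) * α) := by
      intro α; unfold ee; congr 1; push_cast; ring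
    simp_rw [h1]
    rw [integral_exp_mul_complex hc, ← h1, ← h1, add_mul, one_mul, ee_add_int]
    simp

/-- exponential sum attached to a finite family of integers -/
def ES {ι : Type*} (A : Finset ι) (φ : ι → ℤ) (α : ℝ) : ℂ := ∑ a ∈ A, ee (α * φ a)

@[fun_prop] lemma continuous_ES {ι : Type*} (A : Finset ι) (φ : ι → ℤ) : Continuous (ES A φ) := by
  unfold ES
  exact continuous_finsetSum _ fun a _ => continuous_ee.comp (by fun_prop)

lemma norm_ES_le {ι : Type*} (A : Finset ι) (φ : ι → ℤ) (α : ℝ) : ‖ES A φ α‖ ≤ A.card := by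
  unfold ES
  refine (norm_sum_le _ _).trans ?_
  simp

lemma ES_pow {ι : Type*} (A : Finset ι) (φ : ι → ℤ) (s : ℕ) (α : ℝ) :
    ES A φ α ^ s = ES (Fintype.piFinset fun _ : Fin s => A) (fun U => ∑ i, φ (U i)) α := by
  classical
  unfold ES
  rw [sum_pow']
  refine sum_congr rfl fun U _ => ?_
  rw [← ee_sum]; push_cast; rw [mul_sum]

lemma normSq_ES {ι : Type*} (A : Finset ι) (φ : ι → ℤ) (α : ℝ) :
    ((‖ES A φ α‖ ^ 2 : ℝ) : ℂ) = ∑ a ∈ A, ∑ b ∈ A, ee (α * ((φ a - φ b : ℤ) : ℝ)) := by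
  unfold ES
  rw [normSq_sum_eq]
  refine sum_congr rfl fun a _ => sum_congr rfl fun b _ => ?_
  rw [conj_ee, ← ee_add]; push_cast; ring_nf

/-- a nonnegative kernel `K` with nonnegative Fourier coefficients `ρ` -/
structure PD (K : ℝ → ℝ) (ρ : ℤ → ℝ) : Prop where
  cont : Continuous K
  nonneg : ∀ α, 0 ≤ K α
  coeff : ∀ m : ℤ, ∫ α in (0 : ℝ)..1, ee (α * m) * (K α : ℂ) = (ρ m : ℂ)
  pos : ∀ m, 0 ≤ ρ m
  symm : ∀ m, ρ (-m) = ρ m

/-- number of representations of `m` as a difference -/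
def rep {κ : Type*} (B : Finset κ) (χ : κ → ℤ) (m : ℤ) : ℝ :=
  ∑ b ∈ B, ∑ b' ∈ B, if χ b' - χ b = m then 1 else 0

lemma rep_nonneg {κ : Type*} (B : Finset κ) (χ : κ → ℤ) (m : ℤ) : 0 ≤ rep B χ m :=
  sum_nonneg fun _ _ => sum_nonneg fun _ _ => by split_ifs <;> norm_num

lemma pd_ES {κ : Type*} (B : Finset κ) (χ : κ → ℤ) :
    PD (fun α => ‖ES B χ α‖ ^ 2) (rep B χ) where
  cont := (continuous_ES B χ).norm.pow 2
  nonneg := fun α => by positivity
  coeff := fun m => by
    simp_rw [normSq_ES, mul_sum, ← ee_add]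
    have h1 : ∀ (b b' : κ) (α : ℝ), ee (α * m + α * ((χ b - χ b' : ℤ) : ℝ))
        = ee (α * ((m + (χ b - χ b') : ℤ) : ℝ)) := by
      intro b b' α; congr 1; push_cast; ring
    simp_rw [h1]
    have hc : ∀ n : ℤ, Continuous fun α : ℝ => ee (α * n) := fun n =>
      continuous_ee.comp (by fun_prop)
    rw [int_sum _ _ fun b _ => continuous_finsetSum _ fun b' _ => hc _]
    unfold rep
    rw [Complex.ofReal_sum]
    refine sum_congr rfl fun b _ => ?_
    rw [int_sum _ _ fun b' _ => hc _, Complex.ofReal_sum]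
    refine sum_congr rfl fun b' _ => ?_
    have := integral_ee (m + (χ b - χ b')) 0
    rw [zero_add] at this
    rw [this]
    by_cases h : χ b' - χ b = m
    · rw [if_pos h, if_pos (by omega)]; simp
    · rw [if_neg h, if_neg (by omega)]; simp
  pos := rep_nonneg B χ
  symm := fun m => by
    unfold rep
    rw [sum_comm]
    refine sum_congr rfl fun a _ => sum_congr rfl fun b _ => ?_
    congr 1
    apply propext; constructor <;> intro h <;> omega

/-- the quadratic form -/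
def QF {ι : Type*} (A : Finset ι) (φ : ι → ℤ) (ρ : ℤ → ℝ) : ℝ :=
  ∑ a ∈ A, ∑ b ∈ A, ρ (φ a - φ b)

namespace PD

variable {K : ℝ → ℝ} {ρ : ℤ → ℝ} (h : PD K ρ)
include h

lemma zero_eq : ρ 0 = ∫ α in (0 : ℝ)..1, K α := by
  have := h.coeff 0
  simp only [Int.cast_zero, mul_zero, ee_zero, one_mul] at this
  rw [intervalIntegral.integral_ofReal] at this
  exact_mod_cast this.symm

lemma sum_eq {ι : Type*} (A : Finset ι) (φ : ι → ℤ) :
    ((∑ a ∈ A, ρ (φ a) : ℝ) : ℂ) = ∫ α in (0 : ℝ)..1, ES A φ α * (K α : ℂ) := by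
  unfold ES
  simp_rw [sum_mul]
  have hK : Continuous fun α : ℝ => (K α : ℂ) := Complex.continuous_ofReal.comp h.cont
  rw [int_sum _ _ fun b _ => by fun_prop]
  push_cast
  exact sum_congr rfl fun a _ => (h.coeff _).symm

lemma QF_eq {ι : Type*} (A : Finset ι) (φ : ι → ℤ) :
    QF A φ ρ = ∫ α in (0 : ℝ)..1, ‖ES A φ α‖ ^ 2 * K α := by
  have h1 := h.sum_eq (A ×ˢ A) (fun p => φ p.1 - φ p.2)
  have h2 : ∀ α, ES (A ×ˢ A) (fun p => φ p.1 - φ p.2) α = ((‖ES A φ α‖ ^ 2 : ℝ) : ℂ) := by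
    intro α; rw [normSq_ES]; unfold ES; rw [sum_product]
  simp_rw [h2, ← Complex.ofReal_mul] at h1
  rw [intervalIntegral.integral_ofReal, sum_product] at h1
  exact_mod_cast h1

lemma sum_le_integral {ι : Type*} (A : Finset ι) (φ : ι → ℤ) :
    ∑ a ∈ A, ρ (φ a) ≤ ∫ α in (0 : ℝ)..1, ‖ES A φ α‖ * K α := by
  have h1 := h.sum_eq A φ
  have h2 : ∑ a ∈ A, ρ (φ a) ≤ ‖((∑ a ∈ A, ρ (φ a) : ℝ) : ℂ)‖ := by
    rw [Complex.norm_real]; exact le_abs_self _
  rw [h1] at h2
  refine h2.trans ((intervalIntegral.norm_integral_le_integral_norm zero_le_one).trans ?_)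
  refine le_of_eq (intervalIntegral.integral_congr fun α _ => ?_)
  simp [abs_of_nonneg (h.nonneg α)]

lemma le_zero (m : ℤ) : ρ m ≤ ρ 0 := by
  have := h.sum_le_integral ({()} : Finset Unit) (fun _ => m)
  simp only [sum_singleton, ES, norm_ee, one_mul] at this
  rwa [h.zero_eq]

lemma QF_nonneg {ι : Type*} (A : Finset ι) (φ : ι → ℤ) : 0 ≤ QF A φ ρ :=
  sum_nonneg fun _ _ => sum_nonneg fun _ _ => h.pos _

lemma QF_mono {ι : Type*} {A B : Finset ι} (hAB : A ⊆ B) (φ : ι → ℤ) : QF A φ ρ ≤ QF B φ ρ := by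
  unfold QF
  refine (sum_le_sum fun a _ => sum_le_sum_of_subset_of_nonneg hAB fun _ _ _ => h.pos _).trans ?_
  exact sum_le_sum_of_subset_of_nonneg hAB fun _ _ _ => sum_nonneg fun _ _ => h.pos _

lemma QF_le_card {ι : Type*} (A : Finset ι) (φ : ι → ℤ) : QF A φ ρ ≤ (A.card : ℝ) ^ 2 * ρ 0 := by
  unfold QF
  refine (sum_le_sum fun a _ => sum_le_sum fun b _ => h.le_zero _).trans (le_of_eq ?_)
  simp; ring

/-- Cauchy-Schwarz in weighted form -/
lemma sum_le_weighted {ι : Type*} (A : Finset ι) (φ : ι → ℤ) {t : ℝ} (ht : 0 < t) :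
    ∑ a ∈ A, ρ (φ a) ≤ (t * ρ 0 + t⁻¹ * QF A φ ρ) / 2 := by
  refine (h.sum_le_integral A φ).trans ?_
  have hE := (continuous_ES A φ).norm
  have hK := h.cont
  rw [h.zero_eq, h.QF_eq, ← intervalIntegral.integral_const_mul,
    ← intervalIntegral.integral_const_mul, ← intervalIntegral.integral_add
      (by apply Continuous.intervalIntegrable; fun_prop)
      (by apply Continuous.intervalIntegrable; fun_prop), ← intervalIntegral.integral_div]
  refine intervalIntegral.integral_mono_on zero_le_one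
    (by apply Continuous.intervalIntegrable; fun_prop)
    (by apply Continuous.intervalIntegrable; fun_prop) fun α _ => ?_
  have h0 := h.nonneg α
  set x := ‖ES A φ α‖
  have h1 : x ≤ (t + t⁻¹ * x ^ 2) / 2 := by
    have : 0 ≤ t⁻¹ * (x - t) ^ 2 := by positivity
    have h2 : t⁻¹ * (x - t) ^ 2 = t⁻¹ * x ^ 2 - 2 * x + t := by field_simp; ring
    linarith
  nlinarith

lemma sum_le_sqrt {ι : Type*} (A : Finset ι) (φ : ι → ℤ) {M T : ℝ} (hM : ρ 0 ≤ M)
    (hT : 0 < T) (hQ : QF A φ ρ ≤ T ^ 2 * M) : ∑ a ∈ A, ρ (φ a) ≤ T * M := by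
  refine (h.sum_le_weighted A φ hT).trans ?_
  have h1 : T⁻¹ * QF A φ ρ ≤ T⁻¹ * (T ^ 2 * M) := by gcongr
  have h2 : T⁻¹ * (T ^ 2 * M) = T * M := by field_simp
  have h3 : T * ρ 0 ≤ T * M := by gcongr
  linarith

/-- Cauchy-Schwarz over a colouring -/
lemma QF_le_colour {ι γ : Type*} [DecidableEq γ] (A : Finset ι) (φ : ι → ℤ) (c : ι → γ)
    (Γ : Finset γ) (hc : ∀ a ∈ A, c a ∈ Γ) :
    QF A φ ρ ≤ Γ.card * ∑ a ∈ A, ∑ b ∈ A, if c a = c b then ρ (φ a - φ b) else 0 := by
  have h1 : ∑ a ∈ A, ∑ b ∈ A, (if c a = c b then ρ (φ a - φ b) else 0)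
      = ∑ g ∈ Γ, QF (A.filter fun a => c a = g) φ ρ := by
    rw [← sum_fiberwise_of_maps_to hc]
    refine sum_congr rfl fun g _ => ?_
    unfold QF
    refine sum_congr rfl fun a ha => ?_
    rw [sum_filter, (mem_filter.1 ha).2]
    exact sum_congr rfl fun b _ => by simp only [eq_comm]
  rw [h1]
  simp_rw [h.QF_eq]
  have hK := h.cont
  have hE : ∀ B : Finset ι, Continuous fun α => ‖ES B φ α‖ ^ 2 * K α := fun B =>
    ((continuous_ES B φ).norm.pow 2).mul hK
  rw [← intervalIntegral.integral_finsetSum fun g _ => (hE _).intervalIntegrable _ _,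
    ← intervalIntegral.integral_const_mul]
  refine intervalIntegral.integral_mono_on zero_le_one ((hE _).intervalIntegrable _ _)
    ((continuous_const.mul (continuous_finsetSum _ fun g _ => hE _)).intervalIntegrable _ _)
    fun α _ => ?_
  rw [← sum_mul, ← mul_assoc]
  refine mul_le_mul_of_nonneg_right ?_ (h.nonneg α)
  have h2 : ES A φ α = ∑ g ∈ Γ, ES (A.filter fun a => c a = g) φ α := by
    unfold ES; rw [sum_fiberwise_of_maps_to hc]
  rw [h2]
  refine le_trans ?_ sq_sum_le_card_mul_sum_sq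
  exact pow_le_pow_left₀ (norm_nonneg _) (norm_sum_le _ _) 2

end PD

/-- greedy colouring of a graph of bounded degree -/
lemma exists_colouring {ι : Type*} [DecidableEq ι] (r : ι → ι → Prop) [DecidableRel r]
    (hr : ∀ a b, r a b → r b a) (D : ℕ) (s : Finset ι)
    (hs : ∀ a ∈ s, (s.filter fun b => r a b).card ≤ D) :
    ∃ c : ι → ℕ, (∀ a, c a ≤ D) ∧ ∀ a ∈ s, ∀ b ∈ s, a ≠ b → r a b → c a ≠ c b := by
  induction s using Finset.induction_on with
  | empty => exact ⟨fun _ => 0, fun _ => Nat.zero_le _, by simp⟩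
  | insert x s hx ih =>
    obtain ⟨c, hc1, hc2⟩ := ih fun a ha =>
      (card_le_card (filter_subset_filter _ (subset_insert _ _))).trans (hs a (mem_insert_of_mem ha))
    have h1 : ((s.filter fun b => r x b).image c).card < (range (D + 1)).card := by
      rw [card_range]
      refine Nat.lt_succ_of_le (card_image_le.trans ?_)
      exact (card_le_card (filter_subset_filter _ (subset_insert _ _))).trans
        (hs x (mem_insert_self _ _))
    obtain ⟨g, hg1, hg2⟩ := exists_mem_notMem_of_card_lt_card h1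
    refine ⟨fun a => if a = x then g else c a, fun a => ?_, ?_⟩
    · by_cases h : a = x
      · simp only [h, if_true]; exact Nat.lt_succ_iff.1 (mem_range.1 hg1)
      · simp only [h, if_false]; exact hc1 a
    · have key : ∀ b ∈ s, r x b → g ≠ c b := fun b hb hxb he =>
        hg2 (mem_image.2 ⟨b, mem_filter.2 ⟨hb, hxb⟩, he.symm⟩)
      intro a ha b hb hab hr'
      rcases mem_insert.1 ha with rfl | ha'
      · rcases mem_insert.1 hb with rfl | hb'
        · exact absurd rfl hab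
        · have : b ≠ a := fun h => hx (h ▸ hb')
          simp only [if_true, this, if_false]; exact key b hb' hr'
      · have ha2 : a ≠ x := fun h => hx (h ▸ ha')
        rcases mem_insert.1 hb with rfl | hb'
        · simp only [if_true, ha2, if_false]; exact (key a ha' (hr _ _ hr')).symm
        · have : b ≠ x := fun h => hx (h ▸ hb')
          simp only [ha2, this, if_false]; exact hc2 a ha' b hb' hab hr'

/-- integers in one residue class and in a short interval -/
lemma card_le_of_cong (s : Finset ℤ) {q : ℕ} (hq : 0 < q) {Z : ℝ} (hZ : 0 ≤ Z)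
    (h1 : ∀ a ∈ s, ∀ b ∈ s, (q : ℤ) ∣ a - b) (h2 : ∀ a ∈ s, ∀ b ∈ s, ((a - b : ℤ) : ℝ) ≤ Z) :
    (s.card : ℝ) ≤ Z / q + 1 := by
  rcases s.eq_empty_or_nonempty with rfl | hs
  · simp; positivity
  have hq' : (0 : ℝ) < q := by exact_mod_cast hq
  have hqz : (0 : ℤ) < q := by exact_mod_cast hq
  set m := s.min' hs
  have hm : m ∈ s := s.min'_mem hs
  have h3 : s.card ≤ (range (⌊Z / q⌋₊ + 1)).card := by
    refine card_le_card_of_injOn (fun a => ((a - m) / q).toNat) (fun a ha => ?_) ?_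
    · have ha' : a ∈ s := ha
      obtain ⟨c, hc⟩ := h1 a ha' m hm
      have h4 := h2 a ha' m hm
      have h5 : 0 ≤ a - m := sub_nonneg.2 (s.min'_le a ha')
      have hc0 : 0 ≤ c := by rw [hc] at h5; exact nonneg_of_mul_nonneg_right h5 hqz |> fun h => by nlinarith
      simp only [coe_range, Set.mem_Iio]
      rw [hc, Int.mul_ediv_cancel_left _ hqz.ne']
      refine Nat.lt_succ_of_le (Nat.le_floor ?_)
      rw [le_div_iff₀ hq']
      rw [hc] at h4; push_cast at h4
      have : ((c.toNat : ℕ) : ℝ) = (c : ℝ) := by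
        have := Int.toNat_of_nonneg hc0
        exact_mod_cast this
      rw [this]; linarith
    · intro a ha b hb hab
      have ha' : a ∈ s := ha
      have hb' : b ∈ s := hb
      obtain ⟨c, hc⟩ := h1 a ha' m hm
      obtain ⟨d, hd⟩ := h1 b hb' m hm
      have h5 : 0 ≤ a - m := sub_nonneg.2 (s.min'_le a ha')
      have h6 : 0 ≤ b - m := sub_nonneg.2 (s.min'_le b hb')
      have hc0 : 0 ≤ c := by rw [hc] at h5; nlinarith
      have hd0 : 0 ≤ d := by rw [hd] at h6; nlinarith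
      simp only [hc, hd, Int.mul_ediv_cancel_left _ hqz.ne'] at hab
      have : c = d := by omega
      rw [this] at hc; omega
  rw [card_range] at h3
  have h4 : (⌊Z / q⌋₊ : ℝ) ≤ Z / q := Nat.floor_le (by positivity)
  have : (s.card : ℝ) ≤ (⌊Z / q⌋₊ : ℝ) + 1 := by exact_mod_cast h3
  linarith

end

end Pool.Agent.Work.MP_45c923_nt
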