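import Pool.Agent.Work.MP_45c923_nt.Curve

/-!
# Counting the points
-/

set_option autoImplicit false

namespace Pool.Agent.Work.MP_45c923_nt

open Finset Polynomial

noncomputable section

lemma div_gcd_dvd {Q : ℕ} (hQ : 0 < Q) {t W : ℤ} (h : (Q : ℤ) ∣ t * W) :
    ((Q / Q.gcd W.natAbs : ℕ) : ℤ) ∣ t := by
  rw [Int.natCast_dvd, Int.natAbs_mul] at h
  rw [Int.natCast_dvd]
  have hg : 0 < Q.gcd W.natAbs := Nat.gcd_pos_of_pos_left _ hQ
  have hc := Nat.coprime_div_gcd_div_gcd hg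
  refine hc.dvd_of_dvd_mul_right (Nat.dvd_of_mul_dvd_mul_right hg ?_)
  rwa [Nat.div_mul_cancel (Nat.gcd_dvd_left _ _), mul_assoc,
    Nat.div_mul_cancel (Nat.gcd_dvd_right _ _)]

lemma sum_gcd_int {Q : ℕ} (hQ : 0 < Q) (s : Finset ℤ) {L : ℝ} (hL : 0 ≤ L)
    (hs : ∀ u ∈ s, u ≠ 0 ∧ |(u : ℝ)| ≤ L) :
    ∑ u ∈ s, (Q.gcd u.natAbs : ℝ) ≤ 2 * Q.divisors.card * L := by
  calc _ ≤ ∑ u ∈ s, ∑ d ∈ Q.divisors, if (d : ℤ) ∣ u then (d : ℝ) else 0 := by
        refine sum_le_sum fun u _ => ?_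
        have := single_le_sum (f := fun d : ℕ => if (d : ℤ) ∣ u then (d : ℝ) else 0)
          (fun d _ => by split_ifs <;> positivity)
          (Nat.mem_divisors.2 ⟨Nat.gcd_dvd_left Q u.natAbs, hQ.ne'⟩)
        rwa [if_pos (Int.natCast_dvd.2 (Nat.gcd_dvd_right _ _))] at this
    _ = ∑ d ∈ Q.divisors, ((s.filter fun u => (d : ℤ) ∣ u).card : ℝ) * d := by
        rw [sum_comm]
        exact sum_congr rfl fun d _ => by rw [← sum_filter, sum_const, nsmul_eq_mul]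
    _ ≤ ∑ d ∈ Q.divisors, 2 * L := by
        refine sum_le_sum fun d hd => ?_
        have hd0 : 0 < d := Nat.pos_of_mem_divisors hd
        have hd0' : (0 : ℝ) < d := by exact_mod_cast hd0
        have h1 := card_le_of_cong (insert 0 (s.filter fun u => (d : ℤ) ∣ u)) hd0
          (Z := 2 * L) (by positivity) (fun a ha b hb => by
            have : ∀ a ∈ insert 0 (s.filter fun u => (d : ℤ) ∣ u), (d : ℤ) ∣ a := fun a ha => by
              rcases mem_insert.1 ha with rfl | ha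
              exacts [dvd_zero _, (mem_filter.1 ha).2]
            exact (this a ha).sub (this b hb)) (fun a ha b hb => by
            have : ∀ a ∈ insert 0 (s.filter fun u => (d : ℤ) ∣ u), |(a : ℝ)| ≤ L := fun a ha => by
              rcases mem_insert.1 ha with rfl | ha
              exacts [by simpa using hL, (hs a (mem_filter.1 ha).1).2]
            have h1 := abs_le.1 (this a ha)
            have h2 := abs_le.1 (this b hb)
            push_cast; linarith only [h1, h2])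
        rw [card_insert_of_notMem fun h => (hs 0 (mem_filter.1 h).1).1 rfl] at h1
        push_cast at h1
        rw [← le_div_iff₀ hd0']; linarith only [h1]
    _ = _ := by rw [sum_const, nsmul_eq_mul]; ring

/-- the integer whose prime factors are excluded -/
def NB (l : ℕ) (m z h : ℤ) : ℤ :=
  m * ((z + h * m) * z * ((z + h * m) ^ (l + 2) - z ^ (l + 2)) * EE l (z + h * m) z)

lemma card_fibre (l : ℕ) {T : Finset ℕ} (hT : ∀ p ∈ T, p.Prime ∧ l + 3 < p) {b c : ℕ}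
    (hbc : b + c = l + 3) (hb : b ≤ c) (hc : c ≤ b + 1) (m : ℤ) {P : ℕ} {h h' : ℤ}
    (hP : P < (∏ p ∈ T, p) ^ (l + 3)) (hh : ((∏ p ∈ T, p : ℕ) : ℤ) ∣ h' - h)
    (Sol : Finset (ℤ × ℤ)) (hS : ∀ s ∈ Sol, s.1 ∈ Icc (1 : ℤ) P ∧ s.2 ∈ Icc (1 : ℤ) P ∧
      (∀ p ∈ T, ¬ (p : ℤ) ∣ NB l m s.1 h) ∧ (∀ p ∈ T, ¬ (p : ℤ) ∣ NB l m s.2 h') ∧
      ((∏ p ∈ T, p : ℕ) : ℤ) ∣ s.2 - s.1 ∧ ((∏ p ∈ T, p : ℕ) : ℤ) ^ (l + 3) ∣
        (PA (l + 3) (h * m)).eval s.1 - (PA (l + 3) (h' * m)).eval s.2) :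
    (Sol.card : ℝ) ≤ ((∏ p ∈ T, p : ℕ) : ℝ) ^ c + 12 * ((∏ p ∈ T, p : ℕ) : ℝ) ^ 2 *
      ((∏ p ∈ T, p) ^ b).divisors.card * ((P : ℝ) ^ 2 / ((∏ p ∈ T, p : ℕ) : ℝ) ^ (l + 3)) *
        (((∏ p ∈ T, p) ^ b).gcd (h' - h).natAbs : ℕ) := by
  classical
  set q : ℕ := ∏ p ∈ T, p with hq
  have hTp : ∀ p ∈ T, p.Prime := fun p hp => (hT p hp).1
  have hq0 : 0 < q := prod_pos fun p hp => (hTp p hp).pos
  have hqz : (0 : ℤ) < q := by exact_mod_cast hq0
  have hqr : (0 : ℝ) < q := by exact_mod_cast hq0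
  have hpq : ∀ p ∈ T, (p : ℤ) ∣ q := fun p hp => Int.natCast_dvd_natCast.2 (dvd_prod_of_mem _ hp)
  have hc0 : 0 < c := by omega
  have hpr : ∀ p ∈ T, Prime (p : ℤ) := fun p hp => Nat.prime_iff_prime_int.1 (hTp p hp)
  have hk3 : ∀ p ∈ T, ¬ (p : ℤ) ∣ ((l + 2 : ℕ) + 1 : ℤ) := fun p hp h' => by
    have : (p : ℤ) ∣ ((l + 3 : ℕ) : ℤ) := by exact_mod_cast h'
    exact absurd (Nat.le_of_dvd (by omega) (Int.natCast_dvd_natCast.1 this))
      (by have := (hT p hp).2; omega)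
  have gD : ∀ {p : ℕ} {z h : ℤ}, ¬ (p : ℤ) ∣ NB l m z h →
      ¬ (p : ℤ) ∣ (z + h * m) ^ (l + 2) - z ^ (l + 2) := fun g h =>
    g (((h.mul_left _).mul_right _).mul_left _)
  set Qc : ℤ := (q : ℤ) ^ c with hQc
  have hQc0 : 0 < Qc := pow_pos hqz _
  have hqQc : (q : ℤ) ∣ Qc := dvd_pow_self _ hc0.ne'
  set L : ℕ := P / q ^ c with hL
  -- congruent first coordinates force congruent second coordinates
  have hcong : ∀ s ∈ Sol, ∀ r ∈ Sol, Qc ∣ s.1 - r.1 → Qc ∣ s.2 - r.2 := by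
    intro s hs r hr h1
    obtain ⟨-, -, -, -, s5, s6⟩ := hS s hs
    obtain ⟨-, -, -, r4, r5, r6⟩ := hS r hr
    refine prod_pow_dvd hTp fun p hp => hensel_unique (PA (l + 3) (h' * m)) (hTp p hp) ?_ ?_ ?_
    · have h2 : Qc ∣ (q : ℤ) ^ (l + 3) := pow_dvd_pow _ (by omega)
      have h3 := h1.trans (sub_dvd_eval_sub s.1 r.1 (PA (l + 3) (h * m)))
      have := (h3.sub (h2.trans s6)).add (h2.trans r6)
      exact (dvd_prod_pow hp c).trans (this.trans (dvd_of_eq (by ring)))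
    · have := ((hqQc.trans h1).add s5).sub r5
      exact (hpq p hp).trans (this.trans (dvd_of_eq (by ring)))
    · rw [PA_deriv (l + 2)]
      exact fun h => ((hpr p hp).dvd_or_dvd h).elim (hk3 p hp) (gD (r4 p hp))
  have hex : ∀ ζ : ℤ, ∃ r : ℤ × ℤ, ζ ∈ Sol.image (fun s => s.1 % Qc) → r ∈ Sol ∧ r.1 % Qc = ζ := by
    intro ζ
    by_cases hζ : ζ ∈ Sol.image (fun s => s.1 % Qc)
    · obtain ⟨r, hr, he⟩ := mem_image.1 hζ
      exact ⟨r, fun _ => ⟨hr, he⟩⟩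
    · exact ⟨0, fun h => absurd h hζ⟩
  choose r hr using hex
  set I := Sol.image (fun s => s.1 % Qc) with hI
  set cond : ℤ → ℤ → ℤ → Prop := fun ζ u v => (q : ℤ) ^ b ∣
    u * (((r ζ).1 + h * m) ^ (l + 2) - (r ζ).1 ^ (l + 2)) -
      v * (((r ζ).2 + h' * m) ^ (l + 2) - (r ζ).2 ^ (l + 2)) with hcond
  set box := Icc (-(L : ℤ)) L with hbox
  have hb0 : (0 : ℤ) ∈ box :=
    mem_Icc.2 ⟨neg_nonpos.2 (Int.natCast_nonneg _), Int.natCast_nonneg _⟩
  have hbx : ∀ {z z' u : ℤ}, z ∈ Icc (1 : ℤ) P → z' ∈ Icc (1 : ℤ) P → z - z' = Qc * u →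
      u ∈ box := by
    clear * - P Qc L q c hL hQc0
    intro z z' u hz hz' hu
    rw [mem_Icc] at hz hz'
    have h1 : |u| ≤ L := by
      rw [hL]; push_cast
      rw [Int.le_ediv_iff_mul_le hQc0]
      have : |z - z'| ≤ P := abs_le.2 ⟨by linarith only [hz, hz'], by linarith only [hz, hz']⟩
      rwa [hu, abs_mul, abs_of_pos hQc0, mul_comm] at this
    exact mem_Icc.2 (abs_le.1 h1)
  have h1 : Sol.card ≤ ∑ u ∈ box, ∑ v ∈ box, (I.filter fun ζ => cond ζ u v).card := by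
    clear * - Sol box cond q b r h m l h' I Qc hr hcong hQc0 hbx P T hS c hQc hbc hb hc hTp hpr
      hk3
    rw [← sum_product' (f := fun u v => (I.filter fun ζ => cond ζ u v).card), ← card_sigma]
    have hd : ∀ s ∈ Sol, Qc ∣ s.1 - (r (s.1 % Qc)).1 := fun s hs =>
      Int.dvd_of_emod_eq_zero (Int.emod_eq_emod_iff_emod_sub_eq_zero.1
        (hr _ (mem_image_of_mem _ hs)).2.symm)
    refine card_le_card_of_injOn (fun s => ⟨((s.1 - (r (s.1 % Qc)).1) / Qc,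
      (s.2 - (r (s.1 % Qc)).2) / Qc), s.1 % Qc⟩) (fun s hs => ?_) fun s hs s' hs' he => ?_
    · have hs' : s ∈ Sol := hs
      have hr1 := (hr _ (mem_image_of_mem _ hs')).1
      obtain ⟨u, hu⟩ := hd s hs'
      obtain ⟨v, hv⟩ := hcong s hs' _ hr1 (hd s hs')
      simp only [coe_sigma, Set.mem_sigma_iff, mem_coe, mem_product, mem_filter]
      rw [hu, hv, Int.mul_ediv_cancel_left _ hQc0.ne', Int.mul_ediv_cancel_left _ hQc0.ne']
      refine ⟨⟨hbx (hS s hs').1 (hS _ hr1).1 hu, hbx (hS s hs').2.1 (hS _ hr1).2.1 hv⟩,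
        mem_image_of_mem _ hs', ?_⟩
      set ρ := r (s.1 % Qc)
      have s6 := (hS s hs').2.2.2.2.2
      have r6 := (hS ρ hr1).2.2.2.2.2
      rw [PA_eval, PA_eval] at s6 r6
      rw [show s.1 = ρ.1 + Qc * u by linarith only [hu], show s.2 = ρ.2 + Qc * v by linarith only [hv]] at s6
      have hQ2 : ∀ w : ℤ, (q : ℤ) ^ (l + 3) ∣ (Qc * w) ^ 2 := fun w => by
        rw [mul_pow, hQc, ← pow_mul]; exact (pow_dvd_pow _ (by omega)).mul_right _
      have t1 := (hQ2 u).trans (sq_dvd_add_pow_sub_sub (Qc * u) (ρ.1 + h * m) (l + 3))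
      have t2 := (hQ2 u).trans (sq_dvd_add_pow_sub_sub (Qc * u) ρ.1 (l + 3))
      have t3 := (hQ2 v).trans (sq_dvd_add_pow_sub_sub (Qc * v) (ρ.2 + h' * m) (l + 3))
      have t4 := (hQ2 v).trans (sq_dvd_add_pow_sub_sub (Qc * v) ρ.2 (l + 3))
      simp only [show l + 3 - 1 = l + 2 from rfl] at t1 t2 t3 t4
      have t5 : Qc * (q : ℤ) ^ b ∣ Qc * ((u * ((ρ.1 + h * m) ^ (l + 2) - ρ.1 ^ (l + 2)) -
          v * ((ρ.2 + h' * m) ^ (l + 2) - ρ.2 ^ (l + 2))) * ((l + 2 : ℕ) + 1)) := by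
        rw [hQc, ← pow_add, add_comm c b, hbc, ← hQc]
        refine (((((s6.sub r6).sub t1).add t2).add t3).sub t4).trans (dvd_of_eq ?_)
        push_cast; ring
      have t6 := (mul_dvd_mul_iff_left hQc0.ne').1 t5
      exact prod_pow_dvd hTp fun p hp =>
        (hpr p hp).pow_dvd_of_dvd_mul_right b (hk3 p hp) ((dvd_prod_pow hp b).trans t6)
    · simp only [Sigma.mk.injEq, Prod.mk.injEq, heq_eq_eq] at he
      obtain ⟨⟨e1, e2⟩, e3⟩ := he
      have hs1 : s ∈ Sol := hs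
      have hs2 : s' ∈ Sol := hs'
      have a1 := Int.mul_ediv_cancel' (hd s hs1)
      have a2 := Int.mul_ediv_cancel' (hd s' hs2)
      have a3 := Int.mul_ediv_cancel' (hcong s hs1 _ (hr _ (mem_image_of_mem _ hs1)).1 (hd s hs1))
      have a4 := Int.mul_ediv_cancel' (hcong s' hs2 _ (hr _ (mem_image_of_mem _ hs2)).1 (hd s' hs2))
      rw [e1] at a1; rw [e2] at a3
      rw [e3] at a1 a3
      exact Prod.ext (by linarith only [a1, a2]) (by linarith only [a3, a4])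
  have hIm : ∀ ζ ∈ I, 0 ≤ ζ ∧ ζ < Qc := fun ζ hζ => by
    obtain ⟨s, _, rfl⟩ := mem_image.1 hζ
    exact ⟨Int.emod_nonneg _ hQc0.ne', Int.emod_lt_of_pos _ hQc0⟩
  have hIc : (I.card : ℝ) ≤ (q : ℝ) ^ c := by
    have : I ⊆ Ico 0 Qc := fun ζ hζ => mem_Ico.2 (hIm ζ hζ)
    have h2 := card_le_card this
    rw [Int.card_Ico, sub_zero, hQc, ← Nat.cast_pow, Int.toNat_natCast] at h2
    exact_mod_cast h2
  have hLb : (L : ℤ) < (q : ℤ) ^ b := by
    have : L < q ^ b := by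
      rw [hL, Nat.div_lt_iff_lt_mul (pow_pos hq0 _), ← pow_add, hbc]; exact hP
    exact_mod_cast this
  have h2 : ∑ v ∈ box, ((I.filter fun ζ => cond ζ 0 v).card : ℝ) ≤ (q : ℝ) ^ c := by
    clear * - box cond q b r h m l h' I c T hTp hpr gD P hS Sol Qc hr hcond L hLb hb0 hIc
    rw [sum_eq_single (0 : ℤ)]
    · exact le_trans (by exact_mod_cast card_filter_le _ _) hIc
    · intro v hv hv0
      rw [Nat.cast_eq_zero, card_eq_zero, filter_eq_empty_iff]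
      intro ζ hζ hcz
      simp only [hcond, zero_mul, zero_sub, dvd_neg] at hcz
      have h3 : (q : ℤ) ^ b ∣ v := prod_pow_dvd hTp fun p hp =>
        (hpr p hp).pow_dvd_of_dvd_mul_right b (gD ((hS _ (hr ζ hζ).1).2.2.2.1 p hp))
          ((dvd_prod_pow hp b).trans hcz)
      have h4 := Int.le_of_dvd (abs_pos.2 hv0) ((dvd_abs _ _).2 h3)
      have := abs_le.2 (mem_Icc.1 hv)
      linarith only [hLb, h4, this]
    · intro h0
      exact absurd hb0 h0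
  set g₂ : ℝ := (((q ^ b).gcd (h' - h).natAbs : ℕ) : ℝ) with hg₂
  have h3 : ∀ u v : ℤ, u ≠ 0 → ((I.filter fun ζ => cond ζ u v).card : ℝ) ≤
      2 * (q : ℝ) ^ 2 * (((q ^ b).gcd u.natAbs : ℕ) * g₂) := by
    clear * - q b h' h hq0 g₂ hg₂ cond r m l I hqz c Sol Qc hr P T hS hqQc hTp hT hbc hb hc hpq hh
      gD hpr hQc hIm
    intro u v hu
    set g : ℕ := (q ^ b).gcd (u * (h' - h)).natAbs with hg
    have hqb : 0 < q ^ b := pow_pos hq0 _
    have hg0 : 0 < g := Nat.gcd_pos_of_pos_left _ hqb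
    have hgd : g ∣ q ^ b := Nat.gcd_dvd_left _ _
    have he0 : 0 < q ^ b / g := Nat.div_pos (Nat.le_of_dvd hqb hgd) hg0
    have hgle : (g : ℝ) ≤ ((q ^ b).gcd u.natAbs : ℕ) * g₂ := by
      have := Nat.le_of_dvd (mul_pos (Nat.gcd_pos_of_pos_left _ hqb) (Nat.gcd_pos_of_pos_left _ hqb))
        (Nat.gcd_mul_right_dvd_mul_gcd (q ^ b) u.natAbs (h' - h).natAbs)
      rw [← Int.natAbs_mul] at this
      rw [hg₂]; exact_mod_cast this
    rw [card_eq_sum_card_fiberwise (f := fun ζ : ℤ => ζ % q) (t := Ico (0 : ℤ) q) fun ζ _ =>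
      mem_Ico.2 ⟨Int.emod_nonneg _ hqz.ne', Int.emod_lt_of_pos _ hqz⟩]
    push_cast
    refine (sum_le_card_nsmul _ _ (2 * q * g : ℝ) fun a _ => ?_).trans ?_
    · refine (card_le_of_cong _ he0 (Z := (q : ℝ) ^ c) (by positivity) ?_ ?_).trans ?_
      · intro ζ₂ h₂ ζ₁ h₁
        obtain ⟨h₁, a₁⟩ := mem_filter.1 h₁
        obtain ⟨h₂, a₂⟩ := mem_filter.1 h₂
        obtain ⟨h₁, c₁⟩ := mem_filter.1 h₁
        obtain ⟨h₂, c₂⟩ := mem_filter.1 h₂
        obtain ⟨m₁, n₁⟩ := hr ζ₁ h₁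
        obtain ⟨m₂, n₂⟩ := hr ζ₂ h₂
        obtain ⟨-, -, s3, -, s5, s6⟩ := hS _ m₁
        obtain ⟨-, -, r3, -, r5, r6⟩ := hS _ m₂
        have d₁ : Qc ∣ (r ζ₁).1 - ζ₁ := by
          have := Int.dvd_self_sub_emod (x := (r ζ₁).1) (m := Qc)
          rwa [n₁] at this
        have d₂ : Qc ∣ (r ζ₂).1 - ζ₂ := by
          have := Int.dvd_self_sub_emod (x := (r ζ₂).1) (m := Qc)
          rwa [n₂] at this
        have d₃ : (q : ℤ) ∣ ζ₂ - ζ₁ := Int.dvd_of_emod_eq_zero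
          (Int.emod_eq_emod_iff_emod_sub_eq_zero.1 (a₂.trans a₁.symm))
        have d₄ : (q : ℤ) ∣ (r ζ₂).1 - (r ζ₁).1 :=
          ((d₃.add (hqQc.trans d₂)).sub (hqQc.trans d₁)).trans (dvd_of_eq (by ring))
        have d₅ : ((q ^ b : ℕ) : ℤ) ∣ ((r ζ₂).1 - (r ζ₁).1) * (u * (h' - h)) := by
          rw [Nat.cast_pow]
          refine prod_pow_dvd hTp fun p hp => ?_
          have := local_dvd l (hTp p hp) (hT p hp).2 (show b ≤ l + 3 by omega)
            (a := h * m) (a' := h' * m) (u := u) (v := v)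
            (by rw [← sub_mul]; exact ((hpq p hp).trans hh).mul_right _) ((hpq p hp).trans d₄)
            ((hpq p hp).trans s5) ((hpq p hp).trans r5) (fun h => s3 p hp (h.mul_left _))
            (gD (r3 p hp)) ((dvd_prod_pow hp _).trans s6) ((dvd_prod_pow hp _).trans r6)
            ((dvd_prod_pow hp _).trans c₁) ((dvd_prod_pow hp _).trans c₂)
          refine (hpr p hp).pow_dvd_of_dvd_mul_right b (fun h => s3 p hp (h.mul_right _))
            (this.trans (dvd_of_eq (by ring)))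
        have d₆ := div_gcd_dvd hqb d₅
        have d₇ : ((q ^ b / g : ℕ) : ℤ) ∣ Qc := by
          rw [hQc, ← Nat.cast_pow, Int.natCast_dvd_natCast]
          exact (Nat.div_dvd_of_dvd hgd).trans (pow_dvd_pow _ hb)
        exact ((d₆.sub (d₇.trans d₂)).add (d₇.trans d₁)).trans (dvd_of_eq (by ring))
      · intro ζ₂ h₂ ζ₁ h₁
        have a₁ := hIm _ (mem_filter.1 (mem_filter.1 h₁).1).1
        have a₂ := hIm _ (mem_filter.1 (mem_filter.1 h₂).1).1
        have : ζ₂ - ζ₁ ≤ (q : ℤ) ^ c := by linarith only [a₁, a₂]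
        exact_mod_cast this
      · have e1 : ((q ^ b / g : ℕ) : ℝ) * g = (q : ℝ) ^ b := by
          exact_mod_cast Nat.div_mul_cancel hgd
        have e2 : (0 : ℝ) < ((q ^ b / g : ℕ) : ℝ) := by exact_mod_cast he0
        have e3 : (1 : ℝ) ≤ g := by exact_mod_cast hg0
        have e4 : (1 : ℝ) ≤ q := by exact_mod_cast hq0
        have e5 : (q : ℝ) ^ c ≤ q ^ (b + 1) := pow_le_pow_right₀ e4 hc
        have e6 : (q : ℝ) ^ c / ((q ^ b / g : ℕ) : ℝ) ≤ q * g := by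
          rw [div_le_iff₀ e2, pow_succ, ← e1] at *; nlinarith only [e5]
        nlinarith only [e4, e6, e3]
    · rw [Int.card_Ico, sub_zero, Int.toNat_natCast, nsmul_eq_mul]
      calc (q : ℝ) * (2 * q * g) = 2 * q ^ 2 * g := by ring
        _ ≤ _ := by gcongr
  have h4 := sum_gcd_int (pow_pos hq0 b) (box.erase 0) (L := L) (by positivity) fun u hu =>
    ⟨ne_of_mem_erase hu, by exact_mod_cast abs_le.2 (mem_Icc.1 (mem_of_mem_erase hu))⟩
  have h5 : (Sol.card : ℝ) ≤ ∑ u ∈ box, ∑ v ∈ box, ((I.filter fun ζ => cond ζ u v).card : ℝ) := by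
    exact_mod_cast h1
  rw [← add_sum_erase _ _ hb0] at h5
  have hg₂0 : 0 ≤ g₂ := by positivity
  have h6 : ∑ u ∈ box.erase 0, ∑ v ∈ box, ((I.filter fun ζ => cond ζ u v).card : ℝ) ≤
      (2 * L + 1) * (2 * (q : ℝ) ^ 2 * g₂) * (2 * (q ^ b).divisors.card * L) := by
    clear * - box cond q b r h m l h' I g₂ L h3 hbox h4 hq0
    refine (sum_le_sum fun u hu => sum_le_card_nsmul _ _ _
      fun v _ => h3 u v (ne_of_mem_erase hu)).trans ?_
    have : (box.card : ℝ) = 2 * L + 1 := by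
      rw [hbox, Int.card_Icc, show (L : ℤ) + 1 - -L = ((2 * L + 1 : ℕ) : ℤ) by push_cast; ring,
        Int.toNat_natCast]
      push_cast; ring
    simp only [nsmul_eq_mul, this]
    calc _ = (2 * L + 1) * (2 * (q : ℝ) ^ 2 * g₂) *
          ∑ u ∈ box.erase 0, (((q ^ b).gcd u.natAbs : ℕ) : ℝ) := by
          rw [mul_sum]; exact sum_congr rfl fun u _ => by ring
      _ ≤ _ := by gcongr
  have h7 : (2 * (L : ℝ) + 1) * L ≤ 3 * ((P : ℝ) ^ 2 / (q : ℝ) ^ (l + 3)) := by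
    clear * - L P q c hL l hq0 T b hbc hb hc m h h' Sol r
    have e1 : (L : ℝ) ≤ L ^ 2 := by exact_mod_cast Nat.le_self_pow two_ne_zero L
    have e2 : (L : ℝ) ≤ P / (q : ℝ) ^ c := by rw [hL]; exact_mod_cast Nat.cast_div_le
    have e3 : (L : ℝ) ^ 2 ≤ (P : ℝ) ^ 2 / (q : ℝ) ^ (l + 3) := by
      refine (pow_le_pow_left₀ (by positivity) e2 2).trans ?_
      rw [div_pow, ← pow_mul]
      have e4 : (1 : ℝ) ≤ q := by exact_mod_cast hq0
      gcongr
      omega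
    nlinarith only [e1, e3]
  have h8 := mul_le_mul_of_nonneg_left h7
    (show 0 ≤ 4 * (q : ℝ) ^ 2 * g₂ * (q ^ b).divisors.card by clear * - q g₂ b hq0 h' h; positivity)
  clear * - Sol q c b P l g₂ box cond r h m h' I L h2 h5 h6 h8
  nlinarith only [h2, h5, h6, h8]

/-- the second stage of the new differencing step -/
lemma stageB {K : ℝ → ℝ} {ρ : ℤ → ℝ} (H : PD K ρ) (l : ℕ) {T : Finset ℕ}
    (hT : ∀ p ∈ T, p.Prime ∧ l + 3 < p) {b c : ℕ} (hbc : b + c = l + 3) (hb : b ≤ c)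
    (hc : c ≤ b + 1) (m : ℤ) {P : ℕ} (N : ℕ) (hP : P < (∏ p ∈ T, p) ^ (l + 3))
    (hρ : ∀ n, ρ n ≠ 0 → ((∏ p ∈ T, p : ℕ) : ℤ) ^ (l + 3) ∣ n) :
    QF ((Icc (1 : ℤ) P ×ˢ Icc (1 : ℤ) N).filter fun x => ∀ p ∈ T, ¬ (p : ℤ) ∣ NB l m x.1 x.2)
      (fun x => (PA (l + 3) (x.2 * m)).eval x.1) ρ ≤ ((∏ p ∈ T, p : ℕ) : ℝ) ^ 2 * (ρ 0 *
        (P * N + N ^ 2 * ((∏ p ∈ T, p : ℕ) : ℝ) ^ c + 24 * ((∏ p ∈ T, p : ℕ) : ℝ) ^ 2 *
          (((∏ p ∈ T, p) ^ b).divisors.card : ℝ) ^ 2 *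
            ((P : ℝ) ^ 2 / ((∏ p ∈ T, p : ℕ) : ℝ) ^ (l + 3)) * N ^ 2)) := by
  classical
  have hfib := fun h h' => card_fibre l hT hbc hb hc m (h := h) (h' := h') hP
  set q : ℕ := ∏ p ∈ T, p with hq
  have hTp : ∀ p ∈ T, p.Prime := fun p hp => (hT p hp).1
  have hq0 : 0 < q := prod_pos fun p hp => (hTp p hp).pos
  have hqz : (0 : ℤ) < q := by exact_mod_cast hq0
  refine (H.QF_le_colour _ _ (fun x : ℤ × ℤ => (x.1 % (q : ℤ), x.2 % (q : ℤ))) (Ico (0 : ℤ) q ×ˢ Ico (0 : ℤ) q)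
    fun a _ => ?_).trans ?_
  · simp only [mem_product, mem_Ico]
    exact ⟨⟨Int.emod_nonneg _ hqz.ne', Int.emod_lt_of_pos _ hqz⟩,
      Int.emod_nonneg _ hqz.ne', Int.emod_lt_of_pos _ hqz⟩
  have h1 : ((Ico (0 : ℤ) q ×ˢ Ico (0 : ℤ) q).card : ℝ) = (q : ℝ) ^ 2 := by simp; ring
  rw [h1]
  refine mul_le_mul_of_nonneg_left ?_ (by positivity)
  set C : ℤ → ℤ → ℤ × ℤ → Prop := fun h h' s => (∀ p ∈ T, ¬ (p : ℤ) ∣ NB l m s.1 h) ∧
    (∀ p ∈ T, ¬ (p : ℤ) ∣ NB l m s.2 h') ∧ (q : ℤ) ∣ s.2 - s.1 ∧ (q : ℤ) ^ (l + 3) ∣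
      (PA (l + 3) (h * m)).eval s.1 - (PA (l + 3) (h' * m)).eval s.2 with hC
  set Sol : ℤ → ℤ → Finset (ℤ × ℤ) := fun h h' =>
    (Icc (1 : ℤ) P ×ˢ Icc (1 : ℤ) P).filter fun s => (q : ℤ) ∣ h' - h ∧ C h h' s with hSol
  have hρ0 := H.pos 0
  have h2 : ∀ a b : ℤ × ℤ, (∀ p ∈ T, ¬ (p : ℤ) ∣ NB l m a.1 a.2) →
      (∀ p ∈ T, ¬ (p : ℤ) ∣ NB l m b.1 b.2) →
      (if (a.1 % q, a.2 % q) = (b.1 % q, b.2 % q) then
        ρ ((PA (l + 3) (a.2 * m)).eval a.1 - (PA (l + 3) (b.2 * m)).eval b.1) else 0) ≤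
      if (q : ℤ) ∣ b.2 - a.2 ∧ C a.2 b.2 (a.1, b.1) then ρ 0 else 0 := by
    intro a b ha hb
    by_cases h0 : ρ ((PA (l + 3) (a.2 * m)).eval a.1 - (PA (l + 3) (b.2 * m)).eval b.1) = 0
    · rw [h0, ite_self]; split_ifs; exacts [hρ0, le_rfl]
    by_cases he : (a.1 % q, a.2 % q) = (b.1 % q, b.2 % q)
    · rw [if_pos he, if_pos]
      · exact H.le_zero _
      simp only [Prod.mk.injEq] at he
      exact ⟨Int.dvd_of_emod_eq_zero (Int.emod_eq_emod_iff_emod_sub_eq_zero.1 he.2.symm), ha, hb,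
        Int.dvd_of_emod_eq_zero (Int.emod_eq_emod_iff_emod_sub_eq_zero.1 he.1.symm), hρ _ h0⟩
    · rw [if_neg he]; split_ifs; exacts [hρ0, le_rfl]
  have hnn : ∀ (c : Prop) [Decidable c], 0 ≤ if c then ρ 0 else 0 := fun c _ => by
    split_ifs; exacts [hρ0, le_rfl]
  refine (sum_le_sum fun a ha => (sum_le_sum fun b hb =>
    h2 a b (mem_filter.1 ha).2 (mem_filter.1 hb).2).trans
      (sum_le_sum_of_subset_of_nonneg (filter_subset _ _) fun _ _ _ => hnn _)).trans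
    ((sum_le_sum_of_subset_of_nonneg (filter_subset _ _) fun _ _ _ =>
      sum_nonneg fun _ _ => hnn _).trans ?_)
  have h3 : ∑ a ∈ Icc (1 : ℤ) P ×ˢ Icc (1 : ℤ) N, ∑ b ∈ Icc (1 : ℤ) P ×ˢ Icc (1 : ℤ) N,
      (if (q : ℤ) ∣ b.2 - a.2 ∧ C a.2 b.2 (a.1, b.1) then ρ 0 else 0) =
      ρ 0 * ∑ h ∈ Icc (1 : ℤ) N, ∑ h' ∈ Icc (1 : ℤ) N, ((Sol h h').card : ℝ) := by
    rw [sum_product_right, mul_sum]
    refine sum_congr rfl fun h _ => ?_
    simp_rw [sum_product_right]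
    rw [sum_comm, mul_sum]
    refine sum_congr rfl fun h' _ => ?_
    rw [← sum_product' (f := fun z z' : ℤ =>
      if (q : ℤ) ∣ h' - h ∧ C h h' (z, z') then ρ 0 else 0), ← sum_filter, sum_const,
      nsmul_eq_mul, mul_comm]
  rw [h3]
  refine mul_le_mul_of_nonneg_left ?_ hρ0
  set τ : ℝ := ((q ^ b).divisors.card : ℝ) with hτ
  set Z : ℝ := (P : ℝ) ^ 2 / (q : ℝ) ^ (l + 3) with hZ
  have hNc : ((Icc (1 : ℤ) N).card : ℝ) = N := by simp
  have h4 : ∀ h ∈ Icc (1 : ℤ) N, ∑ h' ∈ Icc (1 : ℤ) N, ((Sol h h').card : ℝ) ≤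
      P + N * (q : ℝ) ^ c + 12 * (q : ℝ) ^ 2 * τ * Z * (2 * τ * N) := by
    clear * - N Sol P q c τ Z C T l m hTp b hT hP hfib hSol hq0 hNc
    intro h hh
    rw [← add_sum_erase _ _ hh, add_assoc]
    refine add_le_add ?_ ?_
    · have : (Sol h h).card ≤ (Icc (1 : ℤ) P).card := by
        have key : ∀ s ∈ Sol h h, s.2 = s.1 := by
          intro s hs
          obtain ⟨hs1, -, -, s2, s3, s4⟩ := mem_filter.1 hs
          have d1 : (q : ℤ) ^ (l + 3) ∣ s.1 - s.2 := prod_pow_dvd hTp fun p hp => by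
            refine hensel_unique (PA (l + 3) (h * m)) (hTp p hp) ((dvd_prod_pow hp _).trans s4)
              ((Int.natCast_dvd_natCast.2 (dvd_prod_of_mem _ hp)).trans (dvd_sub_comm.1 s3)) ?_
            rw [PA_deriv (l + 2)]
            refine fun h => ((Nat.prime_iff_prime_int.1 (hTp p hp)).dvd_or_dvd h).elim
              (fun h' => ?_) fun h => s2 p hp (((h.mul_left _).mul_right _).mul_left _)
            have : (p : ℤ) ∣ ((l + 3 : ℕ) : ℤ) := by exact_mod_cast h'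
            exact absurd (Nat.le_of_dvd (by omega) (Int.natCast_dvd_natCast.1 this))
              (by have := (hT p hp).2; omega)
          simp only [mem_product, mem_Icc] at hs1
          have hP' : (P : ℤ) < (q : ℤ) ^ (l + 3) := by exact_mod_cast hP
          have := Int.eq_zero_of_abs_lt_dvd d1 (abs_lt.2 ⟨by linarith only [hP, hs1], by linarith only [hP, hs1]⟩)
          linarith only [this]
        refine card_le_card_of_injOn (fun s => s.1)
          (fun s hs => (mem_product.1 (mem_filter.1 hs).1).1) fun s hs s' hs' he => ?_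
        exact Prod.ext he (by rw [key s hs, key s' hs']; exact he)
      simpa using this
    · have e1 : ∀ h' ∈ (Icc (1 : ℤ) N).erase h, ((Sol h h').card : ℝ) ≤
          (q : ℝ) ^ c + 12 * (q : ℝ) ^ 2 * τ * Z * ((q ^ b).gcd (h' - h).natAbs : ℕ) := by
        intro h' _
        by_cases hd : (q : ℤ) ∣ h' - h
        · refine hfib h h' hd _ fun s hs => ?_
          obtain ⟨hs1, -, hs2⟩ := mem_filter.1 hs
          exact ⟨(mem_product.1 hs1).1, (mem_product.1 hs1).2, hs2⟩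
        · simp only [hSol, hd, false_and, filter_false, card_empty, Nat.cast_zero]
          positivity
      refine (sum_le_sum e1).trans ?_
      rw [sum_add_distrib, ← mul_sum, sum_const, nsmul_eq_mul]
      have e2 : (((Icc (1 : ℤ) N).erase h).card : ℝ) ≤ N := by
        rw [← hNc]; exact_mod_cast card_erase_le
      have e3 := sum_gcd_int (pow_pos hq0 b) (((Icc (1 : ℤ) N).erase h).image (· - h))
        (L := N) (by positivity) fun u hu => by
          obtain ⟨h', hh', rfl⟩ := mem_image.1 hu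
          refine ⟨sub_ne_zero.2 (ne_of_mem_erase hh'), ?_⟩
          have a1 := mem_Icc.1 (mem_of_mem_erase hh')
          have a2 := mem_Icc.1 hh
          have : |h' - h| ≤ N := abs_le.2 ⟨by linarith only [a1, a2], by linarith⟩
          exact_mod_cast this
      rw [sum_image fun x _ y _ h => by simpa using h] at e3
      gcongr
  refine (sum_le_card_nsmul _ _ _ h4).trans (le_of_eq ?_)
  rw [nsmul_eq_mul, hNc]; ring

end

end Pool.Agent.Work.MP_45c923_nt
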