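import Pool.Agent.Work.MP_45c923_nt.Stage

/-!
# Points on the curve `(z + a)^k - z^k = (z' + a')^k - z'^k` modulo `q^k`
-/

set_option autoImplicit false

namespace Pool.Agent.Work.MP_45c923_nt

open Finset Polynomial

noncomputable section

/-- divided difference of the `n`-th power -/
def DD {S : Type*} [CommRing S] : ℕ → S → S → S
  | 0, _, _ => 0
  | n + 1, x, y => x * DD n x y + y ^ n

lemma DD_succ {S : Type*} [CommRing S] (n : ℕ) (x y : S) :
    DD (n + 1) x y = x * DD n x y + y ^ n := rfl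

lemma DD_mul {S : Type*} [CommRing S] (n : ℕ) (x y : S) : (y - x) * DD n x y = y ^ n - x ^ n := by
  induction n with
  | zero => simp [DD]
  | succ n ih => simp only [DD]; linear_combination x * ih

lemma DD_cast {S : Type*} [CommRing S] (n : ℕ) (x y : ℤ) :
    ((DD n x y : ℤ) : S) = DD n (x : S) (y : S) := by
  induction n with
  | zero => simp [DD]
  | succ n ih => simp only [DD]; push_cast; rw [ih]

section nil
variable {S : Type*} [CommRing S]

lemma pow_mul_nil {x t η : S} (h : t * η = 0) (n : ℕ) : (x + t) ^ n * η = x ^ n * η := by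
  induction n with
  | zero => simp
  | succ n ih => linear_combination (x + t) * ih + x ^ n * h

lemma add_nil_pow {x η : S} (h : η * η = 0) (n : ℕ) :
    (x + η) ^ (n + 1) = x ^ (n + 1) + (n + 1) * x ^ n * η := by
  induction n with
  | zero => simp
  | succ n ih => push_cast; linear_combination (x + η) * ih + (n + 1) * x ^ n * h

lemma DD_mul_nil {x t η : S} (h : t * η = 0) (n : ℕ) :
    DD (n + 1) x (x + t) * η = (n + 1) * x ^ n * η := by
  induction n with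
  | zero => simp [DD]
  | succ n ih =>
    rw [DD]; push_cast
    linear_combination x * ih + pow_mul_nil (x := x) h (n + 1)

lemma DD_add_nil {x t η : S} (h : t * η = 0) (h2 : η * η = 0) (n : ℕ) :
    DD (n + 2) (x + η) (x + t + η) = DD (n + 2) x (x + t) + (n + 2) * (n + 1) * x ^ n * η := by
  induction n with
  | zero => simp only [DD]; ring
  | succ n ih =>
    rw [DD_succ (n + 2), ih, DD_succ (n + 2), add_nil_pow h2 (n + 1)]
    have h3 := DD_mul_nil (x := x) h (n + 1)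
    push_cast at h3 ⊢
    linear_combination h3 + (n + 2) * pow_mul_nil (x := x) h (n + 1)
      + (n + 2) * (n + 1) * x ^ n * h2

/-- the curvature form -/
def EE (l : ℕ) (x y : S) : S :=
  (l + 1) * (x + y) * (x ^ (l + 2) - y ^ (l + 2)) - 2 * (l + 2) * x * y * (x ^ (l + 1) - y ^ (l + 1))

/-- the eliminant -/
def WW (l : ℕ) (x₁ x₂ y₁ y₂ x₁' x₂' y₁' y₂' : S) : S :=
  (DD (l + 2) x₁ x₂ - DD (l + 2) y₁ y₂) * (DD (l + 3) x₁' x₂' - DD (l + 3) y₁' y₂') *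
      (x₁' ^ (l + 2) - y₁' ^ (l + 2)) -
    (DD (l + 2) x₁' x₂' - DD (l + 2) y₁' y₂') * (DD (l + 3) x₁ x₂ - DD (l + 3) y₁ y₂) *
      (x₁ ^ (l + 2) - y₁ ^ (l + 2))

lemma WW_nil (l : ℕ) {x y t η θ : S} (h1 : t * η = 0) (h2 : t * θ = 0) (h3 : η * η = 0)
    (h4 : θ * θ = 0) (h5 : η * θ = 0) (h6 : x ^ (l + 2) * η = y ^ (l + 2) * θ) :
    x ^ 2 * y ^ 2 * WW l x (x + t) y (y + t) (x + η) (x + t + η) (y + θ) (y + t + θ) =
      (l + 3) * (l + 2) * (y - x) * EE l x y * x ^ (l + 2) * y ^ (l + 2) * (η - θ) := by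
  unfold WW EE
  rw [DD_add_nil h1 h3 (l + 1), DD_add_nil h2 h4 (l + 1), DD_add_nil h1 h3 l, DD_add_nil h2 h4 l,
    add_nil_pow h3 (l + 1), add_nil_pow h4 (l + 1)]
  have a1 := DD_mul_nil (x := x) h1 (l + 1)
  have a2 := DD_mul_nil (x := x) h2 (l + 1)
  have a3 := DD_mul_nil (x := y) h1 (l + 1)
  have a4 := DD_mul_nil (x := y) h2 (l + 1)
  have b1 := DD_mul_nil (x := x) h1 (l + 2)
  have b2 := DD_mul_nil (x := x) h2 (l + 2)
  have b3 := DD_mul_nil (x := y) h1 (l + 2)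
  have b4 := DD_mul_nil (x := y) h2 (l + 2)
  set b₀ := DD (l + 1 + 1) x (x + t) - DD (l + 1 + 1) y (y + t) with hb₀
  set a₀ := DD (l + 2 + 1) x (x + t) - DD (l + 2 + 1) y (y + t) with ha₀
  push_cast at *
  set L : S := (l : S)
  set X := x ^ l
  set Y := y ^ l
  have ex1 : x ^ (l + 1) = X * x := pow_succ _ _
  have ey1 : y ^ (l + 1) = Y * y := pow_succ _ _
  have ex2 : x ^ (l + 2) = X * x ^ 2 := pow_add _ _ _
  have ey2 : y ^ (l + 2) = Y * y ^ 2 := pow_add _ _ _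
  simp only [ex1, ey1, ex2, ey2] at *
  have c1 : b₀ * η = (L + 2) * (X * x - Y * y) * η := by rw [hb₀]; linear_combination a1 - a3
  have c2 : b₀ * θ = (L + 2) * (X * x - Y * y) * θ := by rw [hb₀]; linear_combination a2 - a4
  have c3 : a₀ * η = (L + 3) * (X * x ^ 2 - Y * y ^ 2) * η := by
    rw [ha₀]; linear_combination b1 - b3
  have c4 : a₀ * θ = (L + 3) * (X * x ^ 2 - Y * y ^ 2) * θ := by
    rw [ha₀]; linear_combination b2 - b4
  set D := X * x ^ 2 - Y * y ^ 2 with hD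
  set Ξ := X * x * η - Y * y * θ with hΞ
  set Ξ' := X * η - Y * θ with hΞ'
  have d1 : b₀ * Ξ = (L + 2) * (X * x - Y * y) * Ξ := by
    rw [hΞ]; linear_combination X * x * c1 - Y * y * c2
  have d2 : a₀ * Ξ = (L + 3) * D * Ξ := by
    rw [hΞ]; linear_combination X * x * c3 - Y * y * c4
  have d3 : a₀ * Ξ' = (L + 3) * D * Ξ' := by
    rw [hΞ']; linear_combination X * c3 - Y * c4
  have d4 : Ξ * Ξ = 0 := by
    rw [hΞ]; linear_combination (X * x) ^ 2 * h3 + (Y * y) ^ 2 * h4 - 2 * X * x * Y * y * h5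
  have d5 : x * y * Ξ = X * x ^ 2 * η * (y - x) := by rw [hΞ]; linear_combination x * h6
  have d6 : x ^ 2 * y ^ 2 * Ξ' = X * x ^ 2 * η * (y ^ 2 - x ^ 2) := by
    rw [hΞ']; linear_combination x ^ 2 * h6
  have d7 : X * x ^ 2 * (Y * y ^ 2) * (η - θ) = - (X * x ^ 2 * η) * D := by
    rw [hD]; linear_combination X * x ^ 2 * h6
  have e1 : b₀ * (a₀ + (L + 3) * (L + 2) * Ξ) * (D + (L + 2) * Ξ)
      - (b₀ + (L + 2) * (L + 1) * Ξ') * a₀ * D =
      (L + 3) * (L + 2) * D * (2 * (L + 2) * (X * x - Y * y) * Ξ - (L + 1) * D * Ξ') := by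
    clear * - S L b₀ a₀ Ξ D Ξ' X x Y y d2 d1 d4 d3 l t η θ
    linear_combination (L + 2) * b₀ * d2 + 2 * (L + 3) * (L + 2) * D * d1
      + (L + 3) * (L + 2) ^ 2 * b₀ * d4 - (L + 2) * (L + 1) * D * d3
  have e2 : x ^ 2 * y ^ 2 * ((L + 3) * (L + 2) * D *
      (2 * (L + 2) * (X * x - Y * y) * Ξ - (L + 1) * D * Ξ')) =
      (L + 3) * (L + 2) * (y - x) *
        ((L + 1) * (x + y) * D - 2 * (L + 2) * x * y * (X * x - Y * y)) *
        (X * x ^ 2) * (Y * y ^ 2) * (η - θ) := by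
    clear * - S L D X x Y y Ξ η Ξ' θ d5 d6 d7 l
    linear_combination (L + 3) * (L + 2) * D * 2 * (L + 2) * (X * x - Y * y) * x * y * d5
      - (L + 3) * (L + 2) * D * (L + 1) * D * d6
      - (L + 3) * (L + 2) * (y - x) *
        ((L + 1) * (x + y) * D - 2 * (L + 2) * x * y * (X * x - Y * y)) * d7
  rw [← e2, ← e1, hb₀, ha₀, hD, hΞ, hΞ']
  ring

end nil

lemma EE_cast {S : Type*} [CommRing S] (l : ℕ) (x y : ℤ) :
    ((EE l x y : ℤ) : S) = EE l (x : S) (y : S) := by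
  unfold EE; push_cast; rfl

lemma WW_cast {S : Type*} [CommRing S] (l : ℕ) (x₁ x₂ y₁ y₂ x₁' x₂' y₁' y₂' : ℤ) :
    ((WW l x₁ x₂ y₁ y₂ x₁' x₂' y₁' y₂' : ℤ) : S) =
      WW l (x₁ : S) x₂ y₁ y₂ x₁' x₂' y₁' y₂' := by
  unfold WW; push_cast [DD_cast]; rfl

lemma EE_pos (l : ℕ) {x y : ℤ} (hy : 0 < y) (hxy : y < x) : 0 < EE l x y := by
  have hx : 0 < x := hy.trans hxy
  have aux : ∀ n : ℕ, 0 ≤ n * x ^ (n + 1) - (n + 1) * x ^ n * y + y ^ (n + 1) := by
    intro n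
    induction n with
    | zero => simp
    | succ n ih =>
      push_cast
      have h1 : 0 ≤ (n + 1 : ℤ) * x ^ n * (x - y) ^ 2 := by positivity
      have h2 := mul_nonneg hy.le ih
      have : (n + 1) * x ^ (n + 1 + 1) - (n + 1 + 1) * x ^ (n + 1) * y + y ^ (n + 1 + 1) =
        (n + 1 : ℤ) * x ^ n * (x - y) ^ 2 +
          y * (n * x ^ (n + 1) - (n + 1) * x ^ n * y + y ^ (n + 1)) := by ring
      linarith
  induction l with
  | zero =>
    have : EE 0 x y = (x - y) ^ 3 := by unfold EE; push_cast; ring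
    rw [this]; exact pow_pos (by linarith) _
  | succ l ih =>
    have h1 : EE (l + 1) x y = y * EE l x y +
        (x - y) * ((l + 2 : ℕ) * x ^ (l + 2 + 1) - ((l + 2 : ℕ) + 1) * x ^ (l + 2) * y
          + y ^ (l + 2 + 1)) := by
      unfold EE; push_cast; ring
    rw [h1]
    have := mul_nonneg (show 0 ≤ x - y by linarith) (aux (l + 2))
    have := mul_pos hy ih
    linarith

/-- the polynomial `(X + a)^k - X^k` -/
def PA (k : ℕ) (a : ℤ) : ℤ[X] := (X + C a) ^ k - X ^ k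

lemma PA_eval (k : ℕ) (a z : ℤ) : (PA k a).eval z = (z + a) ^ k - z ^ k := by simp [PA]

lemma PA_deriv (k : ℕ) (a z : ℤ) :
    (PA (k + 1) a).derivative.eval z = (k + 1) * ((z + a) ^ k - z ^ k) := by
  simp [PA, derivative_pow]; ring

/-- the local lemma -/
lemma local_dvd (l : ℕ) {p : ℕ} (hp : p.Prime) (hpl : l + 3 < p) {b : ℕ} (hb : b ≤ l + 3)
    {a a' y₁ y₂ y₁' y₂' u v : ℤ} (ha : (p : ℤ) ∣ a' - a) (h12 : (p : ℤ) ∣ y₂ - y₁)
    (h1 : (p : ℤ) ∣ y₁' - y₁) (h2 : (p : ℤ) ∣ y₂' - y₂)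
    (g : ¬ (p : ℤ) ∣ (y₁ + a) * y₁ * ((y₁ + a) ^ (l + 2) - y₁ ^ (l + 2)) * EE l (y₁ + a) y₁)
    (g2 : ¬ (p : ℤ) ∣ (y₂ + a) ^ (l + 2) - y₂ ^ (l + 2))
    (e1 : (p : ℤ) ^ (l + 3) ∣ (PA (l + 3) a).eval y₁ - (PA (l + 3) a').eval y₁')
    (e2 : (p : ℤ) ^ (l + 3) ∣ (PA (l + 3) a).eval y₂ - (PA (l + 3) a').eval y₂')
    (f1 : (p : ℤ) ^ b ∣ u * ((y₁ + a) ^ (l + 2) - y₁ ^ (l + 2))
      - v * ((y₁' + a') ^ (l + 2) - y₁' ^ (l + 2)))
    (f2 : (p : ℤ) ^ b ∣ u * ((y₂ + a) ^ (l + 2) - y₂ ^ (l + 2))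
      - v * ((y₂' + a') ^ (l + 2) - y₂' ^ (l + 2))) :
    (p : ℤ) ^ b ∣ u * (y₂ - y₁) * (a' - a) := by
  have hp' : Prime (p : ℤ) := Nat.prime_iff_prime_int.1 hp
  have hsm : ∀ n : ℕ, 0 < n → n < p → ¬ (p : ℤ) ∣ (n : ℤ) := fun n h0 h h' =>
    absurd (Nat.le_of_dvd h0 (Int.natCast_dvd_natCast.1 h')) (by omega)
  by_cases hδ : (p : ℤ) ^ b ∣ a' - a
  · exact hδ.mul_left _
  have hδ0 : a' - a ≠ 0 := fun h => hδ (h ▸ dvd_zero _)
  obtain ⟨f, τ, hτ, hf⟩ := WfDvdMonoid.max_power_factor hδ0 hp'.irreducible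
  have hfb : f < b := by
    by_contra h
    exact hδ (hf ▸ (pow_dvd_pow _ (by omega)).mul_right _)
  have hf0 : 0 < f := by
    rcases Nat.eq_zero_or_pos f with rfl | h
    · rw [hf] at ha; simp at ha; exact absurd ha hτ
    · exact h
  have gx : ¬ (p : ℤ) ∣ y₁ + a := fun h => g (((h.mul_right _).mul_right _).mul_right _)
  have gy : ¬ (p : ℤ) ∣ y₁ := fun h => g (((h.mul_left _).mul_right _).mul_right _)
  have gD : ¬ (p : ℤ) ∣ (y₁ + a) ^ (l + 2) - y₁ ^ (l + 2) := fun h => g ((h.mul_left _).mul_right _)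
  have gE : ¬ (p : ℤ) ∣ EE l (y₁ + a) y₁ := fun h => g (h.mul_left _)
  have ga : ¬ (p : ℤ) ∣ a := fun h => gD (h.trans (by
    have := sub_dvd_pow_sub_pow (y₁ + a) y₁ (l + 2); rwa [add_sub_cancel_left] at this))
  have hk3 : ¬ (p : ℤ) ∣ ((l + 2 : ℕ) + 1 : ℤ) := by exact_mod_cast hsm (l + 3) (by omega) hpl
  have hk2 : ¬ (p : ℤ) ∣ ((l + 2 : ℕ) : ℤ) := hsm (l + 2) (by omega) (by omega)
  have step : ∀ {y y' : ℤ}, (p : ℤ) ∣ y' - y → ¬ (p : ℤ) ∣ (y + a) ^ (l + 2) - y ^ (l + 2) →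
      (p : ℤ) ^ (l + 3) ∣ (PA (l + 3) a).eval y - (PA (l + 3) a').eval y' →
      (p : ℤ) ^ f ∣ y' - y := by
    intro y y' h g e
    refine hensel_unique (PA (l + 3) a) hp ?_ h ?_
    · have h3 : (p : ℤ) ^ f ∣ (PA (l + 3) a').eval y' - (PA (l + 3) a).eval y' := by
        rw [PA_eval, PA_eval, sub_sub_sub_cancel_right]
        refine dvd_trans ?_ (sub_dvd_pow_sub_pow _ _ _)
        rw [add_sub_add_left_eq_sub, hf]; exact dvd_mul_right _ _
      have h4 := (pow_dvd_pow (p : ℤ) (show f ≤ l + 3 by omega)).trans e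
      exact (h4.add h3).neg_right.trans (dvd_of_eq (by ring))
    · rw [PA_deriv (l + 2)]
      exact fun h => (hp'.dvd_or_dvd h).elim hk3 g
  obtain ⟨ω₁, hω₁⟩ := step h1 gD e1
  obtain ⟨ω₂, hω₂⟩ := step h2 g2 e2
  obtain ⟨t, ht⟩ := h12
  -- computation modulo `p^(f+1)`
  have key : (p : ℤ) ^ (f + 1) ∣ (y₁ + a) ^ 2 * y₁ ^ 2 *
      WW l (y₁ + a) (y₂ + a) y₁ y₂ (y₁' + a') (y₂' + a') y₁' y₂' -
      (l + 3) * (l + 2) * (y₁ - (y₁ + a)) * EE l (y₁ + a) y₁ * (y₁ + a) ^ (l + 2) * y₁ ^ (l + 2)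
        * (a' - a) := by
    clear * - p f hp' l b a a' y₁ y₂ y₁' y₂' u v τ hf0 ω₁ ω₂ t hf hfb step hω₁ hω₂ ht hb e1 e2 hk3
      gD
    set N := p ^ (f + 1) with hN
    have hz : ∀ z : ℤ, (p : ℤ) ^ (f + 1) ∣ z ↔ (z : ZMod N) = 0 := fun z => by
      rw [ZMod.intCast_zmod_eq_zero_iff_dvd, hN]; push_cast; rfl
    have hu : ∀ z : ℤ, ¬ (p : ℤ) ∣ z → IsUnit (z : ZMod N) := fun z h => by
      rw [ZMod.coe_int_isUnit_iff_isCoprime, hN]; push_cast
      exact ((hp'.coprime_iff_not_dvd.2 h).pow_left)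
    set π : ZMod N := (p : ZMod N) with hπ
    have hπ0 : π * π ^ f = 0 := by
      have := (hz _).1 dvd_rfl
      push_cast at this; rw [← this]; ring
    have hππ : π ^ f * π ^ f = 0 := by
      obtain ⟨f', rfl⟩ : ∃ f', f = f' + 1 := ⟨f - 1, by omega⟩
      linear_combination π ^ f' * hπ0
    set x : ZMod N := ((y₁ + a : ℤ) : ZMod N) with hx
    set y : ZMod N := (y₁ : ZMod N) with hy
    have c1 : (y₂ : ZMod N) = y + π * t := by
      rw [show y₂ = y₁ + p * t by linarith]; push_cast; rfl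
    have c2 : ((y₂ + a : ℤ) : ZMod N) = x + π * t := by
      rw [show y₂ + a = (y₁ + a) + p * t by linarith, Int.cast_add, ← hx]; push_cast; rfl
    have c3 : (y₁' : ZMod N) = y + π ^ f * ω₁ := by
      rw [show y₁' = y₁ + p ^ f * ω₁ by linarith]; push_cast; rfl
    have c4 : ((y₁' + a' : ℤ) : ZMod N) = x + π ^ f * (ω₁ + τ) := by
      rw [show y₁' + a' = (y₁ + a) + p ^ f * (ω₁ + τ) by linarith, Int.cast_add, ← hx]
      push_cast; rfl
    have c5 : (y₂' : ZMod N) = y + π * t + π ^ f * ω₂ := by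
      rw [show y₂' = y₂ + p ^ f * ω₂ by linarith, Int.cast_add, c1]; push_cast; rfl
    have c6 : ((y₂' + a' : ℤ) : ZMod N) = x + π * t + π ^ f * (ω₂ + τ) := by
      rw [show y₂' + a' = (y₂ + a) + p ^ f * (ω₂ + τ) by linarith, Int.cast_add, c2]
      push_cast; rfl
    have n1 : ∀ c d : ZMod N, π ^ f * c * (π ^ f * d) = 0 := fun c d => by
      linear_combination c * d * hππ
    have n2 : ∀ c d : ZMod N, π * c * (π ^ f * d) = 0 := fun c d => by
      linear_combination c * d * hπ0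
    have e1' := (hz _).1 ((pow_dvd_pow _ (show f + 1 ≤ l + 3 by omega)).trans e1)
    have e2' := (hz _).1 ((pow_dvd_pow _ (show f + 1 ≤ l + 3 by omega)).trans e2)
    rw [PA_eval, PA_eval] at e1' e2'
    simp only [Int.cast_sub, Int.cast_pow, c1, c2, c3, c4, c5, c6, ← hx, ← hy] at e1' e2'
    rw [add_nil_pow (n1 _ _) (l + 2), add_nil_pow (n1 _ _) (l + 2)] at e1' e2'
    have hk := hu _ hk3
    have r1 : x ^ (l + 2) * (π ^ f * (ω₁ + τ)) = y ^ (l + 2) * (π ^ f * ω₁) := by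
      apply hk.mul_left_cancel
      push_cast at e1' ⊢
      linear_combination -e1'
    have r2 : x ^ (l + 2) * (π ^ f * (ω₂ + τ)) = y ^ (l + 2) * (π ^ f * ω₂) := by
      apply hk.mul_left_cancel
      have p1 := pow_mul_nil (x := x) (n2 t (ω₂ + τ)) (l + 2)
      have p2 := pow_mul_nil (x := y) (n2 t ω₂) (l + 2)
      push_cast at e2' ⊢
      linear_combination -e2' - (l + 2 + 1) * p1 + (l + 2 + 1) * p2
    have r3 : π ^ f * (ω₂ : ZMod N) = π ^ f * ω₁ := by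
      apply (hu _ gD).mul_left_cancel
      simp only [Int.cast_sub, Int.cast_pow, ← hx, ← hy]
      linear_combination r2 - r1
    have r4 : π ^ f * ((ω₂ : ZMod N) + τ) = π ^ f * (ω₁ + τ) := by linear_combination r3
    rw [hz]
    simp only [Int.cast_sub, Int.cast_mul, Int.cast_pow, WW_cast, EE_cast, c1, c2, c3, c4, c5, c6,
      ← hx, ← hy, r3, r4]
    rw [WW_nil l (n2 _ _) (n2 _ _) (n1 _ _) (n1 _ _) (n1 _ _) r1]
    have c7 : (a' : ZMod N) - a = π ^ f * τ := by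
      rw [← Int.cast_sub, hf]; push_cast; rfl
    rw [c7]; push_cast; ring
  set W := WW l (y₁ + a) (y₂ + a) y₁ y₂ (y₁' + a') (y₂' + a') y₁' y₂' with hW
  have elim : (p : ℤ) ^ b ∣ u * (y₂ - y₁) * W := by
    clear * - p b y₁ l a y₁' a' hb e1 y₂ y₂' e2 u v f2 f1 W hW
    have e1' := (pow_dvd_pow (p : ℤ) hb).trans e1
    have e2' := (pow_dvd_pow (p : ℤ) hb).trans e2
    rw [PA_eval, PA_eval] at e1' e2'
    have d1 := DD_mul (l + 3) (y₁ + a) (y₂ + a)
    have d2 := DD_mul (l + 3) y₁ y₂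
    have d3 := DD_mul (l + 3) (y₁' + a') (y₂' + a')
    have d4 := DD_mul (l + 3) y₁' y₂'
    have d5 := DD_mul (l + 2) (y₁ + a) (y₂ + a)
    have d6 := DD_mul (l + 2) y₁ y₂
    have d7 := DD_mul (l + 2) (y₁' + a') (y₂' + a')
    have d8 := DD_mul (l + 2) y₁' y₂'
    set B := DD (l + 3) (y₁' + a') (y₂' + a') - DD (l + 3) y₁' y₂' with hB
    set B' := DD (l + 2) (y₁' + a') (y₂' + a') - DD (l + 2) y₁' y₂' with hB'
    set a₀ := DD (l + 3) (y₁ + a) (y₂ + a) - DD (l + 3) y₁ y₂ with ha₀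
    set c' := (y₁' + a') ^ (l + 2) - y₁' ^ (l + 2) with hc'
    have := (((f2.sub f1).mul_right (B * c')).sub ((e2'.sub e1').mul_left (v * B' * c'))).sub
      (f1.mul_right (B' * (y₂ - y₁) * a₀))
    refine this.trans (dvd_of_eq (Eq.symm ?_))
    rw [hW, WW, ← hB, ← hB', ← ha₀, ← hc']
    have k1 : (y₂ - y₁) * a₀ = (y₂ + a) ^ (l + 3) - (y₁ + a) ^ (l + 3)
        - (y₂ ^ (l + 3) - y₁ ^ (l + 3)) := by rw [ha₀]; linear_combination d1 - d2
    have k2 : (y₂' - y₁') * B = (y₂' + a') ^ (l + 3) - (y₁' + a') ^ (l + 3)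
        - (y₂' ^ (l + 3) - y₁' ^ (l + 3)) := by rw [hB]; linear_combination d3 - d4
    have k3 : (y₂' - y₁') * B' = (y₂' + a') ^ (l + 2) - y₂' ^ (l + 2) - c' := by
      rw [hB', hc']; linear_combination d7 - d8
    linear_combination (u * B * c') * (d5 - d6) - v * B * c' * k3
      - v * B' * c' * k1 + v * B' * c' * k2
  obtain ⟨c, hc⟩ := key
  set U := (l + 3) * (l + 2) * (y₁ - (y₁ + a)) * EE l (y₁ + a) y₁ * (y₁ + a) ^ (l + 2) * y₁ ^ (l + 2)
    with hU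
  have hU' : ¬ (p : ℤ) ∣ U * τ + p * c := by
    clear * - p U τ c l y₁ a hp' hU hk3 hk2 ga gE gx gy hτ
    intro h
    have h' : (p : ℤ) ∣ U * τ := (dvd_add_left (dvd_mul_right _ _)).1 h
    rw [hU] at h'
    simp only [hp'.dvd_mul] at h'
    rcases h' with (((((h' | h') | h') | h') | h') | h') | h'
    · exact hk3 (h'.trans (dvd_of_eq (by push_cast; ring)))
    · exact hk2 (by exact_mod_cast h')
    · exact ga (by simpa using h')
    · exact gE h'
    · exact gx (hp'.dvd_of_dvd_pow h')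
    · exact gy (hp'.dvd_of_dvd_pow h')
    · exact hτ h'
  have h3 : (p : ℤ) ^ b ∣ u * (y₂ - y₁) * p ^ f * (U * τ + p * c) := by
    have := elim.mul_right ((y₁ + a) ^ 2 * y₁ ^ 2)
    refine this.trans (dvd_of_eq ?_)
    rw [hf] at hc
    linear_combination u * (y₂ - y₁) * hc
  have := (hp'.pow_dvd_of_dvd_mul_right b hU' h3).mul_right τ
  rw [hf]; exact this.trans (dvd_of_eq (by ring))

end

end Pool.Agent.Work.MP_45c923_nt
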