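import Pool.Agent.Work.MP_45c923_nt.Basic

/-!
# Products of primes, their exponential sums, and extraction of common prime factors
-/

set_option autoImplicit false

namespace Pool.Agent.Work.MP_45c923_nt

open Finset Pool.Agent.Lib.LargeSieve

noncomputable section

/-- `n`-tuples from the pool `S` -/
def TT (S : Finset ℕ) (n : ℕ) : Finset (Fin n → ℕ) := Fintype.piFinset fun _ => S

/-- product of a tuple -/
def pr {n : ℕ} (u : Fin n → ℕ) : ℕ := ∏ i, u i

lemma mem_TT {S : Finset ℕ} {n : ℕ} {u : Fin n → ℕ} : u ∈ TT S n ↔ ∀ i, u i ∈ S :=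
  Fintype.mem_piFinset

lemma card_TT (S : Finset ℕ) (n : ℕ) : (TT S n).card = S.card ^ n := by
  simp [TT]

lemma sum_TT_zero {β : Type*} [AddCommMonoid β] (S : Finset ℕ) (F : ℕ → β) :
    ∑ u ∈ TT S 0, F (pr u) = F 1 := by
  simp [TT, pr]

lemma sum_TT_succ {β : Type*} [AddCommMonoid β] (S : Finset ℕ) (n : ℕ) (F : ℕ → β) :
    ∑ u ∈ TT S (n + 1), F (pr u) = ∑ p ∈ S, ∑ u ∈ TT S n, F (p * pr u) := by
  rw [← sum_product' (f := fun p (u : Fin n → ℕ) => F (p * pr u))]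
  symm
  refine sum_nbij' (fun x => Fin.cons x.1 x.2) (fun u => (u 0, Fin.tail u)) ?_ ?_ ?_ ?_ ?_
  · intro x hx
    rw [mem_product] at hx
    rw [mem_TT]
    intro i
    refine Fin.cases ?_ (fun j => ?_) i
    · simpa using hx.1
    · simpa using mem_TT.1 hx.2 j
  · intro u hu
    rw [mem_TT] at hu
    exact mem_product.2 ⟨hu 0, mem_TT.2 fun j => hu _⟩
  · intro x _; simp
  · intro u _; simp
  · intro x _; simp [pr, Fin.prod_univ_succ]

lemma sum_TT_add {β : Type*} [AddCommMonoid β] (S : Finset ℕ) (m n : ℕ) (F : ℕ → β) :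
    ∑ u ∈ TT S (m + n), F (pr u) = ∑ v ∈ TT S m, ∑ u ∈ TT S n, F (pr v * pr u) := by
  induction m generalizing F with
  | zero =>
    rw [sum_TT_zero S fun x => ∑ u ∈ TT S n, F (x * pr u)]
    simp only [one_mul]
    rw [zero_add]
  | succ m ih =>
    rw [show m + 1 + n = (m + n) + 1 by ring, sum_TT_succ,
      sum_TT_succ S m fun x => ∑ u ∈ TT S n, F (x * pr u)]
    refine sum_congr rfl fun p _ => ?_
    rw [ih fun x => F (p * x)]
    simp only [mul_assoc]

/-- a pool of primes in `[R, 2R]` -/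
structure PP (R : ℕ) (S : Finset ℕ) : Prop where
  prime : ∀ p ∈ S, p.Prime
  le : ∀ p ∈ S, R ≤ p
  le' : ∀ p ∈ S, p ≤ 2 * R
  two : 2 ≤ R

lemma PP.card_le {R : ℕ} {S : Finset ℕ} (h : PP R S) : S.card ≤ 2 * R := by
  have : S ⊆ Icc 1 (2 * R) := fun p hp => mem_Icc.2 ⟨(h.prime p hp).one_le, h.le' p hp⟩
  simpa using card_le_card this

lemma PP.le_pr {R : ℕ} {S : Finset ℕ} (h : PP R S) {n : ℕ} {u : Fin n → ℕ}
    (hu : u ∈ TT S n) : R ^ n ≤ pr u := by
  have := prod_le_prod' (s := univ) (f := fun _ : Fin n => R) (g := u)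
    fun i _ => h.le _ (mem_TT.1 hu i)
  simpa [pr] using this

lemma PP.pr_le {R : ℕ} {S : Finset ℕ} (h : PP R S) {n : ℕ} {u : Fin n → ℕ}
    (hu : u ∈ TT S n) : pr u ≤ (2 * R) ^ n := by
  have := prod_le_prod' (s := univ) (g := fun _ : Fin n => 2 * R) (f := u)
    fun i _ => h.le' _ (mem_TT.1 hu i)
  simpa [pr] using this

lemma PP.pr_pos {R : ℕ} {S : Finset ℕ} (h : PP R S) {n : ℕ} {u : Fin n → ℕ}
    (hu : u ∈ TT S n) : 0 < pr u :=
  lt_of_lt_of_le (pow_pos (by have := h.two; omega) _) (h.le_pr hu)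

/-- few primes of the pool divide a nonzero integer of moderate size -/
lemma PP.card_dvd_le {R : ℕ} {S : Finset ℕ} (h : PP R S) {N : ℤ} (hN : N ≠ 0) {B : ℕ}
    (hB : |N| ≤ (R : ℤ) ^ B) : (S.filter fun p : ℕ => (p : ℤ) ∣ N).card ≤ B := by
  set T := S.filter fun p : ℕ => (p : ℤ) ∣ N with hT
  have h1 : ∏ p ∈ T, p ∣ N.natAbs := by
    refine Finset.prod_primes_dvd _ (fun p hp => (h.prime p (mem_filter.1 hp).1).prime)
      fun p hp => ?_
    exact Int.natCast_dvd.1 (mem_filter.1 hp).2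
  have h2 := Nat.le_of_dvd (Int.natAbs_pos.2 hN) h1
  have h3 : R ^ T.card ≤ ∏ p ∈ T, p :=
    pow_card_le_prod _ _ _ fun p hp => h.le p (mem_filter.1 hp).1
  have h4 : N.natAbs ≤ R ^ B := by
    have : (N.natAbs : ℤ) ≤ ((R ^ B : ℕ) : ℤ) := by
      rw [Int.natCast_natAbs]; exact_mod_cast hB
    exact_mod_cast this
  exact (Nat.pow_le_pow_iff_right (by have := h.two; omega)).1 (h3.trans (h2.trans h4))

/-- exponential sum over products of `n` primes -/
def GG (S : Finset ℕ) (k n : ℕ) (α : ℝ) : ℂ := ∑ u ∈ TT S n, ee (α * (pr u : ℝ) ^ k)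

@[fun_prop] lemma continuous_GG (S : Finset ℕ) (k n : ℕ) : Continuous (GG S k n) := by
  unfold GG; fun_prop

lemma GG_succ (S : Finset ℕ) (k n : ℕ) (α : ℝ) :
    GG S k (n + 1) α = ∑ p ∈ S, GG S k n (α * (p : ℝ) ^ k) := by
  unfold GG
  rw [sum_TT_succ S n fun x => ee (α * (x : ℝ) ^ k)]
  refine sum_congr rfl fun p _ => sum_congr rfl fun u _ => ?_
  push_cast; rw [mul_pow, mul_assoc]

lemma GG_add (S : Finset ℕ) (k m n : ℕ) (α : ℝ) :
    GG S k (m + n) α = ∑ v ∈ TT S m, GG S k n (α * (pr v : ℝ) ^ k) := by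
  unfold GG
  rw [sum_TT_add S m n fun x => ee (α * (x : ℝ) ^ k)]
  refine sum_congr rfl fun p _ => sum_congr rfl fun u _ => ?_
  push_cast; rw [mul_pow, mul_assoc]

lemma GG_mul_eq (S : Finset ℕ) (k n w : ℕ) (α : ℝ) :
    GG S k n (α * w) = ES (TT S n) (fun u => (w : ℤ) * (pr u : ℤ) ^ k) α := by
  unfold GG ES
  refine sum_congr rfl fun u _ => ?_
  push_cast; rw [mul_assoc]

/-- number of solutions of `w (U - V) = m`, with `U`, `V` sums of `s` powers -/
def rr (S : Finset ℕ) (k s n w : ℕ) : ℤ → ℝ :=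
  rep (Fintype.piFinset fun _ : Fin s => TT S n) fun U => ∑ i, (w : ℤ) * (pr (U i) : ℤ) ^ k

lemma pd_rr (S : Finset ℕ) (k s n w : ℕ) :
    PD (fun α => ‖GG S k n (α * w)‖ ^ (2 * s)) (rr S k s n w) := by
  have := pd_ES (Fintype.piFinset fun _ : Fin s => TT S n)
    fun U => ∑ i, (w : ℤ) * (pr (U i) : ℤ) ^ k
  have h2 : (fun α => ‖GG S k n (α * w)‖ ^ (2 * s)) = fun α =>
      ‖ES (Fintype.piFinset fun _ : Fin s => TT S n)
        (fun U => ∑ i, (w : ℤ) * (pr (U i) : ℤ) ^ k) α‖ ^ 2 := by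
    funext α
    rw [GG_mul_eq, ← ES_pow (TT S n) fun u => (w : ℤ) * (pr u : ℤ) ^ k, norm_pow, ← pow_mul,
      mul_comm]
  rw [h2]; exact this

/-- the mean value -/
def MV (S : Finset ℕ) (k s n : ℕ) : ℝ := rr S k s n 1 0

lemma MV_nonneg (S : Finset ℕ) (k s n : ℕ) : 0 ≤ MV S k s n := rep_nonneg _ _ _

lemma MV_eq (S : Finset ℕ) (k s n : ℕ) :
    MV S k s n = ∫ α in (0 : ℝ)..1, ‖GG S k n α‖ ^ (2 * s) := by
  have := (pd_rr S k s n 1).zero_eq
  simpa [MV] using this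

lemma rr_zero (S : Finset ℕ) (k s n : ℕ) {w : ℕ} (hw : w ≠ 0) : rr S k s n w 0 = MV S k s n := by
  unfold MV rr rep
  refine sum_congr rfl fun U _ => sum_congr rfl fun V _ => ?_
  have hw' : (w : ℤ) ≠ 0 := by exact_mod_cast hw
  congr 1
  simp only [← mul_sum, ← mul_sub, mul_eq_zero, hw', false_or, Nat.cast_one, one_mul]

lemma dvd_of_rr_ne_zero {S : Finset ℕ} {k s n w : ℕ} {m : ℤ} (h : rr S k s n w m ≠ 0) :
    (w : ℤ) ∣ m := by
  obtain ⟨U, _, h⟩ := exists_ne_zero_of_sum_ne_zero h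
  obtain ⟨V, _, h⟩ := exists_ne_zero_of_sum_ne_zero h
  have h2 := (ite_ne_right_iff.1 h).1
  rw [← h2]
  simp only [← mul_sum, ← mul_sub]
  exact dvd_mul_right _ _

lemma MV_le_card (S : Finset ℕ) (k s n : ℕ) : MV S k s n ≤ (S.card : ℝ) ^ (2 * s * n) := by
  unfold MV rr rep
  refine (sum_le_sum fun U _ => sum_le_sum fun V _ =>
    show _ ≤ (1 : ℝ) by split_ifs <;> norm_num).trans (le_of_eq ?_)
  simp [card_TT]; ring

lemma young {a b η : ℝ} (ha : 0 ≤ a) (hb : 0 ≤ b) (hη : 0 < η) (m : ℕ) :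
    a * b ^ m ≤ η⁻¹ * b ^ (m + 1) + η ^ m * a ^ (m + 1) := by
  rcases le_total b (η * a) with h | h
  · have : b ^ m ≤ (η * a) ^ m := pow_le_pow_left₀ hb h m
    have h2 : a * b ^ m ≤ η ^ m * a ^ (m + 1) := by
      calc a * b ^ m ≤ a * (η * a) ^ m := by gcongr
        _ = _ := by ring
    have : 0 ≤ η⁻¹ * b ^ (m + 1) := by positivity
    linarith only [h2, this]
  · have h1 : a ≤ η⁻¹ * b := by rw [inv_mul_eq_div, le_div_iff₀ hη]; linarith
    have h2 : a * b ^ m ≤ η⁻¹ * b ^ (m + 1) := by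
      calc a * b ^ m ≤ η⁻¹ * b * b ^ m := by gcongr
        _ = _ := by ring
    have : 0 ≤ η ^ m * a ^ (m + 1) := by positivity
    linarith only [h2, this]

/-- extraction of one prime -/
lemma extract_step {ι : Type*} (S : Finset ℕ) (k s n w : ℕ) (hs : 1 ≤ s) (A : Finset ι)
    (φ : ι → ℤ) (bad : ι → ℕ → Prop) [∀ a p, Decidable (bad a p)] {M B : ℝ} (hM0 : 0 < M)
    (hB0 : 0 < B) (hM : (S.card : ℝ) ≤ M) (hB : ∀ a ∈ A, ((S.filter (bad a)).card : ℝ) ≤ B) :
    QF A φ (rr S k s (n + 1) w) ≤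
      4 * (8 * M) ^ (2 * s - 1) *
          ∑ p ∈ S, QF (A.filter fun a => ¬ bad a p) φ (rr S k s n (w * p ^ k)) +
        4 * (8 * B) ^ (2 * s - 1) * ∑ p ∈ S, QF A φ (rr S k s n (w * p ^ k)) := by
  obtain ⟨m, hm⟩ : ∃ m, 2 * s = m + 1 := ⟨2 * s - 1, by omega⟩
  have hm' : 2 * s - 1 = m := by omega
  rw [hm']
  have H := pd_rr S k s (n + 1) w
  have Hp := fun p : ℕ => pd_rr S k s n (w * p ^ k)
  set N := QF A φ (rr S k s (n + 1) w) with hN
  set G : ℝ → ℝ := fun α => ‖GG S k (n + 1) (α * w)‖ with hG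
  set g : ℕ → ℝ → ℝ := fun p α => ‖GG S k n (α * (w * p ^ k : ℕ))‖ with hg
  set F : Finset ι → ℝ → ℝ := fun A α => ‖ES A φ α‖ ^ 2 with hF
  have cG : Continuous G := by simp only [hG]; fun_prop
  have cg : ∀ p, Continuous (g p) := fun p => by simp only [hg]; fun_prop
  have cF : ∀ A, Continuous (F A) := fun A => by simp only [hF]; fun_prop
  have hGg : ∀ α, G α ≤ ∑ p ∈ S, g p α := by
    intro α
    simp only [hG, hg, GG_succ]
    refine (norm_sum_le _ _).trans (le_of_eq (sum_congr rfl fun p _ => ?_))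
    push_cast; rw [mul_assoc]
  have hFF : ∀ p α, F A α ≤ 2 * F (A.filter fun a => ¬ bad a p) α
      + 2 * F (A.filter fun a => bad a p) α := by
    clear * - F A ι bad φ hF
    intro p α
    simp only [hF]
    have : ES A φ α = ES (A.filter fun a => ¬ bad a p) φ α + ES (A.filter fun a => bad a p) φ α := by
      unfold ES; rw [add_comm, sum_filter_add_sum_filter_not]
    rw [this]
    have h1 := norm_add_le (ES (A.filter fun a => ¬ bad a p) φ α)
      (ES (A.filter fun a => bad a p) φ α)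
    have h2 := pow_le_pow_left₀ (norm_nonneg _) h1 2
    nlinarith only [h2, sq_nonneg (‖ES (A.filter fun a => ¬ bad a p) φ α‖ -
      ‖ES (A.filter fun a => bad a p) φ α‖)]
  have hpt : ∀ α, F A α * G α ^ (2 * s) ≤ ∑ p ∈ S,
      ((2 * (8 * M)⁻¹ * (F (A.filter fun a => ¬ bad a p) α * G α ^ (2 * s)) +
        2 * (8 * M) ^ m * (F (A.filter fun a => ¬ bad a p) α * g p α ^ (2 * s))) +
       (2 * (8 * B)⁻¹ * (F (A.filter fun a => bad a p) α * G α ^ (2 * s)) +
        2 * (8 * B) ^ m * (F (A.filter fun a => bad a p) α * g p α ^ (2 * s)))) := by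
    clear * - G S k n w ι F φ A s M bad m g B hm hGg hM0 hB0 hFF
    intro α
    have hG0 : 0 ≤ G α := norm_nonneg _
    have hF0 : ∀ A, 0 ≤ F A α := fun A => sq_nonneg _
    rw [hm]
    calc F A α * G α ^ (m + 1) = F A α * G α ^ m * G α := by ring
      _ ≤ F A α * G α ^ m * ∑ p ∈ S, g p α := by
          have := hF0 A
          gcongr; exact hGg α
      _ = ∑ p ∈ S, F A α * (g p α * G α ^ m) := by
          rw [mul_sum]; exact sum_congr rfl fun p _ => by ring
      _ ≤ _ := by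
          refine sum_le_sum fun p _ => ?_
          have hg0 : 0 ≤ g p α := norm_nonneg _
          have y1 := young hg0 hG0 (η := 8 * M) (by positivity) m
          have y2 := young hg0 hG0 (η := 8 * B) (by positivity) m
          have h1 := hF0 (A.filter fun a => ¬ bad a p)
          have h2 := hF0 (A.filter fun a => bad a p)
          have h3 := mul_le_mul_of_nonneg_right (hFF p α) (show 0 ≤ g p α * G α ^ m by positivity)
          have h4 := mul_le_mul_of_nonneg_left y1 h1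
          have h5 := mul_le_mul_of_nonneg_left y2 h2
          nlinarith only [h3, h4, h5]
  have hint : N ≤ ∑ p ∈ S,
      ((2 * (8 * M)⁻¹ * QF (A.filter fun a => ¬ bad a p) φ (rr S k s (n + 1) w) +
        2 * (8 * M) ^ m * QF (A.filter fun a => ¬ bad a p) φ (rr S k s n (w * p ^ k))) +
       (2 * (8 * B)⁻¹ * QF (A.filter fun a => bad a p) φ (rr S k s (n + 1) w) +
        2 * (8 * B) ^ m * QF (A.filter fun a => bad a p) φ (rr S k s n (w * p ^ k)))) := by
    clear * - N S M ι bad A φ k s n w m B hN H F G g cF cG cg hpt Hp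
    rw [hN, H.QF_eq]
    refine (int_mono zero_le_one (by fun_prop) (by fun_prop) fun α _ => hpt α).trans (le_of_eq ?_)
    rw [int_sum _ _ fun p _ => by fun_prop]
    refine sum_congr rfl fun p _ => ?_
    rw [int_add (by fun_prop) (by fun_prop), int_add (by fun_prop) (by fun_prop),
      int_add (by fun_prop) (by fun_prop)]
    simp only [intervalIntegral.integral_const_mul, H.QF_eq, (Hp p).QF_eq]
    rfl
  have h1 : ∑ p ∈ S, QF (A.filter fun a => ¬ bad a p) φ (rr S k s (n + 1) w) ≤ M * N := by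
    refine (sum_le_sum fun p _ => H.QF_mono (filter_subset _ _) φ).trans ?_
    rw [sum_const, nsmul_eq_mul]
    exact mul_le_mul_of_nonneg_right hM (H.QF_nonneg _ _)
  have h2 : ∑ p ∈ S, QF (A.filter fun a => bad a p) φ (rr S k s (n + 1) w) ≤ B * N := by
    calc _ ≤ ∑ p ∈ S, ∑ a ∈ A, if bad a p then ∑ b ∈ A, rr S k s (n + 1) w (φ a - φ b) else 0 := by
          refine sum_le_sum fun p _ => ?_
          rw [← sum_filter]
          exact sum_le_sum fun a _ => sum_le_sum_of_subset_of_nonneg (filter_subset _ _)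
            fun _ _ _ => H.pos _
      _ = ∑ a ∈ A, ((S.filter (bad a)).card : ℝ) * ∑ b ∈ A, rr S k s (n + 1) w (φ a - φ b) := by
          rw [sum_comm]
          refine sum_congr rfl fun a _ => ?_
          rw [← sum_filter, sum_const, nsmul_eq_mul]
      _ ≤ _ := by
          rw [hN, QF, mul_sum]
          exact sum_le_sum fun a ha => mul_le_mul_of_nonneg_right (hB a ha)
            (sum_nonneg fun _ _ => H.pos _)
  have h3 : ∑ p ∈ S, QF (A.filter fun a => bad a p) φ (rr S k s n (w * p ^ k))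
      ≤ ∑ p ∈ S, QF A φ (rr S k s n (w * p ^ k)) :=
    sum_le_sum fun p _ => (Hp p).QF_mono (filter_subset _ _) φ
  simp only [sum_add_distrib, ← mul_sum] at hint
  have h4 : 2 * (8 * M)⁻¹ * ∑ p ∈ S, QF (A.filter fun a => ¬ bad a p) φ (rr S k s (n + 1) w)
      ≤ N / 4 := by
    clear * - M S ι bad A φ k s n w N h1 hM0
    calc _ ≤ 2 * (8 * M)⁻¹ * (M * N) := by gcongr
      _ = _ := by field_simp; ring
  have h5 : 2 * (8 * B)⁻¹ * ∑ p ∈ S, QF (A.filter fun a => bad a p) φ (rr S k s (n + 1) w)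
      ≤ N / 4 := by
    clear * - B S ι bad A φ k s n w N h2 hB0
    calc _ ≤ 2 * (8 * B)⁻¹ * (B * N) := by gcongr
      _ = _ := by field_simp; ring
  have h6 := mul_le_mul_of_nonneg_left h3 (show 0 ≤ 2 * (8 * B) ^ m by positivity)
  clear * - N M m S ι bad A φ k s n w B hint h4 h5 h6
  linarith only [hint, h4, h5, h6]

/-- iterated extraction -/
lemma extract_iter {ι : Type*} (S : Finset ℕ) (hS : ∀ p ∈ S, p ≠ 0) (k s : ℕ) (hs : 1 ≤ s)
    (A : Finset ι) (φ : ι → ℤ) (bad : ι → ℕ → Prop) [∀ a p, Decidable (bad a p)]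
    {M B Λ Y Z α β E : ℝ} (hM0 : 0 < M) (hB0 : 0 < B) (hΛ : 0 < Λ) (hY : 0 ≤ Y) (hZ : 0 ≤ Z)
    (hα : 1 ≤ α) (hβ0 : 0 ≤ β) (hβ : β ≤ 1) (hE : 1 ≤ E) (hM : (S.card : ℝ) ≤ M) (j₀ : ℕ)
    (hB : ∀ a ∈ A, ((S.filter (bad a)).card : ℝ) + j₀ ≤ B)
    (ha : 4 * (8 * M) ^ (2 * s - 1) * M ≤ α * Λ)
    (hb : 4 * (8 * B) ^ (2 * s - 1) * M ≤ E * β * Λ) (ν₀ ν₁ : ℕ)
    (H1 : ∀ ν, ν₀ ≤ ν → ν ≤ ν₁ → ∀ T ⊆ S, T.card = j₀ → ∀ w, w ≠ 0 → (∏ p ∈ T, p) ^ k ∣ w →
      QF (A.filter fun a => ∀ p ∈ T, ¬ bad a p) φ (rr S k s ν w) ≤ Y * Λ ^ ν)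
    (H2 : ∀ ν, ν ≤ ν₁ → ∀ w, w ≠ 0 → QF A φ (rr S k s ν w) ≤ Z * Λ ^ ν) :
    ∀ (t j m : ℕ), j + m = t → ∀ ν, ν₀ + j + m ≤ ν → ν ≤ ν₁ → ∀ T ⊆ S, T.card + j = j₀ →
      ∀ w, w ≠ 0 → (∏ p ∈ T, p) ^ k ∣ w →
      QF (A.filter fun a => ∀ p ∈ T, ¬ bad a p) φ (rr S k s ν w)
        ≤ (2 * E) ^ (j + m) * α ^ j * (Y + β ^ m * Z) * Λ ^ ν := by
  classical
  have h2E : 1 ≤ 2 * E := by linarith only [hE]
  intro t
  induction t with
  | zero =>
    intro j m hjm ν h0 h1 T hT hc w hw hd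
    obtain rfl : j = 0 := by omega
    obtain rfl : m = 0 := by omega
    refine (H1 ν (by omega) h1 T hT (by omega) w hw hd).trans ?_
    simp only [add_zero, pow_zero, one_mul]
    gcongr; linarith only [hZ]
  | succ t ih =>
    intro j m hjm ν h0 h1 T hT hc w hw hd
    have hp1 : 1 ≤ (2 * E) ^ (j + m) * α ^ j :=
      one_le_mul_of_one_le_of_one_le (one_le_pow₀ h2E) (one_le_pow₀ hα)
    rcases j with _ | j
    · refine (H1 ν (by omega) h1 T hT (by omega) w hw hd).trans ?_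
      have : 0 ≤ β ^ m * Z := by positivity
      gcongr
      clear * - Y E m α β Z this hY hp1
      nlinarith only [this, hY, hp1]
    rcases m with _ | m
    · refine (((pd_rr S k s ν w).QF_mono (filter_subset _ _) φ).trans (H2 ν h1 w hw)).trans ?_
      gcongr
      simp only [pow_zero, one_mul]
      clear * - Z E j α Y hY hp1 hZ
      nlinarith only [hY, hp1, hZ]
    obtain ⟨ν, rfl⟩ : ∃ ν', ν = ν' + 1 := ⟨ν - 1, by omega⟩
    have hwp : ∀ p ∈ S, w * p ^ k ≠ 0 := fun p hp => mul_ne_zero hw (pow_ne_zero _ (hS p hp))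
    refine (extract_step S k s ν w hs _ φ (fun a p => bad a p ∨ p ∈ T) hM0 hB0 hM
      fun a ha => ?_).trans ?_
    · refine le_trans ?_ (hB a (mem_filter.1 ha).1)
      have : (S.filter fun p => bad a p ∨ p ∈ T).card ≤ (S.filter (bad a)).card + j₀ := by
        rw [filter_or]
        refine (card_union_le _ _).trans (Nat.add_le_add_left ?_ _)
        exact (card_le_card fun p hp => (mem_filter.1 hp).2).trans (show T.card ≤ j₀ by omega)
      exact_mod_cast this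
    set X1 := (2 * E) ^ (j + (m + 1)) * α ^ j * (Y + β ^ (m + 1) * Z) * Λ ^ ν with hX1
    set X2 := (2 * E) ^ (j + 1 + m) * α ^ (j + 1) * (Y + β ^ m * Z) * Λ ^ ν with hX2
    have hα0 : 0 ≤ α := by linarith only [hα]
    have hE0 : 0 ≤ E := by linarith only [hE]
    have hX10 : 0 ≤ X1 := by positivity
    have hX20 : 0 ≤ X2 := by positivity
    have e1 : ∑ p ∈ S, QF ((A.filter fun a => ∀ p ∈ T, ¬ bad a p).filter
        fun a => ¬ (bad a p ∨ p ∈ T)) φ (rr S k s ν (w * p ^ k)) ≤ M * X1 := by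
      clear * - S ι bad T A φ k s ν w X1 M hX10 E j m α Y β Z Λ ih t j₀ ν₀ ν₁ hjm h0 h1 hT hc hwp
        hd hM hE hα hY hβ0 hZ hΛ
      refine (sum_le_card_nsmul _ _ X1 fun p hp => ?_).trans ?_
      · by_cases hpT : p ∈ T
        · simp [hpT, QF, hX10]
        · have := ih j (m + 1) (by omega) ν (by omega) (by omega) (insert p T)
            (insert_subset hp hT) (by rw [card_insert_of_notMem hpT]; omega) (w * p ^ k) (hwp p hp)
            (by rw [prod_insert hpT, mul_pow, mul_comm]; exact mul_dvd_mul_right hd _)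
          refine le_trans (le_of_eq ?_) this
          congr 1
          ext a
          simp only [mem_filter, forall_mem_insert, hpT, or_false]
          tauto
      · rw [nsmul_eq_mul]; gcongr
    have e2 : ∑ p ∈ S, QF (A.filter fun a => ∀ p ∈ T, ¬ bad a p) φ (rr S k s ν (w * p ^ k))
        ≤ M * X2 := by
      clear * - S ι T bad A φ k s ν w X2 M ih j m t j₀ ν₀ ν₁ hjm h0 h1 hT hc hwp hd hM E α Y β Z Λ
        hE hα hY hβ0 hZ hΛ
      refine (sum_le_card_nsmul _ _ X2 fun p hp => ?_).trans ?_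
      · exact ih (j + 1) m (by omega) ν (by omega) (by omega) T hT hc (w * p ^ k) (hwp p hp)
          (hd.mul_right _)
      · rw [nsmul_eq_mul]; gcongr
    have e3 : 4 * (8 * M) ^ (2 * s - 1) * (M * X1) ≤ α * Λ * X1 := by
      clear * - M s X1 α Λ ha E j m Y β Z ν hE hα hY hβ0 hZ hΛ
      rw [← mul_assoc]; gcongr
    have e4 : 4 * (8 * B) ^ (2 * s - 1) * (M * X2) ≤ E * β * Λ * X2 := by
      clear * - B s M X2 E β Λ hb j m α Y Z ν hE hα hY hβ0 hZ hΛ
      rw [← mul_assoc]; gcongr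
    have e5 := mul_le_mul_of_nonneg_left e1 (show 0 ≤ 4 * (8 * M) ^ (2 * s - 1) by positivity)
    have e6 := mul_le_mul_of_nonneg_left e2 (show 0 ≤ 4 * (8 * B) ^ (2 * s - 1) by positivity)
    set W := (2 * E) ^ (j + 1 + m) * α ^ (j + 1) * Λ ^ (ν + 1) with hW
    have hW0 : 0 ≤ W := by positivity
    have e7 : α * Λ * X1 = W * (Y + β ^ (m + 1) * Z) := by rw [hX1, hW]; ring
    have e8 : E * β * Λ * X2 = W * E * (β * Y + β ^ (m + 1) * Z) := by rw [hX2, hW]; ring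
    have e9 : (2 * E) ^ (j + 1 + (m + 1)) * α ^ (j + 1) * (Y + β ^ (m + 1) * Z) * Λ ^ (ν + 1)
        = W * (2 * E) * (Y + β ^ (m + 1) * Z) := by rw [hW]; ring
    have e10 : W * E * (β * Y + β ^ (m + 1) * Z) ≤ W * E * (Y + β ^ (m + 1) * Z) := by
      clear * - W E β Y m Z hY hβ j α Λ ν hE hα hΛ
      gcongr; nlinarith only [hY, hβ]
    have e11 : W * (Y + β ^ (m + 1) * Z) ≤ W * E * (Y + β ^ (m + 1) * Z) := by
      clear * - Y β m Z hY hβ0 hZ W E j α Λ ν hE hW0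
      have : 0 ≤ Y + β ^ (m + 1) * Z := by positivity
      gcongr; nlinarith only [hE, hW0]
    rw [e9]
    clear * - M s S ι bad T A φ k ν w B W E Y β m Z X1 α Λ X2 j e3 e4 e5 e6 e7 e8 e10 e11
    linarith only [e3, e4, e5, e6, e7, e8, e10, e11]

end

end Pool.Agent.Work.MP_45c923_nt
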