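import Pool.Agent.Work.MP_45c923_nt.Adm

/-!
# Solving the recurrences for admissible exponents
-/

set_option autoImplicit false

namespace Pool.Agent.Work.MP_45c923_nt

open Finset Filter

noncomputable section

lemma iterate {k : ℕ} {E a b θ : ℝ} (T Φ : ℝ → ℝ) (hθ : 0 ≤ θ) (hab : a ≤ b)
    (hstep : ∀ (s : ℕ) (δ : ℝ), a ≤ δ → δ ≤ b → 1 ≤ s → E ≤ 2 * s - k + k * δ → Adm k s (k * δ) →
      Adm k (s + 1) (k * T δ))
    (hT1 : ∀ δ, a ≤ δ → δ ≤ b → T δ ≤ δ) (hT2 : ∀ δ, a ≤ δ → δ ≤ b → k * δ - 2 ≤ k * T δ)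
    (hΦ : ∀ δ, a ≤ δ → δ ≤ b → a ≤ T δ → Φ (T δ) ≤ Φ δ - θ)
    (hm : ∀ δ, a ≤ δ → δ ≤ b → Φ δ ≤ Φ a → δ ≤ a) (N : ℕ) :
    ∀ (s : ℕ) (δ : ℝ), a ≤ δ → δ ≤ b → Φ δ - Φ a ≤ N * θ → 1 ≤ s → E ≤ 2 * s - k + k * δ →
      Adm k s (k * δ) → Adm k (s + N) (k * a) ∧ E ≤ 2 * ((s + N : ℕ) : ℝ) - k + k * a := by
  induction N with
  | zero =>
    intro s δ h1 h2 h3 _ h5 h6
    obtain rfl : δ = a := le_antisymm (hm δ h1 h2 (by simpa using h3)) h1
    exact ⟨h6, h5⟩
  | succ N ih =>
    intro s δ h1 h2 h3 h4 h5 h6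
    have h7 := hstep s δ h1 h2 h4 h5 h6
    have h8 := hT2 δ h1 h2
    have hk : (0 : ℝ) ≤ k := by positivity
    rw [show s + (N + 1) = s + 1 + N by ring]
    rcases le_total a (T δ) with h | h
    · refine ih (s + 1) (T δ) h ((hT1 δ h1 h2).trans h2) ?_ (by omega) (by push_cast; linarith) h7
      have := hΦ δ h1 h2 h
      push_cast at h3; linarith
    · have h9 : k * T δ ≤ k * a := by gcongr
      exact ih (s + 1) a le_rfl hab (by rw [sub_self]; positivity) (by omega)
        (by push_cast; linarith) (h7.mono h9)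

lemma ev_log {ε : ℝ} (hε : 0 < ε) : ∀ᶠ k : ℕ in atTop, Real.log k + 1 ≤ ε * k := by
  have h1 := (Real.isLittleO_log_id_atTop.bound (half_pos hε))
  have h2 := tendsto_natCast_atTop_atTop (R := ℝ) |>.eventually h1
  have h3 := tendsto_natCast_atTop_atTop (R := ℝ) |>.eventually (eventually_ge_atTop (2 / ε))
  filter_upwards [h2, h3] with k h2 h3
  simp only [id, Real.norm_eq_abs, Nat.abs_cast] at h2
  rw [div_le_iff₀ hε] at h3
  linarith [le_abs_self (Real.log k)]

/-- the constant `1 - 0.01615...` -/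
def sig0 : ℝ := 6 / 5 * Real.log (8 / 3) + 1 / 2 - Real.log 2

lemma log_le_aux {x : ℝ} (hx : 0 < x) (n m : ℕ) :
    n * Real.log x ≤ m * Real.log 2 + (x ^ n / 2 ^ m - 1) := by
  have := Real.log_le_sub_one_of_pos (show 0 < x ^ n / 2 ^ m by positivity)
  rw [Real.log_div (by positivity) (by positivity), Real.log_pow, Real.log_pow] at this
  linarith

lemma log83_le : Real.log (8 / 3) ≤ 0.98084 := by
  have := log_le_aux (x := 8 / 3) (by norm_num) 12 17
  have h2 := Real.log_two_lt_d9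
  norm_num at this h2 ⊢
  linarith

lemma sig0_le : sig0 ≤ 0.98387 := by
  have := log83_le
  have h2 := Real.log_two_gt_d9
  unfold sig0; norm_num at *; linarith

theorem adm_asymp {ε : ℝ} (hε : 0 < ε) : ∀ᶠ k : ℕ in atTop, ∀ a : ℝ, 1 / (k : ℝ) ^ 2 ≤ a →
    a ≤ 1 / 2 → ∀ s : ℕ, k * (sig0 - a - Real.log a + ε) ≤ 2 * s → Adm k s (k * a) := by
  filter_upwards [ev_log (show 0 < ε / 100 by positivity), ev_log (show (0 : ℝ) < 1 / 8 by norm_num),
    eventually_ge_atTop 16] with k h1 h2 hk a ha1 ha2 s hs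
  have hk' : (16 : ℝ) ≤ k := by exact_mod_cast hk
  have hk0 : (0 : ℝ) < k := by linarith
  have ha0 : 0 < a := lt_of_lt_of_le (by positivity) ha1
  have hlk : 0 ≤ Real.log k := Real.log_nonneg (by linarith)
  have hl2 := Real.log_two_gt_d9
  have hl2' := Real.log_two_lt_d9
  set J := Nat.log 2 k + 1 with hJ
  have hJ1 : (J : ℝ) ≤ 2 * Real.log k + 1 := by
    have a1 : ((2 ^ Nat.log 2 k : ℕ) : ℝ) ≤ k := by
      exact_mod_cast Nat.pow_log_le_self 2 (by omega : k ≠ 0)
    have a2 := Real.log_le_log (by positivity) a1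
    push_cast at a2
    rw [Real.log_pow] at a2
    have a3 : (0 : ℝ) ≤ Nat.log 2 k := by positivity
    rw [hJ]; push_cast; nlinarith
  have hJ2 : 2 ≤ J := by
    have := Nat.log_pos (b := 2) (by norm_num) (show 2 ≤ k by omega); omega
  have hJ2' : (2 : ℝ) ≤ J := by exact_mod_cast hJ2
  have hJ3 : (1 / 2 : ℝ) ^ J ≤ 1 / k := by
    have : (k : ℝ) ≤ 2 ^ J := by exact_mod_cast (Nat.lt_pow_succ_log_self (by norm_num) k).le
    rw [one_div_pow]; gcongr
  have hJ4 : 4 * J ≤ k := by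
    have : (4 * J : ℝ) ≤ k := by linarith
    exact_mod_cast this
  clear_value J
  set A : ℝ := 3 / 5 * Real.log (8 / 3) with hA
  have hA1 : A ≤ 0.6 := by have := log83_le; rw [hA]; norm_num at *; linarith
  have hA0 : 0 ≤ A := mul_nonneg (by norm_num) (Real.log_nonneg (by norm_num))
  set N₁ := ⌈A * k⌉₊ + 10 with hN₁
  have hN1 : A * k + 10 ≤ N₁ := by rw [hN₁]; push_cast; linarith [Nat.le_ceil (A * k)]
  have hN2 : (N₁ : ℝ) ≤ A * k + 11 := by
    rw [hN₁]; push_cast; linarith [Nat.ceil_lt_add_one (show 0 ≤ A * k by positivity)]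
  clear_value N₁
  have hk2 : 0 < 1 / (k : ℝ) := by positivity
  have hk3 : 1 / (k : ℝ) ≤ 1 / 16 := by gcongr
  obtain ⟨p1, p2⟩ := iterate (k := k) (E := 8 * J + 1) (a := 1 / 2) (b := 1)
    (θ := 1 / k - 7 * (1 / k) ^ 2) (fun δ => δ - δ * (5 - 2 * δ) / 3 * (1 / k) + 4 * (1 / k) ^ 2)
    (fun δ => 3 / 5 * (Real.log δ - Real.log (5 - 2 * δ))) (by nlinarith) (by norm_num)
    (fun s δ b1 b2 b3 b4 b5 => by
      refine (b5.new b1 b2 b3 (by omega) (by linarith)).mono (le_of_eq ?_)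
      field_simp)
    (fun δ b1 b2 => by
      have : 2 / 3 ≤ δ * (5 - 2 * δ) / 3 := by nlinarith
      nlinarith)
    (fun δ b1 b2 => by
      have : (k : ℝ) * (δ - δ * (5 - 2 * δ) / 3 * (1 / k) + 4 * (1 / k) ^ 2) =
        k * δ - δ * (5 - 2 * δ) / 3 + 4 * (1 / k) := by field_simp
      rw [this]; nlinarith)
    (fun δ b1 b2 b3 => by
      set x := 1 / (k : ℝ)
      set g := δ * (5 - 2 * δ) / 3 with hg
      have g1 : 2 / 3 ≤ g := by rw [hg]; nlinarith
      have g2 : g ≤ 1 := by rw [hg]; nlinarith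
      set d := g * x - 4 * x ^ 2 with hd
      have d0 : 0 ≤ d := by rw [hd]; nlinarith
      have d1 : d ≤ x := by rw [hd]; nlinarith
      rw [show δ - g * x + 4 * x ^ 2 = δ - d by rw [hd]; ring] at b3 ⊢
      have c0 : 0 < 5 - 2 * δ := by linarith
      have c1 := Real.log_le_sub_one_of_pos (show 0 < (δ - d) / δ by
        apply div_pos <;> linarith)
      have c2 := Real.log_le_sub_one_of_pos (show 0 < (5 - 2 * δ) / (5 - 2 * (δ - d)) by
        apply div_pos <;> linarith)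
      rw [Real.log_div (by linarith) (by linarith)] at c1 c2
      have c3 : (δ - d) / δ - 1 = - (d / δ) := by field_simp; ring
      have c4 : (5 - 2 * δ) / (5 - 2 * (δ - d)) - 1 ≤ - (2 * d / (5 - 2 * δ)) + d ^ 2 := by
        have e1 : (5 - 2 * δ) / (5 - 2 * (δ - d)) - 1 + 2 * d / (5 - 2 * δ) =
            4 * d ^ 2 / ((5 - 2 * δ) * (5 - 2 * (δ - d))) := by
          have : 5 - 2 * (δ - d) ≠ 0 := by linarith
          field_simp; ring
        have e2 : 4 * d ^ 2 / ((5 - 2 * δ) * (5 - 2 * (δ - d))) ≤ 4 * d ^ 2 / 4 := by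
          gcongr; nlinarith
        linarith
      have c5 : 3 / 5 * (d / δ + 2 * d / (5 - 2 * δ)) = d / g := by
        have δ0 : δ ≠ 0 := by linarith
        rw [div_add_div _ _ δ0 c0.ne', hg, div_div_eq_mul_div]; ring
      have c6 : x - 6 * x ^ 2 ≤ d / g := by
        rw [le_div_iff₀ (by linarith), hd]; nlinarith [sq_nonneg x]
      have c7 : d ^ 2 ≤ x ^ 2 := by gcongr
      nlinarith [sq_nonneg d])
    (fun δ b1 b2 b3 => by
      by_contra hc
      have c1 := Real.log_lt_log (show (0 : ℝ) < 1 / 2 by norm_num) (not_le.1 hc)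
      have c2 := Real.log_le_log (show 0 < 5 - 2 * δ by linarith)
        (show 5 - 2 * δ ≤ 5 - 2 * (1 / 2) by linarith)
      linarith)
    N₁ (4 * J + 1) 1 (by norm_num) le_rfl (by
      have e1 : 3 / 5 * (Real.log 1 - Real.log (5 - 2 * 1)) -
          3 / 5 * (Real.log (1 / 2) - Real.log (5 - 2 * (1 / 2))) = A := by
        rw [hA, show (8 / 3 : ℝ) = 1 / (5 - 2 * 1) / ((1 / 2) / (5 - 2 * (1 / 2))) by norm_num,
          Real.log_div (x := 1 / (5 - 2 * 1)) (by norm_num) (by norm_num),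
          Real.log_div (x := 1) (y := 5 - 2 * 1) (by norm_num) (by norm_num),
          Real.log_div (x := 1 / 2) (y := 5 - 2 * (1 / 2)) (by norm_num) (by norm_num)]
        ring
      rw [e1]
      refine le_trans ?_ (mul_le_mul_of_nonneg_right hN1 (by nlinarith))
      have : (A * k + 10) * (1 / k - 7 * (1 / k) ^ 2) =
        A + (1 / k) * (10 - 7 * A - 70 * (1 / k)) := by field_simp; ring
      rw [this]
      have : 0 ≤ 10 - 7 * A - 70 * (1 / (k : ℝ)) := by linarith
      have := mul_nonneg hk2.le this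
      linarith) (by omega) (by push_cast; linarith) (by simpa using adm_triv k _)
  set L : ℝ := 1 / 2 - Real.log 2 - a - Real.log a with hL
  have hla : Real.log a ≤ - Real.log 2 - (1 - 2 * a) := by
    have := Real.log_le_sub_one_of_pos (show 0 < 2 * a by positivity)
    rw [Real.log_mul (by norm_num) ha0.ne'] at this; linarith
  have hL0 : 0 ≤ L := by linarith
  have hL1 : L ≤ 2 * Real.log k := by
    have := Real.log_le_log (by positivity) ha1
    rw [one_div, Real.log_inv, Real.log_pow] at this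
    push_cast at this; linarith
  have hs2 : (k : ℝ) * (2 * A + L + ε) ≤ 2 * s := by
    refine le_trans (le_of_eq ?_) hs; rw [hA, hL, sig0]; ring
  have hs3 : (k : ℝ) * (L + ε / 2) ≤ 2 * (s - (4 * J + 1 + N₁ : ℕ)) := by
    push_cast; nlinarith
  have hs4 : 4 * J + 1 + N₁ ≤ s := by
    have : 0 ≤ (k : ℝ) * (L + ε / 2) := by positivity
    have : ((4 * J + 1 + N₁ : ℕ) : ℝ) ≤ s := by linarith
    exact_mod_cast this
  obtain ⟨N₂, rfl⟩ := Nat.exists_eq_add_of_le hs4
  set η : ℝ := (1 / 2) ^ J with hη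
  have hη0 : 0 < η := by positivity
  exact (iterate (k := k) (E := 8 * J + 1) (a := a) (b := 1 / 2)
    (θ := 2 * (1 - η) * (1 / k)) (fun δ => δ - 2 * δ / (1 + δ) * (1 - η) * (1 / k))
    (fun δ => δ + Real.log δ) (by have : 0 ≤ 1 - η := by linarith
                                  positivity) ha2
    (fun s δ b1 b2 b3 b4 b5 => by
      refine (b5.classical (by linarith) (by linarith) b3 (by omega) hJ4 b4).mono (le_of_eq ?_)
      rw [← hη]; field_simp)
    (fun δ b1 b2 => by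
      have : 0 ≤ 1 - η := by linarith
      have : 0 < δ := by linarith
      have : 0 ≤ 2 * δ / (1 + δ) * (1 - η) * (1 / k) := by positivity
      linarith)
    (fun δ b1 b2 => by
      have : (k : ℝ) * (δ - 2 * δ / (1 + δ) * (1 - η) * (1 / k)) =
        k * δ - 2 * δ / (1 + δ) * (1 - η) := by field_simp
      rw [this]
      have c1 : 2 * δ / (1 + δ) ≤ 2 := by rw [div_le_iff₀ (by linarith)]; linarith
      have c2 : 0 ≤ 2 * δ / (1 + δ) := by apply div_nonneg <;> linarith
      nlinarith)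
    (fun δ b1 b2 b3 => by
      have δ0 : 0 < δ := by linarith
      set d := 2 * δ / (1 + δ) * (1 - η) * (1 / k) with hd
      have c1 := Real.log_le_sub_one_of_pos (show 0 < (δ - d) / δ by apply div_pos <;> linarith)
      rw [Real.log_div (by linarith) δ0.ne'] at c1
      have c2 : (δ - d) / δ - 1 - d = - (2 * (1 - η) * (1 / k)) := by rw [hd]; field_simp; ring
      linarith)
    (fun δ b1 b2 b3 => by
      have := Real.log_le_log ha0 b1
      linarith)
    N₂ _ (1 / 2) ha2 le_rfl (by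
      have e1 : 1 / 2 + Real.log (1 / 2) - (a + Real.log a) = L := by
        rw [hL, one_div (2 : ℝ), Real.log_inv]; ring
      rw [e1]
      have e2 : (k : ℝ) * (L + ε / 2) ≤ 2 * N₂ := by push_cast at hs3; linarith
      have e3 : η * (L + ε / 2) ≤ ε / 2 := by
        refine (mul_le_mul_of_nonneg_right hJ3 (by positivity)).trans ?_
        rw [one_div, inv_mul_le_iff₀ hk0]; nlinarith
      have e4 : (N₂ : ℝ) * (2 * (1 - η) * (1 / k)) = (1 - η) * (2 * N₂ / k) := by ring
      have e5 : L + ε / 2 ≤ 2 * N₂ / k := by rw [le_div_iff₀ hk0]; linarith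
      have e6 : (1 - η) * (L + ε / 2) ≤ (1 - η) * (2 * N₂ / k) := by gcongr; linarith
      linarith) (by omega) p2 p1).1

end

end Pool.Agent.Work.MP_45c923_nt
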