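import Pool.Agent.Work.MP_45c923_nt.Final

/-!
# Choice of parameters
-/

set_option autoImplicit false

namespace Pool.Agent.Work.MP_45c923_nt

open Finset Filter

noncomputable section

theorem waring_const {σ δ D c : ℝ}
    (hA : ∀ ε : ℝ, 0 < ε → ∀ᶠ k : ℕ in atTop, ∀ a : ℝ, 1 / (k : ℝ) ^ 2 ≤ a → a ≤ 1 / 2 →
      ∀ s : ℕ, k * (σ - a - Real.log a + ε) ≤ 2 * s → Adm k s (k * a))
    (hδ0 : 0 < δ) (hδ : δ < 1 / 2) (hw : 1 ≤ σ - δ - Real.log δ)
    (hD : (σ - δ - Real.log δ) ^ 2 < D * (1 - 2 * δ)) (hc : σ + Real.log D + 1 < c) :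
    ∀ᶠ k : ℕ in atTop, ∃ m : ℕ, (m : ℝ) ≤ k * (Real.log k + c) ∧
      ∃ n₀ : ℕ, ∀ n : ℕ, n₀ ≤ n → ∃ x : Fin m → ℕ, n = ∑ i, x i ^ k := by
  set w := σ - δ - Real.log δ with hwdef
  have hD0 : 0 < D := by
    by_contra h
    nlinarith [not_lt.1 h]
  obtain ⟨ε, hε, hε1, hε2⟩ : ∃ ε : ℝ, 0 < ε ∧ (w + 2 * ε) ^ 2 < D * (1 - 2 * δ) ∧
      σ + Real.log D + 1 + 2 * ε ≤ c := by
    have h1 : ∀ᶠ ε : ℝ in nhds 0, (w + 2 * ε) ^ 2 < D * (1 - 2 * δ) :=
      (by fun_prop : Continuous fun ε : ℝ => (w + 2 * ε) ^ 2).continuousAt.eventually_lt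
        continuousAt_const (by simpa using hD)
    have h2 : ∀ᶠ ε : ℝ in nhds 0, σ + Real.log D + 1 + 2 * ε < c :=
      (by fun_prop : Continuous fun ε : ℝ => σ + Real.log D + 1 + 2 * ε).continuousAt.eventually_lt
        continuousAt_const (by simpa using hc)
    obtain ⟨ε, ⟨a, b⟩, h⟩ := (((h1.and h2).filter_mono nhdsWithin_le_nhds).and
      (self_mem_nhdsWithin (s := Set.Ioi (0 : ℝ)))).exists
    exact ⟨ε, h, a, b.le⟩
  have hN := tendsto_natCast_atTop_atTop (R := ℝ)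
  filter_upwards [hA ε hε, hN.eventually (eventually_ge_atTop (2 / ε)),
    hN.eventually (eventually_ge_atTop D), hN.eventually (eventually_ge_atTop (2 / D)),
    hN.eventually (eventually_ge_atTop (1 / δ)), eventually_ge_atTop 3,
    (Real.tendsto_log_atTop.comp hN).eventually (eventually_ge_atTop (5 - σ - Real.log D))]
    with k hA h1 h2 h3 h4 h5 h6
  have hk : (3 : ℝ) ≤ k := by exact_mod_cast h5
  have hk0 : (0 : ℝ) < k := by linarith
  rw [div_le_iff₀ hε] at h1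
  rw [div_le_iff₀ hD0] at h3
  rw [div_le_iff₀ hδ0] at h4
  simp only [Function.comp] at h6
  obtain ⟨T, hT1, hT2⟩ : ∃ T : ℕ, k * (w + ε) ≤ 2 * T ∧ (2 * T : ℝ) ≤ k * (w + ε) + 2 :=
    ⟨_, ceil_bounds (by positivity) two_pos⟩
  obtain ⟨t, rfl⟩ : ∃ t, T = t + 1 := ⟨T - 1, by
    have : 0 < T := by
      have : (0 : ℝ) < T := by nlinarith
      exact_mod_cast this
    omega⟩
  set a : ℝ := 1 / (D * k) with ha
  have ha0 : 0 < a := by positivity
  have ha1 : a ≤ 1 / 2 := by rw [ha]; gcongr; linarith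
  have hla : Real.log a = -(Real.log D + Real.log k) := by
    rw [ha, one_div, Real.log_inv, Real.log_mul hD0.ne' hk0.ne']
  obtain ⟨v, hv1, hv2⟩ : ∃ v : ℕ, k * (σ - a - Real.log a + ε) ≤ 2 * v ∧
      (2 * v : ℝ) ≤ k * (σ - a - Real.log a + ε) + 2 :=
    ⟨_, ceil_bounds (mul_nonneg hk0.le (by linarith)) two_pos⟩
  have hv3 : 4 * k ≤ 2 * v := by
    have : (4 * k : ℝ) ≤ 2 * v := by nlinarith
    exact_mod_cast this
  have At := hA δ (by rw [div_le_iff₀ (by positivity)]; nlinarith) hδ.le (t + 1) hT1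
  have Av := hA a (by rw [ha, sq]; gcongr) ha1 v hv1
  push_cast at hT1 hT2
  refine ⟨2 * v + k, by push_cast; nlinarith, waring_of_adm At Av ?_ h5 (by omega) (by omega) ?_⟩
  · have h7 : (k : ℝ) ≤ 2 * (t + 1) := by nlinarith
    have : (k : ℝ) ≤ 2 * (t + 1) ^ 2 := by nlinarith
    exact_mod_cast this
  · have h7 : (2 * (t + 1) : ℝ) ≤ k * (w + 2 * ε) := by nlinarith
    have h8 : (2 * (t + 1) : ℝ) ^ 2 ≤ (k * (w + 2 * ε)) ^ 2 := by gcongr
    have h9 : k * a = 1 / D := by rw [ha]; field_simp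
    rw [h9, mul_div_assoc', div_lt_div_iff₀ hD0 (by positivity)]
    have h10 : (k : ℝ) ^ 2 * (w + 2 * ε) ^ 2 < k ^ 2 * (D * (1 - 2 * δ)) := by gcongr
    nlinarith

end

end Pool.Agent.Work.MP_45c923_nt
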