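import Pool.Agent.Work.MP_45c923_nt.Extract

/-!
# The differencing step
-/

set_option autoImplicit false

namespace Pool.Agent.Work.MP_45c923_nt

open Finset Polynomial Pool.Agent.Lib.LargeSieve

noncomputable section

/-- uniqueness in Hensel's lemma -/
lemma hensel_unique (ψ : ℤ[X]) {p : ℕ} (hp : p.Prime) {e : ℕ} {z z' : ℤ}
    (h1 : (p : ℤ) ^ e ∣ ψ.eval z - ψ.eval z') (h2 : (p : ℤ) ∣ z - z')
    (h3 : ¬ (p : ℤ) ∣ ψ.derivative.eval z') : (p : ℤ) ^ e ∣ z - z' := by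
  obtain ⟨c, hc⟩ := ψ.binomExpansion z' (z - z')
  rw [add_sub_cancel] at hc
  have h4 : ψ.eval z - ψ.eval z' = (z - z') * (ψ.derivative.eval z' + c * (z - z')) := by
    rw [hc]; ring
  rw [h4] at h1
  have hp' : Prime (p : ℤ) := Nat.prime_iff_prime_int.1 hp
  refine (hp'.pow_dvd_of_dvd_mul_right e (fun h => h3 ?_) h1)
  exact (dvd_add_left (h2.mul_left c)).1 h

lemma exists_colour_mod (ψ : ℤ[X]) {p : ℕ} (hp : p.Prime) :
    ∃ c : ℤ → ℕ, (∀ z, c z ≤ ψ.natDegree) ∧ ∀ z z', ¬ (p : ℤ) ∣ ψ.derivative.eval z →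
      ¬ (p : ℤ) ∣ ψ.derivative.eval z' → (p : ℤ) ∣ ψ.eval z - ψ.eval z' → c z = c z' →
      (p : ℤ) ∣ z - z' := by
  classical
  have := Fact.mk hp
  set g : (ZMod p)[X] := ψ.map (Int.castRingHom (ZMod p)) with hg
  have hev : ∀ (f : ℤ[X]) (z : ℤ), (f.map (Int.castRingHom (ZMod p))).eval (z : ZMod p)
      = ((f.eval z : ℤ) : ZMod p) := fun f z => by
    have := eval_map_apply (p := f) (Int.castRingHom (ZMod p)) z
    simpa using this
  obtain ⟨c, hc1, hc2⟩ := exists_colouring (fun x y : ZMod p => g.eval x = g.eval y)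
    (fun _ _ h => h.symm) ψ.natDegree (univ.filter fun x => g.derivative.eval x ≠ 0) (by
      intro a ha
      have ha' := (mem_filter.1 ha).2
      have hne : g - C (g.eval a) ≠ 0 := by
        intro h
        apply ha'
        have := congrArg derivative h
        simp only [derivative_sub, derivative_C, sub_zero, derivative_zero] at this
        rw [this, eval_zero]
      have h1 : ((univ.filter fun x => g.derivative.eval x ≠ 0).filter
          fun b => g.eval a = g.eval b) ⊆ (g - C (g.eval a)).roots.toFinset := by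
        intro b hb
        rw [Multiset.mem_toFinset, mem_roots hne]
        simp [(mem_filter.1 hb).2]
      refine (card_le_card h1).trans ((Multiset.toFinset_card_le _).trans
        ((card_roots' _).trans ?_))
      rw [natDegree_sub_C]
      exact natDegree_map_le)
  refine ⟨fun z => c (z : ZMod p), fun z => hc1 _, fun z z' h1 h2 h3 h4 => ?_⟩
  have key : ∀ z : ℤ, ¬ (p : ℤ) ∣ ψ.derivative.eval z →
      (z : ZMod p) ∈ univ.filter fun x => g.derivative.eval x ≠ 0 := fun z hz => by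
    rw [mem_filter, hg, derivative_map, hev, Ne, ZMod.intCast_zmod_eq_zero_iff_dvd]
    exact ⟨mem_univ _, hz⟩
  by_contra h5
  refine hc2 _ (key z h1) _ (key z' h2) (fun h => h5 ?_) ?_ h4
  · rw [← ZMod.intCast_zmod_eq_zero_iff_dvd]; push_cast; rw [h, sub_self]
  · rw [hg, hev, hev, ← sub_eq_zero, ← Int.cast_sub, ZMod.intCast_zmod_eq_zero_iff_dvd]
    exact h3

lemma prod_pow_dvd {T : Finset ℕ} (hT : ∀ p ∈ T, p.Prime) {e : ℕ} {N : ℤ}
    (h : ∀ p ∈ T, (p : ℤ) ^ e ∣ N) : ((∏ p ∈ T, p : ℕ) : ℤ) ^ e ∣ N := by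
  push_cast
  rw [← prod_pow]
  refine Finset.prod_dvd_of_coprime (fun p hp q hq hpq => ?_) h
  have := (Nat.coprime_primes (hT p hp) (hT q hq)).2 hpq
  exact (Nat.isCoprime_iff_coprime.2 this).pow

lemma dvd_prod_pow {T : Finset ℕ} {p : ℕ} (hp : p ∈ T) (e : ℕ) :
    (p : ℤ) ^ e ∣ ((∏ p ∈ T, p : ℕ) : ℤ) ^ e :=
  pow_dvd_pow_of_dvd (Int.natCast_dvd_natCast.2 (dvd_prod_of_mem _ hp)) e

lemma sum_cong_le (P Q : ℕ) (hQ : 0 < Q) (g : ℤ → ℤ → ℝ) (h0 : ∀ a b, 0 ≤ g a b)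
    (hs : ∀ a b, g a b = g b a) :
    ∑ a ∈ Icc (1 : ℤ) P, ∑ b ∈ Icc (1 : ℤ) P, (if (Q : ℤ) ∣ a - b then g a b else 0) ≤
      ∑ a ∈ Icc (1 : ℤ) P, g a a +
        2 * ∑ x ∈ Icc (1 : ℤ) P ×ˢ Icc (1 : ℤ) (P / Q : ℕ), g (x.1 + x.2 * Q) x.1 := by
  have hQ' : (0 : ℤ) < Q := by exact_mod_cast hQ
  set F : ℤ → ℤ → ℝ := fun a b => if (Q : ℤ) ∣ a - b ∧ b < a then g a b else 0 with hF
  have h1 : ∀ a b, (if (Q : ℤ) ∣ a - b then g a b else 0) ≤
      (if a = b then g a a else 0) + F a b + F b a := by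
    intro a b
    simp only [hF]
    have := h0 a b; have := h0 b a; have := h0 a a; have := hs a b
    have hd : (Q : ℤ) ∣ a - b ↔ (Q : ℤ) ∣ b - a := dvd_sub_comm
    rcases lt_trichotomy a b with h | h | h
    · simp only [h.ne, h, h.not_gt, ← hd, and_true, and_false, if_false]
      split_ifs <;> linarith
    · subst h; simp
    · simp only [h.ne', h, h.not_gt, ← hd, and_true, and_false, if_false]
      split_ifs <;> linarith
  have h2 : ∑ b ∈ Icc (1 : ℤ) P, ∑ a ∈ Icc (1 : ℤ) P, F a b ≤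
      ∑ x ∈ Icc (1 : ℤ) P ×ˢ Icc (1 : ℤ) (P / Q : ℕ), g (x.1 + x.2 * Q) x.1 := by
    rw [sum_product]
    refine sum_le_sum fun b hb => ?_
    simp only [hF]
    rw [← sum_filter, ← sum_image (s := Icc (1 : ℤ) (P / Q : ℕ)) (g := fun h => b + h * Q)
      (f := fun a => g a b) (fun x _ y _ h => by
        have : x * Q = y * Q := by simpa using h
        exact mul_right_cancel₀ hQ'.ne' this)]
    refine sum_le_sum_of_subset_of_nonneg (fun a ha => ?_) fun _ _ _ => h0 _ _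
    obtain ⟨ha1, ⟨c, hc⟩, ha3⟩ := mem_filter.1 ha
    rw [mem_Icc] at ha1 hb
    refine mem_image.2 ⟨c, mem_Icc.2 ⟨?_, ?_⟩, by linarith⟩
    · by_contra hc'
      have : c ≤ 0 := by omega
      nlinarith
    · push_cast
      rw [Int.le_ediv_iff_mul_le hQ']
      linarith
  refine (sum_le_sum fun a _ => sum_le_sum fun b _ => h1 a b).trans ?_
  simp only [sum_add_distrib]
  have h3 : ∑ a ∈ Icc (1 : ℤ) P, ∑ b ∈ Icc (1 : ℤ) P, (if a = b then g a a else 0)
      = ∑ a ∈ Icc (1 : ℤ) P, g a a := sum_congr rfl fun a ha => by simp [ha]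
  have h4 : ∑ a ∈ Icc (1 : ℤ) P, ∑ b ∈ Icc (1 : ℤ) P, F a b
      = ∑ b ∈ Icc (1 : ℤ) P, ∑ a ∈ Icc (1 : ℤ) P, F a b := sum_comm
  linarith

/-- after extraction, congruent values force congruent variables -/
lemma stageA {K : ℝ → ℝ} {ρ : ℤ → ℝ} (H : PD K ρ) (ψ : ℤ[X]) {k : ℕ} (hk : ψ.natDegree ≤ k)
    {T : Finset ℕ} (hT : ∀ p ∈ T, p.Prime) (e : ℕ)
    (hρ : ∀ m, ρ m ≠ 0 → ((∏ p ∈ T, p : ℕ) : ℤ) ^ e ∣ m) (P : ℕ) :
    QF ((Icc (1 : ℤ) P).filter fun z => ∀ p ∈ T, ¬ (p : ℤ) ∣ ψ.derivative.eval z)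
      (fun z => ψ.eval z) ρ ≤ ((k : ℝ) + 1) ^ T.card * (P * ρ 0 + 2 *
        ∑ x ∈ Icc (1 : ℤ) P ×ˢ Icc (1 : ℤ) (P / (∏ p ∈ T, p) ^ e : ℕ),
          ρ (ψ.eval (x.1 + x.2 * ((∏ p ∈ T, p) ^ e : ℕ)) - ψ.eval x.1)) := by
  classical
  choose c hc1 hc2 using fun p : T => exists_colour_mod ψ (hT p p.2)
  refine (H.QF_le_colour _ _ (fun z => fun p : T => c p z)
    (Fintype.piFinset fun _ => range (k + 1)) fun a _ => ?_).trans ?_
  · exact Fintype.mem_piFinset.2 fun p => mem_range.2 (Nat.lt_succ_of_le ((hc1 p a).trans hk))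
  have hQ : 0 < (∏ p ∈ T, p) ^ e := pow_pos (prod_pos fun p hp => (hT p hp).pos) _
  have h1 := sum_cong_le P _ hQ (fun a b => ρ (ψ.eval a - ψ.eval b)) (fun _ _ => H.pos _)
    fun a b => by rw [← H.symm]; congr 1; ring
  simp only [sub_self, sum_const, Int.card_Icc, add_sub_cancel_right, Int.toNat_natCast,
    nsmul_eq_mul] at h1
  have h2 : ((Fintype.piFinset fun _ : T => range (k + 1)).card : ℝ) = ((k : ℝ) + 1) ^ T.card := by
    simp
  rw [h2]
  refine mul_le_mul_of_nonneg_left (le_trans ?_ h1) (by positivity)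
  refine (sum_le_sum fun a ha => ?_).trans
    (sum_le_sum_of_subset_of_nonneg (filter_subset _ _) fun _ _ _ =>
      sum_nonneg fun _ _ => by split_ifs; exacts [H.pos _, le_rfl])
  refine (sum_le_sum fun b hb => ?_).trans
    (sum_le_sum_of_subset_of_nonneg (filter_subset _ _) fun _ _ _ => by
      split_ifs; exacts [H.pos _, le_rfl])
  by_cases h0 : ρ (ψ.eval a - ψ.eval b) = 0
  · simp [h0]
  by_cases hc : (fun p : T => c p a) = fun p : T => c p b
  · have : (((∏ p ∈ T, p) ^ e : ℕ) : ℤ) ∣ a - b := by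
      rw [Nat.cast_pow]
      rcases Nat.eq_zero_or_pos e with rfl | he
      · simp
      refine prod_pow_dvd hT fun p hp => ?_
      have h3 := (dvd_prod_pow hp e).trans (hρ _ h0)
      refine hensel_unique ψ (hT p hp) h3 ?_ ((mem_filter.1 hb).2 p hp)
      exact hc2 ⟨p, hp⟩ a b ((mem_filter.1 ha).2 p hp) ((mem_filter.1 hb).2 p hp)
        ((dvd_pow_self _ he.ne').trans h3) (congrFun hc ⟨p, hp⟩)
    rw [if_pos hc, if_pos this]
  · rw [if_neg hc]; split_ifs; exacts [H.pos _, le_rfl]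

/-- the class of polynomials met in the differencing process -/
structure Cl (k d : ℕ) (D : ℤ) (ψ : ℤ[X]) : Prop where
  coeff : ∀ n, 0 ≤ ψ.coeff n
  le : d ≤ ψ.natDegree
  le' : ψ.natDegree ≤ k
  bd : ∀ t : ℤ, 0 ≤ t → ψ.derivative.eval t ≤ k * (t + D) ^ (k - 1)

lemma coeff_mul_le_eval {ψ : ℤ[X]} (h : ∀ n, 0 ≤ ψ.coeff n) {t : ℤ} (ht : 0 ≤ t) (n : ℕ) :
    ψ.coeff n * t ^ n ≤ ψ.eval t := by
  by_cases hn : n ≤ ψ.natDegree
  · rw [eval_eq_sum_range]
    exact single_le_sum (f := fun i => ψ.coeff i * t ^ i)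
      (fun i _ => mul_nonneg (h i) (pow_nonneg ht _)) (mem_range.2 (by omega))
  · rw [coeff_eq_zero_of_natDegree_lt (by omega), zero_mul, eval_eq_sum_range]
    exact sum_nonneg fun i _ => mul_nonneg (h i) (pow_nonneg ht _)

lemma Cl.deriv_coeff {k d : ℕ} {D : ℤ} {ψ : ℤ[X]} (h : Cl k d D ψ) (n : ℕ) :
    0 ≤ ψ.derivative.coeff n := by
  rw [coeff_derivative]; have := h.coeff (n + 1); positivity

lemma Cl.deriv_pos {k d : ℕ} {D : ℤ} {ψ : ℤ[X]} (h : Cl k (d + 1) D ψ) {t : ℤ} (ht : 1 ≤ t) :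
    0 < ψ.derivative.eval t := by
  obtain ⟨n, hn⟩ : ∃ n, ψ.natDegree = n + 1 := ⟨ψ.natDegree - 1, by have := h.le; omega⟩
  refine lt_of_lt_of_le ?_ (coeff_mul_le_eval h.deriv_coeff (by linarith) n)
  have h0 : ψ ≠ 0 := by rintro rfl; simp at hn
  have h1 : ψ.coeff (n + 1) ≠ 0 := by rw [← hn]; exact leadingCoeff_ne_zero.2 h0
  have h2 : 0 < ψ.coeff (n + 1) := lt_of_le_of_ne (h.coeff _) h1.symm
  rw [coeff_derivative]; positivity

lemma cl_X_pow (k : ℕ) : Cl k k 0 (X ^ k) where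
  coeff := fun n => by rw [coeff_X_pow]; split_ifs <;> norm_num
  le := by simp
  le' := by simp
  bd := fun t _ => by simp [derivative_X_pow]

lemma Cl.mono {k d d' : ℕ} {D D' : ℤ} {ψ : ℤ[X]} (h : Cl k d D ψ) (hd : d' ≤ d) (hD0 : 0 ≤ D)
    (hD : D ≤ D') : Cl k d' D' ψ where
  coeff := h.coeff
  le := hd.trans h.le
  le' := h.le'
  bd := fun t ht => (h.bd t ht).trans (by gcongr)

lemma Cl.diff {k d : ℕ} {D : ℤ} {ψ : ℤ[X]} (h : Cl k (d + 1) D ψ) {a : ℤ} (ha : 0 < a) :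
    Cl k d (D + a) (taylor a ψ - ψ) := by
  have hh : ∀ n i, 0 ≤ (hasseDeriv n ψ).coeff i := fun n i => by
    rw [hasseDeriv_coeff]; have := h.coeff (i + n); positivity
  have key : ∀ n, ψ.coeff n + (n + 1) * ψ.coeff (n + 1) * a ≤ (taylor a ψ).coeff n := by
    intro n
    rw [taylor_coeff, eval_eq_sum_range' (n := (hasseDeriv n ψ).natDegree + 2) (by omega),
      sum_range_succ', sum_range_succ']
    have : 0 ≤ ∑ i ∈ range (hasseDeriv n ψ).natDegree,
        (hasseDeriv n ψ).coeff (i + 1 + 1) * a ^ (i + 1 + 1) :=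
      sum_nonneg fun i _ => mul_nonneg (hh _ _) (by positivity)
    simp only [hasseDeriv_coeff, zero_add, Nat.choose_self, Nat.cast_one, one_mul, pow_zero,
      mul_one, pow_one] at this ⊢
    rw [add_comm 1 n, Nat.choose_succ_self_right]
    push_cast
    linarith
  refine ⟨fun n => ?_, ?_, ?_, fun t ht => ?_⟩
  · rw [coeff_sub]
    have := key n
    have h2 := h.coeff (n + 1)
    have : 0 ≤ (n + 1) * ψ.coeff (n + 1) * a := by positivity
    linarith
  · obtain ⟨n, hn⟩ : ∃ n, ψ.natDegree = n + 1 := ⟨ψ.natDegree - 1, by have := h.le; omega⟩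
    have h0 : ψ ≠ 0 := by rintro rfl; simp at hn
    have h1 : ψ.coeff (n + 1) ≠ 0 := by rw [← hn]; exact leadingCoeff_ne_zero.2 h0
    have h2 : 0 < ψ.coeff (n + 1) := lt_of_le_of_ne (h.coeff _) h1.symm
    have h3 : (taylor a ψ - ψ).coeff n ≠ 0 := by
      rw [coeff_sub]
      have := key n
      have : 0 < (n + 1) * ψ.coeff (n + 1) * a := by positivity
      linarith
    have := le_natDegree_of_ne_zero h3
    have := h.le
    omega
  · refine (natDegree_sub_le _ _).trans (max_le ?_ h.le')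
    rw [natDegree_taylor]; exact h.le'
  · have h1 : (taylor a ψ).derivative.eval t = ψ.derivative.eval (t + a) := by
      rw [taylor_apply, derivative_comp]; simp [eval_comp]
    rw [derivative_sub, eval_sub, h1]
    have h2 := h.bd (t + a) (by linarith)
    have h3 := coeff_mul_le_eval h.deriv_coeff ht 0
    have h4 := h.deriv_coeff 0
    rw [show t + (D + a) = t + a + D by ring]
    simp only [pow_zero, mul_one] at h3
    linarith

end

end Pool.Agent.Work.MP_45c923_nt
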