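import Pool.Agent.Work.MP_45c923_nt.Count
import Pool.Agent.Lib.ANT.DivisorBound

/-!
# Admissible exponents: the classical step and the new step
-/

set_option autoImplicit false

namespace Pool.Agent.Work.MP_45c923_nt

open Finset Polynomial

noncomputable section

/-- constant in the extraction lemma -/
def CX (s : ℕ) (B : ℝ) (j m : ℕ) : ℝ :=
  (2 * (8 * (8 * B) ^ (2 * s - 1))) ^ (j + m) * (8 * 16 ^ (2 * s - 1)) ^ j

lemma one_le_CX (s : ℕ) {B : ℝ} (hB : 1 ≤ B) (j m : ℕ) : 1 ≤ CX s B j m := by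
  have h1 : (1 : ℝ) ≤ (8 * B) ^ (2 * s - 1) := one_le_pow₀ (by linarith)
  have h2 : (1 : ℝ) ≤ 16 ^ (2 * s - 1) := one_le_pow₀ (by norm_num)
  exact one_le_mul_of_one_le_of_one_le (one_le_pow₀ (by linarith)) (one_le_pow₀ (by linarith))

lemma PP.one_le {R : ℕ} {S : Finset ℕ} (h : PP R S) : (1 : ℝ) ≤ R := by
  have := h.two; exact_mod_cast (by omega : 1 ≤ R)

lemma PP.pow_le_prod {R : ℕ} {S T : Finset ℕ} (h : PP R S) (hT : T ⊆ S) :
    R ^ T.card ≤ ∏ p ∈ T, p := pow_card_le_prod _ _ _ fun p hp => h.le p (hT hp)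

lemma PP.prod_le_pow {R : ℕ} {S T : Finset ℕ} (h : PP R S) (hT : T ⊆ S) :
    ∏ p ∈ T, p ≤ (2 * R) ^ T.card := prod_le_pow_card _ _ _ fun p hp => h.le' p (hT hp)

lemma extract {ι : Type*} {R : ℕ} {S : Finset ℕ} (hS : PP R S) (k s : ℕ) (hs : 1 ≤ s)
    (A : Finset ι) (φ : ι → ℤ) (bad : ι → ℕ → Prop) [∀ a p, Decidable (bad a p)]
    {B lam Y Z : ℝ} (hB1 : 1 ≤ B) (h1 : 1 ≤ lam) (h2 : lam ≤ 2 * s) (hY : 0 ≤ Y) (hZ : 0 ≤ Z)
    (j m ν : ℕ) (hν : j + m ≤ ν) (hB : ∀ a ∈ A, ((S.filter (bad a)).card : ℝ) + j ≤ B)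
    (H1 : ∀ ν', ν ≤ ν' + j + m → ν' ≤ ν → ∀ T ⊆ S, T.card = j → ∀ w, w ≠ 0 →
      (∏ p ∈ T, p) ^ k ∣ w → QF (A.filter fun a => ∀ p ∈ T, ¬ bad a p) φ (rr S k s ν' w)
        ≤ Y * ((R : ℝ) ^ lam) ^ ν')
    (H2 : ∀ ν', ν' ≤ ν → ∀ w, w ≠ 0 → QF A φ (rr S k s ν' w) ≤ Z * ((R : ℝ) ^ lam) ^ ν')
    {w : ℕ} (hw : w ≠ 0) :
    QF A φ (rr S k s ν w) ≤ CX s B j m * (R : ℝ) ^ ((2 * s - lam) * j) *
      (Y + (R : ℝ) ^ ((1 - lam) * m) * Z) * ((R : ℝ) ^ lam) ^ ν := by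
  have hr := hS.one_le
  have hr0 : (0 : ℝ) < R := by linarith
  have e1 : (1 : ℝ) ≤ (8 * B) ^ (2 * s - 1) := one_le_pow₀ (by linarith)
  have e2 : (1 : ℝ) ≤ 16 ^ (2 * s - 1) := one_le_pow₀ (by norm_num)
  have e3 : (1 : ℝ) ≤ (R : ℝ) ^ (2 * s - lam) := Real.one_le_rpow hr (by linarith)
  have := extract_iter S (fun p hp => (hS.prime p hp).ne_zero) k s hs A φ bad (M := 2 * R) (B := B)
    (Λ := (R : ℝ) ^ lam) (Y := Y) (Z := Z) (α := 8 * 16 ^ (2 * s - 1) * (R : ℝ) ^ (2 * s - lam))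
    (β := (R : ℝ) ^ (1 - lam)) (E := 8 * (8 * B) ^ (2 * s - 1)) (by positivity) (by linarith only [hB1])
    (by positivity) hY hZ (by nlinarith only [e2, e3]) (by positivity)
    (Real.rpow_le_one_of_one_le_of_nonpos hr (by linarith)) (by linarith)
    (by exact_mod_cast hS.card_le) j hB (le_of_eq (by
      rw [mul_assoc (8 * _), ← Real.rpow_add hr0, sub_add_cancel,
        show (2 * s : ℝ) = ((2 * s - 1 + 1 : ℕ) : ℝ) by
          rw [Nat.sub_add_cancel (by omega)]; push_cast; ring, Real.rpow_natCast,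
        show 8 * (2 * (R : ℝ)) = 16 * R by ring, mul_pow]
      ring)) (le_of_eq (by
      rw [mul_assoc (8 * _), ← Real.rpow_add hr0, sub_add_cancel, Real.rpow_one]; ring))
    (ν - j - m) ν (fun ν' h0 => H1 ν' (by omega)) H2 (j + m) j m rfl ν (by omega) le_rfl ∅
    (empty_subset _) (by simp) w hw (by simp)
  simp only [notMem_empty, IsEmpty.forall_iff, implies_true, filter_true] at this
  refine this.trans (le_of_eq ?_)
  rw [Real.rpow_mul hr0.le, Real.rpow_mul hr0.le, Real.rpow_natCast, Real.rpow_natCast, CX, mul_pow]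
  ring

lemma sum_le_of_fibre {ι κ : Type*} [DecidableEq κ] {A : Finset ι} {B : Finset κ} (f : ι → κ)
    (hf : ∀ a ∈ A, f a ∈ B) {m : ℝ} (hm : ∀ b, ((A.filter fun a => f a = b).card : ℝ) ≤ m)
    (F : κ → ℝ) (hF : ∀ b, 0 ≤ F b) : ∑ a ∈ A, F (f a) ≤ m * ∑ b ∈ B, F b := by
  rw [← sum_fiberwise_of_maps_to hf, mul_sum]
  refine sum_le_sum fun b _ => ?_
  rw [sum_congr rfl fun a ha => by rw [(mem_filter.1 ha).2], sum_const, nsmul_eq_mul]
  exact mul_le_mul_of_nonneg_right (hm b) (hF b)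

lemma MV_succ_le {R : ℕ} {S : Finset ℕ} (hS : PP R S) (k s n : ℕ) :
    MV S k (s + 1) n ≤ ((n : ℝ) ^ n) ^ 2 *
      QF (Icc (1 : ℤ) ((2 * R) ^ n : ℕ)) (fun z => (X ^ k : ℤ[X]).eval z) (rr S k s n 1) := by
  have H := pd_rr S k s n 1
  have h1 : MV S k (s + 1) n = QF (TT S n) (fun u => (pr u : ℤ) ^ k) (rr S k s n 1) := by
    rw [MV_eq, H.QF_eq]
    refine intervalIntegral.integral_congr fun α _ => ?_
    have := GG_mul_eq S k n 1 α
    simp only [Nat.cast_one, mul_one, one_mul] at this ⊢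
    rw [← this]; ring
  have hf : ∀ u ∈ TT S n, (pr u : ℤ) ∈ Icc (1 : ℤ) ((2 * R) ^ n : ℕ) := fun u hu =>
    mem_Icc.2 ⟨by exact_mod_cast hS.pr_pos hu, by exact_mod_cast hS.pr_le hu⟩
  have hm : ∀ b : ℤ, (((TT S n).filter fun u => (pr u : ℤ) = b).card : ℝ) ≤ (n : ℝ) ^ n := by
    intro b
    rcases ((TT S n).filter fun u => (pr u : ℤ) = b).eq_empty_or_nonempty with h | ⟨u, hu⟩
    · rw [h]; simp
    have : ((TT S n).filter fun u => (pr u : ℤ) = b) ⊆ TT (univ.image u) n := by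
      intro v hv
      refine mem_TT.2 fun i => ?_
      have e : pr v = pr u := by
        exact_mod_cast (mem_filter.1 hv).2.trans (mem_filter.1 hu).2.symm
      have hp := hS.prime _ (mem_TT.1 (mem_filter.1 hv).1 i)
      have hd : v i ∣ ∏ j, u j := by
        rw [show ∏ j, u j = pr u from rfl, ← e]; exact dvd_prod_of_mem _ (mem_univ i)
      obtain ⟨j, _, hj⟩ := (Prime.dvd_finsetProd_iff hp.prime _).1 hd
      exact mem_image.2 ⟨j, mem_univ _, ((Nat.prime_dvd_prime_iff_eq hp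
        (hS.prime _ (mem_TT.1 (mem_filter.1 hu).1 j))).1 hj).symm⟩
    have h2 := card_le_card this
    rw [card_TT] at h2
    have h3 : (univ.image u).card ≤ n := card_image_le.trans (by simp)
    exact_mod_cast h2.trans (Nat.pow_le_pow_left h3 n)
  rw [h1, QF, QF, sq, mul_assoc]
  simp only [eval_pow, eval_X]
  refine le_trans (sum_le_sum fun u _ => sum_le_of_fibre (fun u => (pr u : ℤ)) hf hm
    (fun b => rr S k s n 1 ((pr u : ℤ) ^ k - b ^ k)) fun b => H.pos _) ?_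
  rw [← mul_sum]
  exact mul_le_mul_of_nonneg_left (sum_le_of_fibre (fun u => (pr u : ℤ)) hf hm
    (fun a => ∑ b ∈ Icc (1 : ℤ) ((2 * R) ^ n : ℕ), rr S k s n 1 (a ^ k - b ^ k))
    fun b => sum_nonneg fun _ _ => H.pos _) (by positivity)

lemma QF_triv {ι : Type*} {S : Finset ℕ} {k s ν w : ℕ} (hw : w ≠ 0) (A : Finset ι) (φ : ι → ℤ)
    {M : ℝ} (hM : MV S k s ν ≤ M) : QF A φ (rr S k s ν w) ≤ (A.card : ℝ) ^ 2 * M := by
  refine ((pd_rr S k s ν w).QF_le_card A φ).trans ?_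
  rw [rr_zero _ _ _ _ hw]; gcongr

/-- one differencing stage, given a bound for the differenced sums -/
lemma stage_gen {R : ℕ} {S : Finset ℕ} (hS : PP R S) {k s n P : ℕ} (hs : 1 ≤ s) (hk : k ≤ R)
    {lam M t : ℝ} (h1 : 1 ≤ lam) (h2 : lam ≤ 2 * s) (hM0 : 0 < M) (ht : 0 ≤ t) (hP0 : 0 < P)
    (hP : P ≤ R ^ (2 * n)) (hM : ∀ ν ≤ n, MV S k s ν ≤ M * ((R : ℝ) ^ lam) ^ ν) (j m : ℕ) {d : ℕ}
    {D : ℤ} {ψ : ℤ[X]} (hψ : Cl k (d + 1) D ψ) (hD0 : 0 ≤ D) (hD : D + P ≤ k * P) {ν : ℕ}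
    (hν : j + m ≤ ν) (hνn : ν ≤ n)
    (H : ∀ ν', ν ≤ ν' + j + m → ν' ≤ ν → ∀ T ⊆ S, T.card = j → ∀ w, w ≠ 0 →
      ∑ x ∈ Icc (1 : ℤ) P ×ˢ Icc (1 : ℤ) (P / (∏ p ∈ T, p) ^ k : ℕ),
        rr S k s ν' w (ψ.eval (x.1 + x.2 * ((∏ p ∈ T, p) ^ k : ℕ)) - ψ.eval x.1) ≤
        P ^ 2 * t * (M * ((R : ℝ) ^ lam) ^ ν')) {w : ℕ} (hw : w ≠ 0) :
    QF (Icc (1 : ℤ) P) (fun z => ψ.eval z) (rr S k s ν w) ≤
      CX s (k * (2 * n + 1) + 1 + j) j m * (k + 1) ^ j * (R : ℝ) ^ ((2 * s - lam) * j) *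
        ((P : ℝ)⁻¹ + 2 * t + (R : ℝ) ^ ((1 - lam) * m)) * (P ^ 2 * (M * ((R : ℝ) ^ lam) ^ ν)) := by
  have hr := hS.one_le
  have hP0' : (0 : ℝ) < P := by exact_mod_cast hP0
  have hB1 : (1 : ℝ) ≤ k * (2 * n + 1) + 1 + j := by
    have : (0 : ℝ) ≤ k * (2 * n + 1) + j := by positivity
    linarith only [this]
  refine (extract hS k s hs _ _ (fun z p => (p : ℤ) ∣ ψ.derivative.eval z) hB1 h1 h2
    (Y := (k + 1) ^ j * (P ^ 2 * M * ((P : ℝ)⁻¹ + 2 * t))) (Z := P ^ 2 * M) (by positivity)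
    (by positivity) j m ν hν (fun z hz => ?_) (fun ν' a1 a2 T hT hc w hw hd => ?_)
    (fun ν' a1 w hw => ?_) hw).trans ?_
  · rw [mem_Icc] at hz
    have e1 := hψ.deriv_pos hz.1
    have := hS.card_dvd_le e1.ne' (B := k * (2 * n + 1) + 1) (by
      rw [abs_of_pos e1]
      refine (hψ.bd z (by linarith only [hz])).trans ?_
      have e2 : z + D ≤ (R : ℤ) ^ (2 * n + 1) := by
        have a1 : (k : ℤ) ≤ R := by exact_mod_cast hk
        have a2 : (P : ℤ) ≤ (R : ℤ) ^ (2 * n) := by exact_mod_cast hP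
        calc z + D ≤ k * P := by linarith only [hD, hz]
          _ ≤ R * (R : ℤ) ^ (2 * n) := by gcongr
          _ = _ := by ring
      have a0 : (1 : ℤ) ≤ R := by exact_mod_cast hr
      calc (k : ℤ) * (z + D) ^ (k - 1) ≤ R * ((R : ℤ) ^ (2 * n + 1)) ^ (k - 1) := by
            have a1 : (k : ℤ) ≤ R := by exact_mod_cast hk
            have a2 : 0 ≤ z + D := by linarith only [hD0, hz]
            gcongr
        _ ≤ R * ((R : ℤ) ^ (2 * n + 1)) ^ k := by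
            gcongr; exacts [one_le_pow₀ a0, by omega]
        _ = _ := by ring)
    have : (((S.filter fun p : ℕ => (p : ℤ) ∣ ψ.derivative.eval z).card : ℕ) : ℝ)
      ≤ ((k * (2 * n + 1) + 1 : ℕ) : ℝ) := by exact_mod_cast this
    push_cast at this
    linarith only [this]
  · refine (stageA (pd_rr S k s ν' w) ψ hψ.le' (fun p hp => hS.prime p (hT hp)) k
      (fun m hm => ?_) P).trans ?_
    · exact dvd_trans (by exact_mod_cast hd) (dvd_of_rr_ne_zero hm)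
    rw [hc, rr_zero _ _ _ _ hw, mul_assoc]
    refine mul_le_mul_of_nonneg_left ?_ (by positivity)
    have e1 := H ν' a1 a2 T hT hc w hw
    have e2 := mul_le_mul_of_nonneg_left (hM ν' (by omega)) hP0'.le
    have e3 : (P : ℝ) ^ 2 * M * ((P : ℝ)⁻¹ + 2 * t) * ((R : ℝ) ^ lam) ^ ν' =
      P * (M * ((R : ℝ) ^ lam) ^ ν') + 2 * (P ^ 2 * t * (M * ((R : ℝ) ^ lam) ^ ν')) := by
      field_simp
    linarith only [e1, e2, e3]
  · refine (QF_triv hw _ _ (hM ν' (by omega))).trans (le_of_eq ?_)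
    simp; ring
  · have e1 : (1 : ℝ) ≤ (k + 1) ^ j := one_le_pow₀ (by linarith only [Nat.cast_nonneg (α := ℝ) k])
    have e2 := one_le_CX s hB1 j m
    set β := (R : ℝ) ^ ((1 - lam) * m)
    have e3 : (k + 1) ^ j * (P ^ 2 * M * ((P : ℝ)⁻¹ + 2 * t)) + β * (P ^ 2 * M) ≤
        (k + 1) ^ j * (P ^ 2 * M * ((P : ℝ)⁻¹ + 2 * t + β)) := by
      have : 0 ≤ β * (P ^ 2 * M) := by positivity
      nlinarith only [e1, this]
    calc _ ≤ CX s (k * (2 * n + 1) + 1 + j) j m * (R : ℝ) ^ ((2 * s - lam) * j) *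
          ((k + 1) ^ j * (P ^ 2 * M * ((P : ℝ)⁻¹ + 2 * t + β))) * ((R : ℝ) ^ lam) ^ ν := by gcongr
      _ = _ := by ring

/-- repeated efficient differencing -/
lemma stages {R : ℕ} {S : Finset ℕ} (hS : PP R S) {k s n P : ℕ} (hs : 1 ≤ s) (hk : k ≤ R)
    {lam M : ℝ} (h1 : 1 ≤ lam) (h2 : lam ≤ 2 * s) (hM0 : 0 < M) (hP0 : 0 < P)
    (hP : P ≤ R ^ (2 * n)) (hM : ∀ ν ≤ n, MV S k s ν ≤ M * ((R : ℝ) ^ lam) ^ ν) (j m J : ℕ)
    (hJ : J ≤ k) (t : ℕ → ℝ) (ht0 : 1 ≤ t 0) (ht : ∀ i, 0 < t i)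
    (hrec : ∀ i, CX s (k * (2 * n + 1) + 1 + j) j m * (k + 1) ^ j * (R : ℝ) ^ ((2 * s - lam) * j) *
      ((P : ℝ)⁻¹ + 2 * (t i / (R : ℝ) ^ (k * j)) + (R : ℝ) ^ ((1 - lam) * m)) ≤ t (i + 1) ^ 2) :
    ∀ i ≤ J, ∀ ψ : ℤ[X], Cl k i ((J - i : ℕ) * P) ψ → ∀ ν, i * (j + m) ≤ ν → ν ≤ n → ∀ w, w ≠ 0 →
      QF (Icc (1 : ℤ) P) (fun z => ψ.eval z) (rr S k s ν w) ≤
        (t i * P) ^ 2 * (M * ((R : ℝ) ^ lam) ^ ν) := by
  have hr := hS.one_le
  intro i
  induction i with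
  | zero =>
    intro _ ψ _ ν _ hν w hw
    refine (QF_triv hw _ _ (hM ν hν)).trans ?_
    simp only [Int.card_Icc, add_sub_cancel_right, Int.toNat_natCast]
    gcongr
    nlinarith only [ht0, Nat.cast_nonneg (α := ℝ) P]
  | succ i ih =>
    intro hi ψ hψ ν hν hνn w hw
    have hti := ht i
    have hJi : ((J - i : ℕ) : ℤ) = (J - (i + 1) : ℕ) + 1 := by
      rw [show J - i = J - (i + 1) + 1 by omega]; push_cast; ring
    refine (stage_gen hS hs hk h1 h2 hM0 (t := t i / (R : ℝ) ^ (k * j)) (by positivity) hP0 hP hM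
      j m hψ (by positivity) ?_ (by nlinarith only [hν]) hνn (fun ν' a1 a2 T hT hc w hw => ?_) hw).trans ?_
    · have : ((J - i : ℕ) : ℤ) ≤ k := by exact_mod_cast (by omega : J - i ≤ k)
      rw [hJi] at this
      nlinarith only [this, Int.natCast_nonneg P]
    · set Q : ℕ := (∏ p ∈ T, p) ^ k with hQ
      have hQ1 : R ^ (k * j) ≤ Q := by
        rw [hQ, mul_comm, pow_mul, ← hc]; exact Nat.pow_le_pow_left (hS.pow_le_prod hT) _
      have hQ0 : 0 < Q := lt_of_lt_of_le (pow_pos (by have := hS.two; omega) _) hQ1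
      rw [sum_product_right]
      refine (sum_le_card_nsmul _ _ (t i * P * (M * ((R : ℝ) ^ lam) ^ ν')) fun h hh => ?_).trans ?_
      · rw [mem_Icc] at hh
        have a3 : 0 < h * Q := mul_pos (by linarith only [hh]) (by exact_mod_cast hQ0)
        have a4 : h * Q ≤ P := by
          have := hh.2
          push_cast at this
          rwa [Int.le_ediv_iff_mul_le (by exact_mod_cast hQ0)] at this
        have a5 := ih (by omega) _ ((hψ.diff a3).mono le_rfl (by positivity)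
          (by rw [hJi]; linarith only [a4])) ν' (by nlinarith only [hν, a1]) (by omega) w hw
        have a6 := (pd_rr S k s ν' w).sum_le_sqrt _ _
          ((rr_zero _ _ _ _ hw).trans_le (hM ν' (by omega))) (by positivity) a5
        simpa [taylor_eval] using a6
      · rw [nsmul_eq_mul, Int.card_Icc, add_sub_cancel_right, Int.toNat_natCast]
        have a3 : ((P / Q : ℕ) : ℝ) ≤ P / (R : ℝ) ^ (k * j) := by
          refine Nat.cast_div_le.trans ?_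
          gcongr; exact_mod_cast hQ1
        calc _ ≤ P / (R : ℝ) ^ (k * j) * (t i * P * (M * ((R : ℝ) ^ lam) ^ ν')) := by gcongr
          _ = _ := by ring
    · rw [mul_pow, mul_assoc (t (i + 1) ^ 2)]
      exact mul_le_mul_of_nonneg_right (hrec i) (by positivity)

end

end Pool.Agent.Work.MP_45c923_nt
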