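import Pool.Agent.Work.MP_45c923_nt.VmDefs

set_option autoImplicit false

namespace Pool.Agent.Work.MP_45c923_nt

open Finset Pool.Agent.Lib.LargeSieve

noncomputable section

namespace VmLinnikAux

lemma esymm_eq {R : Type*} [CommRing R] (l : ℕ) (X Y : Fin l → R)
    (hu : ∀ k : ℕ, 1 ≤ k → k ≤ l → IsUnit (k : R))
    (h : ∀ k : ℕ, 1 ≤ k → k ≤ l → ∑ i, X i ^ k = ∑ i, Y i ^ k) :
    ∀ k : ℕ, k ≤ l → (Finset.univ.val.map X).esymm k = (Finset.univ.val.map Y).esymm k := by
  intro k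
  induction k using Nat.strong_induction_on with
  | _ k ih =>
    intro hk
    rcases Nat.eq_zero_or_pos k with rfl | hpos
    · simp [Multiset.esymm]
    have key : ∀ W : Fin l → R, (k : R) * (Finset.univ.val.map W).esymm k =
        (-1) ^ (k + 1) * ∑ a ∈ (antidiagonal k).filter (fun a => a.1 < k),
          (-1) ^ a.1 * (Finset.univ.val.map W).esymm a.1 * ∑ i, W i ^ a.2 := by
      intro W
      have h0 := congrArg (MvPolynomial.aeval W)
        (MvPolynomial.mul_esymm_eq_sum (Fin l) R k)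
      simpa only [map_sum, map_mul, map_pow, map_neg, map_one, map_natCast,
        MvPolynomial.aeval_esymm_eq_multiset_esymm, MvPolynomial.psum,
        MvPolynomial.aeval_X] using h0
    apply (hu k hpos hk).mul_left_cancel
    rw [key X, key Y]
    congr 1
    refine Finset.sum_congr rfl fun a ha => ?_
    rw [Finset.mem_filter, HasAntidiagonal.mem_antidiagonal] at ha
    rw [ih a.1 ha.2 (by omega), h a.2 (by omega) (by omega)]

lemma prod_sub_eq {R : Type*} [CommRing R] (l : ℕ) (X Y : Fin l → R)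
    (hu : ∀ k : ℕ, 1 ≤ k → k ≤ l → IsUnit (k : R))
    (h : ∀ k : ℕ, 1 ≤ k → k ≤ l → ∑ i, X i ^ k = ∑ i, Y i ^ k) (a : R) :
    ∏ j, (a - X j) = ∏ j, (a - Y j) := by
  have e : ((Finset.univ.val.map X).map fun t => Polynomial.X - Polynomial.C t).prod =
      ((Finset.univ.val.map Y).map fun t => Polynomial.X - Polynomial.C t).prod := by
    rw [Multiset.prod_X_sub_X_eq_sum_esymm, Multiset.prod_X_sub_X_eq_sum_esymm]
    have c1 : Multiset.card (Finset.univ.val.map X) = l := by simp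
    have c2 : Multiset.card (Finset.univ.val.map Y) = l := by simp
    rw [c1, c2]
    refine Finset.sum_congr rfl fun j hj => ?_
    rw [esymm_eq l X Y hu h j (by have := Finset.mem_range.1 hj; omega)]
  have e' : ∀ W : Fin l → R, Polynomial.eval a
      ((Finset.univ.val.map W).map fun t => Polynomial.X - Polynomial.C t).prod =
        ∏ j, (a - W j) := by
    intro W
    rw [Multiset.map_map]
    change Polynomial.eval a (∏ j, (Polynomial.X - Polynomial.C (W j))) = _
    simp [Polynomial.eval_prod]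
  rw [← e' X, ← e' Y, e]

lemma sum_exp (l : ℕ) : ∑ t : Fin l, (l - 1 - t.val) = l * (l - 1) / 2 := by
  rw [Fin.sum_univ_eq_sum_range (fun t => l - 1 - t) l, Finset.sum_range_reflect (fun t => t) l,
    Finset.sum_range_id]

end VmLinnikAux

open VmLinnikAux

/-- equal power sums modulo `p^l` force equal entries -/
theorem newton_match (l p : ℕ) (hp : p.Prime) (hl : l < p) (x y : Fin l → ℤ)
    (hy : ∀ i j, (p : ℤ) ∣ y i - y j → i = j)
    (h : ∀ t : Fin l, (p : ℤ) ^ l ∣ ∑ i, x i ^ (t.val + 1) - ∑ i, y i ^ (t.val + 1)) (i : Fin l) :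
    ∃ j, (p : ℤ) ^ l ∣ x i - y j := by
  have hl0 : l ≠ 0 := by
    have := i.2
    omega
  have hu : ∀ k : ℕ, 1 ≤ k → k ≤ l → IsUnit (k : ZMod (p ^ l)) := by
    intro k h1 h2
    rw [ZMod.isUnit_iff_coprime]
    exact Nat.Coprime.pow_right l
      ((Nat.coprime_comm).1 ((Nat.Prime.coprime_iff_not_dvd hp).2
        (Nat.not_dvd_of_pos_of_lt h1 (by omega))))
  have hs : ∀ k : ℕ, 1 ≤ k → k ≤ l →
      ∑ i, ((x i : ℤ) : ZMod (p ^ l)) ^ k = ∑ i, ((y i : ℤ) : ZMod (p ^ l)) ^ k := by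
    intro k h1 h2
    have h3 := h ⟨k - 1, by omega⟩
    have e : k - 1 + 1 = k := by omega
    simp only [e] at h3
    have h4 : (((∑ i, x i ^ k - ∑ i, y i ^ k : ℤ)) : ZMod (p ^ l)) = 0 := by
      rw [ZMod.intCast_zmod_eq_zero_iff_dvd]
      exact_mod_cast h3
    push_cast at h4
    exact sub_eq_zero.1 h4
  have hprod := prod_sub_eq l (fun i => ((x i : ℤ) : ZMod (p ^ l)))
    (fun i => ((y i : ℤ) : ZMod (p ^ l))) hu hs ((x i : ℤ) : ZMod (p ^ l))
  have hz : ∏ j, (((x i : ℤ) : ZMod (p ^ l)) - ((x j : ℤ) : ZMod (p ^ l))) = 0 :=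
    Finset.prod_eq_zero (Finset.mem_univ i) (sub_self _)
  rw [hz] at hprod
  have hd : (p : ℤ) ^ l ∣ ∏ j, (x i - y j) := by
    have h5 : ((∏ j, (x i - y j) : ℤ) : ZMod (p ^ l)) = 0 := by
      push_cast
      exact hprod.symm
    rw [ZMod.intCast_zmod_eq_zero_iff_dvd] at h5
    exact_mod_cast h5
  have hpz : Prime (p : ℤ) := Nat.prime_iff_prime_int.1 hp
  obtain ⟨j, -, hj⟩ := hpz.exists_mem_finset_dvd ((dvd_pow_self (p : ℤ) hl0).trans hd)
  refine ⟨j, ?_⟩
  rw [← Finset.mul_prod_erase _ _ (Finset.mem_univ j)] at hd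
  refine IsCoprime.dvd_of_dvd_mul_right ?_ hd
  refine IsCoprime.pow_left (IsCoprime.prod_right fun j' hj' => ?_)
  refine (hpz.irreducible.coprime_iff_not_dvd).2 fun hj2 => ?_
  have h6 : (p : ℤ) ∣ y j' - y j := by
    have := dvd_sub hj hj2
    have e : x i - y j - (x i - y j') = y j' - y j := by ring
    rwa [e] at this
  exact (Finset.mem_erase.1 hj').1 (hy _ _ h6)

namespace VmLinnikAux

lemma one_side (l p Z : ℕ) (hp : p.Prime) (hl : l < p) (hZ : Z ≤ p ^ l) (ξ : ℤ)
    (c : Fin l → ℤ) :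
    ((Dis l p Z).filter fun x => ∀ t : Fin l, (p : ℤ) ^ (t.val + 1) ∣
        ∑ i, ((x i : ℤ) - ξ) ^ (t.val + 1) - c t).card ≤ l ^ l * p ^ (l * (l - 1) / 2) := by
  classical
  have hp0 : (0 : ℤ) < (p : ℤ) := by exact_mod_cast hp.pos
  set T := (Dis l p Z).filter fun x => ∀ t : Fin l, (p : ℤ) ^ (t.val + 1) ∣
        ∑ i, ((x i : ℤ) - ξ) ^ (t.val + 1) - c t with hT
  let g : (Fin l → ℕ) → Fin l → ℤ := fun x t =>
    ((∑ i, ((x i : ℤ) - ξ) ^ (t.val + 1) - c t) / (p : ℤ) ^ (t.val + 1)) % (p : ℤ) ^ (l - 1 - t.val)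
  let B : Finset (Fin l → ℤ) :=
    Fintype.piFinset fun t : Fin l => Finset.Ico (0 : ℤ) ((p : ℤ) ^ (l - 1 - t.val))
  have hB : B.card = p ^ (l * (l - 1) / 2) := by
    simp only [B, Fintype.card_piFinset, Int.card_Ico, sub_zero]
    rw [← sum_exp l, ← Finset.prod_pow_eq_pow_sum]
    refine Finset.prod_congr rfl fun t _ => ?_
    rw [← Nat.cast_pow, Int.toNat_natCast]
  rw [← hB]
  refine Finset.card_le_mul_card_image_of_maps_to (f := g) (fun x _ => ?_) _ fun b _ => ?_
  · refine Fintype.mem_piFinset.2 fun t => Finset.mem_Ico.2 ⟨?_, ?_⟩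
    · exact Int.emod_nonneg _ (pow_pos hp0 _).ne'
    · exact Int.emod_lt_of_pos _ (pow_pos hp0 _)
  · rcases (T.filter fun x => g x = b).eq_empty_or_nonempty with he | ⟨x0, hx0⟩
    · rw [he]; simp
    have hsub : (T.filter fun x => g x = b) ⊆ tup l (Finset.univ.image x0) := by
      intro x hx
      rw [Finset.mem_filter, hT, Finset.mem_filter] at hx hx0
      obtain ⟨⟨hxD, hxc⟩, hxg⟩ := hx
      obtain ⟨⟨hyD, hyc⟩, hyg⟩ := hx0
      rw [Dis, Finset.mem_filter, mem_tup] at hxD hyD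
      refine mem_tup.2 fun i => ?_
      have hm := newton_match l p hp hl (fun i => (x i : ℤ) - ξ) (fun i => (x0 i : ℤ) - ξ)
        (fun i j hij => by
          apply hyD.2
          have e : (x0 i : ℤ) - ξ - ((x0 j : ℤ) - ξ) = (x0 i : ℤ) - (x0 j : ℤ) := by ring
          rw [e] at hij
          exact ((Nat.modEq_iff_dvd).2 hij).symm)
        (fun t => by
          obtain ⟨a, ha⟩ := hxc t
          obtain ⟨a0, ha0⟩ := hyc t
          have hg : g x t = g x0 t := by rw [hxg, hyg]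
          simp only [g] at hg
          rw [ha, ha0, Int.mul_ediv_cancel_left _ (pow_pos hp0 _).ne',
            Int.mul_ediv_cancel_left _ (pow_pos hp0 _).ne'] at hg
          have hd : (p : ℤ) ^ (l - 1 - t.val) ∣ a - a0 :=
            Int.ModEq.dvd (show a0 ≡ a [ZMOD _] from hg.symm)
          obtain ⟨u, hu⟩ := hd
          have e : l = (t.val + 1) + (l - 1 - t.val) := by
            have := t.2
            omega
          refine ⟨u, ?_⟩
          have e2 : (p : ℤ) ^ l = (p : ℤ) ^ (t.val + 1) * (p : ℤ) ^ (l - 1 - t.val) := by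
            rw [← pow_add, ← e]
          rw [e2, mul_assoc, ← hu, mul_sub, ← ha, ← ha0]
          ring) i
      obtain ⟨j, hj⟩ := hm
      have e : (x i : ℤ) - ξ - ((x0 j : ℤ) - ξ) = (x i : ℤ) - (x0 j : ℤ) := by ring
      simp only [e] at hj
      have h1 : x i < p ^ l := lt_of_lt_of_le (Finset.mem_range.1 (hxD.1 i)) hZ
      have h2 : x0 j < p ^ l := lt_of_lt_of_le (Finset.mem_range.1 (hyD.1 j)) hZ
      have h1' : (x i : ℤ) < (p : ℤ) ^ l := by exact_mod_cast h1
      have h2' : (x0 j : ℤ) < (p : ℤ) ^ l := by exact_mod_cast h2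
      have h3 : (x i : ℤ) - (x0 j : ℤ) = 0 := by
        refine Int.eq_zero_of_abs_lt_dvd hj (abs_lt.2 ⟨?_, ?_⟩)
        · have : (0 : ℤ) ≤ (x i : ℤ) := Int.natCast_nonneg _
          linarith
        · have : (0 : ℤ) ≤ (x0 j : ℤ) := Int.natCast_nonneg _
          linarith
      have h4 : x0 j = x i := by
        have := sub_eq_zero.1 h3
        exact_mod_cast this.symm
      exact Finset.mem_image.2 ⟨j, Finset.mem_univ j, h4⟩
    refine (Finset.card_le_card hsub).trans ?_
    rw [card_tup]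
    refine Nat.pow_le_pow_left ?_ l
    exact Finset.card_image_le.trans (by simp)

end VmLinnikAux

/-- Linnik's lemma -/
theorem linnik (l p Z : ℕ) (hp : p.Prime) (hl : l < p) (hZ : Z ≤ p ^ l) (ξ : ℤ) :
    ((Dis l p Z ×ˢ Dis l p Z).filter fun w => ∀ t : Fin l, (p : ℤ) ^ (t.val + 1) ∣
        ∑ i, ((w.1 i : ℤ) - ξ) ^ (t.val + 1) - ∑ i, ((w.2 i : ℤ) - ξ) ^ (t.val + 1)).card
      ≤ Z ^ l * (l ^ l * p ^ (l * (l - 1) / 2)) := by
  classical
  have hc : (tup l (range Z)).card = Z ^ l := by rw [card_tup, Finset.card_range]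
  rw [mul_comm, ← hc]
  refine Finset.card_le_mul_card_image_of_maps_to (f := Prod.snd) (fun w hw => ?_) _
    fun y _ => ?_
  · rw [Finset.mem_filter, Finset.mem_product] at hw
    exact (Finset.mem_filter.1 hw.1.2).1
  · refine le_trans ?_ (VmLinnikAux.one_side l p Z hp hl hZ ξ
      fun t => ∑ i, ((y i : ℤ) - ξ) ^ (t.val + 1))
    refine Finset.card_le_card_of_injOn Prod.fst (fun w hw => ?_) fun w hw w' hw' he => ?_
    · rw [Finset.mem_coe, Finset.mem_filter, Finset.mem_filter, Finset.mem_product] at hw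
      obtain ⟨⟨⟨h1, -⟩, h2⟩, h3⟩ := hw
      rw [Finset.mem_coe, Finset.mem_filter]
      refine ⟨h1, fun t => ?_⟩
      have := h2 t
      rw [h3] at this
      exact this
    · rw [Finset.mem_coe, Finset.mem_filter] at hw hw'
      exact Prod.ext he (hw.2.trans hw'.2.symm)

end

end Pool.Agent.Work.MP_45c923_nt
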