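import Pool.Agent.Work.MP_45c923_nt.VmCnt
import Pool.Agent.Work.MP_45c923_nt.VmLinnik

set_option autoImplicit false

namespace Pool.Agent.Work.MP_45c923_nt

open Finset Pool.Agent.Lib.LargeSieve

noncomputable section

/-- translation invariance of the system -/
theorem shift_sums {ι κ : Type*} [Fintype ι] [Fintype κ] (l : ℕ) (x y : ι → ℕ) (z z' : κ → ℕ)
    (h : ∑ i, pw l (x i) + ∑ i, pw l (z i) = ∑ i, pw l (y i) + ∑ i, pw l (z' i)) (ξ : ℤ)
    (t : ℕ) (ht : t ≤ l) :
    ∑ i, ((x i : ℤ) - ξ) ^ t + ∑ i, ((z i : ℤ) - ξ) ^ t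
      = ∑ i, ((y i : ℤ) - ξ) ^ t + ∑ i, ((z' i : ℤ) - ξ) ^ t := by
  have key : ∀ j, j ≤ l → ∑ i, (x i : ℤ) ^ j + ∑ i, (z i : ℤ) ^ j
      = ∑ i, (y i : ℤ) ^ j + ∑ i, (z' i : ℤ) ^ j := by
    intro j hj
    rcases j with _ | j
    · simp
    · have := congrFun h ⟨j, by omega⟩
      simpa [pw, Finset.sum_apply] using this
  have expand : ∀ {α : Type _} [Fintype α] (u : α → ℕ), ∑ i, ((u i : ℤ) - ξ) ^ t
      = ∑ j ∈ range (t + 1), (∑ i, (u i : ℤ) ^ j) * ((-ξ) ^ (t - j) * (t.choose j : ℤ)) := by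
    intro α _ u
    simp only [sub_eq_add_neg, add_pow, Finset.sum_mul]
    rw [Finset.sum_comm]
    simp only [mul_assoc]
  have expand' : ∀ (u : κ → ℕ), ∑ i, ((u i : ℤ) - ξ) ^ t
      = ∑ j ∈ range (t + 1), (∑ i, (u i : ℤ) ^ j) * ((-ξ) ^ (t - j) * (t.choose j : ℤ)) := by
    intro u
    simp only [sub_eq_add_neg, add_pow, Finset.sum_mul]
    rw [Finset.sum_comm]
    simp only [mul_assoc]
  rw [expand x, expand y, expand' z, expand' z', ← Finset.sum_add_distrib,
    ← Finset.sum_add_distrib]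
  refine Finset.sum_congr rfl fun j hj => ?_
  have := key j (by have := Finset.mem_range.1 hj; omega)
  rw [← add_mul, ← add_mul, this]

namespace VmStepAux

lemma sub_eq_mul {p c a : ℕ} (h : a % p = c) : (a : ℤ) - c = p * ((a / p : ℕ) : ℤ) := by
  have := Nat.div_add_mod a p
  rw [h] at this
  have h2 : ((p * (a / p) + c : ℕ) : ℤ) = a := by rw [this]
  push_cast at h2 ⊢
  linarith

end VmStepAux

/-- one residue class -/
theorem cnt_class_le (l m Z p c : ℕ) (hp : 0 < p) (A : Finset ℕ) (hA : A ⊆ range Z) :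
    cnt (tup m (A.filter fun a => a % p = c)) (fun z => ∑ i, pw l (z i)) ≤ JJ l m (Z / p + 1) := by
  refine cnt_le_of_inj _ _ _ _ (fun z i => z i / p) ?_ ?_ ?_
  · intro z hz z' hz' e
    funext i
    have h1 := (Finset.mem_filter.1 (mem_tup.1 (Finset.mem_coe.1 hz) i)).2
    have h2 := (Finset.mem_filter.1 (mem_tup.1 (Finset.mem_coe.1 hz') i)).2
    have h3 : z i / p = z' i / p := congrFun e i
    rw [← Nat.div_add_mod (z i) p, ← Nat.div_add_mod (z' i) p, h1, h2, h3]
  · intro z hz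
    refine mem_tup.2 fun i => Finset.mem_range.2 ?_
    have h1 := Finset.mem_range.1 (hA (Finset.mem_filter.1 (mem_tup.1 hz i)).1)
    exact Nat.lt_succ_of_le (Nat.div_le_div_right h1.le)
  · intro z hz z' hz' e
    funext t
    have h := shift_sums (κ := Empty) l z z' Empty.elim Empty.elim (by simpa using e) (c : ℤ)
      (t.val + 1) t.2
    simp only [Finset.univ_eq_empty, Finset.sum_empty, add_zero] at h
    have e1 : ∀ i, (z i : ℤ) - c = p * ((z i / p : ℕ) : ℤ) := fun i =>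
      VmStepAux.sub_eq_mul (Finset.mem_filter.1 (mem_tup.1 hz i)).2
    have e2 : ∀ i, (z' i : ℤ) - c = p * ((z' i / p : ℕ) : ℤ) := fun i =>
      VmStepAux.sub_eq_mul (Finset.mem_filter.1 (mem_tup.1 hz' i)).2
    simp only [e1, e2, mul_pow, ← Finset.mul_sum] at h
    have hp' : (p : ℤ) ^ (t.val + 1) ≠ 0 := pow_ne_zero _ (by exact_mod_cast hp.ne')
    have := mul_left_cancel₀ hp' h
    simpa only [pw, Finset.sum_apply] using this

namespace VmStepAux

/-- tuples with few residue classes -/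
lemma sing_le (l n Z p : ℕ) (hn : 1 ≤ n) (hp : 0 < p) (hl : l < p) :
    cnt ((tup n (range Z)).filter fun x => (univ.image fun i => x i % p).card ≤ l - 1)
      (fun z => ∑ i, pw l (z i))
      ≤ l ^ (2 * n) * (p ^ (2 * l - 2) * JJ l n (Z / p + 1)) := by
  classical
  have h1 := cnt_cover
    ((tup n (range Z)).filter fun x => (univ.image fun i => x i % p).card ≤ l - 1)
    (fun z => ∑ i, pw l (z i)) (powersetCard (l - 1) (range p))
    (fun Ξ => tup n ((range Z).filter fun a => a % p ∈ Ξ)) (by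
      intro x hx
      obtain ⟨hx1, hx2⟩ := Finset.mem_filter.1 hx
      obtain ⟨Ξ, g1, g2, g3⟩ := Finset.exists_subsuperset_card_eq
        (s := univ.image fun i => x i % p) (t := range p) (n := l - 1) (by
          intro a ha
          obtain ⟨i, -, rfl⟩ := Finset.mem_image.1 ha
          exact Finset.mem_range.2 (Nat.mod_lt _ hp)) hx2 (by simp; omega)
      refine ⟨Ξ, Finset.mem_powersetCard.2 ⟨g2, g3⟩, mem_tup.2 fun i => ?_⟩
      exact Finset.mem_filter.2 ⟨mem_tup.1 hx1 i, g1 (Finset.mem_image_of_mem _ (mem_univ i))⟩)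
  have hc : (powersetCard (l - 1) (range p)).card ≤ p ^ (l - 1) := by
    rw [Finset.card_powersetCard, Finset.card_range]
    exact Nat.choose_le_pow _ _
  have h2 : ∀ Ξ ∈ powersetCard (l - 1) (range p),
      cnt (tup n ((range Z).filter fun a => a % p ∈ Ξ)) (fun z => ∑ i, pw l (z i))
        ≤ l ^ (2 * n) * JJ l n (Z / p + 1) := by
    intro Ξ hΞ
    have hΞc : Ξ.card ≤ l := by rw [(Finset.mem_powersetCard.1 hΞ).2]; omega
    have h3 := cnt_split_int_one ((range Z).filter fun a => a % p ∈ Ξ) Ξ (fun a => a % p)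
      (fun a ha => (Finset.mem_filter.1 ha).2) (pw l) n hn
    have h4 : ∑ c ∈ Ξ, cnt (tup n (((range Z).filter fun a => a % p ∈ Ξ).filter
        fun a => a % p = c)) (fun z => ∑ i, pw l (z i)) ≤ Ξ.card * JJ l n (Z / p + 1) := by
      rw [← smul_eq_mul]
      exact Finset.sum_le_card_nsmul _ _ _ fun c _ =>
        cnt_class_le l n Z p c hp _ (Finset.filter_subset _ _)
    calc _ ≤ Ξ.card ^ (2 * n - 1) * (Ξ.card * JJ l n (Z / p + 1)) :=
          h3.trans (Nat.mul_le_mul_left _ h4)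
      _ = Ξ.card ^ (2 * n) * JJ l n (Z / p + 1) := by
          rw [← mul_assoc, ← pow_succ, Nat.sub_add_cancel (by omega)]
      _ ≤ _ := Nat.mul_le_mul_right _ (Nat.pow_le_pow_left hΞc _)
  have h5 := Finset.sum_le_card_nsmul _ _ _ h2
  rw [smul_eq_mul] at h5
  calc _ ≤ _ := h1
    _ ≤ p ^ (l - 1) * (p ^ (l - 1) * (l ^ (2 * n) * JJ l n (Z / p + 1))) :=
        Nat.mul_le_mul hc (h5.trans (Nat.mul_le_mul_right _ hc))
    _ = _ := by
        have : 2 * l - 2 = (l - 1) + (l - 1) := by omega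
        rw [this, pow_add]; ring

/-- the first `l` variables have distinct residues -/
lemma dis_le (l m Z p : ℕ) (hm : 1 ≤ m) (hp : p.Prime) (hl : l < p) (hZ : Z ≤ p ^ l) :
    cnt (Dis l p Z ×ˢ tup m (range Z)) (fun w => (∑ i, pw l (w.1 i)) + ∑ i, pw l (w.2 i))
      ≤ l ^ l * (p ^ (2 * m + l * (l - 1) / 2) * Z ^ l * JJ l m (Z / p + 1)) := by
  classical
  have h1 := cnt_split_int (Dis l p Z) (range Z) (range p) (fun a => a % p)
    (fun a _ => Finset.mem_range.2 (Nat.mod_lt _ hp.pos)) (fun x => ∑ i, pw l (x i)) (pw l) m hm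
  have h2 : ∀ c ∈ range p, cnt (Dis l p Z ×ˢ tup m ((range Z).filter fun a => a % p = c))
      (fun w => (∑ i, pw l (w.1 i)) + ∑ i, pw l (w.2 i))
      ≤ Z ^ l * (l ^ l * p ^ (l * (l - 1) / 2)) * JJ l m (Z / p + 1) := by
    intro c _
    have h3 := cnt_prod_le (Dis l p Z) (tup m ((range Z).filter fun a => a % p = c))
      (fun x => ∑ i, pw l (x i)) (fun z => ∑ i, pw l (z i))
      (fun x y => ∀ t : Fin l, (p : ℤ) ^ (t.val + 1) ∣
        ∑ i, ((x i : ℤ) - c) ^ (t.val + 1) - ∑ i, ((y i : ℤ) - c) ^ (t.val + 1)) (by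
      intro x _ y _ z hz z' hz' e t
      have h := shift_sums l x y z z' e (c : ℤ) (t.val + 1) t.2
      have e1 : ∀ i, (z i : ℤ) - c = p * ((z i / p : ℕ) : ℤ) := fun i =>
        sub_eq_mul (Finset.mem_filter.1 (mem_tup.1 hz i)).2
      have e2 : ∀ i, (z' i : ℤ) - c = p * ((z' i / p : ℕ) : ℤ) := fun i =>
        sub_eq_mul (Finset.mem_filter.1 (mem_tup.1 hz' i)).2
      simp only [e1, e2, mul_pow, ← Finset.mul_sum] at h
      exact ⟨∑ i, ((z' i / p : ℕ) : ℤ) ^ (t.val + 1) - ∑ i, ((z i / p : ℕ) : ℤ) ^ (t.val + 1),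
        by linear_combination h⟩)
    exact h3.trans (Nat.mul_le_mul (linnik l p Z hp hl hZ c)
      (cnt_class_le l m Z p c hp.pos _ (Finset.Subset.refl _)))
  have h5 := Finset.sum_le_card_nsmul _ _ _ h2
  rw [smul_eq_mul, Finset.card_range] at h5
  rw [Finset.card_range] at h1
  calc _ ≤ _ := h1
    _ ≤ p ^ (2 * m - 1) * (p * (Z ^ l * (l ^ l * p ^ (l * (l - 1) / 2)) * JJ l m (Z / p + 1))) :=
        Nat.mul_le_mul_left _ h5
    _ = _ := by
        have : p ^ (2 * m) = p ^ (2 * m - 1) * p := by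
          rw [← pow_succ, Nat.sub_add_cancel (by omega)]
        rw [pow_add, this]; ring

/-- tuples with at least `l` residue classes -/
lemma nonsing_le (l m Z p : ℕ) :
    cnt ((tup (l + m) (range Z)).filter fun x => l ≤ (univ.image fun i => x i % p).card)
      (fun z => ∑ i, pw l (z i))
      ≤ (l + m).factorial ^ 2 * cnt (Dis l p Z ×ˢ tup m (range Z))
        (fun w => (∑ i, pw l (w.1 i)) + ∑ i, pw l (w.2 i)) := by
  classical
  have h1 := cnt_cover
    ((tup (l + m) (range Z)).filter fun x => l ≤ (univ.image fun i => x i % p).card)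
    (fun z => ∑ i, pw l (z i)) (univ : Finset (Equiv.Perm (Fin (l + m))))
    (fun s => (tup (l + m) (range Z)).filter fun x =>
      (fun i => x (s (Fin.castAdd m i))) ∈ Dis l p Z) (by
      intro x hx
      obtain ⟨hx1, hx2⟩ := Finset.mem_filter.1 hx
      obtain ⟨T, hT1, hT2⟩ := Finset.exists_subset_card_eq hx2
      let r : Fin l → ℕ := fun i => (T.equivFinOfCardEq hT2).symm i
      have hr : Function.Injective r := fun i j e =>
        (T.equivFinOfCardEq hT2).symm.injective (Subtype.ext e)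
      have hex : ∀ i, ∃ j, x j % p = r i := fun i => by
        obtain ⟨j, -, hj⟩ := Finset.mem_image.1 (hT1 ((T.equivFinOfCardEq hT2).symm i).2)
        exact ⟨j, hj⟩
      choose g hg using hex
      have hgi : Function.Injective g := fun i j e => hr (by rw [← hg, ← hg, e])
      obtain ⟨s, hs⟩ := Equiv.Perm.exists_extending_pair (Fin.castAdd m) g
        (Fin.castAdd_injective l m) hgi
      refine ⟨s, mem_univ _, Finset.mem_filter.2 ⟨hx1, Finset.mem_filter.2
        ⟨mem_tup.2 fun i => mem_tup.1 hx1 _, fun i j e => hr ?_⟩⟩⟩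
      rw [← hg, ← hg, ← hs, ← hs]
      exact e)
  have h2 : ∀ s ∈ (univ : Finset (Equiv.Perm (Fin (l + m)))),
      cnt ((tup (l + m) (range Z)).filter fun x =>
        (fun i => x (s (Fin.castAdd m i))) ∈ Dis l p Z) (fun z => ∑ i, pw l (z i))
      ≤ cnt (Dis l p Z ×ˢ tup m (range Z))
        (fun w => (∑ i, pw l (w.1 i)) + ∑ i, pw l (w.2 i)) := by
    intro s _
    have hsum : ∀ x : Fin (l + m) → ℕ, ∑ i, pw l (x i)
        = (∑ i, pw l (x (s (Fin.castAdd m i)))) + ∑ i, pw l (x (s (Fin.natAdd l i))) := by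
      intro x
      rw [← Equiv.sum_comp s, Fin.sum_univ_add]
    refine cnt_le_of_inj _ _ _ _
      (fun x => (fun i => x (s (Fin.castAdd m i)), fun i => x (s (Fin.natAdd l i)))) ?_ ?_ ?_
    · intro x _ y _ e
      obtain ⟨e1, e2⟩ := Prod.mk.inj e
      funext j
      obtain ⟨j, rfl⟩ := s.surjective j
      refine Fin.addCases (fun i => ?_) (fun i => ?_) j
      · exact congrFun e1 i
      · exact congrFun e2 i
    · intro x hx
      obtain ⟨hx1, hx2⟩ := Finset.mem_filter.1 hx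
      exact Finset.mem_product.2 ⟨hx2, mem_tup.2 fun i => mem_tup.1 hx1 _⟩
    · intro x _ y _ e
      simpa only [hsum] using e
  have h5 := Finset.sum_le_card_nsmul _ _ _ h2
  rw [smul_eq_mul] at h5
  rw [Finset.card_univ, Fintype.card_perm, Fintype.card_fin] at h1 h5
  calc _ ≤ _ := h1
    _ ≤ _ := Nat.mul_le_mul_left _ h5
    _ = _ := by ring

end VmStepAux

/-- the Linnik–Karatsuba step -/
theorem JJ_step (l m : ℕ) (hl : 1 ≤ l) (hm : 1 ≤ m) : ∃ C : ℕ, ∀ p Z : ℕ, p.Prime → l < p →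
    Z ≤ p ^ l → JJ l (l + m) Z ≤ C * (p ^ (2 * l - 2) * JJ l (l + m) (Z / p + 1)
      + p ^ (2 * m + l * (l - 1) / 2) * Z ^ l * JJ l m (Z / p + 1)) := by
  classical
  refine ⟨2 * (l ^ (2 * (l + m)) + (l + m).factorial ^ 2 * l ^ l), fun p Z hp hlp hZ => ?_⟩
  have h1 := cnt_cover (tup (l + m) (range Z)) (fun z => ∑ i, pw l (z i)) (univ : Finset Bool)
    (fun b => if b then
      (tup (l + m) (range Z)).filter fun x => (univ.image fun i => x i % p).card ≤ l - 1
      else (tup (l + m) (range Z)).filter fun x => l ≤ (univ.image fun i => x i % p).card) (by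
      intro x hx
      by_cases c : l ≤ (univ.image fun i => x i % p).card
      · exact ⟨false, mem_univ _, by simpa using ⟨hx, c⟩⟩
      · exact ⟨true, mem_univ _, by simpa using ⟨hx, by omega⟩⟩)
  rw [Finset.card_univ, Fintype.card_bool, Fintype.sum_bool] at h1
  simp only [if_true, Bool.false_eq_true, if_false] at h1
  have h2 := VmStepAux.sing_le l (l + m) Z p (by omega) hp.pos hlp
  have h3 := (VmStepAux.nonsing_le l m Z p).trans
    (Nat.mul_le_mul_left _ (VmStepAux.dis_le l m Z p hm hp hlp hZ))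
  unfold JJ at h2 h3 ⊢
  generalize cnt (tup (l + m) (range (Z / p + 1))) (fun z => ∑ i, pw l (z i)) = a at h2 ⊢
  generalize cnt (tup m (range (Z / p + 1))) (fun z => ∑ i, pw l (z i)) = b at h3 ⊢
  generalize p ^ (2 * l - 2) * a = A at h2 ⊢
  generalize p ^ (2 * m + l * (l - 1) / 2) * Z ^ l * b = B at h3 ⊢
  generalize l ^ (2 * (l + m)) = u at h2 ⊢
  calc _ ≤ _ := h1
    _ ≤ 2 * (u * A + (l + m).factorial ^ 2 * (l ^ l * B)) :=
        Nat.mul_le_mul_left _ (Nat.add_le_add h2 h3)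
    _ ≤ _ := by
        generalize (l + m).factorial ^ 2 = f
        generalize l ^ l = g
        nlinarith [Nat.zero_le (u * B), Nat.zero_le (f * g * A)]

end

end Pool.Agent.Work.MP_45c923_nt
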