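import Pool.Agent.Work.MP_45c923_nt.Numer
import Pool.Agent.Work.MP_45c923_nt.Iterate

/-!
# An upper bound for Waring's function: `G(k) ≤ k (log k + 4.168)` for all large `k`
-/

set_option autoImplicit false

namespace Pool.Agent.Results.MP_45c923_nt.WaringLogConst

open Pool.Agent.Work.MP_45c923_nt

theorem result : ∃ k₀ : ℕ, ∀ k : ℕ, k₀ ≤ k → ∃ m : ℕ, (m : ℝ) ≤ k * (Real.log k + 4.168) ∧
    ∃ n₀ : ℕ, ∀ n : ℕ, n₀ ≤ n → ∃ x : Fin m → ℕ, n = ∑ i, x i ^ k := by
  have h2 := Real.log_two_lt_d9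
  have h2' := Real.log_two_gt_d9
  have h1 := sig0_le
  have h3 := log_le_aux (x := 7 / 2) (by norm_num) 5 9
  have h4 := log_le_aux (x := 8.8817) (by norm_num) 13 41
  have h5 : Real.log (2 / 7) = -Real.log (7 / 2) := by rw [← Real.log_inv]; norm_num
  have h6 : Real.log 2 ≤ Real.log (7 / 2) := Real.log_le_log (by norm_num) (by norm_num)
  have h7 : Real.log 2 ≤ Real.log (8 / 3) := Real.log_le_log (by norm_num) (by norm_num)
  have h8 : 0.63 ≤ sig0 := by unfold sig0; norm_num at h2' ⊢; linarith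
  have h9 : sig0 - 2 / 7 - Real.log (2 / 7) ≤ 1.951 := by norm_num at *; linarith
  have h10 : 1 ≤ sig0 - 2 / 7 - Real.log (2 / 7) := by norm_num at *; linarith
  refine Filter.eventually_atTop.1 (waring_const (σ := sig0) (δ := 2 / 7) (D := 8.8817)
    (fun ε hε => adm_asymp hε) (by norm_num) (by norm_num) h10 ?_ ?_)
  · refine lt_of_le_of_lt (pow_le_pow_left₀ (by linarith) h9 2) (by norm_num)
  · norm_num at *; linarith

end Pool.Agent.Results.MP_45c923_nt.WaringLogConst
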